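import Mathlib

/-! Shared definitions for the linear radial transformation problem (MP_31392c_an, S02867). -/

set_option autoImplicit false

open Complex Finset

namespace Pool.LR

/-- product of all mutual distances of a finite family -/
noncomputable def vand {n : ℕ} (z : Fin n → ℂ) : ℝ :=
  ∏ i : Fin n, ∏ j ∈ Finset.Ioi i, ‖z i - z j‖

/-- maximal product of mutual distances of `n` points of `K` -/
noncomputable def V (K : Set ℂ) (n : ℕ) : ℝ :=
  ⨆ z : Fin n → {w : ℂ // w ∈ K}, vand (fun i => (z i : ℂ))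

/-- transfinite diameter = logarithmic capacity (literally the expression of the frozen statement) -/
noncomputable def cap (K : Set ℂ) : ℝ :=
  ⨅ n : ℕ, (⨆ z : Fin (n + 2) → {w : ℂ // w ∈ K},
        ∏ i : Fin (n + 2), ∏ j ∈ Finset.Ioi i, ‖((z i : ℂ) - (z j : ℂ))‖)
        ^ ((2 : ℝ) / (((n : ℝ) + 2) * ((n : ℝ) + 1)))

/-- Data of a starlike slit map of the punctured unit disc: `Z w = c/w * ∏ (1 - w η_k)^(2 m_k)`. -/
structure Star where
  n : ℕ
  m : Fin n → ℝ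
  η : Fin n → ℂ
  c : ℂ
  m_pos : ∀ k, 0 < m k
  m_sum : ∑ k, m k = 1
  η_norm : ∀ k, ‖η k‖ = 1
  c_ne : c ≠ 0

namespace Star

variable (D : Star)

/-- `E w = c ∏ (1 - w η_k)^(2 m_k)` -/
noncomputable def E (w : ℂ) : ℂ := D.c * ∏ k, (1 - w * D.η k) ^ ((2 * D.m k : ℝ) : ℂ)

/-- the exterior map, `Z w = E w / w` -/
noncomputable def Z (w : ℂ) : ℂ := D.E w / w

/-- `p = - w Z'/Z`, a convex combination of Herglotz kernels -/
noncomputable def p (w : ℂ) : ℂ := ∑ k, (D.m k : ℂ) * ((1 + w * D.η k) / (1 - w * D.η k))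

/-- the compact star set, image of the unit circle -/
def S : Set ℂ := D.Z '' Metric.sphere (0 : ℂ) 1

/-- `S` is star shaped with respect to `0` -/
def IsStar : Prop := ∀ z ∈ D.S, ∀ t : ℝ, 0 ≤ t → t ≤ 1 → (t : ℂ) * z ∈ D.S

/-- preimage of `M` in the punctured open disc -/
def pre (M : Set ℂ) : Set ℂ := {w : ℂ | ‖w‖ < 1 ∧ w ≠ 0 ∧ D.Z w ∈ M}

end Star

/-- finite slit star: union of the segments `[0, p_j] d_j` -/
def starSet {n : ℕ} (d : Fin n → ℂ) (p : Fin n → ℝ) : Set ℂ :=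
  {z : ℂ | ∃ j : Fin n, ∃ t : ℝ, 0 ≤ t ∧ t ≤ p j ∧ z = (t : ℂ) * d j}

/-- outward radial shift by `t` (for `z ≠ 0`) -/
noncomputable def shift (t : ℝ) (z : ℂ) : ℂ := z + (t : ℂ) * (z / (‖z‖ : ℂ))

/-- `g w = log (1/|w|)` -/
noncomputable def gx (w : ℂ) : ℝ := -Real.log ‖w‖

/-- Green kernel of the unit disc (only used for `w ≠ w'`) -/
noncomputable def gG (w w' : ℂ) : ℝ :=
  Real.log (‖1 - (starRingEnd ℂ) w * w'‖ / ‖w - w'‖)

/-- Poisson type kernel -/
noncomputable def PiK (w w' : ℂ) : ℝ :=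
  (1 - (‖w‖ * ‖w'‖) ^ 2) / ‖1 - (starRingEnd ℂ) w * w'‖ ^ 2

/-- discrete energy of a configuration with charges `1/N` (only used for injective `w`) -/
noncomputable def Jf (N : ℕ) {n : ℕ} (w : Fin n → ℂ) : ℝ :=
  (2 / (N : ℝ)) * ∑ i, gx (w i)
    - (1 / (N : ℝ) ^ 2) * ∑ i, ∑ j ∈ Finset.univ.erase i, gG (w i) (w j)

/-- an admissible configuration in `A` -/
def Conf (A : Set ℂ) {n : ℕ} (w : Fin n → ℂ) : Prop :=
  Function.Injective w ∧ ∀ i, w i ∈ A

/-- a configuration of maximal energy in `A` -/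
def IsOpt (A : Set ℂ) (N : ℕ) {n : ℕ} (w : Fin n → ℂ) : Prop :=
  Conf A w ∧ ∀ (n' : ℕ) (w' : Fin n' → ℂ), Conf A w' → Jf N w' ≤ Jf N w

/-- finite Blaschke product with zeros `w i` -/
noncomputable def bl {n : ℕ} (w : Fin n → ℂ) (x : ℂ) : ℂ :=
  ∏ i, ((x - w i) / (1 - (starRingEnd ℂ) (w i) * x))

end Pool.LR
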