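import Mathlib
import Pool.Agent.Helper50.LR.Defs

set_option autoImplicit false

open Complex Finset Filter Topology

namespace Pool.LR


/-! ### TARGETS (prove these; put auxiliary lemmas just before them) -/

namespace Star
variable (D : Star)

theorem j8317_norm (w : ℂ) (k : Fin D.n) : ‖w * D.η k‖ = ‖w‖ := by
  rw [norm_mul, D.η_norm, mul_one]

theorem j8317_re (w : ℂ) (k : Fin D.n) (hw : ‖w‖ ≤ 1) : 0 ≤ (1 - w * D.η k).re := by
  have h1 := Complex.re_le_norm (w * D.η k)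
  rw [D.j8317_norm] at h1
  rw [Complex.sub_re, Complex.one_re]
  linarith

theorem j8317_re' (w : ℂ) (k : Fin D.n) (hw : ‖w‖ < 1) : 0 < (1 - w * D.η k).re := by
  have h1 := Complex.re_le_norm (w * D.η k)
  rw [D.j8317_norm] at h1
  rw [Complex.sub_re, Complex.one_re]
  linarith

theorem j8317_slit (w : ℂ) (k : Fin D.n) (hw : ‖w‖ < 1) : (1 - w * D.η k) ∈ Complex.slitPlane :=
  Or.inl (D.j8317_re' w k hw)

theorem j8317_ne (w : ℂ) (k : Fin D.n) (hw : ‖w‖ < 1) : (1 - w * D.η k) ≠ 0 :=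
  Complex.slitPlane_ne_zero (D.j8317_slit w k hw)

theorem j8317_fac (w : ℂ) (k : Fin D.n) (hw : ‖w‖ < 1) :
    HasDerivAt (fun w : ℂ => (1 - w * D.η k) ^ ((2 * D.m k : ℝ) : ℂ))
      ((1 - w * D.η k) ^ ((2 * D.m k : ℝ) : ℂ) *
        (-(2 * (D.m k : ℂ) * D.η k / (1 - w * D.η k)))) w := by
  have h1 : HasDerivAt (fun w : ℂ => 1 - w * D.η k) (-(1 * D.η k)) w := by
    exact ((hasDerivAt_id w).mul_const (D.η k)).const_sub 1
  have h2 := h1.cpow_const (c := ((2 * D.m k : ℝ) : ℂ)) (D.j8317_slit w k hw)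
  refine HasDerivAt.congr_deriv h2 ?_
  have hne := D.j8317_ne w k hw
  rw [Complex.cpow_sub _ _ hne, Complex.cpow_one]
  push_cast
  field_simp

theorem j8317_prod {ι : Type} [DecidableEq ι] (u : Finset ι) (f : ι → ℂ → ℂ) (d : ι → ℂ) (x : ℂ)
    (hf : ∀ i ∈ u, HasDerivAt (f i) (f i x * d i) x) :
    HasDerivAt (fun y => ∏ i ∈ u, f i y) ((∏ i ∈ u, f i x) * ∑ i ∈ u, d i) x := by
  have h := HasDerivAt.fun_finsetProd hf
  refine HasDerivAt.congr_deriv h ?_
  rw [Finset.mul_sum]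
  refine Finset.sum_congr rfl fun i hi => ?_
  rw [smul_eq_mul, ← mul_assoc, mul_comm (∏ j ∈ u.erase i, f j x), Finset.mul_prod_erase u (fun j => f j x) hi]

theorem j8317_E' (w : ℂ) (hw : ‖w‖ < 1) :
    HasDerivAt D.E (D.E w * ∑ k, (-(2 * (D.m k : ℂ) * D.η k / (1 - w * D.η k)))) w := by
  have h1 := j8317_prod (Finset.univ : Finset (Fin D.n))
    (fun k w => (1 - w * D.η k) ^ ((2 * D.m k : ℝ) : ℂ))
    (fun k => (-(2 * (D.m k : ℂ) * D.η k / (1 - w * D.η k)))) w
    (fun k _ => D.j8317_fac w k hw)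
  have h2 := h1.const_mul D.c
  have h3 : D.E = fun w : ℂ => D.c * ∏ k, (1 - w * D.η k) ^ ((2 * D.m k : ℝ) : ℂ) := rfl
  rw [h3]
  refine HasDerivAt.congr_deriv h2 ?_
  simp only
  ring

theorem continuousOn_E : ContinuousOn D.E (Metric.closedBall 0 1) := by
  have h3 : D.E = fun w : ℂ => D.c * ∏ k, (1 - w * D.η k) ^ ((2 * D.m k : ℝ) : ℂ) := rfl
  rw [h3]
  refine continuousOn_const.mul (continuousOn_finsetProd _ fun k _ => ?_)
  intro w hw
  rw [mem_closedBall_zero_iff] at hw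
  have h1 : ContinuousAt (fun x : ℂ => x ^ ((2 * D.m k : ℝ) : ℂ)) (1 - w * D.η k) := by
    apply Complex.continuousAt_cpow_const_of_re_pos (Or.inl (D.j8317_re w k hw))
    rw [Complex.ofReal_re]
    have := D.m_pos k
    linarith
  have h2 : ContinuousAt (fun w : ℂ => 1 - w * D.η k) w := by fun_prop
  exact (ContinuousAt.comp (f := fun w : ℂ => 1 - w * D.η k)
    (g := fun x : ℂ => x ^ ((2 * D.m k : ℝ) : ℂ)) h1 h2).continuousWithinAt

theorem differentiableOn_E : DifferentiableOn ℂ D.E (Metric.ball 0 1) := by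
  intro w hw
  rw [mem_ball_zero_iff] at hw
  exact (D.j8317_E' w hw).differentiableAt.differentiableWithinAt

theorem E_ne_zero {w : ℂ} (hw : ‖w‖ < 1) : D.E w ≠ 0 := by
  refine mul_ne_zero D.c_ne (Finset.prod_ne_zero_iff.2 fun k _ => ?_)
  intro h
  rw [Complex.cpow_eq_zero_iff] at h
  exact D.j8317_ne w k hw h.1

theorem E_zero : D.E 0 = D.c := by
  simp only [E, zero_mul, sub_zero, Complex.one_cpow, Finset.prod_const_one, mul_one]

theorem norm_E {w : ℂ} (hw : ‖w‖ < 1) : ‖D.E w‖ = ‖D.c‖ * ∏ k, ‖1 - w * D.η k‖ ^ (2 * D.m k) := by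
  rw [E, norm_mul, norm_prod]
  congr 1
  refine Finset.prod_congr rfl fun k _ => ?_
  rw [Complex.norm_cpow_real]

theorem j8317_msum : ∑ k, (D.m k : ℂ) = 1 := by
  have := D.m_sum
  rw [← Complex.ofReal_sum, this, Complex.ofReal_one]

theorem j8317_p {w : ℂ} (hw : ‖w‖ < 1) :
    D.p w = 1 - w * ∑ k, (-(2 * (D.m k : ℂ) * D.η k / (1 - w * D.η k))) := by
  have h : (1 : ℂ) - w * ∑ k, (-(2 * (D.m k : ℂ) * D.η k / (1 - w * D.η k))) =
      ∑ k, (D.m k : ℂ) - w * ∑ k, (-(2 * (D.m k : ℂ) * D.η k / (1 - w * D.η k))) := by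
    rw [D.j8317_msum]
  rw [h, p, Finset.mul_sum, ← Finset.sum_sub_distrib]
  refine Finset.sum_congr rfl fun k _ => ?_
  have hne := D.j8317_ne w k hw
  field_simp
  ring

theorem hasDerivAt_Z {w : ℂ} (hw : ‖w‖ < 1) (h0 : w ≠ 0) :
    HasDerivAt D.Z (-(D.Z w * D.p w / w)) w := by
  have h1 := (D.j8317_E' w hw).div (hasDerivAt_id w) h0
  have h3 : D.Z = fun w : ℂ => D.E w / w := rfl
  rw [h3]
  refine HasDerivAt.congr_deriv (f := fun w : ℂ => D.E w / w) h1 ?_
  rw [D.j8317_p hw]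
  simp only [id]
  field_simp
  ring

theorem p_zero : D.p 0 = 1 := by
  rw [← D.j8317_msum]
  simp [p]

theorem re_p_pos {w : ℂ} (hw : ‖w‖ < 1) : 0 < (D.p w).re := by
  have hn : (Finset.univ : Finset (Fin D.n)).Nonempty := by
    by_contra h
    rw [Finset.not_nonempty_iff_eq_empty] at h
    have := D.m_sum
    rw [h, Finset.sum_empty] at this
    exact zero_ne_one this
  rw [p, Complex.re_sum]
  refine Finset.sum_pos (fun k _ => ?_) hn
  rw [Complex.re_ofReal_mul]
  refine mul_pos (D.m_pos k) ?_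
  have hne := D.j8317_ne w k hw
  have hN := D.j8317_norm w k
  generalize hx : w * D.η k = x at hne hN
  have h1 : ((1 + x) / (1 - x)).re = (1 - ‖x‖ ^ 2) / Complex.normSq (1 - x) := by
    rw [Complex.div_re, ← Complex.normSq_eq_norm_sq, Complex.normSq_apply x]
    simp only [Complex.add_re, Complex.sub_re, Complex.one_re, Complex.add_im, Complex.sub_im,
      Complex.one_im]
    ring
  rw [h1]
  refine div_pos ?_ (Complex.normSq_pos.2 hne)
  rw [hN]
  have := norm_nonneg w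
  nlinarith

theorem zero_mem_S : (0 : ℂ) ∈ D.S := by
  have hn : (Finset.univ : Finset (Fin D.n)).Nonempty := by
    by_contra h
    rw [Finset.not_nonempty_iff_eq_empty] at h
    have := D.m_sum
    rw [h, Finset.sum_empty] at this
    exact zero_ne_one this
  obtain ⟨k, hk⟩ := hn
  have hη : D.η k ≠ 0 := by
    intro h
    have := D.η_norm k
    rw [h, norm_zero] at this
    exact zero_ne_one this
  refine ⟨(D.η k)⁻¹, ?_, ?_⟩
  · rw [mem_sphere_zero_iff_norm, norm_inv, D.η_norm, inv_one]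
  · have h1 : D.E (D.η k)⁻¹ = 0 := by
      rw [E, Finset.prod_eq_zero hk, mul_zero]
      rw [inv_mul_cancel₀ hη, sub_self, Complex.cpow_eq_zero_iff]
      refine ⟨rfl, ?_⟩
      have := D.m_pos k
      rw [Ne, Complex.ofReal_eq_zero]
      linarith
    rw [Z, h1, zero_div]

theorem isCompact_S : IsCompact D.S := by
  refine (isCompact_sphere (0 : ℂ) 1).image_of_continuousOn ?_
  have h3 : D.Z = fun w : ℂ => D.E w / w := rfl
  rw [h3]
  refine (D.continuousOn_E.mono Metric.sphere_subset_closedBall).div continuousOn_id ?_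
  intro w hw
  rw [mem_sphere_zero_iff_norm] at hw
  intro h
  have h' : w = 0 := h
  rw [h', norm_zero] at hw
  exact zero_ne_one hw

end Star



end Pool.LR
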