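import Mathlib
import Pool.Agent.Helper50.LR.Defs
import Pool.Agent.Helper50.LR.Ba

set_option autoImplicit false

open Complex Finset Filter Topology

namespace Pool.LR


/-! ### TARGETS (prove these; put auxiliary lemmas just before them) -/

namespace Star
variable (D : Star)

/-- a logarithm of `Z (exp (-a))` -/
noncomputable def LL (a : ℂ) : ℂ :=
  a + Complex.log D.c + ∑ k, ((2 * D.m k : ℝ) : ℂ) * Complex.log (1 - Complex.exp (-a) * D.η k)

theorem lrb_norm_exp {a : ℂ} (ha : 0 < a.re) : ‖Complex.exp (-a)‖ < 1 := by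
  rw [Complex.norm_exp, Complex.neg_re]
  rw [← Real.exp_zero]
  exact Real.exp_lt_exp.2 (by linarith)

theorem lrb_re_pos {a : ℂ} (ha : 0 < a.re) (k : Fin D.n) :
    0 < (1 - Complex.exp (-a) * D.η k).re := by
  have h1 : ‖Complex.exp (-a) * D.η k‖ < 1 := by
    rw [norm_mul, D.η_norm, mul_one]
    exact lrb_norm_exp ha
  have h2 := Complex.re_le_norm (Complex.exp (-a) * D.η k)
  rw [Complex.sub_re, Complex.one_re]
  linarith

theorem lrb_ne {a : ℂ} (ha : 0 < a.re) (k : Fin D.n) : 1 - Complex.exp (-a) * D.η k ≠ 0 := by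
  intro h
  have := D.lrb_re_pos ha k
  rw [h, Complex.zero_re] at this
  exact lt_irrefl _ this

theorem lrb_exp_LL {a : ℂ} (ha : 0 < a.re) : Complex.exp (D.LL a) = D.Z (Complex.exp (-a)) := by
  unfold LL Z E
  rw [Complex.exp_add, Complex.exp_add, Complex.exp_log D.c_ne, Complex.exp_sum]
  have h1 : ∏ k, Complex.exp (((2 * D.m k : ℝ) : ℂ) * Complex.log (1 - Complex.exp (-a) * D.η k)) =
      ∏ k, (1 - Complex.exp (-a) * D.η k) ^ ((2 * D.m k : ℝ) : ℂ) := by
    refine Finset.prod_congr rfl (fun k _ => ?_)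
    rw [Complex.cpow_def_of_ne_zero (D.lrb_ne ha k), mul_comm]
  rw [h1, Complex.exp_neg, div_inv_eq_mul]
  ring

theorem lrb_LL_deriv {a : ℂ} (ha : 0 < a.re) : HasDerivAt D.LL (D.p (Complex.exp (-a))) a := by
  have hterm : ∀ k ∈ (Finset.univ : Finset (Fin D.n)), HasDerivAt
      (fun a : ℂ => ((2 * D.m k : ℝ) : ℂ) * Complex.log (1 - Complex.exp (-a) * D.η k))
      (((2 * D.m k : ℝ) : ℂ) * ((Complex.exp (-a) * D.η k) / (1 - Complex.exp (-a) * D.η k))) a := by
    intro k _
    have h1 : HasDerivAt (fun a : ℂ => 1 - Complex.exp (-a) * D.η k)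
        (Complex.exp (-a) * D.η k) a := by
      have h2 : HasDerivAt (fun a : ℂ => Complex.exp (-a)) (Complex.exp (-a) * (-1)) a :=
        (hasDerivAt_id a).neg.cexp
      have h3 := (h2.mul_const (D.η k)).const_sub 1
      have e : Complex.exp (-a) * D.η k = -(Complex.exp (-a) * (-1) * D.η k) := by ring
      rw [e]
      exact h3
    exact (h1.clog (Or.inl (D.lrb_re_pos ha k))).const_mul _
  have hs := HasDerivAt.fun_sum hterm
  have h := ((hasDerivAt_id a).add_const (Complex.log D.c)).add hs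
  have hd : (1 : ℂ) + ∑ k, ((2 * D.m k : ℝ) : ℂ) *
      ((Complex.exp (-a) * D.η k) / (1 - Complex.exp (-a) * D.η k)) = D.p (Complex.exp (-a)) := by
    unfold p
    have h1 : ∑ k, (D.m k : ℂ) = 1 := by
      rw [← Complex.ofReal_sum, D.m_sum, Complex.ofReal_one]
    have he : ∀ k ∈ (Finset.univ : Finset (Fin D.n)),
        (D.m k : ℂ) * ((1 + Complex.exp (-a) * D.η k) / (1 - Complex.exp (-a) * D.η k)) =
        (D.m k : ℂ) + ((2 * D.m k : ℝ) : ℂ) *
          ((Complex.exp (-a) * D.η k) / (1 - Complex.exp (-a) * D.η k)) := by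
      intro k _
      have hne' := D.lrb_ne ha k
      generalize Complex.exp (-a) * D.η k = u at hne' ⊢
      push_cast
      field_simp
      ring
    rw [Finset.sum_congr rfl he, Finset.sum_add_distrib, h1]
  rw [← hd]
  exact h

theorem lrb_LL_inj {a b : ℂ} (ha : 0 < a.re) (hb : 0 < b.re) (h : D.LL a = D.LL b) : a = b := by
  by_contra hab
  have hne : a - b ≠ 0 := sub_ne_zero.2 hab
  have hre : ∀ t : ℝ, 0 ≤ t → t ≤ 1 → 0 < (b + (t : ℂ) * (a - b)).re := by
    intro t ht0 ht1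
    rw [Complex.add_re, Complex.re_ofReal_mul, Complex.sub_re]
    have e : b.re + t * (a.re - b.re) = (1 - t) * b.re + t * a.re := by ring
    rw [e]
    rcases eq_or_lt_of_le ht0 with h0 | h0
    · rw [← h0]; linarith
    · have h1 : 0 < t * a.re := mul_pos h0 ha
      have h2 : 0 ≤ (1 - t) * b.re := mul_nonneg (by linarith) hb.le
      linarith
  have hder : ∀ t : ℝ, 0 ≤ t → t ≤ 1 →
      HasDerivAt (fun s : ℝ => (D.LL (b + (s : ℂ) * (a - b)) / (a - b)).re)
        (D.p (Complex.exp (-(b + (t : ℂ) * (a - b))))).re t := by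
    intro t ht0 ht1
    have h1 := D.lrb_LL_deriv (hre t ht0 ht1)
    have h2 : HasDerivAt (fun z : ℂ => b + z * (a - b)) (a - b) (t : ℂ) := by
      have := ((hasDerivAt_id (t : ℂ)).mul_const (a - b)).const_add b
      simpa using this
    have h3 : HasDerivAt (fun z : ℂ => D.LL (b + z * (a - b)))
        (D.p (Complex.exp (-(b + (t : ℂ) * (a - b)))) * (a - b)) (t : ℂ) := by
      have h1' : HasDerivAt D.LL (D.p (Complex.exp (-(b + (t : ℂ) * (a - b)))))
        ((fun z : ℂ => b + z * (a - b)) (t : ℂ)) := h1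
      exact h1'.comp (t : ℂ) h2
    have h4 := h3.div_const (a - b)
    rw [mul_div_cancel_right₀ _ hne] at h4
    exact h4.real_of_complex
  obtain ⟨t, ht, hslope⟩ := exists_hasDerivAt_eq_slope
    (fun s : ℝ => (D.LL (b + (s : ℂ) * (a - b)) / (a - b)).re)
    (fun t : ℝ => (D.p (Complex.exp (-(b + (t : ℂ) * (a - b))))).re) zero_lt_one
    (fun t ht => (hder t ht.1 ht.2).continuousAt.continuousWithinAt)
    (fun t ht => hder t ht.1.le ht.2.le)
  have hpos := D.re_p_pos (lrb_norm_exp (hre t ht.1.le ht.2.le))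
  rw [hslope] at hpos
  simp only [Complex.ofReal_one, Complex.ofReal_zero, one_mul, zero_mul, add_zero] at hpos
  rw [add_sub_cancel, h, sub_self, zero_div] at hpos
  exact lt_irrefl _ hpos

theorem Z_injOn : Set.InjOn D.Z {w : ℂ | ‖w‖ < 1 ∧ w ≠ 0} := by
  rintro w₁ ⟨h1, h1'⟩ w₂ ⟨h2, h2'⟩ hZ
  have hre : ∀ w : ℂ, ‖w‖ < 1 → w ≠ 0 → 0 < (-Complex.log w).re := by
    intro w hw hw0
    rw [Complex.neg_re, Complex.log_re]
    have := Real.log_neg (norm_pos_iff.2 hw0) hw
    linarith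
  have hexp : ∀ w : ℂ, w ≠ 0 → Complex.exp (-(-Complex.log w)) = w := by
    intro w hw0
    rw [neg_neg, Complex.exp_log hw0]
  have e1 := D.lrb_exp_LL (hre w₁ h1 h1')
  have e2 := D.lrb_exp_LL (hre w₂ h2 h2')
  rw [hexp w₁ h1'] at e1
  rw [hexp w₂ h2'] at e2
  rw [← hZ, ← e1] at e2
  obtain ⟨n, hn⟩ := Complex.exp_eq_exp_iff_exists_int.1 e2.symm
  have hper : Complex.exp (-(-Complex.log w₂ + n * (2 * Real.pi * Complex.I))) =
      Complex.exp (-(-Complex.log w₂)) := by
    rw [Complex.exp_eq_exp_iff_exists_int]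
    exact ⟨-n, by push_cast; ring⟩
  have hshift : D.LL (-Complex.log w₂ + n * (2 * Real.pi * Complex.I)) =
      D.LL (-Complex.log w₂) + n * (2 * Real.pi * Complex.I) := by
    unfold LL
    rw [hper]
    ring
  rw [← hshift] at hn
  have hre2 : 0 < (-Complex.log w₂ + n * (2 * Real.pi * Complex.I)).re := by
    have : (-Complex.log w₂ + n * (2 * Real.pi * Complex.I)).re = (-Complex.log w₂).re := by
      rw [Complex.add_re]
      simp
    rw [this]
    exact hre w₂ h2 h2'
  have hfin := D.lrb_LL_inj (hre w₁ h1 h1') hre2 hn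
  rw [← hexp w₁ h1', hfin, hper, hexp w₂ h2']

end Star



end Pool.LR
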