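import Mathlib
import Pool.Agent.Helper50.LR.Defs
import Pool.Agent.Helper50.LR.Ba
import Pool.Agent.Helper50.LR.Bb

set_option autoImplicit false

open Complex Finset Filter Topology

namespace Pool.LR


/-! ### TARGETS (prove these; put auxiliary lemmas just before them) -/

namespace Star
variable (D : Star)

theorem Z_ne_zero_aux {w : ℂ} (hw : ‖w‖ < 1) (h0 : w ≠ 0) : D.Z w ≠ 0 := by
  unfold Z
  exact div_ne_zero (D.E_ne_zero hw) h0

theorem isOpen_P_aux : IsOpen {w : ℂ | ‖w‖ < 1 ∧ w ≠ 0} := by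
  exact (isOpen_lt continuous_norm continuous_const).inter isOpen_ne

theorem Z_deriv_ne_aux {w : ℂ} (hw : ‖w‖ < 1) (h0 : w ≠ 0) : -(D.Z w * D.p w / w) ≠ 0 := by
  have hp : D.p w ≠ 0 := by
    intro h
    have := D.re_p_pos hw
    rw [h] at this
    simp at this
  exact neg_ne_zero.mpr (div_ne_zero (mul_ne_zero (D.Z_ne_zero_aux hw h0) hp) h0)

theorem map_nhds_Z_aux {w : ℂ} (hw : ‖w‖ < 1) (h0 : w ≠ 0) : Filter.map D.Z (𝓝 w) = 𝓝 (D.Z w) := by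
  have hdiff : DifferentiableOn ℂ D.Z {w : ℂ | ‖w‖ < 1 ∧ w ≠ 0} := fun x hx =>
    (D.hasDerivAt_Z hx.1 hx.2).differentiableAt.differentiableWithinAt
  have han : AnalyticAt ℂ D.Z w := hdiff.analyticAt (isOpen_P_aux.mem_nhds ⟨hw, h0⟩)
  have hs : HasStrictDerivAt D.Z (deriv D.Z w) w := han.hasStrictDerivAt
  rw [(D.hasDerivAt_Z hw h0).deriv] at hs
  exact hs.map_nhds_eq (D.Z_deriv_ne_aux hw h0)

theorem continuousOn_Z_aux : ContinuousOn D.Z (Metric.closedBall 0 1 \ {0}) := by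
  unfold Z
  exact (D.continuousOn_E.mono Set.sdiff_subset).div continuousOn_id (fun x hx => hx.2)

theorem key_aux {u : ℕ → ℂ} (hu : ∀ n, ‖u n‖ ≤ 1 ∧ u n ≠ 0) {y : ℂ}
    (hy : Tendsto (fun n => D.Z (u n)) atTop (𝓝 y)) (hyS : y ∉ D.S) :
    ∃ w : ℂ, ‖w‖ < 1 ∧ w ≠ 0 ∧ D.Z w = y ∧ ∃ φ : ℕ → ℕ, StrictMono φ ∧
      Tendsto (u ∘ φ) atTop (𝓝 w) := by
  obtain ⟨w, hw, φ, hφ, hlim⟩ := (isCompact_closedBall (0 : ℂ) 1).tendsto_subseq
    (x := u) (fun n => by simpa using (hu n).1)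
  have hwn : ‖w‖ ≤ 1 := by simpa using hw
  have hmem : ∀ n, (u ∘ φ) n ∈ Metric.closedBall (0 : ℂ) 1 := fun n => by simpa using (hu (φ n)).1
  have hy' : Tendsto (fun n => D.Z (u (φ n))) atTop (𝓝 y) := hy.comp hφ.tendsto_atTop
  have hw0 : w ≠ 0 := by
    intro h
    have hE : Tendsto (fun n => D.E ((u ∘ φ) n)) atTop (𝓝 (D.E w)) := by
      have := D.continuousOn_E w hw
      exact this.tendsto.comp (tendsto_nhdsWithin_iff.mpr ⟨hlim, Eventually.of_forall hmem⟩)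
    have hE2 : Tendsto (fun n => D.Z (u (φ n)) * (u ∘ φ) n) atTop (𝓝 (y * w)) := hy'.mul hlim
    have heq : (fun n => D.Z (u (φ n)) * (u ∘ φ) n) = fun n => D.E ((u ∘ φ) n) := by
      funext n
      unfold Z
      simp only [Function.comp]
      rw [div_mul_cancel₀ _ (hu (φ n)).2]
    rw [heq] at hE2
    have := tendsto_nhds_unique hE hE2
    rw [h, mul_zero, D.E_zero] at this
    exact D.c_ne this
  have hZ : Tendsto (fun n => D.Z (u (φ n))) atTop (𝓝 (D.Z w)) := by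
    have := D.continuousOn_Z_aux w ⟨hw, hw0⟩
    exact this.tendsto.comp (tendsto_nhdsWithin_iff.mpr
      ⟨hlim, Eventually.of_forall (fun n => ⟨hmem n, (hu (φ n)).2⟩)⟩)
  have hZy : D.Z w = y := tendsto_nhds_unique hZ hy'
  refine ⟨w, ?_, hw0, hZy, φ, hφ, hlim⟩
  rcases lt_or_eq_of_le hwn with h | h
  · exact h
  · exfalso
    apply hyS
    rw [← hZy]
    exact ⟨w, by simpa using h, rfl⟩

theorem Z_notMem_S (hD : D.IsStar) {w : ℂ} (hw : ‖w‖ < 1) (h0 : w ≠ 0) : D.Z w ∉ D.S := by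
  rintro ⟨ξ, hξ, hZ⟩
  have hξ1 : ‖ξ‖ = 1 := by simpa using hξ
  have hξ0 : ξ ≠ 0 := by
    intro h
    rw [h] at hξ1
    simp at hξ1
  have hne : w ≠ ξ := by
    intro h
    rw [h] at hw
    linarith
  obtain ⟨U, V, hU, hV, hwU, hξV, hdisj⟩ := t2_separation hne
  -- image of U ∩ P is nbhd
  have hnb : D.Z '' (U ∩ {w : ℂ | ‖w‖ < 1 ∧ w ≠ 0}) ∈ 𝓝 (D.Z w) := by
    rw [← D.map_nhds_Z_aux hw h0]
    exact image_mem_map (((hU.inter isOpen_P_aux).mem_nhds ⟨hwU, hw, h0⟩))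
  -- the path s ↦ s ξ
  let u : ℕ → ℂ := fun n => ((1 - 1 / ((n : ℝ) + 2) : ℝ) : ℂ) * ξ
  have hs : ∀ n : ℕ, 0 < (1 - 1 / ((n : ℝ) + 2) : ℝ) ∧ (1 - 1 / ((n : ℝ) + 2) : ℝ) < 1 := by
    intro n
    have h2 : (0 : ℝ) < (n : ℝ) + 2 := by positivity
    constructor
    · rw [sub_pos, div_lt_one h2]
      have : (0 : ℝ) ≤ n := Nat.cast_nonneg n
      linarith
    · have : 0 < 1 / ((n : ℝ) + 2) := by positivity
      linarith
  have huP : ∀ n, ‖u n‖ < 1 ∧ u n ≠ 0 := by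
    intro n
    constructor
    · show ‖((1 - 1 / ((n : ℝ) + 2) : ℝ) : ℂ) * ξ‖ < 1
      rw [norm_mul, hξ1, mul_one, Complex.norm_real, Real.norm_of_nonneg (hs n).1.le]
      exact (hs n).2
    · exact mul_ne_zero (by exact_mod_cast (hs n).1.ne') hξ0
  have hulim : Tendsto u atTop (𝓝 ξ) := by
    have h1 : Tendsto (fun n : ℕ => (1 - 1 / ((n : ℝ) + 2) : ℝ)) atTop (𝓝 (1 - 0)) := by
      refine Tendsto.sub tendsto_const_nhds ?_
      refine Tendsto.div_atTop tendsto_const_nhds ?_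
      exact tendsto_atTop_add_const_right _ _ tendsto_natCast_atTop_atTop
    have h2 : Tendsto (fun n : ℕ => ((1 - 1 / ((n : ℝ) + 2) : ℝ) : ℂ)) atTop (𝓝 (((1 - 0 : ℝ)) : ℂ)) :=
      (Complex.continuous_ofReal.tendsto _).comp h1
    have h3 := h2.mul (tendsto_const_nhds (x := ξ))
    rw [sub_zero, Complex.ofReal_one, one_mul] at h3
    exact h3
  have hZlim : Tendsto (fun n => D.Z (u n)) atTop (𝓝 (D.Z w)) := by
    rw [← hZ]
    have := D.continuousOn_Z_aux ξ ⟨by simpa using hξ1.le, hξ0⟩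
    exact this.tendsto.comp (tendsto_nhdsWithin_iff.mpr
      ⟨hulim, Eventually.of_forall (fun n => ⟨by simpa using (huP n).1.le, (huP n).2⟩)⟩)
  have e1 := hZlim.eventually hnb
  have e2 := hulim.eventually (hV.mem_nhds hξV)
  obtain ⟨n, hn1, hn2⟩ := (e1.and e2).exists
  obtain ⟨v, ⟨hvU, hvP⟩, hv⟩ := hn1
  have : v = u n := D.Z_injOn hvP (huP n) hv
  rw [this] at hvU
  exact Set.disjoint_left.mp hdisj hvU hn2

theorem Z_surj (hD : D.IsStar) {z : ℂ} (hz : z ∉ D.S) : ∃ w : ℂ, ‖w‖ < 1 ∧ w ≠ 0 ∧ D.Z w = z := by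
  have hz0 : z ≠ 0 := by
    intro h
    rw [h] at hz
    exact hz D.zero_mem_S
  have htz : ∀ t : ℝ, 1 ≤ t → (t : ℂ) * z ∉ D.S := by
    intro t ht hmem
    have ht0 : 0 < t := by linarith
    have := hD _ hmem (t⁻¹) (by positivity) (inv_le_one_of_one_le₀ ht)
    apply hz
    have he : ((t⁻¹ : ℝ) : ℂ) * ((t : ℂ) * z) = z := by
      rw [← mul_assoc, ← Complex.ofReal_mul, inv_mul_cancel₀ ht0.ne']
      simp
    rwa [he] at this
  let R : Set ℂ := D.Z '' {w : ℂ | ‖w‖ < 1 ∧ w ≠ 0}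
  let s : Set ℂ := (fun t : ℝ => (t : ℂ) * z) '' Set.Ici 1
  have hs : IsPreconnected s := by
    apply isPreconnected_Ici.image
    fun_prop
  have hRo : IsOpen R := by
    rw [isOpen_iff_mem_nhds]
    rintro _ ⟨w, hw, rfl⟩
    rw [← D.map_nhds_Z_aux hw.1 hw.2]
    exact image_mem_map (isOpen_P_aux.mem_nhds hw)
  have hcl : closure R ∩ s ⊆ R := by
    rintro y ⟨hyR, ⟨t, ht, rfl⟩⟩
    obtain ⟨x, hx, hxlim⟩ := mem_closure_iff_seq_limit.mp hyR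
    choose u huP huZ using hx
    have hlim : Tendsto (fun n => D.Z (u n)) atTop (𝓝 ((t : ℂ) * z)) := by
      have : (fun n => D.Z (u n)) = x := by
        funext n
        exact huZ n
      rw [this]
      exact hxlim
    obtain ⟨w, hw, hw0, hZw, -⟩ := D.key_aux (fun n => ⟨(huP n).1.le, (huP n).2⟩) hlim (htz t ht)
    exact ⟨w, ⟨hw, hw0⟩, hZw⟩
  have hne : (s ∩ R).Nonempty := by
    -- G w = w / E w
    have hb : (Metric.ball (0 : ℂ) 1) ∈ 𝓝 (0 : ℂ) := Metric.ball_mem_nhds _ one_pos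
    have hEan : AnalyticAt ℂ D.E 0 := D.differentiableOn_E.analyticAt hb
    have hE0 : D.E 0 ≠ 0 := D.E_ne_zero (by simp)
    have hGan : AnalyticAt ℂ (fun w => w / D.E w) 0 := analyticAt_id.div hEan hE0
    have hGs := hGan.hasStrictDerivAt
    have hGd : HasDerivAt (fun w => w / D.E w) ((1 * D.E 0 - 0 * deriv D.E 0) / D.E 0 ^ 2) 0 :=
      (hasDerivAt_id (0 : ℂ)).div hEan.differentiableAt.hasDerivAt hE0
    rw [hGd.deriv] at hGs
    have hne0 : ((1 * D.E 0 - 0 * deriv D.E 0) / D.E 0 ^ 2) ≠ 0 := by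
      rw [one_mul, zero_mul, sub_zero]
      exact div_ne_zero hE0 (pow_ne_zero 2 hE0)
    have hmap := hGs.map_nhds_eq hne0
    simp only [zero_div] at hmap
    have hnb : (fun w => w / D.E w) '' (Metric.ball (0 : ℂ) 1) ∈ 𝓝 (0 : ℂ) := by
      rw [← hmap]
      exact image_mem_map hb
    have hlim : Tendsto (fun t : ℝ => ((t : ℂ) * z)⁻¹) atTop (𝓝 0) := by
      apply tendsto_inv₀_cobounded.comp
      rw [← tendsto_norm_atTop_iff_cobounded]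
      have : (fun t : ℝ => ‖(t : ℂ) * z‖) = fun t : ℝ => |t| * ‖z‖ := by
        funext t
        rw [norm_mul, Complex.norm_real, Real.norm_eq_abs]
      rw [this]
      exact tendsto_abs_atTop_atTop.atTop_mul_const (norm_pos_iff.mpr hz0)
    obtain ⟨t, ht1, ht2⟩ := ((hlim.eventually hnb).and (eventually_ge_atTop 1)).exists
    obtain ⟨w, hwb, hw⟩ := ht1
    have hwn : ‖w‖ < 1 := by simpa using hwb
    have ht0 : (t : ℂ) ≠ 0 := by
      have : (0 : ℝ) < t := by linarith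
      exact_mod_cast this.ne'
    have hw0 : w ≠ 0 := by
      intro h
      have h2 : w / D.E w = ((t : ℂ) * z)⁻¹ := hw
      rw [h, zero_div] at h2
      exact inv_ne_zero (mul_ne_zero ht0 hz0) h2.symm
    refine ⟨(t : ℂ) * z, ⟨t, ht2, rfl⟩, w, ⟨hwn, hw0⟩, ?_⟩
    have h2 : w / D.E w = ((t : ℂ) * z)⁻¹ := hw
    unfold Z
    rw [← inv_div, h2, inv_inv]
  have hsub := hs.subset_of_closure_inter_subset hRo hne hcl
  have hzs : z ∈ s := ⟨1, by simp, by simp⟩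
  obtain ⟨w, hw, hwz⟩ := hsub hzs
  exact ⟨w, hw.1, hw.2, hwz⟩

theorem isCompact_pre (hD : D.IsStar) {M : Set ℂ} (hM : IsCompact M) (hMS : Disjoint M D.S) :
    IsCompact (D.pre M) := by
  apply IsSeqCompact.isCompact
  replace hM := hM.isSeqCompact
  intro u hu
  obtain ⟨y, hyM, φ, hφ, hlim⟩ := hM (x := fun n => D.Z (u n)) (fun n => (hu n).2.2)
  obtain ⟨w, hw, hw0, hZw, ψ, hψ, hlim2⟩ := D.key_aux (u := u ∘ φ)
    (fun n => ⟨(hu (φ n)).1.le, (hu (φ n)).2.1⟩) (y := y) hlim (Set.disjoint_left.mp hMS hyM)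
  exact ⟨w, ⟨hw, hw0, by rw [hZw]; exact hyM⟩, φ ∘ ψ, hφ.comp hψ, hlim2⟩

/-- the inverse map, with its derivative -/
theorem exists_inverse (hD : D.IsStar) : ∃ φ : ℂ → ℂ, (∀ z ∉ D.S, ‖φ z‖ < 1 ∧ φ z ≠ 0 ∧ D.Z (φ z) = z ∧
    HasDerivAt φ (-(φ z / (z * D.p (φ z)))) z) ∧ (∀ w : ℂ, ‖w‖ < 1 → w ≠ 0 → φ (D.Z w) = w) := by
  classical
  have hex : ∀ z : ℂ, ∃ w : ℂ, z ∉ D.S → (‖w‖ < 1 ∧ w ≠ 0 ∧ D.Z w = z) := by
    intro z
    by_cases h : z ∈ D.S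
    · exact ⟨0, fun h' => absurd h h'⟩
    · obtain ⟨w, hw⟩ := D.Z_surj hD h
      exact ⟨w, fun _ => hw⟩
  choose φ hφ using hex
  have hleft : ∀ w : ℂ, ‖w‖ < 1 → w ≠ 0 → φ (D.Z w) = w := by
    intro w hw h0
    obtain ⟨h1, h2, h3⟩ := hφ (D.Z w) (D.Z_notMem_S hD hw h0)
    exact D.Z_injOn ⟨h1, h2⟩ ⟨hw, h0⟩ h3
  refine ⟨φ, ?_, hleft⟩
  intro z hz
  obtain ⟨h1, h2, h3⟩ := hφ z hz
  refine ⟨h1, h2, h3, ?_⟩
  have hcont : ContinuousAt φ z := by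
    intro U hU
    have hnb : D.Z '' (U ∩ {w : ℂ | ‖w‖ < 1 ∧ w ≠ 0}) ∈ 𝓝 (D.Z (φ z)) := by
      rw [← D.map_nhds_Z_aux h1 h2]
      exact image_mem_map (inter_mem hU (isOpen_P_aux.mem_nhds ⟨h1, h2⟩))
    rw [h3] at hnb
    rw [Filter.mem_map]
    filter_upwards [hnb] with y hy
    obtain ⟨v, ⟨hvU, hvP⟩, hv⟩ := hy
    show φ y ∈ U
    rw [← hv, hleft v hvP.1 hvP.2]
    exact hvU
  have hev : ∀ᶠ y in 𝓝 z, D.Z (φ y) = y := by
    have : D.Sᶜ ∈ 𝓝 z := D.isCompact_S.isClosed.isOpen_compl.mem_nhds hz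
    filter_upwards [this] with y hy
    exact (hφ y hy).2.2
  have := HasDerivAt.of_local_left_inverse hcont (D.hasDerivAt_Z h1 h2) (D.Z_deriv_ne_aux h1 h2) hev
  have he : (-(D.Z (φ z) * D.p (φ z) / φ z))⁻¹ = -(φ z / (z * D.p (φ z))) := by
    rw [h3, inv_neg, inv_div]
  rwa [he] at this

end Star



end Pool.LR
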