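import Mathlib
import Pool.Agent.Helper50.LR.Defs

set_option autoImplicit false

open Complex Finset Filter Topology

namespace Pool.LR


/-! ### TARGETS (prove these; put auxiliary lemmas just before them) -/

theorem ja_vand_nonneg {n : ℕ} (z : Fin n → ℂ) : 0 ≤ vand z :=
  Finset.prod_nonneg fun _ _ => Finset.prod_nonneg fun _ _ => norm_nonneg _

theorem ja_V_nonneg (K : Set ℂ) (n : ℕ) : 0 ≤ V K n :=
  Real.iSup_nonneg fun _ => ja_vand_nonneg _

theorem ja_cap (K : Set ℂ) :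
    cap K = ⨅ n : ℕ, (V K (n + 2)) ^ ((2 : ℝ) / (((n : ℝ) + 2) * ((n : ℝ) + 1))) := rfl

theorem ja_bdd {K : Set ℂ} (hb : Bornology.IsBounded K) (n : ℕ) :
    BddAbove (Set.range (fun z : Fin n → {w : ℂ // w ∈ K} => vand (fun i => (z i : ℂ)))) := by
  obtain ⟨R, hR⟩ := hb.exists_norm_le
  refine ⟨∏ i : Fin n, ∏ _j ∈ Finset.Ioi i, (R + R), ?_⟩
  rintro _ ⟨z, rfl⟩
  unfold vand
  apply Finset.prod_le_prod
  · intro i _
    exact Finset.prod_nonneg fun _ _ => norm_nonneg _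
  · intro i _
    apply Finset.prod_le_prod
    · intro j _
      exact norm_nonneg _
    · intro j _
      exact (norm_sub_le _ _).trans (add_le_add (hR _ (z i).2) (hR _ (z j).2))

theorem ja_V_mono {K K' : Set ℂ} (h : K ⊆ K') (hb : Bornology.IsBounded K') (n : ℕ) :
    V K n ≤ V K' n := by
  apply Real.iSup_le _ (ja_V_nonneg K' n)
  intro z
  exact le_ciSup (ja_bdd hb n) (fun i => (⟨(z i : ℂ), h (z i).2⟩ : {w : ℂ // w ∈ K'}))

/-- auxiliary kernel -/
noncomputable def jaU {n : ℕ} (z : Fin n → ℂ) (j i : Fin n) : ℝ :=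
  if j = i then 1 else ‖z j - z i‖

theorem ja_vand_sq {n : ℕ} (z : Fin n → ℂ) : vand z ^ 2 = ∏ i, ∏ j, jaU z j i := by
  have h1 := Finset.prod_prod_Ioi_mul_eq_prod_prod_off_diag (fun j i : Fin n => ‖z j - z i‖)
  have h2 : vand z ^ 2 = ∏ i, ∏ j ∈ Finset.Ioi i, ‖z j - z i‖ * ‖z i - z j‖ := by
    unfold vand
    rw [← Finset.prod_pow]
    refine Finset.prod_congr rfl fun i _ => ?_
    rw [← Finset.prod_pow]
    refine Finset.prod_congr rfl fun j _ => ?_
    rw [norm_sub_rev (z j) (z i), pow_two]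
  rw [h2, h1]
  refine Finset.prod_congr rfl fun i _ => ?_
  rw [Fintype.prod_eq_mul_prod_compl i (fun j => jaU z j i)]
  have h3 : jaU z i i = 1 := by
    unfold jaU
    rw [if_pos rfl]
  rw [h3, one_mul]
  refine Finset.prod_congr rfl fun j hj => ?_
  rw [Finset.mem_compl, Finset.mem_singleton] at hj
  unfold jaU
  rw [if_neg hj]

theorem ja_U_comm {n : ℕ} (z : Fin n → ℂ) (i j : Fin n) : jaU z j i = jaU z i j := by
  unfold jaU
  by_cases h : j = i
  · rw [if_pos h, if_pos h.symm]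
  · rw [if_neg h, if_neg (Ne.symm h), norm_sub_rev]

theorem ja_split {m : ℕ} (z : Fin (m + 1) → ℂ) (k : Fin (m + 1)) :
    vand z ^ 2 = (∏ j, jaU z j k) * ((∏ i, jaU z k i) * vand (fun i => z (k.succAbove i)) ^ 2) := by
  rw [ja_vand_sq z, Fin.prod_univ_succAbove _ k]
  congr 1
  have h1 : ∀ i : Fin m, ∏ j, jaU z j (k.succAbove i) =
      jaU z k (k.succAbove i) * ∏ j : Fin m, jaU z (k.succAbove j) (k.succAbove i) := by
    intro i
    rw [Fin.prod_univ_succAbove _ k]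
  rw [Finset.prod_congr rfl (fun i _ => h1 i), Finset.prod_mul_distrib]
  congr 1
  · rw [Fin.prod_univ_succAbove (fun i => jaU z k i) k]
    have h3 : jaU z k k = 1 := by
      unfold jaU
      rw [if_pos rfl]
    rw [h3, one_mul]
  · rw [ja_vand_sq]
    refine Finset.prod_congr rfl fun i _ => Finset.prod_congr rfl fun j _ => ?_
    unfold jaU
    by_cases h : j = i
    · rw [h, if_pos rfl, if_pos rfl]
    · rw [if_neg h, if_neg (fun h2 => h (Fin.succAbove_right_injective h2))]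

theorem ja_prod {m : ℕ} (z : Fin (m + 1) → ℂ) :
    (vand z ^ 2) ^ (m + 1) = (vand z ^ 2) * ((vand z ^ 2) *
      ∏ k : Fin (m + 1), vand (fun i => z (k.succAbove i)) ^ 2) := by
  have h1 : (vand z ^ 2) ^ (m + 1) = ∏ k : Fin (m + 1), vand z ^ 2 := by
    rw [Finset.prod_const, Finset.card_univ, Fintype.card_fin]
  rw [h1, Finset.prod_congr rfl (fun k _ => ja_split z k), Finset.prod_mul_distrib,
    Finset.prod_mul_distrib]
  rw [ja_vand_sq z]
  congr 1
  congr 1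
  refine Finset.prod_congr rfl fun i _ => Finset.prod_congr rfl fun j _ => ?_
  exact ja_U_comm z j i

theorem ja_tuple {K : Set ℂ} (hb : Bornology.IsBounded K) (n : ℕ)
    (z : Fin (n + 3) → {w : ℂ // w ∈ K}) :
    vand (fun i => (z i : ℂ)) ^ (n + 1) ≤ V K (n + 2) ^ (n + 3) := by
  set v := vand (fun i => (z i : ℂ)) with hv
  have hv0 : 0 ≤ v := ja_vand_nonneg _
  have hB : 0 ≤ V K (n + 2) := ja_V_nonneg K _
  rcases hv0.eq_or_lt with h0 | h0
  · rw [← h0, zero_pow (by omega)]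
    positivity
  have h1 := ja_prod (m := n + 2) (fun i => (z i : ℂ))
  rw [← hv] at h1
  have h2 : (v^2)^(n+1) = ∏ k : Fin (n + 3), vand (fun i => (z (k.succAbove i) : ℂ)) ^ 2 := by
    have h3 : (v^2 * v^2) * (v^2)^(n+1) = (v^2 * v^2) *
        ∏ k : Fin (n + 3), vand (fun i => (z (k.succAbove i) : ℂ)) ^ 2 := by
      calc (v^2 * v^2) * (v^2)^(n+1) = (v^2)^(n+2+1) := by ring
        _ = _ := by rw [h1, mul_assoc]
    exact mul_left_cancel₀ (by positivity) h3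
  have h4 : (v^2)^(n+1) ≤ (V K (n+2) ^ 2)^(n+3) := by
    rw [h2]
    calc ∏ k : Fin (n + 3), vand (fun i => (z (k.succAbove i) : ℂ)) ^ 2 ≤
        ∏ _k : Fin (n + 3), V K (n+2) ^ 2 := by
          apply Finset.prod_le_prod
          · intro k _
            positivity
          · intro k _
            apply pow_le_pow_left₀ (ja_vand_nonneg _)
            exact le_ciSup (ja_bdd hb (n+2)) (fun i => z (k.succAbove i))
      _ = (V K (n+2) ^ 2)^(n+3) := by
          rw [Finset.prod_const, Finset.card_univ, Fintype.card_fin]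
  have h5 : (v^(n+1))^2 ≤ (V K (n+2)^(n+3))^2 := by
    calc (v^(n+1))^2 = (v^2)^(n+1) := by ring
      _ ≤ _ := h4
      _ = _ := by ring
  exact (pow_le_pow_iff_left₀ (by positivity) (by positivity) (by norm_num)).mp h5

theorem ja_V_pow {K : Set ℂ} (hb : Bornology.IsBounded K) (n : ℕ) :
    V K (n + 3) ^ (n + 1) ≤ V K (n + 2) ^ (n + 3) := by
  have hB : 0 ≤ V K (n + 2) := ja_V_nonneg K _
  have hB' : 0 ≤ V K (n + 2) ^ (n + 3) := by positivity
  set D := (V K (n + 2) ^ (n + 3)) ^ (((n + 1 : ℕ) : ℝ)⁻¹) with hD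
  have hD0 : 0 ≤ D := Real.rpow_nonneg hB' _
  have hD1 : D ^ (n + 1) = V K (n + 2) ^ (n + 3) := Real.rpow_inv_natCast_pow hB' (by omega)
  have h1 : V K (n + 3) ≤ D := by
    apply Real.iSup_le _ hD0
    intro z
    have h2 := ja_tuple hb n z
    rw [← hD1] at h2
    exact (pow_le_pow_iff_left₀ (ja_vand_nonneg _) hD0 (by omega)).mp h2
  calc V K (n + 3) ^ (n + 1) ≤ D ^ (n + 1) := pow_le_pow_left₀ (ja_V_nonneg K _) h1 _
    _ = _ := hD1

theorem ja_anti {K : Set ℂ} (hb : Bornology.IsBounded K) :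
    Antitone (fun n : ℕ => (V K (n + 2)) ^ ((2 : ℝ) / (((n : ℝ) + 2) * ((n : ℝ) + 1)))) := by
  apply antitone_nat_of_succ_le
  intro n
  have hA : 0 ≤ V K (n + 3) := ja_V_nonneg K _
  have hB : 0 ≤ V K (n + 2) := ja_V_nonneg K _
  have hn1 : (0:ℝ) < (n:ℝ) + 1 := by positivity
  have hn2 : (0:ℝ) < (n:ℝ) + 2 := by positivity
  have hn3 : (0:ℝ) < (n:ℝ) + 3 := by positivity
  have h1 := ja_V_pow hb n
  have h2 := Real.rpow_le_rpow (by positivity) h1
    (by positivity : (0:ℝ) ≤ 2 / (((n:ℝ) + 3) * ((n:ℝ) + 2) * ((n:ℝ) + 1)))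
  rw [← Real.rpow_natCast, ← Real.rpow_natCast, ← Real.rpow_mul hA, ← Real.rpow_mul hB] at h2
  have e1 : ((n + 1 : ℕ) : ℝ) * (2 / (((n:ℝ) + 3) * ((n:ℝ) + 2) * ((n:ℝ) + 1))) =
      2 / ((((n + 1 : ℕ) : ℝ) + 2) * (((n + 1 : ℕ) : ℝ) + 1)) := by
    push_cast
    have e0 : ((n:ℝ) + 1 + 2) = (n:ℝ) + 3 := by ring
    have e0' : ((n:ℝ) + 1 + 1) = (n:ℝ) + 2 := by ring
    rw [e0, e0']
    field_simp
  have e2 : ((n + 3 : ℕ) : ℝ) * (2 / (((n:ℝ) + 3) * ((n:ℝ) + 2) * ((n:ℝ) + 1))) =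
      2 / (((n : ℝ) + 2) * ((n : ℝ) + 1)) := by
    push_cast
    field_simp
  rw [e1, e2] at h2
  exact h2

theorem cap_nonneg (K : Set ℂ) : 0 ≤ cap K := by
  rw [ja_cap]
  exact Real.iInf_nonneg fun n => Real.rpow_nonneg (ja_V_nonneg K _) _

theorem cap_mono {K K' : Set ℂ} (h : K ⊆ K') (hb : Bornology.IsBounded K') : cap K ≤ cap K' := by
  rw [ja_cap, ja_cap]
  apply ciInf_mono
  · refine ⟨0, ?_⟩
    rintro _ ⟨n, rfl⟩
    exact Real.rpow_nonneg (ja_V_nonneg K _) _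
  · intro n
    exact Real.rpow_le_rpow (ja_V_nonneg K _) (ja_V_mono h hb _) (by positivity)

theorem tendsto_cap {K : Set ℂ} (hb : Bornology.IsBounded K) :
    Tendsto (fun n : ℕ => (V K (n + 2)) ^ ((2 : ℝ) / (((n : ℝ) + 2) * ((n : ℝ) + 1)))) atTop (𝓝 (cap K)) := by
  rw [ja_cap]
  apply tendsto_atTop_ciInf (ja_anti hb)
  refine ⟨0, ?_⟩
  rintro _ ⟨n, rfl⟩
  exact Real.rpow_nonneg (ja_V_nonneg K _) _


end Pool.LR
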