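import Mathlib
import Pool.Agent.Helper50.LR.Defs
import Pool.Agent.Helper50.LR.Ja

set_option autoImplicit false

open Complex Finset Filter Topology

namespace Pool.LR


/-! ### TARGETS (prove these; put auxiliary lemmas just before them) -/

theorem vand_eq_8311 {n : ℕ} (z : Fin n → ℂ) : vand z = ‖(Matrix.vandermonde z).det‖ := by
  rw [Matrix.det_vandermonde, norm_prod]
  unfold vand
  refine Finset.prod_congr rfl (fun i _ => ?_)
  rw [norm_prod]
  exact Finset.prod_congr rfl (fun j _ => norm_sub_rev _ _)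

theorem det_bound_8311 {n : ℕ} (M : Matrix (Fin n) (Fin n) ℂ) (b : Fin n → ℝ)
    (h : ∀ i j, ‖M i j‖ ≤ b j) : ‖M.det‖ ≤ (n.factorial : ℝ) * ∏ j, b j := by
  rw [Matrix.det_apply]
  calc ‖∑ σ : Equiv.Perm (Fin n), Equiv.Perm.sign σ • ∏ i, M (σ i) i‖
      ≤ ∑ σ : Equiv.Perm (Fin n), ‖Equiv.Perm.sign σ • ∏ i, M (σ i) i‖ := norm_sum_le _ _
    _ ≤ ∑ σ : Equiv.Perm (Fin n), ∏ j, b j := by
      refine Finset.sum_le_sum (fun σ _ => ?_)
      have h0 : ‖Equiv.Perm.sign σ • ∏ i, M (σ i) i‖ = ‖∏ i, M (σ i) i‖ := by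
        rcases Int.units_eq_one_or (Equiv.Perm.sign σ) with h1 | h1 <;> simp [h1]
      rw [h0, norm_prod]
      exact Finset.prod_le_prod (fun i _ => norm_nonneg _) (fun i _ => h _ _)
    _ = _ := by simp [Fintype.card_perm]

theorem V_le_8311 {K : Set ℂ} (q : Polynomial ℂ) (hq : q.Monic)
    (hd : 1 ≤ q.natDegree) (A B R C : ℝ) (hA : 0 ≤ A) (hAB : A ≤ B) (hB : 0 < B) (hR : 1 ≤ R)
    (hC : 1 ≤ C) (hCB : 1 / B ≤ C) (hK : ∀ z ∈ K, ‖z‖ ≤ R)
    (h : ∀ z ∈ K, ‖q.eval z‖ ≤ A ^ q.natDegree) (n : ℕ) :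
    V K n ≤ (n.factorial : ℝ) * (B ^ (∑ j : Fin n, (j : ℕ)) * ((C * R) ^ q.natDegree) ^ n) := by
  have hB0 : 0 ≤ B := hB.le
  have hCR : 1 ≤ C * R := by nlinarith
  unfold V
  refine Real.iSup_le (fun z => ?_) (by positivity)
  rw [vand_eq_8311]
  set m := q.natDegree with hm
  set P : Fin n → Polynomial ℂ := fun j => q ^ ((j : ℕ) / m) * Polynomial.X ^ ((j : ℕ) % m) with hP
  have hmon : ∀ j, (P j).Monic := fun j => (hq.pow _).mul (Polynomial.monic_X_pow _)
  have hdeg : ∀ j, (P j).natDegree = (j : ℕ) := by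
    intro j
    simp only [hP]
    rw [(hq.pow _).natDegree_mul (Polynomial.monic_X_pow _), hq.natDegree_pow,
      Polynomial.natDegree_X_pow, ← hm, mul_comm]
    exact Nat.div_add_mod _ _
  rw [Matrix.det_eval_matrixOfPolynomials_eq_det_vandermonde (fun i => ((z i : ℂ))) P hdeg hmon]
  refine (det_bound_8311 _ (fun j : Fin n => B ^ (j : ℕ) * (C * R) ^ m) ?_).trans (le_of_eq ?_)
  · intro i j
    simp only [Matrix.of_apply, hP, Polynomial.eval_mul, Polynomial.eval_pow, Polynomial.eval_X,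
      norm_mul, norm_pow]
    have hmm : (j : ℕ) % m ≤ m := (Nat.mod_lt _ hd).le
    have e1 : ‖q.eval (z i : ℂ)‖ ^ ((j : ℕ) / m) ≤ B ^ (m * ((j : ℕ) / m)) := by
      rw [pow_mul]
      refine pow_le_pow_left₀ (norm_nonneg _) ?_ _
      exact (h _ (z i).2).trans (pow_le_pow_left₀ hA hAB _)
    have e2 : ‖(z i : ℂ)‖ ^ ((j : ℕ) % m) ≤ R ^ ((j : ℕ) % m) :=
      pow_le_pow_left₀ (norm_nonneg _) (hK _ (z i).2) _
    have e3 : B ^ (m * ((j : ℕ) / m)) ≤ B ^ (j : ℕ) * C ^ ((j : ℕ) % m) := by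
      have h1 : B ^ (j : ℕ) = B ^ (m * ((j : ℕ) / m)) * B ^ ((j : ℕ) % m) := by
        rw [← pow_add, Nat.div_add_mod]
      have h2 : 1 ≤ B ^ ((j : ℕ) % m) * C ^ ((j : ℕ) % m) := by
        rw [← mul_pow]
        refine one_le_pow₀ ?_
        have := mul_le_mul_of_nonneg_left hCB hB0
        rw [mul_one_div_cancel hB.ne'] at this
        exact this
      rw [h1, mul_assoc]
      exact le_mul_of_one_le_right (by positivity) h2
    calc ‖q.eval (z i : ℂ)‖ ^ ((j : ℕ) / m) * ‖(z i : ℂ)‖ ^ ((j : ℕ) % m)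
        ≤ (B ^ (j : ℕ) * C ^ ((j : ℕ) % m)) * R ^ ((j : ℕ) % m) :=
          mul_le_mul (e1.trans e3) e2 (by positivity) (by positivity)
      _ = B ^ (j : ℕ) * (C * R) ^ ((j : ℕ) % m) := by rw [mul_pow, mul_assoc]
      _ ≤ B ^ (j : ℕ) * (C * R) ^ m :=
          mul_le_mul_of_nonneg_left (pow_le_pow_right₀ hCR hmm) (by positivity)
  · rw [Finset.prod_mul_distrib, Finset.prod_pow_eq_pow_sum, Finset.prod_const, Finset.card_univ,
      Fintype.card_fin]

theorem cap_le_aux_8311 {K : Set ℂ} (hb : Bornology.IsBounded K) (q : Polynomial ℂ) (hq : q.Monic)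
    (hd : 1 ≤ q.natDegree) (A B : ℝ) (hA : 0 ≤ A) (hAB : A < B)
    (h : ∀ z ∈ K, ‖q.eval z‖ ≤ A ^ q.natDegree) :
    cap K ≤ B := by
  have hB : 0 < B := lt_of_le_of_lt hA hAB
  obtain ⟨R0, hR0⟩ := hb.exists_norm_le
  set R := max R0 1 with hR
  have hR1 : 1 ≤ R := le_max_right _ _
  have hKR : ∀ z ∈ K, ‖z‖ ≤ R := fun z hz => (hR0 z hz).trans (le_max_left _ _)
  set C := max (1 / B) 1 with hC
  have hC1 : 1 ≤ C := le_max_right _ _
  have hCB : 1 / B ≤ C := le_max_left _ _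
  set D := (C * R) ^ q.natDegree with hD
  have hDpos : 0 < D := by positivity
  have hmain : ∀ n : ℕ, (V K (n + 2)) ^ ((2 : ℝ) / (((n : ℝ) + 2) * ((n : ℝ) + 1))) ≤
      ((n : ℝ) + 2) ^ ((2 : ℝ) / (1 * ((n : ℝ) + 2) + (-1))) *
        (B * D ^ ((2 : ℝ) / ((n : ℝ) + 1))) := by
    intro n
    set e : ℝ := (2 : ℝ) / (((n : ℝ) + 2) * ((n : ℝ) + 1)) with he
    have he0 : 0 ≤ e := by positivity
    have hV0 : 0 ≤ V K (n + 2) := by
      unfold V
      refine Real.iSup_nonneg (fun z => ?_)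
      unfold vand
      positivity
    have hVle := V_le_8311 q hq hd A B R C hA hAB.le hB hR1 hC1 hCB hKR h (n + 2)
    rw [← hD] at hVle
    have hsum : ((∑ j : Fin (n + 2), (j : ℕ) : ℕ) : ℝ) = ((n : ℝ) + 2) * ((n : ℝ) + 1) / 2 := by
      have h1 : (∑ j : Fin (n + 2), (j : ℕ)) * 2 = (n + 2) * (n + 1) := by
        rw [Fin.sum_univ_eq_sum_range (fun i => i) (n + 2), Finset.sum_range_id_mul_two]
        rfl
      have h2 : (((∑ j : Fin (n + 2), (j : ℕ)) * 2 : ℕ) : ℝ) = (((n + 2) * (n + 1) : ℕ) : ℝ) := by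
        rw [h1]
      push_cast at h2 ⊢
      linarith
    have hfac : (((n + 2).factorial : ℕ) : ℝ) ≤ ((n : ℝ) + 2) ^ (n + 2) := by
      have := Nat.factorial_le_pow (n + 2)
      exact_mod_cast this
    calc (V K (n + 2)) ^ e
        ≤ (((n : ℝ) + 2) ^ (n + 2) * (B ^ (∑ j : Fin (n + 2), (j : ℕ)) * D ^ (n + 2))) ^ e := by
          refine Real.rpow_le_rpow hV0 (hVle.trans ?_) he0
          exact mul_le_mul_of_nonneg_right hfac (by positivity)
      _ = _ := by
          rw [Real.mul_rpow (by positivity) (by positivity),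
            Real.mul_rpow (by positivity) (by positivity)]
          congr 1
          · rw [← Real.rpow_natCast, ← Real.rpow_mul (by positivity)]
            congr 1
            rw [he]
            push_cast
            have h1 : (n : ℝ) + 2 ≠ 0 := by positivity
            have h2 : (n : ℝ) + 1 ≠ 0 := by positivity
            have h3 : 1 * ((n : ℝ) + 2) + (-1) = (n : ℝ) + 1 := by ring
            rw [h3]
            field_simp
          · congr 1
            · rw [← Real.rpow_natCast, ← Real.rpow_mul (by positivity), hsum, he]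
              have h1 : (n : ℝ) + 2 ≠ 0 := by positivity
              have h2 : (n : ℝ) + 1 ≠ 0 := by positivity
              have h3 : ((n : ℝ) + 2) * ((n : ℝ) + 1) / 2 * (2 / (((n : ℝ) + 2) * ((n : ℝ) + 1))) = 1 := by
                field_simp
              rw [h3, Real.rpow_one]
            · rw [← Real.rpow_natCast, ← Real.rpow_mul (by positivity)]
              congr 1
              rw [he]
              push_cast
              have h1 : (n : ℝ) + 2 ≠ 0 := by positivity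
              have h2 : (n : ℝ) + 1 ≠ 0 := by positivity
              field_simp
  have hn2 : Tendsto (fun n : ℕ => (n : ℝ) + 2) atTop atTop :=
    tendsto_atTop_add_const_right _ _ tendsto_natCast_atTop_atTop
  have hn1 : Tendsto (fun n : ℕ => (n : ℝ) + 1) atTop atTop :=
    tendsto_atTop_add_const_right _ _ tendsto_natCast_atTop_atTop
  have l1 : Tendsto (fun n : ℕ => ((n : ℝ) + 2) ^ ((2 : ℝ) / (1 * ((n : ℝ) + 2) + (-1)))) atTop
      (𝓝 1) := (tendsto_rpow_div_mul_add 2 1 (-1) (by norm_num)).comp hn2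
  have l2 : Tendsto (fun n : ℕ => D ^ ((2 : ℝ) / ((n : ℝ) + 1))) atTop (𝓝 (D ^ (0 : ℝ))) :=
    tendsto_const_nhds.rpow (Tendsto.div_atTop tendsto_const_nhds hn1) (Or.inl hDpos.ne')
  have l3 := l1.mul ((tendsto_const_nhds (x := B)).mul l2)
  rw [Real.rpow_zero, mul_one, one_mul] at l3
  exact le_of_tendsto_of_tendsto' (tendsto_cap hb) l3 hmain

theorem cap_le_of_poly {K : Set ℂ} (hb : Bornology.IsBounded K) (q : Polynomial ℂ) (hq : q.Monic)
    (hd : 1 ≤ q.natDegree) (A : ℝ) (hA : 0 ≤ A) (h : ∀ z ∈ K, ‖q.eval z‖ ≤ A ^ q.natDegree) :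
    cap K ≤ A := by
  refine le_of_forall_pos_le_add (fun ε hε => ?_)
  exact cap_le_aux_8311 hb q hq hd A (A + ε) hA (by linarith) h


end Pool.LR
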