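import Mathlib
import Pool.Agent.Helper50.LR.Defs
import Pool.Agent.Helper50.LR.Ba
import Pool.Agent.Helper50.LR.Bb
import Pool.Agent.Helper50.LR.Bc
import Pool.Agent.Helper50.LR.Ja
import Pool.Agent.Helper50.LR.Jb

set_option autoImplicit false

open Complex Finset Filter Topology

namespace Pool.LR


/-! ### TARGETS (prove these; put auxiliary lemmas just before them) -/

/-! ### auxiliary: Taylor coefficients -/

section h399

open Metric

/-- Taylor coefficient at `0` -/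
noncomputable def h399Tc (N : ℕ) (h : ℂ → ℂ) : ℂ := iteratedDeriv N h 0 / (N.factorial : ℂ)

lemma h399Tc_congr {N : ℕ} {h k : ℂ → ℂ} (e : h =ᶠ[𝓝 0] k) : h399Tc N h = h399Tc N k := by
  unfold h399Tc
  rw [Filter.EventuallyEq.iteratedDeriv_eq N e]

lemma h399Tc_add {N : ℕ} {h k : ℂ → ℂ} (hh : AnalyticAt ℂ h 0) (hk : AnalyticAt ℂ k 0) :
    h399Tc N (fun x => h x + k x) = h399Tc N h + h399Tc N k := by
  unfold h399Tc
  rw [iteratedDeriv_fun_add hh.contDiffAt hk.contDiffAt, add_div]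

lemma h399Tc_sub {N : ℕ} {h k : ℂ → ℂ} (hh : AnalyticAt ℂ h 0) (hk : AnalyticAt ℂ k 0) :
    h399Tc N (fun x => h x - k x) = h399Tc N h - h399Tc N k := by
  unfold h399Tc
  rw [iteratedDeriv_fun_sub hh.contDiffAt hk.contDiffAt, sub_div]

lemma h399Tc_mul {N : ℕ} (c : ℂ) (h : ℂ → ℂ) :
    h399Tc N (fun x => c * h x) = c * h399Tc N h := by
  unfold h399Tc
  rw [iteratedDeriv_const_mul_field, mul_div_assoc]

lemma h399Tc_sum {N : ℕ} (n : ℕ) (h : ℕ → ℂ → ℂ) (hh : ∀ i, AnalyticAt ℂ (h i) 0) :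
    AnalyticAt ℂ (fun x => ∑ i ∈ range n, h i x) 0 ∧
    h399Tc N (fun x => ∑ i ∈ range n, h i x) = ∑ i ∈ range n, h399Tc N (h i) := by
  induction n with
  | zero =>
    simp only [range_zero, sum_empty]
    refine ⟨analyticAt_const, ?_⟩
    have := h399Tc_mul (N := N) 0 (fun _ => (0 : ℂ))
    simpa using this
  | succ n ih =>
    simp only [sum_range_succ]
    exact ⟨ih.1.add (hh n), by rw [h399Tc_add ih.1 (hh n), ih.2]⟩

lemma h399Tc_pow_mul_lt {N k : ℕ} (hk : N < k) {h : ℂ → ℂ} (hh : AnalyticAt ℂ h 0) :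
    h399Tc N (fun x => x ^ k * h x) = 0 := by
  unfold h399Tc
  have h1 : AnalyticAt ℂ (fun x : ℂ => x ^ k) 0 := by fun_prop
  rw [iteratedDeriv_fun_mul h1.contDiffAt hh.contDiffAt]
  rw [sum_eq_zero, zero_div]
  intro i hi
  rw [mem_range] at hi
  rw [iteratedDeriv_fun_pow_zero, if_neg (by omega)]
  simp

lemma h399Tc_pow_mul_eq {N : ℕ} {h : ℂ → ℂ} (hh : AnalyticAt ℂ h 0) :
    h399Tc N (fun x => x ^ N * h x) = h 0 := by
  unfold h399Tc
  have h1 : AnalyticAt ℂ (fun x : ℂ => x ^ N) 0 := by fun_prop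
  rw [iteratedDeriv_fun_mul h1.contDiffAt hh.contDiffAt]
  rw [sum_eq_single N]
  · rw [iteratedDeriv_fun_pow_zero, if_pos rfl, Nat.choose_self, Nat.sub_self, iteratedDeriv_zero]
    have : (N.factorial : ℂ) ≠ 0 := Nat.cast_ne_zero.2 (Nat.factorial_ne_zero _)
    push_cast
    field_simp
  · intro i _ hi
    rw [iteratedDeriv_fun_pow_zero, if_neg hi]
    simp
  · intro hi
    exact absurd (mem_range.2 (Nat.lt_succ_self N)) hi

lemma h399Tc_pow {N k : ℕ} (hk : k ≠ N) : h399Tc N (fun x => x ^ k) = 0 := by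
  unfold h399Tc
  rw [iteratedDeriv_fun_pow_zero, if_neg (by omega)]
  simp

lemma h399Tc_bound {N : ℕ} {h : ℂ → ℂ} {r C : ℝ} (hr : 0 < r) (hr1 : r < 1)
    (hd : DifferentiableOn ℂ h (ball 0 1)) (hC : ∀ x ∈ sphere (0:ℂ) r, ‖h x‖ ≤ C) :
    ‖h399Tc N h‖ ≤ C / r ^ N := by
  unfold h399Tc
  have h1 : DiffContOnCl ℂ h (ball 0 r) := by
    apply DifferentiableOn.diffContOnCl
    rw [closure_ball _ hr.ne']
    exact hd.mono (closedBall_subset_ball hr1)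
  have h2 := norm_iteratedDeriv_le_of_forall_mem_sphere_norm_le N hr h1 hC
  rw [norm_div, Complex.norm_natCast]
  have h3 : (0:ℝ) < N.factorial := Nat.cast_pos.2 (Nat.factorial_pos _)
  rw [div_le_iff₀ h3]
  calc _ ≤ _ := h2
    _ = _ := by ring

lemma h399Tc_geom (N : ℕ) {P f e : ℂ → ℂ} (hP : AnalyticAt ℂ P 0) (he : AnalyticAt ℂ e 0)
    (hf : ∀ x, f x = x * e x) (z : ℂ) :
    h399Tc N (fun x => P x / (1 - z * f x)) =
      ∑ k ∈ range (N + 1), z ^ k * h399Tc N (fun x => P x * f x ^ k) := by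
  have hfa : AnalyticAt ℂ f 0 := by
    have : f = fun x => x * e x := funext hf
    rw [this]
    exact analyticAt_id.mul he
  have hf0 : f 0 = 0 := by rw [hf, zero_mul]
  have hu : AnalyticAt ℂ (fun x => 1 - z * f x) 0 :=
    analyticAt_const.sub (analyticAt_const.mul hfa)
  have hu0 : (fun x => 1 - z * f x) 0 ≠ 0 := by
    simp only [hf0, mul_zero, sub_zero]
    exact one_ne_zero
  have hne : ∀ᶠ x in 𝓝 (0:ℂ), 1 - z * f x ≠ 0 := hu.continuousAt.eventually_ne hu0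
  have hR : AnalyticAt ℂ (fun x => z ^ (N + 1) * e x ^ (N + 1) * P x / (1 - z * f x)) 0 :=
    ((analyticAt_const.mul (he.pow _)).mul hP).div hu hu0
  have hS : ∀ k, AnalyticAt ℂ (fun x => z ^ k * (P x * f x ^ k)) 0 := fun k =>
    analyticAt_const.mul (hP.mul (hfa.pow _))
  have e1 : (fun x => P x / (1 - z * f x)) =ᶠ[𝓝 0] fun x =>
      (∑ k ∈ range (N + 1), z ^ k * (P x * f x ^ k)) +
        x ^ (N + 1) * (z ^ (N + 1) * e x ^ (N + 1) * P x / (1 - z * f x)) := by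
    filter_upwards [hne] with x hx
    have h1 : (∑ k ∈ range (N + 1), (z * f x) ^ k) * (1 - z * f x) = 1 - (z * f x) ^ (N + 1) := by
      have := geom_sum_mul_neg (z * f x) (N + 1)
      exact this
    have h2 : ∑ k ∈ range (N + 1), z ^ k * (P x * f x ^ k) =
        P x * ∑ k ∈ range (N + 1), (z * f x) ^ k := by
      rw [mul_sum]
      refine sum_congr rfl fun k _ => ?_
      rw [mul_pow]
      ring
    have h3 : x ^ (N + 1) * (z ^ (N + 1) * e x ^ (N + 1) * P x / (1 - z * f x)) =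
        P x * (z * f x) ^ (N + 1) / (1 - z * f x) := by
      rw [hf x]
      ring
    rw [h2, h3]
    rw [div_eq_iff hx, add_mul, div_mul_cancel₀ _ hx, mul_assoc, h1]
    ring
  have hXR : AnalyticAt ℂ (fun x => x ^ (N + 1) *
      (z ^ (N + 1) * e x ^ (N + 1) * P x / (1 - z * f x))) 0 :=
    (by fun_prop : AnalyticAt ℂ (fun x : ℂ => x ^ (N + 1)) 0).mul hR
  rw [h399Tc_congr e1, h399Tc_add (h399Tc_sum (N := N) (N + 1) _ hS).1 hXR,
    (h399Tc_sum (N := N) (N + 1) _ hS).2,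
    h399Tc_pow_mul_lt (Nat.lt_succ_self N) hR, add_zero]
  exact sum_congr rfl fun k _ => h399Tc_mul _ _

lemma h399Tc_pole (N : ℕ) {x0 : ℂ} (hx0 : x0 ≠ 0) :
    h399Tc N (fun x => 1 / (x0 - x)) = 1 / x0 ^ (N + 1) := by
  have e1 : (fun x => 1 / (x0 - x)) =ᶠ[𝓝 0] fun x =>
      (fun _ : ℂ => 1 / x0) x / (1 - (1 / x0) * (fun x : ℂ => x) x) := by
    have hc : ContinuousAt (fun x : ℂ => x0 - x) 0 := by fun_prop
    have hne : ∀ᶠ x in 𝓝 (0:ℂ), x0 - x ≠ 0 := hc.eventually_ne (by simpa using hx0)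
    filter_upwards [hne] with x hx
    have : 1 - 1 / x0 * x = (x0 - x) / x0 := by field_simp
    simp only [this]
    field_simp
  rw [h399Tc_congr e1, h399Tc_geom N (P := fun _ => 1 / x0) (f := fun x => x) (e := fun _ => 1)
    analyticAt_const analyticAt_const (fun x => (mul_one x).symm) (1 / x0)]
  rw [sum_eq_single N]
  · have h1 : h399Tc N (fun x : ℂ => (1 / x0) * x ^ N) = 1 / x0 := by
      have h2 := h399Tc_pow_mul_eq (N := N) (h := fun _ => 1 / x0) analyticAt_const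
      have h3 : (fun x : ℂ => (1 / x0) * x ^ N) = fun x => x ^ N * (1 / x0) :=
        funext fun x => mul_comm _ _
      rw [h3]
      exact h2
    rw [h1, div_pow, one_pow, pow_succ]
    field_simp
  · intro k _ hk
    rw [h399Tc_mul, h399Tc_pow hk]
    ring
  · intro hi
    exact absurd (mem_range.2 (Nat.lt_succ_self N)) hi

/-- the case of a simple pole -/
lemma h399Tc_simple_pole (N : ℕ) {g Φ : ℂ → ℂ} {x0 : ℂ} {r C : ℝ} (hx0 : x0 ≠ 0)
    (hΦ : DifferentiableOn ℂ Φ (ball 0 1)) (hx0r : ‖x0‖ < r) (hr1 : r < 1)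
    (hg : ∀ x ∈ ball (0:ℂ) 1, x ≠ x0 → g x = Φ x / (x0 - x))
    (hC : ∀ x ∈ sphere (0:ℂ) r, ‖g x‖ ≤ C) :
    ‖h399Tc N g‖ ≤ ‖Φ x0‖ / ‖x0‖ ^ (N + 1) + (C + ‖Φ x0‖ / (r - ‖x0‖)) / r ^ N := by
  have hr : 0 < r := (norm_nonneg _).trans_lt hx0r
  have hx0b : ball (0:ℂ) 1 ∈ 𝓝 x0 := isOpen_ball.mem_nhds (by
    rw [mem_ball_zero_iff]; exact hx0r.trans hr1)
  have h0b : ball (0:ℂ) 1 ∈ 𝓝 (0:ℂ) := isOpen_ball.mem_nhds (by simp)
  have hds : DifferentiableOn ℂ (dslope Φ x0) (ball 0 1) :=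
    (Complex.differentiableOn_dslope hx0b).2 hΦ
  have hdval : ∀ x ∈ ball (0:ℂ) 1, x ≠ x0 → dslope Φ x0 x = Φ x0 * (1 / (x0 - x)) - g x := by
    intro x hx hne
    rw [dslope_of_ne _ hne, slope_def_field, hg x hx hne]
    have h1 : x - x0 ≠ 0 := sub_ne_zero.2 hne
    have h2 : x0 - x ≠ 0 := sub_ne_zero.2 hne.symm
    rw [div_eq_iff h1]
    have h3 : (Φ x0 * (1 / (x0 - x)) - Φ x / (x0 - x)) * (x - x0) =
        (Φ x - Φ x0) * ((x0 - x) / (x0 - x)) := by ring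
    rw [h3, div_self h2, mul_one]
  have hpole : AnalyticAt ℂ (fun x => Φ x0 * (1 / (x0 - x))) 0 := by
    refine analyticAt_const.mul (analyticAt_const.div (by fun_prop) ?_)
    simpa using hx0
  have e1 : g =ᶠ[𝓝 0] fun x => Φ x0 * (1 / (x0 - x)) - dslope Φ x0 x := by
    have hne : ∀ᶠ x in 𝓝 (0:ℂ), x ≠ x0 := continuousAt_id.eventually_ne hx0.symm
    filter_upwards [hne, h0b] with x hx hx1
    rw [hdval x hx1 hx]
    ring
  have hT : h399Tc N g = Φ x0 / x0 ^ (N + 1) - h399Tc N (dslope Φ x0) := by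
    rw [h399Tc_congr e1, h399Tc_sub hpole (hds.analyticAt h0b), h399Tc_mul, h399Tc_pole N hx0]
    ring
  have hb : ‖h399Tc N (dslope Φ x0)‖ ≤ (C + ‖Φ x0‖ / (r - ‖x0‖)) / r ^ N := by
    refine h399Tc_bound hr hr1 hds fun x hx => ?_
    have hxn : ‖x‖ = r := by simpa using hx
    have hxb : x ∈ ball (0:ℂ) 1 := by rw [mem_ball_zero_iff, hxn]; exact hr1
    have hne : x ≠ x0 := by
      intro h
      rw [h] at hxn
      exact hx0r.ne hxn
    rw [hdval x hxb hne]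
    have h1 : r - ‖x0‖ ≤ ‖x0 - x‖ := by
      have := norm_sub_norm_le x x0
      rw [hxn, norm_sub_rev] at this
      exact this
    have h2 : 0 < r - ‖x0‖ := sub_pos.2 hx0r
    have h3 : ‖Φ x0 * (1 / (x0 - x))‖ ≤ ‖Φ x0‖ / (r - ‖x0‖) := by
      rw [norm_mul, norm_div, norm_one, mul_one_div]
      exact div_le_div_of_nonneg_left (norm_nonneg _) h2 h1
    calc ‖Φ x0 * (1 / (x0 - x)) - g x‖ ≤ ‖Φ x0 * (1 / (x0 - x))‖ + ‖g x‖ := norm_sub_le _ _
      _ ≤ _ := by linarith [hC x hx]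
  rw [hT]
  calc ‖Φ x0 / x0 ^ (N + 1) - h399Tc N (dslope Φ x0)‖ ≤
      ‖Φ x0 / x0 ^ (N + 1)‖ + ‖h399Tc N (dslope Φ x0)‖ := norm_sub_le _ _
    _ ≤ _ := by
      rw [norm_div, norm_pow]
      linarith

end h399

section h399b

open Metric

lemma h399_f_eq (D : Star) (x : ℂ) : (D.Z x)⁻¹ = x * (D.E x)⁻¹ := by
  unfold Star.Z
  rw [inv_div, div_eq_mul_inv]

lemma h399_f_diff (D : Star) : DifferentiableOn ℂ (fun x => (D.Z x)⁻¹) (ball 0 1) := by
  have h1 : (fun x => (D.Z x)⁻¹) = fun x => x * (D.E x)⁻¹ := funext (h399_f_eq D)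
  rw [h1]
  refine differentiableOn_id.mul (D.differentiableOn_E.inv fun x hx => ?_)
  exact D.E_ne_zero (by simpa using hx)

lemma h399_e_an (D : Star) : AnalyticAt ℂ (fun x => (D.E x)⁻¹) 0 := by
  have h0b : ball (0:ℂ) 1 ∈ 𝓝 (0:ℂ) := isOpen_ball.mem_nhds (by simp)
  exact (D.differentiableOn_E.analyticAt h0b).inv (D.E_ne_zero (by simp))

lemma h399_Z_ne (D : Star) {x : ℂ} (hx : ‖x‖ < 1) (h0 : x ≠ 0) : D.Z x ≠ 0 :=
  div_ne_zero (D.E_ne_zero hx) h0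

lemma h399_den (D : Star) (k : Fin D.n) {x : ℂ} (hx : ‖x‖ < 1) : 1 - x * D.η k ≠ 0 := by
  intro h
  have h1 : x * D.η k = 1 := (sub_eq_zero.1 h).symm
  have h2 : ‖x * D.η k‖ = 1 := by rw [h1, norm_one]
  rw [norm_mul, D.η_norm k, mul_one] at h2
  linarith

lemma h399_p_diff (D : Star) : DifferentiableOn ℂ D.p (ball 0 1) := by
  unfold Star.p
  refine DifferentiableOn.fun_sum fun k _ => ?_
  refine (differentiableOn_const _).mul (DifferentiableOn.div (by fun_prop) (by fun_prop) ?_)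
  intro x hx
  exact h399_den D k (by simpa using hx)

lemma h399_f_deriv (D : Star) {x0 : ℂ} (hx0 : ‖x0‖ < 1) (h0 : x0 ≠ 0) :
    HasDerivAt (fun x => 1 - D.Z x0 * (D.Z x)⁻¹) (-(D.p x0 / x0)) x0 := by
  have hZ := h399_Z_ne D hx0 h0
  have h1 := (D.hasDerivAt_Z hx0 h0).fun_inv hZ
  have h2 := (h1.const_mul (D.Z x0)).const_sub 1
  refine h2.congr_deriv ?_
  field_simp

lemma h399_p_ne (D : Star) {x : ℂ} (hx : ‖x‖ < 1) : D.p x ≠ 0 := by
  intro h
  have := D.re_p_pos hx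
  rw [h, Complex.zero_re] at this
  exact lt_irrefl _ this

/-- the only zero of `1 - z f` in the disc -/
lemma h399_zero (D : Star) {z x : ℂ} (hx : ‖x‖ < 1) (h : 1 - z * (D.Z x)⁻¹ = 0) :
    x ≠ 0 ∧ z = D.Z x := by
  have hx0 : x ≠ 0 := by
    intro h0
    rw [h399_f_eq, h0, zero_mul, mul_zero, sub_zero] at h
    exact one_ne_zero h
  refine ⟨hx0, ?_⟩
  have hZ := h399_Z_ne D hx hx0
  have h1 : z * (D.Z x)⁻¹ = 1 := (sub_eq_zero.1 h).symm
  field_simp at h1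
  exact h1

lemma h399_case_pole (D : Star) {P : ℂ → ℂ} (hP : DifferentiableOn ℂ P (ball 0 1)) {x0 : ℂ}
    (hx0 : x0 ≠ 0) {r C : ℝ} (hx0r : ‖x0‖ < r) (hr1 : r < 1)
    (hC : ∀ x ∈ sphere (0:ℂ) r, ‖P x / (1 - D.Z x0 * (D.Z x)⁻¹)‖ ≤ C) (N : ℕ) :
    ‖h399Tc N (fun x => P x / (1 - D.Z x0 * (D.Z x)⁻¹))‖ ≤
      ‖P x0 / D.p x0‖ / ‖x0‖ ^ N +
        (C + ‖P x0 / D.p x0‖ * ‖x0‖ / (r - ‖x0‖)) / r ^ N := by
  have hx01 : ‖x0‖ < 1 := hx0r.trans hr1
  have hx0b : ball (0:ℂ) 1 ∈ 𝓝 x0 := isOpen_ball.mem_nhds (by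
    rw [mem_ball_zero_iff]; exact hx01)
  have hud : DifferentiableOn ℂ (fun x => 1 - D.Z x0 * (D.Z x)⁻¹) (ball 0 1) :=
    (differentiableOn_const _).sub ((differentiableOn_const _).mul (h399_f_diff D))
  have hZ0 := h399_Z_ne D hx01 hx0
  have hu0 : (1 - D.Z x0 * (D.Z x0)⁻¹) = 0 := by
    rw [mul_inv_cancel₀ hZ0, sub_self]
  obtain ⟨k, hk⟩ : ∃ k : ℂ → ℂ, k = fun x => - dslope (fun x => 1 - D.Z x0 * (D.Z x)⁻¹) x0 x :=
    ⟨_, rfl⟩
  have hkd : DifferentiableOn ℂ k (ball 0 1) := by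
    rw [hk]
    exact ((Complex.differentiableOn_dslope hx0b).2 hud).neg
  have hk0 : k x0 = D.p x0 / x0 := by
    rw [hk]
    simp only [dslope_same]
    rw [(h399_f_deriv D hx01 hx0).deriv, neg_neg]
  have hkx : ∀ x, x ≠ x0 → k x = (1 - D.Z x0 * (D.Z x)⁻¹) / (x0 - x) := by
    intro x hne
    rw [hk]
    simp only [dslope_of_ne _ hne, slope_def_field]
    rw [hu0, sub_zero]
    have h2 : x0 - x = -(x - x0) := by ring
    rw [h2, div_neg]
  have hkne : ∀ x ∈ ball (0:ℂ) 1, k x ≠ 0 := by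
    intro x hx
    by_cases hne : x = x0
    · rw [hne, hk0]
      exact div_ne_zero (h399_p_ne D hx01) hx0
    · rw [hkx x hne]
      refine div_ne_zero (fun h => hne ?_) (sub_ne_zero.2 (Ne.symm hne))
      have hx1 : ‖x‖ < 1 := by simpa using hx
      obtain ⟨h1, h2⟩ := h399_zero D hx1 h
      exact (D.Z_injOn ⟨hx01, hx0⟩ ⟨hx1, h1⟩ h2).symm
  have hg : ∀ x ∈ ball (0:ℂ) 1, x ≠ x0 →
      P x / (1 - D.Z x0 * (D.Z x)⁻¹) = (fun x => P x / k x) x / (x0 - x) := by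
    intro x hx hne
    have h1 := hkne x hx
    have h2 : x0 - x ≠ 0 := sub_ne_zero.2 (Ne.symm hne)
    have h3 : 1 - D.Z x0 * (D.Z x)⁻¹ = k x * (x0 - x) := by
      rw [hkx x hne, div_mul_cancel₀ _ h2]
    rw [h3]
    simp only
    rw [div_div]
  have hmain := h399Tc_simple_pole N (g := fun x => P x / (1 - D.Z x0 * (D.Z x)⁻¹))
    (Φ := fun x => P x / k x) hx0 (hP.div hkd hkne) hx0r hr1 hg hC
  have hΦ : ‖P x0 / k x0‖ = ‖P x0 / D.p x0‖ * ‖x0‖ := by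
    rw [hk0, ← norm_mul]
    congr 1
    have := h399_p_ne D hx01
    field_simp
  rw [hΦ] at hmain
  have hx0n : ‖x0‖ ≠ 0 := norm_ne_zero_iff.2 hx0
  have e1 : ‖P x0 / D.p x0‖ * ‖x0‖ / ‖x0‖ ^ (N + 1) = ‖P x0 / D.p x0‖ / ‖x0‖ ^ N := by
    rw [pow_succ]
    field_simp
  rw [e1] at hmain
  exact hmain

lemma h399_bl_den (a : ℂ) (ha : ‖a‖ < 1) {x : ℂ} (hx : ‖x‖ < 1) :
    1 - (starRingEnd ℂ) a * x ≠ 0 := by
  intro h
  have h1 : (starRingEnd ℂ) a * x = 1 := (sub_eq_zero.1 h).symm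
  have h2 : ‖(starRingEnd ℂ) a * x‖ = 1 := by rw [h1, norm_one]
  rw [norm_mul, Complex.norm_conj] at h2
  nlinarith [norm_nonneg a, norm_nonneg x]

lemma h399_bl_factor (a : ℂ) (ha : ‖a‖ < 1) {x : ℂ} (hx : ‖x‖ < 1) :
    ‖(x - a) / (1 - (starRingEnd ℂ) a * x)‖ ≤ 1 := by
  rw [norm_div, div_le_one (norm_pos_iff.2 (h399_bl_den a ha hx))]
  have h1 : ‖x - a‖ ^ 2 ≤ ‖1 - (starRingEnd ℂ) a * x‖ ^ 2 := by
    have e1 : ‖1 - (starRingEnd ℂ) a * x‖ ^ 2 - ‖x - a‖ ^ 2 =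
        (1 - ‖x‖ ^ 2) * (1 - ‖a‖ ^ 2) := by
      rw [Complex.sq_norm, Complex.sq_norm, Complex.sq_norm, Complex.sq_norm,
        Complex.normSq_apply, Complex.normSq_apply, Complex.normSq_apply, Complex.normSq_apply]
      simp only [Complex.sub_re, Complex.sub_im, Complex.mul_re, Complex.mul_im, Complex.conj_re,
        Complex.conj_im, Complex.one_re, Complex.one_im]
      ring
    have h2 : 0 ≤ 1 - ‖x‖ ^ 2 := by nlinarith [norm_nonneg x]
    have h3 : 0 ≤ 1 - ‖a‖ ^ 2 := by nlinarith [norm_nonneg a]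
    nlinarith [mul_nonneg h2 h3]
  exact le_of_sq_le_sq h1 (norm_nonneg _)

lemma h399_bl_le {n : ℕ} (w : Fin n → ℂ) (hw : ∀ i, ‖w i‖ < 1) {x : ℂ} (hx : ‖x‖ < 1) :
    ‖bl w x‖ ≤ 1 := by
  unfold bl
  rw [norm_prod]
  exact prod_le_one (fun _ _ => norm_nonneg _) fun i _ => h399_bl_factor _ (hw i) hx

lemma h399_bl_diff {n : ℕ} (w : Fin n → ℂ) (hw : ∀ i, ‖w i‖ < 1) :
    DifferentiableOn ℂ (bl w) (ball 0 1) := by
  unfold bl
  refine DifferentiableOn.fun_finsetProd fun i _ => ?_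
  refine DifferentiableOn.div (by fun_prop) (by fun_prop) ?_
  intro x hx
  exact h399_bl_den _ (hw i) (by simpa using hx)

lemma h399_bl_zero {n : ℕ} (w : Fin n → ℂ) : bl w 0 = ∏ i, (-(w i)) := by
  unfold bl
  refine prod_congr rfl fun i _ => ?_
  simp

end h399b

section h399c

open Metric

lemma h399_radius (D : Star) {M : Set ℂ} (hpre : IsCompact (D.pre M)) :
    ∃ r0 : ℝ, 0 ≤ r0 ∧ r0 < 1 ∧ ∀ x ∈ D.pre M, ‖x‖ ≤ r0 := by
  rcases (D.pre M).eq_empty_or_nonempty with h | h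
  · exact ⟨0, le_rfl, one_pos, fun x hx => by rw [h] at hx; exact absurd hx (Set.notMem_empty _)⟩
  · obtain ⟨x0, hx0, hmax⟩ := hpre.exists_isMaxOn h continuous_norm.continuousOn
    exact ⟨‖x0‖, norm_nonneg _, hx0.1, fun x hx => hmax hx⟩

lemma h399_qbound (D : Star) (hD : D.IsStar) {M : Set ℂ} {r0 r C : ℝ} (_hC0 : 0 ≤ C)
    (hr0 : ∀ x ∈ D.pre M, ‖x‖ ≤ r0) (hr0r : r0 < r) (hrp : 0 < r) (hr1 : r < 1)
    (hC : ∀ z ∈ D.S ∪ M, ∀ x ∈ sphere (0:ℂ) r, ‖D.p x / (1 - z * (D.Z x)⁻¹)‖ ≤ C)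
    (N : ℕ) {n : ℕ} (w : Fin n → ℂ) (hw : ∀ i, w i ∈ D.pre M)
    (hbl : ∀ x ∈ D.pre M, ‖bl w x‖ ≤ ‖x‖ ^ N) (κ z : ℂ) (hz : z ∈ D.S ∪ M) :
    ‖h399Tc N (fun x => κ * (bl w x * D.p x) / (1 - z * (D.Z x)⁻¹))‖ ≤
      ‖κ‖ * (1 + (C + 1 / (r - r0)) / r ^ N) := by
  have hw1 : ∀ i, ‖w i‖ < 1 := fun i => (hw i).1
  have hPd : DifferentiableOn ℂ (fun x => κ * (bl w x * D.p x)) (ball 0 1) :=
    (differentiableOn_const _).mul ((h399_bl_diff w hw1).mul (h399_p_diff D))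
  have hrr : 0 < r - r0 := sub_pos.2 hr0r
  have hrN : 0 < r ^ N := pow_pos hrp N
  have hbound : ∀ x ∈ sphere (0:ℂ) r,
      ‖κ * (bl w x * D.p x) / (1 - z * (D.Z x)⁻¹)‖ ≤ ‖κ‖ * C := by
    intro x hx
    have hx1 : ‖x‖ < 1 := by
      have : ‖x‖ = r := by simpa using hx
      rw [this]; exact hr1
    have e1 : κ * (bl w x * D.p x) / (1 - z * (D.Z x)⁻¹) =
        κ * (bl w x * (D.p x / (1 - z * (D.Z x)⁻¹))) := by ring
    rw [e1, norm_mul, norm_mul]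
    refine mul_le_mul_of_nonneg_left ?_ (norm_nonneg _)
    calc _ ≤ 1 * C := mul_le_mul (h399_bl_le w hw1 hx1) (hC z hz x hx) (norm_nonneg _) zero_le_one
      _ = C := one_mul _
  by_cases hzero : ∀ x ∈ ball (0:ℂ) 1, 1 - z * (D.Z x)⁻¹ ≠ 0
  · have hd : DifferentiableOn ℂ (fun x => κ * (bl w x * D.p x) / (1 - z * (D.Z x)⁻¹))
        (ball 0 1) :=
      hPd.div ((differentiableOn_const _).sub
        ((differentiableOn_const _).mul (h399_f_diff D))) hzero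
    refine (h399Tc_bound hrp hr1 hd hbound).trans ?_
    rw [mul_div_assoc]
    refine mul_le_mul_of_nonneg_left ?_ (norm_nonneg _)
    have h1 : C / r ^ N ≤ (C + 1 / (r - r0)) / r ^ N := by
      refine div_le_div_of_nonneg_right ?_ hrN.le
      have : 0 ≤ 1 / (r - r0) := by positivity
      linarith
    linarith
  · push Not at hzero
    obtain ⟨x0, hx0b, hx0z⟩ := hzero
    have hx01 : ‖x0‖ < 1 := by simpa using hx0b
    obtain ⟨hx0, hzZ⟩ := h399_zero D hx01 hx0z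
    have hpre : x0 ∈ D.pre M := by
      refine ⟨hx01, hx0, ?_⟩
      rw [← hzZ]
      rcases hz with h | h
      · exact absurd (hzZ ▸ h) (D.Z_notMem_S hD hx01 hx0)
      · exact h
    have hle := hr0 x0 hpre
    have hx0r : ‖x0‖ < r := hle.trans_lt hr0r
    rw [hzZ] at hbound ⊢
    have hcase := h399_case_pole D hPd hx0 hx0r hr1 hbound N
    have hpn := h399_p_ne D hx01
    have e1 : κ * (bl w x0 * D.p x0) / D.p x0 = κ * bl w x0 := by
      field_simp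
    rw [e1] at hcase
    refine hcase.trans ?_
    have hx0p : 0 < ‖x0‖ := norm_pos_iff.2 hx0
    have h1 : ‖κ * bl w x0‖ / ‖x0‖ ^ N ≤ ‖κ‖ := by
      rw [norm_mul, div_le_iff₀ (pow_pos hx0p N)]
      exact mul_le_mul_of_nonneg_left (hbl x0 hpre) (norm_nonneg _)
    have h2 : ‖κ * bl w x0‖ * ‖x0‖ / (r - ‖x0‖) ≤ ‖κ‖ * (1 / (r - r0)) := by
      have h3 : ‖κ * bl w x0‖ * ‖x0‖ ≤ ‖κ‖ := by
        rw [norm_mul]
        have h4 := h399_bl_le w hw1 hx01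
        calc ‖κ‖ * ‖bl w x0‖ * ‖x0‖ ≤ ‖κ‖ * 1 * 1 := by
              refine mul_le_mul (mul_le_mul_of_nonneg_left h4 (norm_nonneg _)) hx01.le
                (norm_nonneg _) (by positivity)
          _ = ‖κ‖ := by ring
      have h5 : r - r0 ≤ r - ‖x0‖ := by linarith
      rw [mul_one_div]
      exact div_le_div₀ (norm_nonneg _) h3 hrr h5
    have h6 : (‖κ‖ * C + ‖κ * bl w x0‖ * ‖x0‖ / (r - ‖x0‖)) / r ^ N ≤
        (‖κ‖ * (C + 1 / (r - r0))) / r ^ N := by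
      refine div_le_div_of_nonneg_right ?_ hrN.le
      rw [mul_add]
      linarith
    calc _ ≤ ‖κ‖ + (‖κ‖ * (C + 1 / (r - r0))) / r ^ N := add_le_add h1 h6
      _ = _ := by ring

lemma h399_poly (N : ℕ) {P f e : ℂ → ℂ} (hP : AnalyticAt ℂ P 0) (he : AnalyticAt ℂ e 0)
    (hf : ∀ x, f x = x * e x) (h1 : P 0 * e 0 ^ N = 1) :
    ∃ q : Polynomial ℂ, q.Monic ∧ q.natDegree = N ∧
      ∀ z, q.eval z = h399Tc N (fun x => P x / (1 - z * f x)) := by
  set a : ℕ → ℂ := fun k => h399Tc N (fun x => P x * f x ^ k) with ha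
  have haN : a N = 1 := by
    rw [← h1]
    have h2 := h399Tc_pow_mul_eq (N := N) (h := fun x => P x * e x ^ N) (hP.mul (he.pow N))
    have h3 : (fun x => P x * f x ^ N) = fun x => x ^ N * (P x * e x ^ N) := by
      funext x
      rw [hf]; ring
    show h399Tc N (fun x => P x * f x ^ N) = _
    rw [h3]
    exact h2
  have hdeg : (∑ k ∈ range N, Polynomial.C (a k) * Polynomial.X ^ k).degree < (N : WithBot ℕ) := by
    refine (Polynomial.degree_sum_le _ _).trans_lt ?_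
    refine (Finset.sup_lt_iff (WithBot.bot_lt_coe N)).2 ?_
    intro k hk
    refine (Polynomial.degree_C_mul_X_pow_le _ _).trans_lt ?_
    rw [mem_range] at hk
    exact WithBot.coe_lt_coe.2 hk
  refine ⟨Polynomial.X ^ N + ∑ k ∈ range N, Polynomial.C (a k) * Polynomial.X ^ k,
    Polynomial.monic_X_pow_add hdeg, ?_, fun z => ?_⟩
  · rw [Polynomial.natDegree_add_eq_left_of_degree_lt, Polynomial.natDegree_X_pow]
    rw [Polynomial.degree_X_pow]
    exact hdeg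
  · rw [h399Tc_geom N hP he hf z, sum_range_succ]
    rw [Polynomial.eval_add, Polynomial.eval_pow, Polynomial.eval_X, Polynomial.eval_finsetSum]
    have e2 : h399Tc N (fun x => P x * f x ^ N) = 1 := haN
    rw [e2, mul_one, add_comm]
    congr 1
    refine sum_congr rfl fun k _ => ?_
    rw [Polynomial.eval_mul, Polynomial.eval_C, Polynomial.eval_pow, Polynomial.eval_X, mul_comm]

end h399c

theorem cap_upper (D : Star) (hD : D.IsStar) {M : Set ℂ} (hM : IsCompact M) (hMS : Disjoint M D.S)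
    (ε : ℝ) (hε : 0 < ε) : ∃ N0 : ℕ, ∀ N ≥ N0, ∀ (n : ℕ) (w : Fin n → ℂ), (∀ i, w i ∈ D.pre M) →
      (∀ x ∈ D.pre M, ‖bl w x‖ ≤ ‖x‖ ^ N) →
      cap (D.S ∪ M) ≤ ‖D.c‖ * Real.exp ((1 / (N : ℝ)) * ∑ i, gx (w i) + ε) := by
  have hpre := D.isCompact_pre hD hM hMS
  obtain ⟨r0, hr00, hr01, hr0⟩ := h399_radius D hpre
  obtain ⟨r, hr⟩ : ∃ r, r = max ((1 + r0) / 2) (Real.exp (-(ε / 2))) := ⟨_, rfl⟩
  have hr0r : r0 < r := by
    rw [hr]; exact lt_max_of_lt_left (by linarith)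
  have hrp : 0 < r := hr00.trans_lt hr0r
  have hr1 : r < 1 := by
    rw [hr]
    refine max_lt (by linarith) ?_
    have := Real.exp_lt_exp.2 (by linarith : -(ε / 2) < 0)
    rwa [Real.exp_zero] at this
  have hrε : Real.exp (-(ε / 2)) ≤ r := by rw [hr]; exact le_max_right _ _
  -- the compactness constant
  have hden : ∀ z ∈ D.S ∪ M, ∀ x ∈ Metric.sphere (0:ℂ) r, 1 - z * (D.Z x)⁻¹ ≠ 0 := by
    intro z hz x hx h
    have hxn : ‖x‖ = r := by simpa using hx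
    have hx1 : ‖x‖ < 1 := by rw [hxn]; exact hr1
    obtain ⟨hx0, hzZ⟩ := h399_zero D hx1 h
    have hnS := D.Z_notMem_S hD hx1 hx0
    rcases hz with h' | h'
    · rw [hzZ] at h'
      exact hnS h'
    · rw [hzZ] at h'
      have := hr0 x ⟨hx1, hx0, h'⟩
      linarith
  have hK : IsCompact ((D.S ∪ M) ×ˢ Metric.sphere (0:ℂ) r) :=
    (D.isCompact_S.union hM).prod (isCompact_sphere _ _)
  have hsub : Metric.sphere (0:ℂ) r ⊆ Metric.ball 0 1 := by
    intro x hx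
    have hxn : ‖x‖ = r := by simpa using hx
    rw [mem_ball_zero_iff, hxn]
    exact hr1
  have hcont : ContinuousOn (fun q : ℂ × ℂ => D.p q.2 / (1 - q.1 * (D.Z q.2)⁻¹))
      ((D.S ∪ M) ×ˢ Metric.sphere (0:ℂ) r) := by
    have hmaps : Set.MapsTo (fun q : ℂ × ℂ => q.2) ((D.S ∪ M) ×ˢ Metric.sphere (0:ℂ) r)
        (Metric.ball 0 1) := fun q hq => hsub hq.2
    refine ContinuousOn.div ?_ ?_ fun q hq => hden q.1 hq.1 q.2 hq.2
    · exact (h399_p_diff D).continuousOn.comp continuousOn_snd hmaps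
    · exact continuousOn_const.sub (continuousOn_fst.mul
        ((h399_f_diff D).continuousOn.comp continuousOn_snd hmaps))
  obtain ⟨C, hC⟩ := hK.exists_bound_of_continuousOn hcont
  obtain ⟨C', hC'⟩ : ∃ C', C' = max C 0 := ⟨_, rfl⟩
  have hC0 : 0 ≤ C' := by rw [hC']; exact le_max_right _ _
  have hCb : ∀ z ∈ D.S ∪ M, ∀ x ∈ Metric.sphere (0:ℂ) r,
      ‖D.p x / (1 - z * (D.Z x)⁻¹)‖ ≤ C' := by
    intro z hz x hx
    rw [hC']
    exact (hC (z, x) ⟨hz, hx⟩).trans (le_max_left _ _)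
  obtain ⟨C1, hC1⟩ : ∃ C1, C1 = C' + 1 / (r - r0) := ⟨_, rfl⟩
  have hC10 : 0 ≤ C1 := by
    have : 0 < r - r0 := sub_pos.2 hr0r
    rw [hC1]; positivity
  obtain ⟨N1, hN1⟩ := exists_nat_ge ((1 + C1) / (ε / 2))
  refine ⟨max N1 1, fun N hN n w hw hbl => ?_⟩
  have hN1' : (1 + C1) ≤ N * (ε / 2) := by
    rw [div_le_iff₀ (by positivity)] at hN1
    have h1 : (N1 : ℝ) ≤ N := by exact_mod_cast (le_max_left _ _).trans hN
    exact hN1.trans (mul_le_mul_of_nonneg_right h1 (by positivity))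
  have hNpos : 1 ≤ N := (le_max_right _ _).trans hN
  have hw1 : ∀ i, ‖w i‖ < 1 := fun i => (hw i).1
  have hwne : ∀ i, w i ≠ 0 := fun i => (hw i).2.1
  have hprodne : ∏ i, (-(w i)) ≠ 0 := prod_ne_zero_iff.2 fun i _ => neg_ne_zero.2 (hwne i)
  obtain ⟨κ, hκ⟩ : ∃ κ : ℂ, κ = D.c ^ N / ∏ i, (-(w i)) := ⟨_, rfl⟩
  have h0b : Metric.ball (0:ℂ) 1 ∈ 𝓝 (0:ℂ) := Metric.isOpen_ball.mem_nhds (by simp)
  have hPa : AnalyticAt ℂ (fun x => κ * (bl w x * D.p x)) 0 :=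
    analyticAt_const.mul (((h399_bl_diff w hw1).analyticAt h0b).mul
      ((h399_p_diff D).analyticAt h0b))
  obtain ⟨q, hqm, hqd, hqe⟩ := h399_poly N (P := fun x => κ * (bl w x * D.p x))
    (f := fun x => (D.Z x)⁻¹) (e := fun x => (D.E x)⁻¹) hPa (h399_e_an D) (h399_f_eq D) (by
      simp only [h399_bl_zero, D.p_zero, D.E_zero, hκ]
      have := D.c_ne
      field_simp
      rw [one_div, ← mul_pow, mul_inv_cancel₀ this, one_pow])
  have hκn : ‖κ‖ = ‖D.c‖ ^ N * Real.exp (∑ i, gx (w i)) := by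
    rw [hκ, norm_div, norm_pow, norm_prod, Real.exp_sum, div_eq_mul_inv, ← prod_inv_distrib]
    congr 1
    refine prod_congr rfl fun i _ => ?_
    unfold gx
    rw [norm_neg, Real.exp_neg, Real.exp_log (norm_pos_iff.2 (hwne i))]
  have hNr : (0:ℝ) < N := by exact_mod_cast hNpos
  refine cap_le_of_poly (D.isCompact_S.union hM).isBounded q hqm (by rw [hqd]; exact hNpos) _
    (by positivity) fun z hz => ?_
  rw [hqe, hqd]
  refine (h399_qbound D hD hC0 hr0 hr0r hrp hr1 hCb N w hw hbl κ z hz).trans ?_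
  rw [← hC1]
  have hA : (‖D.c‖ * Real.exp ((1 / (N : ℝ)) * ∑ i, gx (w i) + ε)) ^ N =
      ‖κ‖ * Real.exp (N * ε) := by
    rw [mul_pow, ← Real.exp_nat_mul, hκn, mul_assoc, ← Real.exp_add]
    congr 2
    field_simp
  rw [hA]
  refine mul_le_mul_of_nonneg_left ?_ (norm_nonneg _)
  have hrN : Real.exp (-(N * (ε / 2))) ≤ r ^ N := by
    have h1 : Real.exp (-(N * (ε / 2))) = Real.exp (-(ε / 2)) ^ N := by
      rw [← Real.exp_nat_mul]
      congr 1
      ring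
    rw [h1]
    exact pow_le_pow_left₀ (Real.exp_pos _).le hrε N
  have hrN0 : 0 < r ^ N := pow_pos hrp N
  have h2 : C1 / r ^ N ≤ C1 * Real.exp (N * (ε / 2)) := by
    rw [div_le_iff₀ hrN0, mul_assoc]
    have h3 : 1 ≤ Real.exp (N * (ε / 2)) * r ^ N := by
      calc (1:ℝ) = Real.exp (N * (ε / 2)) * Real.exp (-(N * (ε / 2))) := by
            rw [← Real.exp_add, add_neg_cancel, Real.exp_zero]
        _ ≤ _ := mul_le_mul_of_nonneg_left hrN (Real.exp_pos _).le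
    calc C1 = C1 * 1 := (mul_one _).symm
      _ ≤ _ := mul_le_mul_of_nonneg_left h3 hC10
  have h4 : (1:ℝ) ≤ Real.exp (N * (ε / 2)) := Real.one_le_exp (by positivity)
  have h5 : 1 + C1 ≤ Real.exp (N * (ε / 2)) := by
    have := Real.add_one_le_exp (N * (ε / 2))
    linarith
  have h6 : Real.exp (N * ε) = Real.exp (N * (ε / 2)) * Real.exp (N * (ε / 2)) := by
    rw [← Real.exp_add]
    congr 1
    ring
  rw [h6]
  calc 1 + C1 / r ^ N ≤ Real.exp (N * (ε / 2)) + C1 * Real.exp (N * (ε / 2)) := add_le_add h4 h2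
    _ = (1 + C1) * Real.exp (N * (ε / 2)) := by ring
    _ ≤ _ := mul_le_mul_of_nonneg_right h5 (Real.exp_pos _).le



end Pool.LR
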