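import Mathlib
import Pool.Agent.Helper50.LR.Defs

set_option autoImplicit false

open Complex Finset Filter Topology

namespace Pool.LR


/-! ### TARGETS (prove these; put auxiliary lemmas just before them) -/

theorem sl_den (d0 : ℝ) (a x : ℂ) (ha : ‖a‖ ≤ 1 - d0) (hx : ‖x‖ ≤ 1) :
    d0 ≤ ‖1 - (starRingEnd ℂ) a * x‖ := by
  have h1 : ‖(1 : ℂ)‖ - ‖(starRingEnd ℂ) a * x‖ ≤ ‖1 - (starRingEnd ℂ) a * x‖ :=
    norm_sub_norm_le _ _
  have h2 : ‖(starRingEnd ℂ) a * x‖ ≤ 1 - d0 := by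
    rw [norm_mul, RCLike.norm_conj]
    calc ‖a‖ * ‖x‖ ≤ ‖a‖ * 1 := by gcongr
      _ ≤ 1 - d0 := by rw [mul_one]; exact ha
  rw [norm_one] at h1
  linarith

theorem sl_id (a b : ℂ) :
    ‖1 - (starRingEnd ℂ) a * b‖ ^ 2 = ‖a - b‖ ^ 2 + (1 - ‖a‖ ^ 2) * (1 - ‖b‖ ^ 2) := by
  simp only [← Complex.normSq_eq_norm_sq, Complex.normSq_apply, Complex.sub_re, Complex.sub_im,
    Complex.one_re, Complex.one_im, Complex.mul_re, Complex.mul_im, Complex.conj_re,
    Complex.conj_im]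
  ring

theorem sl_symm (a b : ℂ) :
    ‖1 - (starRingEnd ℂ) a * b‖ = ‖1 - (starRingEnd ℂ) b * a‖ := by
  rw [← RCLike.norm_conj]
  congr 1
  simp [mul_comm]

theorem sl_lower (d0 : ℝ) (hd : 0 < d0) (a b : ℂ) (hab : a ≠ b) (ha : ‖a‖ ≤ 1 - d0)
    (hb : ‖b‖ ≤ 1 - d0) : (1 / 2) * Real.log (1 + d0 ^ 2 / 4) ≤ gG a b := by
  unfold gG
  have hpos : 0 < ‖a - b‖ := norm_pos_iff.2 (sub_ne_zero.2 hab)
  have ha0 := norm_nonneg a
  have hb0 := norm_nonneg b
  have hden : 0 < ‖1 - (starRingEnd ℂ) a * b‖ :=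
    hd.trans_le (sl_den d0 a b ha (hb.trans (by linarith)))
  have h2 : ‖a - b‖ ≤ 2 := by
    calc ‖a - b‖ ≤ ‖a‖ + ‖b‖ := norm_sub_le _ _
      _ ≤ 2 := by linarith
  have key : 1 + d0 ^ 2 / 4 ≤ (‖1 - (starRingEnd ℂ) a * b‖ / ‖a - b‖) ^ 2 := by
    rw [div_pow, le_div_iff₀ (by positivity), sl_id]
    have h3 : d0 ≤ 1 - ‖a‖ ^ 2 := by nlinarith
    have h4 : d0 ≤ 1 - ‖b‖ ^ 2 := by nlinarith
    have h5 : d0 * d0 ≤ (1 - ‖a‖ ^ 2) * (1 - ‖b‖ ^ 2) := by
      apply mul_le_mul h3 h4 hd.le (hd.le.trans h3)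
    have h6 : ‖a - b‖ ^ 2 ≤ 4 := by nlinarith
    nlinarith [sq_nonneg d0, mul_le_mul_of_nonneg_left h6 (sq_nonneg d0)]
  have h7 : Real.log ((‖1 - (starRingEnd ℂ) a * b‖ / ‖a - b‖) ^ 2)
      = 2 * Real.log (‖1 - (starRingEnd ℂ) a * b‖ / ‖a - b‖) := by
    rw [Real.log_pow]; norm_num
  have h8 := Real.log_le_log (by positivity) key
  linarith

theorem sl_close (d0 s : ℝ) (hd : 0 < d0) (hs : 0 < s) (a b : ℂ) (hab : a ≠ b)
    (ha : ‖a‖ ≤ 1 - d0) (hb : ‖b‖ ≤ 1 - d0) (h : ‖a - b‖ < 2 * s) :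
    Real.log (d0 / (2 * s)) ≤ gG a b := by
  unfold gG
  have hpos : 0 < ‖a - b‖ := norm_pos_iff.2 (sub_ne_zero.2 hab)
  have hden := sl_den d0 a b ha (hb.trans (by linarith))
  exact Real.log_le_log (by positivity) (div_le_div₀ (hd.le.trans hden) hden hpos h.le)

theorem sl_step2 (r0 d0 : ℝ) (hr : 0 < r0) (hd : 0 < d0) (N : ℕ) (ρ s κ : ℝ) (hρ : 0 < ρ)
    (hNρ : (N : ℝ) * ρ = 1) (hs : 0 < s) (hss : s * s = ρ) (hs1 : s ≤ 1) (hρr : ρ < r0)
    (hlog : 0 < Real.log (d0 / (2 * s)))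
    (hκ : κ = (ρ / d0 + s) / ((1 / 2) * Real.log (1 + d0 ^ 2 / 4)) + 1 / Real.log (d0 / (2 * s)))
    {n : ℕ} (w : Fin n → ℂ) (hinj : Function.Injective w)
    (hw : ∀ i, r0 ≤ ‖w i‖ ∧ ‖w i‖ ≤ 1 - d0)
    (hen : ∀ i, (1 / (N : ℝ)) * ∑ j ∈ Finset.univ.erase i, gG (w i) (w j) ≤ gx (w i))
    (x : ℂ) (hx1 : ‖x‖ ≤ 1) (hx : ∀ i, ρ ≤ ‖x - w i‖) (j : Fin n) (hj : ‖x - w j‖ = ρ) :
    (N : ℝ) * Real.log ‖x‖ ≤ 1 / r0 + Real.log (2 / ρ) + N * Real.log (1 / r0) * κ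
      + Real.log ‖bl w x‖ := by
  have hN : (0 : ℝ) < N := by
    rcases Nat.eq_zero_or_pos N with h | h
    · subst h; simp at hNρ
    · exact_mod_cast h
  set γ : ℝ := (1 / 2) * Real.log (1 + d0 ^ 2 / 4) with hγ
  have hγ0 : 0 < γ := by
    have : 0 < Real.log (1 + d0 ^ 2 / 4) := Real.log_pos (by nlinarith [sq_pos_of_pos hd])
    positivity
  have hwj := hw j
  have hwj0 : 0 < ‖w j‖ := hr.trans_le hwj.1
  have hκ0 : 0 ≤ κ := by rw [hκ]; positivity
  -- x ≠ 0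
  have hxn : 0 < ‖x‖ := by
    have h1 : ‖w j‖ ≤ ‖x‖ + ‖x - w j‖ := by
      calc ‖w j‖ = ‖x - (x - w j)‖ := by congr 1; ring
        _ ≤ ‖x‖ + ‖x - w j‖ := norm_sub_le _ _
    rw [hj] at h1
    linarith
  -- energy
  have hE : ∑ i ∈ Finset.univ.erase j, gG (w j) (w i) ≤ N * (- Real.log ‖w j‖) := by
    have h1 := hen j
    unfold gx at h1
    rw [one_div, inv_mul_le_iff₀ hN] at h1
    exact h1
  have hE2 : (N : ℝ) * (- Real.log ‖w j‖) ≤ N * Real.log (1 / r0) := by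
    refine mul_le_mul_of_nonneg_left ?_ hN.le
    rw [one_div, Real.log_inv]
    exact neg_le_neg (Real.log_le_log hr hwj.1)
  -- log |x| versus log |w j|
  have hxw : (N : ℝ) * Real.log ‖x‖ ≤ N * Real.log ‖w j‖ + 1 / r0 := by
    have h1 : ‖x‖ ≤ ‖w j‖ + ρ := by
      calc ‖x‖ = ‖w j + (x - w j)‖ := by congr 1; ring
        _ ≤ ‖w j‖ + ‖x - w j‖ := norm_add_le _ _
        _ = _ := by rw [hj]
    have h2 : Real.log ‖x‖ - Real.log ‖w j‖ ≤ ρ / r0 := by
      rw [← Real.log_div hxn.ne' hwj0.ne']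
      refine (Real.log_le_sub_one_of_pos (div_pos hxn hwj0)).trans ?_
      have h3 : ‖x‖ / ‖w j‖ - 1 = (‖x‖ - ‖w j‖) / ‖w j‖ := by
        field_simp
      rw [h3]
      calc (‖x‖ - ‖w j‖) / ‖w j‖ ≤ ρ / ‖w j‖ := by
            gcongr; linarith
        _ ≤ ρ / r0 := by gcongr; exact hwj.1
    have h4 : (N : ℝ) * (Real.log ‖x‖ - Real.log ‖w j‖) ≤ N * (ρ / r0) :=
      mul_le_mul_of_nonneg_left h2 hN.le
    have h5 : (N : ℝ) * (ρ / r0) = 1 / r0 := by
      rw [← mul_div_assoc, hNρ]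
    rw [h5] at h4
    linarith
  -- the terms
  set A : Fin n → ℝ := fun i => Real.log (‖x - w i‖ / ‖1 - (starRingEnd ℂ) (w i) * x‖) with hA
  have hxi : ∀ i, 0 < ‖x - w i‖ := fun i => hρ.trans_le (hx i)
  have hdi : ∀ i, 0 < ‖1 - (starRingEnd ℂ) (w i) * x‖ := fun i =>
    hd.trans_le (sl_den d0 _ _ (hw i).2 hx1)
  have hbl : Real.log ‖bl w x‖ = A j + ∑ i ∈ Finset.univ.erase j, A i := by
    rw [Finset.add_sum_erase _ _ (Finset.mem_univ j)]
    unfold bl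
    rw [norm_prod, Real.log_prod]
    · refine Finset.sum_congr rfl fun i _ => ?_
      rw [norm_div]
    · intro i _
      rw [norm_div]
      exact (div_pos (hxi i) (hdi i)).ne'
  have hAj : - Real.log (2 / ρ) ≤ A j := by
    have h1 : ‖1 - (starRingEnd ℂ) (w j) * x‖ ≤ 2 := by
      calc ‖1 - (starRingEnd ℂ) (w j) * x‖ ≤ ‖(1 : ℂ)‖ + ‖(starRingEnd ℂ) (w j) * x‖ :=
            norm_sub_le _ _
        _ ≤ 1 + 1 := by
            rw [norm_one, norm_mul, RCLike.norm_conj]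
            have h2 : ‖w j‖ ≤ 1 := hwj.2.trans (by linarith)
            have := mul_le_mul h2 hx1 (norm_nonneg _) zero_le_one
            linarith
        _ = 2 := by norm_num
    rw [← Real.log_inv, inv_div]
    simp only [hA]
    rw [hj]
    exact Real.log_le_log (by positivity) (by gcongr; exact hdi j)
  have hterm : ∀ i ∈ Finset.univ.erase j, - gG (w j) (w i) ≤ A i + κ * gG (w j) (w i) := by
    intro i hi
    have hij : i ≠ j := Finset.ne_of_mem_erase hi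
    have hwne : w j ≠ w i := fun h => hij (hinj h).symm
    have hpos : 0 < ‖w j - w i‖ := norm_pos_iff.2 (sub_ne_zero.2 hwne)
    have hdj : d0 ≤ ‖1 - (starRingEnd ℂ) (w j) * w i‖ :=
      sl_den d0 _ _ hwj.2 ((hw i).2.trans (by linarith))
    have hdj0 := hd.trans_le hdj
    have hg1 := sl_lower d0 hd (w j) (w i) hwne hwj.2 (hw i).2
    rw [← hγ] at hg1
    have hg0 : 0 < gG (w j) (w i) := hγ0.trans_le hg1
    have e1 : - gG (w j) (w i) - A i = Real.log (‖w j - w i‖ / ‖x - w i‖)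
        + Real.log (‖1 - (starRingEnd ℂ) (w i) * x‖ / ‖1 - (starRingEnd ℂ) (w j) * w i‖) := by
      simp only [hA, gG]
      rw [Real.log_div hdj0.ne' hpos.ne', Real.log_div (hxi i).ne' (hdi i).ne',
        Real.log_div hpos.ne' (hxi i).ne', Real.log_div (hdi i).ne' hdj0.ne']
      ring
    have e2 : Real.log (‖1 - (starRingEnd ℂ) (w i) * x‖ / ‖1 - (starRingEnd ℂ) (w j) * w i‖)
        ≤ ρ / d0 := by
      refine (Real.log_le_sub_one_of_pos (div_pos (hdi i) hdj0)).trans ?_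
      have h3 : ‖1 - (starRingEnd ℂ) (w i) * x‖ / ‖1 - (starRingEnd ℂ) (w j) * w i‖ - 1
          = (‖1 - (starRingEnd ℂ) (w i) * x‖ - ‖1 - (starRingEnd ℂ) (w j) * w i‖)
            / ‖1 - (starRingEnd ℂ) (w j) * w i‖ := by
        field_simp
      rw [h3]
      have h4 : ‖1 - (starRingEnd ℂ) (w i) * x‖ - ‖1 - (starRingEnd ℂ) (w j) * w i‖ ≤ ρ := by
        rw [sl_symm (w j) (w i)]
        calc ‖1 - (starRingEnd ℂ) (w i) * x‖ - ‖1 - (starRingEnd ℂ) (w i) * w j‖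
            ≤ ‖(1 - (starRingEnd ℂ) (w i) * x) - (1 - (starRingEnd ℂ) (w i) * w j)‖ :=
              norm_sub_norm_le _ _
          _ = ‖w i‖ * ‖x - w j‖ := by
              rw [show (1 - (starRingEnd ℂ) (w i) * x) - (1 - (starRingEnd ℂ) (w i) * w j)
                = - ((starRingEnd ℂ) (w i) * (x - w j)) by ring, norm_neg, norm_mul,
                RCLike.norm_conj]
          _ ≤ 1 * ρ := by
              rw [hj]
              gcongr
              exact (hw i).2.trans (by linarith)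
          _ = ρ := one_mul _
      calc (‖1 - (starRingEnd ℂ) (w i) * x‖ - ‖1 - (starRingEnd ℂ) (w j) * w i‖)
            / ‖1 - (starRingEnd ℂ) (w j) * w i‖ ≤ ρ / ‖1 - (starRingEnd ℂ) (w j) * w i‖ := by
            gcongr
        _ ≤ ρ / d0 := by gcongr
    have e3 : Real.log (‖w j - w i‖ / ‖x - w i‖) ≤ s + gG (w j) (w i) / Real.log (d0 / (2 * s)) := by
      have h0 : ‖w j - w i‖ ≤ ‖x - w i‖ + ρ := by
        calc ‖w j - w i‖ = ‖(x - w i) - (x - w j)‖ := by congr 1; ring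
          _ ≤ ‖x - w i‖ + ‖x - w j‖ := norm_sub_le _ _
          _ = _ := by rw [hj]
      have h1 : Real.log (‖w j - w i‖ / ‖x - w i‖) ≤ ρ / ‖x - w i‖ := by
        refine (Real.log_le_sub_one_of_pos (div_pos hpos (hxi i))).trans ?_
        have h3 : ‖w j - w i‖ / ‖x - w i‖ - 1 = (‖w j - w i‖ - ‖x - w i‖) / ‖x - w i‖ := by
          have := (hxi i).ne'
          field_simp
        rw [h3]
        have := hxi i
        gcongr
        linarith
      by_cases hcl : s ≤ ‖x - w i‖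
      · have h4 : ρ / ‖x - w i‖ ≤ s := by
          rw [div_le_iff₀ (hxi i), ← hss]
          exact mul_le_mul_of_nonneg_left hcl hs.le
        have h5 : 0 ≤ gG (w j) (w i) / Real.log (d0 / (2 * s)) := by positivity
        linarith
      · push Not at hcl
        have h4 : ‖w j - w i‖ < 2 * s := by
          have : ρ ≤ s := by rw [← hss]; nlinarith
          linarith
        have h5 := sl_close d0 s hd hs (w j) (w i) hwne hwj.2 (hw i).2 h4
        have h6 : 1 ≤ gG (w j) (w i) / Real.log (d0 / (2 * s)) := by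
          rw [le_div_iff₀ hlog, one_mul]; exact h5
        have h7 : ρ / ‖x - w i‖ ≤ 1 := by
          rw [div_le_one (hxi i)]; exact hx i
        linarith
    have e4 : ρ / d0 + s ≤ (ρ / d0 + s) / γ * gG (w j) (w i) := by
      rw [div_mul_eq_mul_div, le_div_iff₀ hγ0]
      exact mul_le_mul_of_nonneg_left hg1 (by positivity)
    have e5 : κ * gG (w j) (w i) = (ρ / d0 + s) / γ * gG (w j) (w i)
        + gG (w j) (w i) / Real.log (d0 / (2 * s)) := by
      rw [hκ]; ring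
    linarith
  have hsum := Finset.sum_le_sum hterm
  rw [Finset.sum_add_distrib, ← Finset.mul_sum, Finset.sum_neg_distrib] at hsum
  have h9 : κ * ∑ i ∈ Finset.univ.erase j, gG (w j) (w i) ≤ κ * (N * Real.log (1 / r0)) :=
    mul_le_mul_of_nonneg_left (hE.trans hE2) hκ0
  rw [hbl]
  nlinarith [hxw, hE, hsum, h9, hAj]

theorem static_lower (r0 d0 : ℝ) (hr : 0 < r0) (hd : 0 < d0) (ε : ℝ) (hε : 0 < ε) :
    ∃ N0 : ℕ, ∀ N ≥ N0, ∀ (n : ℕ) (w : Fin n → ℂ), Function.Injective w →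
      (∀ i, r0 ≤ ‖w i‖ ∧ ‖w i‖ ≤ 1 - d0) →
      (∀ i, (1 / (N : ℝ)) * ∑ j ∈ Finset.univ.erase i, gG (w i) (w j) ≤ gx (w i)) →
      ∀ x : ℂ, ‖x‖ ≤ 1 → (∀ i, 1 / (N : ℝ) ≤ ‖x - w i‖) →
        ‖x‖ ^ N ≤ Real.exp (ε * N) * ‖bl w x‖ := by
  set γ : ℝ := (1 / 2) * Real.log (1 + d0 ^ 2 / 4) with hγ
  have hNt : Tendsto (fun N : ℕ => (N : ℝ)) atTop atTop := tendsto_natCast_atTop_atTop
  have hinv : Tendsto (fun N : ℕ => (1 : ℝ) / N) atTop (𝓝 0) := tendsto_one_div_atTop_nhds_zero_nat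
  have hsq : Tendsto (fun N : ℕ => Real.sqrt (1 / (N : ℝ))) atTop (𝓝 0) := by
    have := (Real.continuous_sqrt.tendsto 0).comp hinv
    rw [Real.sqrt_zero] at this
    exact this
  have hsq' : Tendsto (fun N : ℕ => Real.sqrt (1 / (N : ℝ))) atTop (𝓝[>] 0) := by
    refine tendsto_nhdsWithin_iff.2 ⟨hsq, ?_⟩
    filter_upwards [eventually_gt_atTop 0] with N hN
    have : (0 : ℝ) < N := by exact_mod_cast hN
    exact Real.sqrt_pos.2 (by positivity)
  have hL : Tendsto (fun N : ℕ => Real.log (d0 / (2 * Real.sqrt (1 / (N : ℝ))))) atTop atTop := by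
    refine Real.tendsto_log_atTop.comp ?_
    have h1 : Tendsto (fun N : ℕ => (Real.sqrt (1 / (N : ℝ)))⁻¹) atTop atTop :=
      tendsto_inv_nhdsGT_zero.comp hsq'
    have h2 := h1.const_mul_atTop (show 0 < d0 / 2 by positivity)
    refine h2.congr fun N => ?_
    rw [div_mul_eq_div_div]
    rfl
  have hlogN : Tendsto (fun N : ℕ => Real.log (N : ℝ) / N) atTop (𝓝 0) := by
    have h1 : Tendsto (fun x : ℝ => Real.log x / x) atTop (𝓝 0) := by
      have := Real.isLittleO_log_id_atTop.tendsto_div_nhds_zero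
      exact this
    exact h1.comp hNt
  set F : ℕ → ℝ := fun N => ((1 / r0 + Real.log 2) * (1 / (N : ℝ)) + Real.log (N : ℝ) / N)
    + Real.log (1 / r0) * (((1 / (N : ℝ)) / d0 + Real.sqrt (1 / (N : ℝ))) / γ
      + 1 / Real.log (d0 / (2 * Real.sqrt (1 / (N : ℝ))))) with hF
  have hFt : Tendsto F atTop (𝓝 0) := by
    have h1 : Tendsto (fun N : ℕ => 1 / Real.log (d0 / (2 * Real.sqrt (1 / (N : ℝ))))) atTop
        (𝓝 0) := hL.const_div_atTop 1
    have h2 := ((hinv.const_mul (1 / r0 + Real.log 2)).add hlogN).add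
      (((((hinv.div_const d0).add hsq).div_const γ).add h1).const_mul (Real.log (1 / r0)))
    have h3 : (1 / r0 + Real.log 2) * 0 + 0 + Real.log (1 / r0) * ((0 / d0 + 0) / γ + 0)
      = (0 : ℝ) := by simp
    rw [h3] at h2
    exact h2
  have hev : ∀ᶠ N : ℕ in atTop, F N ≤ ε ∧ 0 < N ∧ (1 : ℝ) / N < r0 ∧
      Real.sqrt (1 / (N : ℝ)) ≤ 1 ∧ 0 < Real.log (d0 / (2 * Real.sqrt (1 / (N : ℝ)))) := by
    filter_upwards [hFt.eventually_le_const hε, eventually_gt_atTop 0,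
      hinv.eventually_lt_const hr, hsq.eventually_le_const zero_lt_one,
      hL.eventually_gt_atTop 0] with N h1 h2 h3 h4 h5
    exact ⟨h1, h2, h3, h4, h5⟩
  obtain ⟨N0, hN0⟩ := eventually_atTop.1 hev
  refine ⟨N0, fun N hNN n w hinj hw hen => ?_⟩
  obtain ⟨hFN, hNpos, hρr, hs1, hlog⟩ := hN0 N hNN
  have hN : (0 : ℝ) < N := by exact_mod_cast hNpos
  set ρ : ℝ := 1 / (N : ℝ) with hρd
  have hρ : 0 < ρ := by positivity
  set s : ℝ := Real.sqrt ρ with hsd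
  have hs : 0 < s := Real.sqrt_pos.2 hρ
  have hss : s * s = ρ := Real.mul_self_sqrt hρ.le
  have hNρ : (N : ℝ) * ρ = 1 := by rw [hρd]; field_simp
  -- positivity of the factors
  have hdi : ∀ (x : ℂ), ‖x‖ ≤ 1 → ∀ i, 0 < ‖1 - (starRingEnd ℂ) (w i) * x‖ := fun x hx i =>
    hd.trans_le (sl_den d0 _ _ (hw i).2 hx)
  have hblpos : ∀ x : ℂ, ‖x‖ ≤ 1 → (∀ i, ρ ≤ ‖x - w i‖) → 0 < ‖bl w x‖ := by
    intro x hx1 hx
    unfold bl
    rw [norm_prod]
    refine Finset.prod_pos fun i _ => ?_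
    rw [norm_div]
    exact div_pos (hρ.trans_le (hx i)) (hdi x hx1 i)
  have hexp1 : 1 ≤ Real.exp (ε * N) := Real.one_le_exp (by positivity)
  -- boundary part 1
  have hb1 : ∀ x : ℂ, ‖x‖ = 1 → (∀ i, ρ ≤ ‖x - w i‖) → ‖x‖ ^ N ≤ Real.exp (ε * N) * ‖bl w x‖ := by
    intro x hx1 hx
    have h1 : ‖bl w x‖ = 1 := by
      unfold bl
      rw [norm_prod]
      refine Finset.prod_eq_one fun i _ => ?_
      rw [norm_div, div_eq_one_iff_eq (hdi x hx1.le i).ne']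
      have h2 := sl_id (w i) x
      rw [hx1] at h2
      have h3 : ‖1 - (starRingEnd ℂ) (w i) * x‖ ^ 2 = ‖x - w i‖ ^ 2 := by
        rw [h2, norm_sub_rev]; ring
      exact ((sq_eq_sq₀ (norm_nonneg _) (norm_nonneg _)).1 h3).symm
    rw [h1, hx1, one_pow, mul_one]
    exact hexp1
  -- boundary part 2
  have hb2 : ∀ x : ℂ, ‖x‖ ≤ 1 → (∀ i, ρ ≤ ‖x - w i‖) → (∃ j, ‖x - w j‖ = ρ) →
      ‖x‖ ^ N ≤ Real.exp (ε * N) * ‖bl w x‖ := by
    rintro x hx1 hx ⟨j, hj⟩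
    have h1 := sl_step2 r0 d0 hr hd N ρ s _ hρ hNρ hs hss hs1 hρr hlog rfl w hinj hw hen x hx1 hx
      j hj
    have hblp := hblpos x hx1 hx
    by_cases hx0 : x = 0
    · subst hx0
      rw [norm_zero, zero_pow hNpos.ne']
      positivity
    have hxp : 0 < ‖x‖ := norm_pos_iff.2 hx0
    have h2 : (N : ℝ) * Real.log ‖x‖ ≤ ε * N + Real.log ‖bl w x‖ := by
      refine h1.trans ?_
      have h3 : 1 / r0 + Real.log (2 / ρ) + N * Real.log (1 / r0) *
          ((ρ / d0 + s) / (1 / 2 * Real.log (1 + d0 ^ 2 / 4)) + 1 / Real.log (d0 / (2 * s)))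
          = F N * N := by
        have h4 : Real.log (2 / ρ) = Real.log 2 + Real.log N := by
          rw [hρd, div_div_eq_mul_div, div_one, Real.log_mul (by norm_num) hN.ne']
        rw [h4]
        simp only [hF, ← hγ]
        rw [← hρd, ← hsd]
        have h5 : ∀ a b c e : ℝ, (a * ρ + b / N + c * e) * N = a * (N * ρ) + b * (N / N) + N * c * e := by
          intro a b c e; ring
        rw [h5, hNρ, div_self hN.ne']
        ring
      rw [h3]
      have h6 : F N * N ≤ ε * N := mul_le_mul_of_nonneg_right hFN hN.le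
      linarith
    have h7 := Real.exp_le_exp.2 h2
    rw [Real.exp_add, Real.exp_log hblp, ← Real.log_pow, Real.exp_log (by positivity)] at h7
    exact h7
  -- maximum principle
  intro x hx1 hx
  set H : ℂ → ℂ := fun y => y ^ N * ∏ i, ((1 - (starRingEnd ℂ) (w i) * y) / (y - w i)) with hH
  have hHb : ∀ y : ℂ, ‖y‖ ≤ 1 → (∀ i, ρ ≤ ‖y - w i‖) → ‖H y‖ * ‖bl w y‖ = ‖y‖ ^ N := by
    intro y hy1 hy
    simp only [hH, bl]
    rw [← norm_mul, mul_assoc, ← Finset.prod_mul_distrib, Finset.prod_eq_one, mul_one, norm_pow]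
    intro i _
    have h1 : y - w i ≠ 0 := norm_pos_iff.1 (hρ.trans_le (hy i))
    have h2 : 1 - (starRingEnd ℂ) (w i) * y ≠ 0 := norm_pos_iff.1 (hdi y hy1 i)
    field_simp
  have hHb' : ∀ y : ℂ, ‖y‖ ≤ 1 → (∀ i, ρ ≤ ‖y - w i‖) →
      ‖y‖ ^ N ≤ Real.exp (ε * N) * ‖bl w y‖ → ‖H y‖ ≤ Real.exp (ε * N) := by
    intro y hy1 hy h
    rw [← hHb y hy1 hy] at h
    exact le_of_mul_le_mul_right h (hblpos y hy1 hy)
  set U : Set ℂ := {y : ℂ | ‖y‖ < 1 ∧ ∀ i, ρ < ‖y - w i‖} with hU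
  have hUcl : closure U ⊆ {y : ℂ | ‖y‖ ≤ 1 ∧ ∀ i, ρ ≤ ‖y - w i‖} := by
    refine closure_minimal (fun y hy => ⟨hy.1.le, fun i => (hy.2 i).le⟩) ?_
    rw [show {y : ℂ | ‖y‖ ≤ 1 ∧ ∀ i, ρ ≤ ‖y - w i‖} = {y : ℂ | ‖y‖ ≤ 1} ∩ ⋂ i, {y : ℂ | ρ ≤ ‖y - w i‖}
      by ext y; simp]
    refine (isClosed_le continuous_norm continuous_const).inter (isClosed_iInter fun i => ?_)
    exact isClosed_le continuous_const (by fun_prop)
  have hUo : IsOpen U := by
    rw [show U = {y : ℂ | ‖y‖ < 1} ∩ ⋂ i, {y : ℂ | ρ < ‖y - w i‖} by ext y; simp [hU]]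
    refine (isOpen_lt continuous_norm continuous_const).inter (isOpen_iInter_of_finite fun i => ?_)
    exact isOpen_lt continuous_const (by fun_prop)
  by_cases hxU : x ∈ U
  · have hUb : Bornology.IsBounded U :=
      (Metric.isBounded_closedBall (x := (0 : ℂ)) (r := 1)).subset fun y hy => by
        simpa using hy.1.le
    have hdiff : DifferentiableOn ℂ H (closure U) := by
      intro y hy
      have hy' := hUcl hy
      refine DifferentiableAt.differentiableWithinAt ?_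
      refine (differentiableAt_id.pow N).mul ?_
      refine DifferentiableAt.fun_finsetProd fun i _ => ?_
      refine DifferentiableAt.div (by fun_prop) (by fun_prop) ?_
      exact norm_pos_iff.1 (hρ.trans_le (hy'.2 i))
    have hfr : ∀ y ∈ frontier U, ‖H y‖ ≤ Real.exp (ε * N) := by
      intro y hy
      rw [frontier, hUo.interior_eq] at hy
      obtain ⟨hy1, hy2⟩ := hUcl hy.1
      refine hHb' y hy1 hy2 ?_
      by_cases h1 : ‖y‖ = 1
      · exact hb1 y h1 hy2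
      · refine hb2 y hy1 hy2 ?_
        by_contra hne
        push Not at hne
        exact hy.2 ⟨lt_of_le_of_ne hy1 h1, fun i => lt_of_le_of_ne (hy2 i) (hne i).symm⟩
    have hfin := Complex.norm_le_of_forall_mem_frontier_norm_le hUb hdiff.diffContOnCl hfr
      (subset_closure hxU)
    rw [← hHb x hx1 hx]
    exact mul_le_mul_of_nonneg_right hfin (norm_nonneg _)
  · by_cases h1 : ‖x‖ = 1
    · exact hb1 x h1 hx
    · refine hb2 x hx1 hx ?_
      by_contra hne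
      push Not at hne
      exact hxU ⟨lt_of_le_of_ne hx1 h1, fun i => lt_of_le_of_ne (hx i) (hne i).symm⟩


end Pool.LR
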