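import Mathlib
import Pool.Agent.Helper50.LR.Defs
import Pool.Agent.Helper50.LR.E1

set_option autoImplicit false

open Complex Finset Filter Topology

namespace Pool.LR


/-! ### TARGETS (prove these; put auxiliary lemmas just before them) -/

theorem factor_sq (x w : ℂ) (h : 1 - (starRingEnd ℂ) w * x ≠ 0) :
    ‖(x - w) / (1 - (starRingEnd ℂ) w * x)‖ ^ 2 =
      1 - (1 - ‖x‖ ^ 2) * ((1 - ‖w‖ ^ 2) / ‖1 - (starRingEnd ℂ) w * x‖ ^ 2) := by
  have h1 : ‖x - w‖ ^ 2 = ‖1 - (starRingEnd ℂ) w * x‖ ^ 2 - (1 - ‖x‖ ^ 2) * (1 - ‖w‖ ^ 2) := by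
    rw [← Complex.normSq_eq_norm_sq, ← Complex.normSq_eq_norm_sq, ← Complex.normSq_eq_norm_sq,
      ← Complex.normSq_eq_norm_sq]
    simp only [Complex.normSq_apply, Complex.sub_re, Complex.sub_im, Complex.one_re, Complex.one_im,
      Complex.mul_re, Complex.mul_im, Complex.conj_re, Complex.conj_im]
    ring
  have h2 : ‖1 - (starRingEnd ℂ) w * x‖ ^ 2 ≠ 0 := pow_ne_zero _ (norm_ne_zero_iff.2 h)
  rw [norm_div, div_pow, h1]
  field_simp

theorem den_ne_E2 {x w : ℂ} (hx : ‖x‖ ≤ 1) (hw : ‖w‖ < 1) : 1 - (starRingEnd ℂ) w * x ≠ 0 := by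
  intro h
  have h1 : (starRingEnd ℂ) w * x = 1 := (sub_eq_zero.1 h).symm
  have h2 : ‖(starRingEnd ℂ) w * x‖ = 1 := by rw [h1, norm_one]
  rw [norm_mul, Complex.norm_conj] at h2
  have h3 : ‖w‖ * ‖x‖ ≤ ‖w‖ * 1 := mul_le_mul_of_nonneg_left hx (norm_nonneg _)
  linarith

theorem PiK_re (a w : ℂ) (h : 1 - a * (starRingEnd ℂ) w ≠ 0) :
    PiK a w = ((1 + a * (starRingEnd ℂ) w) / (1 - a * (starRingEnd ℂ) w)).re := by
  have h1 : ‖1 - (starRingEnd ℂ) a * w‖ = ‖1 - a * (starRingEnd ℂ) w‖ := by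
    rw [← Complex.norm_conj (1 - (starRingEnd ℂ) a * w)]
    simp
  have h2 : ‖1 - a * (starRingEnd ℂ) w‖ ^ 2 ≠ 0 := pow_ne_zero _ (norm_ne_zero_iff.2 h)
  unfold PiK
  rw [h1, Complex.div_re]
  rw [Complex.normSq_eq_norm_sq]
  have h3 : (‖a‖ * ‖w‖) ^ 2 = Complex.normSq (a * (starRingEnd ℂ) w) := by
    rw [Complex.normSq_eq_norm_sq, norm_mul, Complex.norm_conj]
  rw [h3, ← add_div]
  congr 1
  simp only [Complex.normSq_apply, Complex.add_re, Complex.sub_re, Complex.add_im, Complex.sub_im,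
    Complex.one_re, Complex.one_im]
  ring

/-- comparison on the annulus gives the bound on the circle -/
theorem circle_bound {n : ℕ} (w : Fin n → ℂ) (hw : ∀ i, ‖w i‖ < 1) (L : ℕ) (ρ : ℝ) (hρ0 : 0 < ρ)
    (hρ : ρ < 1)
    (hcmp : ∀ x : ℂ, ρ < ‖x‖ → ‖x‖ < 1 → ‖x‖ ^ L ≤ ‖bl w x‖) (ξ : ℂ) (hξ : ‖ξ‖ = 1) :
    ∑ j, PiK ξ (w j) ≤ L := by
  -- the function of the radius
  set S : ℝ → ℝ := fun r => ∑ j, (1 - ‖w j‖ ^ 2) / ‖1 - (starRingEnd ℂ) (w j) * ((r : ℂ) * ξ)‖ ^ 2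
    with hS
  have hnx : ∀ r : ℝ, 0 ≤ r → ‖(r : ℂ) * ξ‖ = r := by
    intro r hr
    rw [norm_mul, hξ, mul_one, Complex.norm_real, Real.norm_eq_abs, abs_of_nonneg hr]
  have hineq : ∀ r : ℝ, ρ < r → r < 1 → r * (1 + r) * S r ≤ 2 * L := by
    intro r hr1 hr2
    have hr0 : 0 < r := by linarith
    set x : ℂ := (r : ℂ) * ξ with hx
    have hxn : ‖x‖ = r := hnx r hr0.le
    have h1 := hcmp x (by rw [hxn]; exact hr1) (by rw [hxn]; exact hr2)
    rw [hxn] at h1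
    have h2 : ‖bl w x‖ ^ 2 ≤ Real.exp (-((1 - r ^ 2) * S r)) := by
      unfold bl
      rw [norm_prod, ← Finset.prod_pow, hS]
      simp only
      rw [Finset.mul_sum, ← Finset.sum_neg_distrib, Real.exp_sum]
      refine Finset.prod_le_prod (fun i _ => by positivity) fun i _ => ?_
      rw [factor_sq x (w i) (den_ne_E2 (by rw [hxn]; exact hr2.le) (hw i)), hxn]
      have := Real.add_one_le_exp (-((1 - r ^ 2) * ((1 - ‖w i‖ ^ 2) /
        ‖1 - (starRingEnd ℂ) (w i) * x‖ ^ 2)))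
      linarith
    have h3 : (r ^ L) ^ 2 ≤ Real.exp (-((1 - r ^ 2) * S r)) :=
      (pow_le_pow_left₀ (by positivity) h1 2).trans h2
    have h4 : 2 * L * Real.log r ≤ -((1 - r ^ 2) * S r) := by
      have h5 := Real.log_le_log (by positivity) h3
      rw [Real.log_exp, Real.log_pow, Real.log_pow] at h5
      push_cast at h5
      linarith
    have h6 : 1 - r⁻¹ ≤ Real.log r := Real.one_sub_inv_le_log_of_pos hr0
    have h7 : (1 - r ^ 2) * S r ≤ 2 * L * (r⁻¹ - 1) := by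
      have hL : (0 : ℝ) ≤ 2 * L := by positivity
      nlinarith
    have h8 : r⁻¹ - 1 = (1 - r) / r := by field_simp
    rw [h8] at h7
    have h9 : (1 - r) * (r * (1 + r) * S r) ≤ (1 - r) * (2 * L) := by
      have h10 := mul_le_mul_of_nonneg_left h7 hr0.le
      have e1 : r * (2 * L * ((1 - r) / r)) = (1 - r) * (2 * L) := by field_simp
      rw [e1] at h10
      nlinarith
    exact le_of_mul_le_mul_left h9 (by linarith)
  have hcont : ContinuousAt (fun r : ℝ => r * (1 + r) * S r) 1 := by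
    refine (by fun_prop : ContinuousAt (fun r : ℝ => r * (1 + r)) 1).mul ?_
    rw [hS]
    refine tendsto_finsetSum _ fun j _ => ?_
    have hc : ContinuousAt (fun r : ℝ => (1 - ‖w j‖ ^ 2) /
        ‖1 - (starRingEnd ℂ) (w j) * ((r : ℂ) * ξ)‖ ^ 2) 1 := by
      refine ContinuousAt.div continuousAt_const (by fun_prop) ?_
      refine pow_ne_zero _ (norm_ne_zero_iff.2 (den_ne_E2 ?_ (hw j)))
      rw [hnx 1 zero_le_one]
    exact hc
  have hlim : Tendsto (fun r : ℝ => r * (1 + r) * S r) (𝓝[<] 1) (𝓝 (1 * (1 + 1) * S 1)) :=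
    hcont.tendsto.mono_left nhdsWithin_le_nhds
  have hle : (1 : ℝ) * (1 + 1) * S 1 ≤ 2 * L := by
    refine le_of_tendsto hlim ?_
    have h1 : Set.Ioo ρ 1 ∈ 𝓝[<] (1 : ℝ) := Ioo_mem_nhdsLT hρ
    filter_upwards [h1] with r hr
    exact hineq r hr.1 hr.2
  have hS1 : S 1 = ∑ j, PiK ξ (w j) := by
    rw [hS]
    refine Finset.sum_congr rfl fun j _ => ?_
    unfold PiK
    rw [hξ, one_mul, Complex.ofReal_one, one_mul]
    congr 2
    rw [← Complex.norm_conj (1 - (starRingEnd ℂ) ξ * w j)]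
    simp [mul_comm]
  rw [hS1] at hle
  linarith

/-- from the circle to the disc -/
theorem disc_bound {n : ℕ} (w : Fin n → ℂ) (hw : ∀ i, ‖w i‖ < 1) (L : ℝ)
    (hc : ∀ ξ : ℂ, ‖ξ‖ = 1 → ∑ j, PiK ξ (w j) ≤ L) (a : ℂ) (ha : ‖a‖ ≤ 1) :
    ∑ j, PiK a (w j) ≤ L := by
  have hne : ∀ x : ℂ, ‖x‖ ≤ 1 → ∀ j, 1 - x * (starRingEnd ℂ) (w j) ≠ 0 := by
    intro x hx j
    have := den_ne_E2 hx (hw j)
    rwa [mul_comm] at this
  set F : ℂ → ℂ := fun x => ∑ j, (1 + x * (starRingEnd ℂ) (w j)) / (1 - x * (starRingEnd ℂ) (w j))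
    with hF
  have hre : ∀ x : ℂ, ‖x‖ ≤ 1 → (F x).re = ∑ j, PiK x (w j) := by
    intro x hx
    rw [hF]
    simp only
    rw [Complex.re_sum]
    exact Finset.sum_congr rfl fun j _ => (PiK_re x (w j) (hne x hx j)).symm
  have hd : DiffContOnCl ℂ (fun x => Complex.exp (F x)) (Metric.ball (0 : ℂ) 1) := by
    apply DifferentiableOn.diffContOnCl
    intro x hx
    have hx1 : ‖x‖ ≤ 1 := by
      have := Metric.closure_ball_subset_closedBall hx
      rwa [Metric.mem_closedBall, dist_zero_right] at this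
    refine DifferentiableAt.differentiableWithinAt ?_
    refine DifferentiableAt.cexp ?_
    rw [hF]
    refine DifferentiableAt.fun_sum fun j _ => ?_
    exact DifferentiableAt.div (by fun_prop) (by fun_prop) (hne x hx1 j)
  have hb : ∀ x ∈ frontier (Metric.ball (0 : ℂ) 1), ‖Complex.exp (F x)‖ ≤ Real.exp L := by
    intro x hx
    rw [frontier_ball (0 : ℂ) one_ne_zero, mem_sphere_zero_iff_norm] at hx
    rw [Complex.norm_exp, hre x hx.le]
    exact Real.exp_le_exp.2 (hc x hx)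
  have hacl : a ∈ closure (Metric.ball (0 : ℂ) 1) := by
    rw [closure_ball (0 : ℂ) one_ne_zero, Metric.mem_closedBall, dist_zero_right]
    exact ha
  have h1 := Complex.norm_le_of_forall_mem_frontier_norm_le Metric.isBounded_ball hd hb hacl
  rw [Complex.norm_exp, hre a ha] at h1
  exact Real.exp_le_exp.1 h1

theorem bl_diff {n : ℕ} (w : Fin n → ℂ) (hw : ∀ i, ‖w i‖ < 1) {x : ℂ} (hx : ‖x‖ ≤ 1) :
    DifferentiableAt ℂ (bl w) x := by
  unfold bl
  refine DifferentiableAt.fun_finsetProd fun j _ => ?_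
  exact DifferentiableAt.div (by fun_prop) (by fun_prop) (den_ne_E2 hx (hw j))

theorem bl_circle {n : ℕ} (w : Fin n → ℂ) (hw : ∀ i, ‖w i‖ < 1) {x : ℂ} (hx : ‖x‖ = 1) :
    ‖bl w x‖ = 1 := by
  unfold bl
  rw [norm_prod]
  refine Finset.prod_eq_one fun j _ => ?_
  have h1 := factor_sq x (w j) (den_ne_E2 hx.le (hw j))
  rw [hx] at h1
  have h2 : ‖(x - w j) / (1 - (starRingEnd ℂ) (w j) * x)‖ ^ 2 = 1 := by
    rw [h1]; ring
  exact (pow_eq_one_iff_of_nonneg (norm_nonneg _) two_ne_zero).1 h2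

theorem static_pi (r0 d0 : ℝ) (hr : 0 < r0) (hd : 0 < d0) (ε : ℝ) (hε : 0 < ε) :
    ∃ N0 : ℕ, ∀ N ≥ N0, ∀ (n : ℕ) (w : Fin n → ℂ), Function.Injective w →
      (∀ i, r0 ≤ ‖w i‖ ∧ ‖w i‖ ≤ 1 - d0) →
      (∀ i, (1 / (N : ℝ)) * ∑ j ∈ Finset.univ.erase i, gG (w i) (w j) ≤ gx (w i)) →
      ∀ a : ℂ, ‖a‖ ≤ 1 → (1 / (N : ℝ)) * ∑ j, PiK a (w j) ≤ 1 + ε := by
  by_cases hd1 : 1 ≤ d0
  · refine ⟨0, fun N _ n w _ hw _ a _ => ?_⟩
    have hn : n = 0 := by
      by_contra hn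
      have := hw ⟨0, Nat.pos_of_ne_zero hn⟩
      linarith [this.1, this.2]
    subst hn
    simp
    linarith
  push Not at hd1
  set δ : ℝ := d0 / 2 with hδ
  have hδ0 : 0 < δ := by positivity
  have hδ1 : δ < 1 := by linarith
  set ρ : ℝ := 1 - δ with hρ
  have hρ0 : 0 < ρ := by linarith
  have hρ1 : ρ < 1 := by linarith
  set lam : ℝ := -Real.log ρ with hlam
  have hlam0 : 0 < lam := by
    have := Real.log_neg hρ0 hρ1
    linarith
  set e' : ℝ := ε * lam / 2 with he'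
  have he'0 : 0 < e' := by positivity
  obtain ⟨N1, hN1⟩ := static_lower r0 d0 hr hd e' he'0
  obtain ⟨N2, hN2⟩ := exists_nat_ge (2 / d0)
  obtain ⟨N3, hN3⟩ := exists_nat_ge (2 / ε)
  refine ⟨max (max N1 N2) (max N3 1), fun N hN n w hinj hw hst a ha => ?_⟩
  have hNN1 : N1 ≤ N := by omega
  have hNN2 : (N2 : ℝ) ≤ N := by exact_mod_cast (by omega : N2 ≤ N)
  have hNN3 : (N3 : ℝ) ≤ N := by exact_mod_cast (by omega : N3 ≤ N)
  have hNp : (1 : ℝ) ≤ N := by exact_mod_cast (by omega : 1 ≤ N)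
  have hN0 : (0 : ℝ) < N := by linarith
  have hlow := hN1 N hNN1 n w hinj hw hst
  have hw1 : ∀ i, ‖w i‖ < 1 := fun i => by linarith [(hw i).2]
  have hNd : 1 / (N : ℝ) ≤ d0 / 2 := by
    have h1 : 2 / d0 ≤ N := hN2.trans hNN2
    rw [div_le_iff₀ hd] at h1
    rw [div_le_div_iff₀ hN0 (by norm_num)]
    linarith
  have hsep : ∀ x : ℂ, ρ ≤ ‖x‖ → ∀ i, 1 / (N : ℝ) ≤ ‖x - w i‖ := by
    intro x hx i
    have h1 : ‖x‖ - ‖w i‖ ≤ ‖x - w i‖ := norm_sub_norm_le x (w i)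
    have h2 := (hw i).2
    linarith
  set m : ℕ := ⌈e' * N / lam⌉₊ with hm
  have hm1 : e' * N / lam ≤ m := Nat.le_ceil _
  have hm2 : (m : ℝ) ≤ e' * N / lam + 1 := (Nat.ceil_lt_add_one (by positivity)).le
  have hblne : ∀ x : ℂ, ρ ≤ ‖x‖ → ‖x‖ ≤ 1 → bl w x ≠ 0 := by
    intro x hx1 hx2 h0
    have h1 := hlow x hx2 (hsep x hx1)
    rw [h0, norm_zero, mul_zero] at h1
    have : 0 < ‖x‖ ^ N := pow_pos (by linarith) N
    linarith
  -- comparison in the annulus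
  have hcmp : ∀ x : ℂ, ρ < ‖x‖ → ‖x‖ < 1 → ‖x‖ ^ (N + m) ≤ ‖bl w x‖ := by
    set U : Set ℂ := {x : ℂ | ρ < ‖x‖ ∧ ‖x‖ < 1} with hU
    have hUo : IsOpen U := by
      have h1 : IsOpen {x : ℂ | ρ < ‖x‖} := isOpen_lt continuous_const continuous_norm
      have h2 : IsOpen {x : ℂ | ‖x‖ < 1} := isOpen_lt continuous_norm continuous_const
      exact h1.inter h2
    have hUb : Bornology.IsBounded U := by
      refine (Metric.isBounded_ball (x := (0 : ℂ)) (r := 1)).subset ?_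
      intro x hx
      rw [Metric.mem_ball, dist_zero_right]
      exact hx.2
    have hUc : closure U ⊆ {x : ℂ | ρ ≤ ‖x‖ ∧ ‖x‖ ≤ 1} := by
      apply closure_minimal
      · intro x hx
        exact ⟨hx.1.le, hx.2.le⟩
      · have h1 : IsClosed {x : ℂ | ρ ≤ ‖x‖} := isClosed_le continuous_const continuous_norm
        have h2 : IsClosed {x : ℂ | ‖x‖ ≤ 1} := isClosed_le continuous_norm continuous_const
        exact h1.inter h2
    have hdc : DiffContOnCl ℂ (fun x => x ^ (N + m) / bl w x) U := by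
      apply DifferentiableOn.diffContOnCl
      intro x hx
      obtain ⟨hx1, hx2⟩ := hUc hx
      refine DifferentiableAt.differentiableWithinAt ?_
      exact DifferentiableAt.div (by fun_prop) (bl_diff w hw1 hx2) (hblne x hx1 hx2)
    have hfr : ∀ x ∈ frontier U, ‖x ^ (N + m) / bl w x‖ ≤ 1 := by
      intro x hx
      rw [hUo.frontier_eq] at hx
      obtain ⟨hx1, hx2⟩ := hUc hx.1
      have hbpos : 0 < ‖bl w x‖ := norm_pos_iff.2 (hblne x hx1 hx2)
      rw [norm_div, norm_pow, div_le_one hbpos]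
      have hcase : ‖x‖ = ρ ∨ ‖x‖ = 1 := by
        by_contra hcon
        push Not at hcon
        exact hx.2 ⟨lt_of_le_of_ne hx1 (Ne.symm hcon.1), lt_of_le_of_ne hx2 hcon.2⟩
      rcases hcase with h | h
      · have h1 := hlow x hx2 (hsep x hx1)
        have h2 : ‖x‖ ^ m * Real.exp (e' * N) ≤ 1 := by
          have h3 : ‖x‖ ^ m = Real.exp (-(lam * m)) := by
            rw [h, hlam, neg_mul, neg_neg, mul_comm, Real.exp_nat_mul, Real.exp_log hρ0]
          rw [h3, ← Real.exp_add, ← Real.exp_zero]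
          apply Real.exp_le_exp.2
          rw [div_le_iff₀ hlam0] at hm1
          linarith
        calc ‖x‖ ^ (N + m) = ‖x‖ ^ m * ‖x‖ ^ N := by rw [pow_add, mul_comm]
          _ ≤ ‖x‖ ^ m * (Real.exp (e' * N) * ‖bl w x‖) := by gcongr
          _ = (‖x‖ ^ m * Real.exp (e' * N)) * ‖bl w x‖ := by ring
          _ ≤ 1 * ‖bl w x‖ := by gcongr
          _ = ‖bl w x‖ := one_mul _
      · rw [bl_circle w hw1 h, h, one_pow]
    intro x hx1 hx2
    have hxU : x ∈ closure U := subset_closure ⟨hx1, hx2⟩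
    have h1 := Complex.norm_le_of_forall_mem_frontier_norm_le hUb hdc hfr hxU
    have hbpos : 0 < ‖bl w x‖ := norm_pos_iff.2 (hblne x hx1.le hx2.le)
    rw [norm_div, norm_pow, div_le_one hbpos] at h1
    exact h1
  have hcirc := circle_bound w hw1 (N + m) ρ hρ0 hρ1 hcmp
  have hdisc := disc_bound w hw1 ((N + m : ℕ) : ℝ) hcirc a ha
  have h1 : (1 / (N : ℝ)) * ∑ j, PiK a (w j) ≤ (1 / (N : ℝ)) * ((N + m : ℕ) : ℝ) := by gcongr
  refine h1.trans ?_
  push_cast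
  have h2 : (1 / (N : ℝ)) * (N + m) = 1 + m / N := by field_simp
  rw [h2]
  have h3 : (m : ℝ) / N ≤ ε := by
    rw [div_le_iff₀ hN0]
    have h4 : e' * N / lam = ε / 2 * N := by rw [he']; field_simp
    rw [h4] at hm2
    have h5 : 2 / ε ≤ N := hN3.trans hNN3
    rw [div_le_iff₀ hε] at h5
    linarith
  linarith


end Pool.LR
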