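import Mathlib

set_option autoImplicit false

open Complex ComplexConjugate

namespace Pool.LR

lemma one_sub_ne {z η : ℂ} (hz : ‖z‖ < 1) (hη : ‖η‖ = 1) : 1 - z * η ≠ 0 := by
  intro h
  have h1 : z * η = 1 := (sub_eq_zero.1 h).symm
  have : ‖z * η‖ = 1 := by rw [h1]; simp
  rw [norm_mul, hη, mul_one] at this
  linarith

lemma one_sub_conj_ne {z w : ℂ} (hz : ‖z‖ < 1) (hw : ‖w‖ < 1) : 1 - z * conj w ≠ 0 := by
  intro h
  have h1 : z * conj w = 1 := (sub_eq_zero.1 h).symm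
  have : ‖z * conj w‖ = 1 := by rw [h1]; simp
  rw [norm_mul, norm_conj] at this
  have : ‖z‖ * ‖w‖ < 1 := by nlinarith [norm_nonneg z, norm_nonneg w]
  linarith

variable {ι : Type*}

lemma sum_kernel1 (s : Finset ι) (m : ι → ℝ) (η : ι → ℂ) (hs : ∑ k ∈ s, m k = 1)
    (hη : ∀ k ∈ s, ‖η k‖ = 1) {z : ℂ} (hz : ‖z‖ < 1) :
    ∑ k ∈ s, (m k : ℂ) * (1 / (1 - z * η k)) =
      (1 + ∑ k ∈ s, (m k : ℂ) * ((1 + z * η k) / (1 - z * η k))) / 2 := by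
  have h1 : (∑ k ∈ s, (m k : ℂ)) = 1 := by exact_mod_cast hs
  calc ∑ k ∈ s, (m k : ℂ) * (1 / (1 - z * η k))
      = (∑ k ∈ s, (m k : ℂ) + ∑ k ∈ s, (m k : ℂ) * ((1 + z * η k) / (1 - z * η k))) / 2 := by
        rw [← Finset.sum_add_distrib, Finset.sum_div]
        refine Finset.sum_congr rfl fun k hk => ?_
        have := one_sub_ne hz (hη k hk)
        field_simp
        ring
    _ = _ := by rw [h1]

lemma sum_kernel2 (s : Finset ι) (m : ι → ℝ) (η : ι → ℂ)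
    (hη : ∀ k ∈ s, ‖η k‖ = 1) {z w : ℂ} (hz : ‖z‖ < 1) (hw : ‖w‖ < 1) :
    ∑ k ∈ s, (m k : ℂ) * (1 / (1 - z * η k) * conj (1 / (1 - w * η k))) =
      (∑ k ∈ s, (m k : ℂ) * ((1 + z * η k) / (1 - z * η k)) +
        conj (∑ k ∈ s, (m k : ℂ) * ((1 + w * η k) / (1 - w * η k)))) / (2 * (1 - z * conj w)) := by
  rw [map_sum, ← Finset.sum_add_distrib, Finset.sum_div]
  refine Finset.sum_congr rfl fun k hk => ?_
  have h1 := one_sub_ne hz (hη k hk)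
  have h2 : 1 - conj w * conj (η k) ≠ 0 :=
    one_sub_ne (by rwa [norm_conj]) (by rw [norm_conj]; exact hη k hk)
  have h3 := one_sub_conj_ne hz hw
  have h4 : η k * conj (η k) = 1 := by
    rw [Complex.mul_conj, Complex.normSq_eq_norm_sq, hη k hk]; simp
  simp only [map_mul, map_div₀, map_one, map_sub, map_add, Complex.conj_ofReal]
  field_simp
  linear_combination (2 * (m k : ℂ) * z * conj w) * h4

/-- The Pick-type identity. -/
lemma pick_sum (s : Finset ι) (m : ι → ℝ) (η : ι → ℂ) (hs : ∑ k ∈ s, m k = 1)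
    (hη : ∀ k ∈ s, ‖η k‖ = 1) {u w : ℂ} (hu : ‖u‖ < 1) (hw : ‖w‖ < 1) (a : ℝ) (α β : ℂ)
    (P Q : ℂ) (hP : P = ∑ k ∈ s, (m k : ℂ) * ((1 + u * η k) / (1 - u * η k)))
    (hQ : Q = ∑ k ∈ s, (m k : ℂ) * ((1 + w * η k) / (1 - w * η k))) :
    ((∑ k ∈ s, m k * ‖(a : ℂ) + α * (1 / (1 - u * η k)) + β * (1 / (1 - w * η k))‖ ^ 2 : ℝ) : ℂ) =
      (a : ℂ) ^ 2 + a * α * ((1 + P) / 2) + a * conj α * conj ((1 + P) / 2) +
      a * β * ((1 + Q) / 2) + a * conj β * conj ((1 + Q) / 2) +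
      α * conj α * ((P + conj P) / (2 * (1 - u * conj u))) +
      β * conj β * ((Q + conj Q) / (2 * (1 - w * conj w))) +
      α * conj β * ((P + conj Q) / (2 * (1 - u * conj w))) +
      conj α * β * ((Q + conj P) / (2 * (1 - w * conj u))) := by
  have h1 : (∑ k ∈ s, (m k : ℂ)) = 1 := by exact_mod_cast hs
  have e1 := sum_kernel1 s m η hs hη hu
  have e2 := sum_kernel1 s m η hs hη hw
  have e3 := sum_kernel2 s m η hη hu hu
  have e4 := sum_kernel2 s m η hη hw hw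
  have e5 := sum_kernel2 s m η hη hu hw
  have e6 := sum_kernel2 s m η hη hw hu
  rw [← hP] at e1 e3 e5 e6
  rw [← hQ] at e2 e4 e5 e6
  rw [← e3, ← e4, ← e5, ← e6, ← e1, ← e2]
  have h2 : (a : ℂ) ^ 2 = ∑ k ∈ s, (m k : ℂ) * (a : ℂ) ^ 2 := by
    rw [← Finset.sum_mul, h1, one_mul]
  rw [h2]
  push_cast
  simp only [map_sum, Finset.mul_sum]
  simp only [← Finset.sum_add_distrib]
  refine Finset.sum_congr rfl fun k hk => ?_
  have h3 : ((‖(a : ℂ) + α * (1 / (1 - u * η k)) + β * (1 / (1 - w * η k))‖ : ℝ) : ℂ) ^ 2 =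
      ((a : ℂ) + α * (1 / (1 - u * η k)) + β * (1 / (1 - w * η k))) *
      conj ((a : ℂ) + α * (1 / (1 - u * η k)) + β * (1 / (1 - w * η k))) := by
    rw [Complex.mul_conj, Complex.normSq_eq_norm_sq]; push_cast; ring
  rw [h3]
  simp only [map_mul, map_add, Complex.conj_ofReal]
  ring

/-- pure field identity behind the Pick certificate -/
lemma alg_id (u ub w wb R x xb y yb : ℂ) (h1 : u - w ≠ 0) (h2 : ub - wb ≠ 0)
    (h3 : 1 - u * ub ≠ 0) (h4 : 1 - w * wb ≠ 0) (h5 : 1 - u * wb ≠ 0) (h6 : 1 - w * ub ≠ 0)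
    (hR : R ^ 2 = u * ub * w * wb) (cu cub cw cwb : ℂ)
    (hcu : cu = w * (1 - u * wb) * (1 - u * ub) / (u - w))
    (hcub : cub = wb * (1 - w * ub) * (1 - u * ub) / (ub - wb))
    (hcw : cw = -(u * (1 - w * ub) * (1 - w * wb) / (u - w)))
    (hcwb : cwb = -(ub * (1 - u * wb) * (1 - w * wb) / (ub - wb))) :
    (1 - R) ^ 2 + (1 - R) * (cu * (x + 1) + cub * (xb + 1) + cw * (y + 1) + cwb * (yb + 1)) / 2 +
      cu * cub * ((x + xb) / (2 * (1 - u * ub))) + cw * cwb * ((y + yb) / (2 * (1 - w * wb))) +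
      cu * cwb * ((x + yb) / (2 * (1 - u * wb))) + cub * cw * ((y + xb) / (2 * (1 - w * ub))) =
    R * ((1 - w * ub) * (1 - u * wb) *
      ((x * (w * (1 - u * ub) / ((1 - w * ub) * -(u - w))) +
        xb * (wb * (1 - u * ub) / ((1 - u * wb) * -(ub - wb))) +
        y * (u * (1 - w * wb) / ((1 - u * wb) * (u - w))) +
        yb * (ub * (1 - w * wb) / ((1 - w * ub) * (ub - wb)))) / 2) - (1 - R) ^ 2) := by
  have h3' : 1 - ub * u ≠ 0 := by rwa [mul_comm]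
  have h4' : 1 - wb * w ≠ 0 := by rwa [mul_comm]
  have h5' : 1 - wb * u ≠ 0 := by rwa [mul_comm]
  have h6' : 1 - ub * w ≠ 0 := by rwa [mul_comm]
  have L1 : (1 - R) + cub / (1 - u * ub) + cwb / (1 - u * wb) = -R := by
    have e1 : cub / (1 - u * ub) = wb * (1 - w * ub) / (ub - wb) := by
      rw [hcub]; field_simp
    have e2 : cwb / (1 - u * wb) = -(ub * (1 - w * wb) / (ub - wb)) := by
      rw [hcwb]; field_simp
    rw [e1, e2]; field_simp; ring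
  have L2 : (1 - R) + cu / (1 - u * ub) + cw / (1 - w * ub) = -R := by
    rw [hcu, hcw]; field_simp; ring
  have L3 : (1 - R) + cwb / (1 - w * wb) + cub / (1 - w * ub) = -R := by
    have e1 : cub / (1 - w * ub) = wb * (1 - u * ub) / (ub - wb) := by
      rw [hcub]; field_simp
    have e2 : cwb / (1 - w * wb) = -(ub * (1 - u * wb) / (ub - wb)) := by
      rw [hcwb]; field_simp
    rw [e1, e2]; field_simp; ring
  have L4 : (1 - R) + cw / (1 - w * wb) + cu / (1 - u * wb) = -R := by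
    rw [hcu, hcw]; field_simp; ring
  have L5 : cu + cw = -(1 - R ^ 2) := by
    rw [hcu, hcw, hR]; field_simp; ring
  have L6 : cub + cwb = -(1 - R ^ 2) := by
    rw [hcub, hcwb, hR]; field_simp; ring
  have M1 : R * ((1 - w * ub) * (1 - u * wb) * (w * (1 - u * ub) / ((1 - w * ub) * -(u - w)))) =
      cu * (-R) := by
    rw [hcu]; field_simp
  have M2 : R * ((1 - w * ub) * (1 - u * wb) *
      (wb * (1 - u * ub) / ((1 - u * wb) * -(ub - wb)))) = cub * (-R) := by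
    rw [hcub]; field_simp
  have M3 : R * ((1 - w * ub) * (1 - u * wb) * (u * (1 - w * wb) / ((1 - u * wb) * (u - w)))) =
      cw * (-R) := by
    rw [hcw]; field_simp
  have M4 : R * ((1 - w * ub) * (1 - u * wb) *
      (ub * (1 - w * wb) / ((1 - w * ub) * (ub - wb)))) = cwb * (-R) := by
    rw [hcwb]; field_simp
  have lhs : (1 - R) ^ 2 +
      (1 - R) * (cu * (x + 1) + cub * (xb + 1) + cw * (y + 1) + cwb * (yb + 1)) / 2 +
      cu * cub * ((x + xb) / (2 * (1 - u * ub))) + cw * cwb * ((y + yb) / (2 * (1 - w * wb))) +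
      cu * cwb * ((x + yb) / (2 * (1 - u * wb))) + cub * cw * ((y + xb) / (2 * (1 - w * ub))) =
      (1 - R) ^ 2 + (1 - R) * ((cu + cw) + (cub + cwb)) / 2 +
      x / 2 * (cu * ((1 - R) + cub / (1 - u * ub) + cwb / (1 - u * wb))) +
      xb / 2 * (cub * ((1 - R) + cu / (1 - u * ub) + cw / (1 - w * ub))) +
      y / 2 * (cw * ((1 - R) + cwb / (1 - w * wb) + cub / (1 - w * ub))) +
      yb / 2 * (cwb * ((1 - R) + cw / (1 - w * wb) + cu / (1 - u * wb))) := by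
    clear hcu hcub hcw hcwb L1 L2 L3 L4 L5 L6 M1 M2 M3 M4
    field_simp
    ring
  rw [lhs, L1, L2, L3, L4, L5, L6, ← M1, ← M2, ← M3, ← M4]
  ring

/-- The Pick bound: `T₁ + T₂ ≥ (1-R)²/|1-v|²`. -/
lemma T_sum_ge (s : Finset ι) (m : ι → ℝ) (η : ι → ℂ) (hm : ∀ k ∈ s, 0 < m k)
    (hs : ∑ k ∈ s, m k = 1)
    (hη : ∀ k ∈ s, ‖η k‖ = 1) {u w : ℂ} (hu : ‖u‖ < 1) (hw : ‖w‖ < 1) (hu0 : u ≠ 0)
    (hw0 : w ≠ 0) (huw : u ≠ w) (P Q : ℂ)
    (hP : P = ∑ k ∈ s, (m k : ℂ) * ((1 + u * η k) / (1 - u * η k)))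
    (hQ : Q = ∑ k ∈ s, (m k : ℂ) * ((1 + w * η k) / (1 - w * η k))) (hP0 : P ≠ 0) (hQ0 : Q ≠ 0) :
    (1 - ‖u‖ * ‖w‖) ^ 2 ≤ ‖1 - conj u * w‖ ^ 2 *
      ((P⁻¹ * (w * (1 - (‖u‖ : ℂ) ^ 2) / ((1 - conj u * w) * (w - u)))).re +
       (Q⁻¹ * (u * (1 - (‖w‖ : ℂ) ^ 2) / ((1 - conj w * u) * (u - w)))).re) := by
  set R : ℝ := ‖u‖ * ‖w‖ with hRd
  have hR0 : 0 < R := mul_pos (norm_pos_iff.2 hu0) (norm_pos_iff.2 hw0)
  have hunorm : (‖u‖ : ℂ) ^ 2 = u * conj u := by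
    rw [Complex.mul_conj, Complex.normSq_eq_norm_sq]; push_cast; ring
  have hwnorm : (‖w‖ : ℂ) ^ 2 = w * conj w := by
    rw [Complex.mul_conj, Complex.normSq_eq_norm_sq]; push_cast; ring
  have hR2 : (R : ℂ) ^ 2 = u * conj u * w * conj w := by
    rw [hRd]; push_cast; rw [mul_pow, hunorm, hwnorm]; ring
  set ub := conj u with hub
  set wb := conj w with hwb
  have h1 : u - w ≠ 0 := sub_ne_zero.2 huw
  have h2 : ub - wb ≠ 0 := by
    intro h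
    apply huw
    have : ub = wb := sub_eq_zero.1 h
    exact (starRingEnd ℂ).injective this
  have hubb : conj ub = u := by rw [hub, Complex.conj_conj]
  have hwbb : conj wb = w := by rw [hwb, Complex.conj_conj]
  have h3 : 1 - u * ub ≠ 0 := one_sub_conj_ne hu hu
  have h4 : 1 - w * wb ≠ 0 := one_sub_conj_ne hw hw
  have h5 : 1 - u * wb ≠ 0 := one_sub_conj_ne hu hw
  have h6 : 1 - w * ub ≠ 0 := one_sub_conj_ne hw hu
  obtain ⟨cu, hcu⟩ : ∃ cu, cu = w * (1 - u * wb) * (1 - u * ub) / (u - w) := ⟨_, rfl⟩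
  obtain ⟨cub, hcub⟩ : ∃ cub, cub = wb * (1 - w * ub) * (1 - u * ub) / (ub - wb) := ⟨_, rfl⟩
  obtain ⟨cw, hcw⟩ : ∃ cw, cw = -(u * (1 - w * ub) * (1 - w * wb) / (u - w)) := ⟨_, rfl⟩
  obtain ⟨cwb, hcwb⟩ : ∃ cwb, cwb = -(ub * (1 - u * wb) * (1 - w * wb) / (ub - wb)) := ⟨_, rfl⟩
  have hcub' : conj cu = cub := by
    rw [hcu, hcub, hub, hwb]
    simp only [map_div₀, map_mul, map_sub, map_one, Complex.conj_conj]
    ring
  have hcwb' : conj cw = cwb := by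
    rw [hcw, hcwb, hub, hwb]
    simp only [map_neg, map_div₀, map_mul, map_sub, map_one, Complex.conj_conj]
    ring
  have key := pick_sum s m η hs hη hu hw (1 - R) (cu * P⁻¹) (cw * Q⁻¹) P Q hP hQ
  have alg := alg_id u ub w wb R P⁻¹ (conj P)⁻¹ Q⁻¹ (conj Q)⁻¹ h1 h2 h3 h4 h5 h6 hR2
    cu cub cw cwb hcu hcub hcw hcwb
  have x1 : P⁻¹ * P = 1 := inv_mul_cancel₀ hP0
  have x2 : (conj P)⁻¹ * conj P = 1 := inv_mul_cancel₀ (by simpa using hP0)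
  have x3 : Q⁻¹ * Q = 1 := inv_mul_cancel₀ hQ0
  have x4 : (conj Q)⁻¹ * conj Q = 1 := inv_mul_cancel₀ (by simpa using hQ0)
  have e1 : (((1 - R : ℝ) : ℂ)) ^ 2 + ((1 - R : ℝ) : ℂ) * (cu * P⁻¹) * ((1 + P) / 2) +
      ((1 - R : ℝ) : ℂ) * conj (cu * P⁻¹) * conj ((1 + P) / 2) +
      ((1 - R : ℝ) : ℂ) * (cw * Q⁻¹) * ((1 + Q) / 2) +
      ((1 - R : ℝ) : ℂ) * conj (cw * Q⁻¹) * conj ((1 + Q) / 2) +
      (cu * P⁻¹) * conj (cu * P⁻¹) * ((P + conj P) / (2 * (1 - u * conj u))) +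
      (cw * Q⁻¹) * conj (cw * Q⁻¹) * ((Q + conj Q) / (2 * (1 - w * conj w))) +
      (cu * P⁻¹) * conj (cw * Q⁻¹) * ((P + conj Q) / (2 * (1 - u * conj w))) +
      conj (cu * P⁻¹) * (cw * Q⁻¹) * ((Q + conj P) / (2 * (1 - w * conj u))) =
      (1 - (R : ℂ)) ^ 2 + (1 - (R : ℂ)) * (cu * (P⁻¹ + 1) + cub * ((conj P)⁻¹ + 1) +
        cw * (Q⁻¹ + 1) + cwb * ((conj Q)⁻¹ + 1)) / 2 +
      cu * cub * ((P⁻¹ + (conj P)⁻¹) / (2 * (1 - u * ub))) +
      cw * cwb * ((Q⁻¹ + (conj Q)⁻¹) / (2 * (1 - w * wb))) +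
      cu * cwb * ((P⁻¹ + (conj Q)⁻¹) / (2 * (1 - u * wb))) +
      cub * cw * ((Q⁻¹ + (conj P)⁻¹) / (2 * (1 - w * ub))) := by
    simp only [map_mul, map_inv₀, map_div₀, map_add, map_one, hcub', hcwb', Complex.conj_ofNat,
      Complex.ofReal_sub, Complex.ofReal_one]
    rw [← hub, ← hwb]
    linear_combination ((1 - (R : ℂ)) * cu / 2 + cu * cub * (conj P)⁻¹ / (2 * (1 - u * ub)) +
        cu * cwb * (conj Q)⁻¹ / (2 * (1 - u * wb))) * x1 +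
      ((1 - (R : ℂ)) * cub / 2 + cu * cub * P⁻¹ / (2 * (1 - u * ub)) +
        cub * cw * Q⁻¹ / (2 * (1 - w * ub))) * x2 +
      ((1 - (R : ℂ)) * cw / 2 + cw * cwb * (conj Q)⁻¹ / (2 * (1 - w * wb)) +
        cub * cw * (conj P)⁻¹ / (2 * (1 - w * ub))) * x3 +
      ((1 - (R : ℂ)) * cwb / 2 + cw * cwb * Q⁻¹ / (2 * (1 - w * wb)) +
        cu * cwb * P⁻¹ / (2 * (1 - u * wb))) * x4
  rw [e1, alg] at key
  have hre := congrArg Complex.re key
  rw [Complex.ofReal_re] at hre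
  have hnn : 0 ≤ ∑ k ∈ s, m k * ‖((1 - R : ℝ) : ℂ) + cu * P⁻¹ * (1 / (1 - u * η k)) +
      cw * Q⁻¹ * (1 / (1 - w * η k))‖ ^ 2 :=
    Finset.sum_nonneg fun k hk => mul_nonneg (hm k hk).le (sq_nonneg _)
  rw [hre] at hnn
  have e2 : ((R : ℂ) * ((1 - w * ub) * (1 - u * wb) *
      ((P⁻¹ * (w * (1 - u * ub) / ((1 - w * ub) * -(u - w))) +
        (conj P)⁻¹ * (wb * (1 - u * ub) / ((1 - u * wb) * -(ub - wb))) +
        Q⁻¹ * (u * (1 - w * wb) / ((1 - u * wb) * (u - w))) +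
        (conj Q)⁻¹ * (ub * (1 - w * wb) / ((1 - w * ub) * (ub - wb)))) / 2) -
        (1 - (R : ℂ)) ^ 2)).re = R * (‖1 - conj u * w‖ ^ 2 *
      ((P⁻¹ * (w * (1 - (‖u‖ : ℂ) ^ 2) / ((1 - conj u * w) * (w - u)))).re +
       (Q⁻¹ * (u * (1 - (‖w‖ : ℂ) ^ 2) / ((1 - conj w * u) * (u - w)))).re) - (1 - R) ^ 2) := by
    have f1 : ((‖1 - conj u * w‖ ^ 2 : ℝ) : ℂ) = (1 - w * ub) * (1 - u * wb) := by
      rw [← Complex.normSq_eq_norm_sq, ← Complex.mul_conj, map_sub, map_mul, map_one,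
        Complex.conj_conj]
      ring
    have f2 : ∀ z : ℂ, ((z.re : ℝ) : ℂ) = (z + conj z) / 2 := by
      intro z; rw [Complex.add_conj]; push_cast; ring
    have f3 : ((R * (‖1 - conj u * w‖ ^ 2 *
      ((P⁻¹ * (w * (1 - (‖u‖ : ℂ) ^ 2) / ((1 - conj u * w) * (w - u)))).re +
       (Q⁻¹ * (u * (1 - (‖w‖ : ℂ) ^ 2) / ((1 - conj w * u) * (u - w)))).re) - (1 - R) ^ 2) : ℝ) : ℂ)
       = ((R : ℂ) * ((1 - w * ub) * (1 - u * wb) *
      ((P⁻¹ * (w * (1 - u * ub) / ((1 - w * ub) * -(u - w))) +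
        (conj P)⁻¹ * (wb * (1 - u * ub) / ((1 - u * wb) * -(ub - wb))) +
        Q⁻¹ * (u * (1 - w * wb) / ((1 - u * wb) * (u - w))) +
        (conj Q)⁻¹ * (ub * (1 - w * wb) / ((1 - w * ub) * (ub - wb)))) / 2) -
        (1 - (R : ℂ)) ^ 2)) := by
      have g1 : (((‖1 - conj u * w‖ ^ 2 *
      ((P⁻¹ * (w * (1 - (‖u‖ : ℂ) ^ 2) / ((1 - conj u * w) * (w - u)))).re +
       (Q⁻¹ * (u * (1 - (‖w‖ : ℂ) ^ 2) / ((1 - conj w * u) * (u - w)))).re)) : ℝ) : ℂ) =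
        ((‖1 - conj u * w‖ ^ 2 : ℝ) : ℂ) *
      ((((P⁻¹ * (w * (1 - (‖u‖ : ℂ) ^ 2) / ((1 - conj u * w) * (w - u)))).re : ℝ) : ℂ) +
       (((Q⁻¹ * (u * (1 - (‖w‖ : ℂ) ^ 2) / ((1 - conj w * u) * (u - w)))).re : ℝ) : ℂ)) := by
        push_cast; ring
      rw [Complex.ofReal_mul, Complex.ofReal_sub, g1, f1, f2, f2, hunorm, hwnorm]
      simp only [map_mul, map_inv₀, map_div₀, map_sub, map_one, Complex.conj_conj,
        Complex.ofReal_pow, Complex.ofReal_sub, Complex.ofReal_one]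
      rw [← hub, ← hwb, hubb, hwbb]
      have g2 : w - u = -(u - w) := by ring
      have g3 : wb - ub = -(ub - wb) := by ring
      rw [g2, g3]
      ring
    rw [← f3, Complex.ofReal_re]
  rw [e2] at hnn
  have := nonneg_of_mul_nonneg_right hnn hR0
  linarith

lemma kernel_re {z η : ℂ} (hz : ‖z‖ < 1) (hη : ‖η‖ = 1) :
    ((1 + z * η) / (1 - z * η)).re = (1 - ‖z‖ ^ 2) / ‖1 - z * η‖ ^ 2 := by
  have h1 := one_sub_ne hz hη
  have h2 : conj (1 - z * η) ≠ 0 := by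
    intro h; apply h1; exact (map_eq_zero _).1 h
  have h3 : ((‖1 - z * η‖ ^ 2 : ℝ) : ℂ) = (1 - z * η) * conj (1 - z * η) := by
    rw [Complex.mul_conj, Complex.normSq_eq_norm_sq]
  have h4 : ((‖z‖ ^ 2 : ℝ) : ℂ) = z * conj z := by
    rw [Complex.mul_conj, Complex.normSq_eq_norm_sq]
  have h5 : η * conj η = 1 := by
    rw [Complex.mul_conj, Complex.normSq_eq_norm_sq, hη]; simp
  have h6 : ((((1 + z * η) / (1 - z * η)).re : ℝ) : ℂ) =
      (((1 - ‖z‖ ^ 2) / ‖1 - z * η‖ ^ 2 : ℝ) : ℂ) := by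
    rw [Complex.ofReal_div, Complex.ofReal_sub, h3, h4]
    have : ((((1 + z * η) / (1 - z * η)).re : ℝ) : ℂ) =
        ((1 + z * η) / (1 - z * η) + conj ((1 + z * η) / (1 - z * η))) / 2 := by
      rw [Complex.add_conj]; push_cast; ring
    rw [this, map_div₀]
    rw [div_add_div _ _ h1 h2, div_div, div_eq_div_iff (mul_ne_zero (mul_ne_zero h1 h2) two_ne_zero)
      (mul_ne_zero h1 h2)]
    simp only [map_add, map_sub, map_mul, map_one, Complex.ofReal_one]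
    linear_combination (-2 * z * conj z * ((1 - z * η) * (1 - conj z * conj η))) * h5
  exact_mod_cast h6

lemma sum_re_pos (s : Finset ι) (m : ι → ℝ) (η : ι → ℂ) (hm : ∀ k ∈ s, 0 < m k)
    (hs : ∑ k ∈ s, m k = 1)
    (hη : ∀ k ∈ s, ‖η k‖ = 1) {u : ℂ} (hu : ‖u‖ < 1) :
    0 < (∑ k ∈ s, (m k : ℂ) * ((1 + u * η k) / (1 - u * η k))).re := by
  rw [Complex.re_sum]
  apply Finset.sum_pos
  · intro k hk
    rw [Complex.re_ofReal_mul, kernel_re hu (hη k hk)]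
    have h1 : 0 < ‖1 - u * η k‖ := norm_pos_iff.2 (one_sub_ne hu (hη k hk))
    have h2 : 0 < 1 - ‖u‖ ^ 2 := by nlinarith [norm_nonneg u]
    have := hm k hk
    positivity
  · by_contra h
    rw [Finset.not_nonempty_iff_eq_empty] at h
    rw [h] at hs; simp at hs

lemma ratio_re {u w η : ℂ} (hu : ‖u‖ < 1) (hη : ‖η‖ = 1) (hu0 : u ≠ 0) :
    ‖1 - w * η‖ ^ 2 / ‖1 - u * η‖ ^ 2 = (conj u * w).re / ‖u‖ ^ 2 +
      ((u - w) * (1 - u * conj w) / (u * (1 - u * conj u)) *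
        ((1 + u * η) / (1 - u * η))).re := by
  have h1 := one_sub_ne hu hη
  have h2 : conj (1 - u * η) ≠ 0 := by
    intro h; apply h1; exact (map_eq_zero _).1 h
  have h3 : ((‖1 - u * η‖ ^ 2 : ℝ) : ℂ) = (1 - u * η) * conj (1 - u * η) := by
    rw [Complex.mul_conj, Complex.normSq_eq_norm_sq]
  have h3' : ((‖1 - w * η‖ ^ 2 : ℝ) : ℂ) = (1 - w * η) * conj (1 - w * η) := by
    rw [Complex.mul_conj, Complex.normSq_eq_norm_sq]
  have h4 : ((‖u‖ ^ 2 : ℝ) : ℂ) = u * conj u := by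
    rw [Complex.mul_conj, Complex.normSq_eq_norm_sq]
  have h5 : conj η = η⁻¹ := by
    have hη0 : η ≠ 0 := by intro h; rw [h] at hη; simp at hη
    refine eq_inv_of_mul_eq_one_right ?_
    rw [Complex.mul_conj, Complex.normSq_eq_norm_sq, hη]
    simp
  have hη0 : η ≠ 0 := by intro h; rw [h] at hη; simp at hη
  have hub : conj u ≠ 0 := by simpa using hu0
  have h7 : 1 - u * conj u ≠ 0 := one_sub_conj_ne hu hu
  have f2 : ∀ z : ℂ, ((z.re : ℝ) : ℂ) = (z + conj z) / 2 := by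
    intro z; rw [Complex.add_conj]; push_cast; ring
  have h6 : ((‖1 - w * η‖ ^ 2 / ‖1 - u * η‖ ^ 2 : ℝ) : ℂ) =
      (((conj u * w).re / ‖u‖ ^ 2 + ((u - w) * (1 - u * conj w) / (u * (1 - u * conj u)) *
        ((1 + u * η) / (1 - u * η))).re : ℝ) : ℂ) := by
    rw [Complex.ofReal_div, Complex.ofReal_add, Complex.ofReal_div, h3, h3', h4, f2, f2]
    simp only [map_add, map_sub, map_mul, map_one, map_div₀, Complex.conj_conj] at h2 ⊢
    rw [h5] at h2 ⊢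
    have h7' : 1 - conj u * u ≠ 0 := by rwa [mul_comm]
    have h8 : η - conj u ≠ 0 := by
      intro h
      apply h2
      have : η = conj u := sub_eq_zero.1 h
      rw [← this]; field_simp; ring
    have h9 : 1 - conj u * η⁻¹ = (η - conj u) / η := by field_simp
    have h10 : 1 - conj w * η⁻¹ = (η - conj w) / η := by field_simp
    have h11 : 1 + conj u * η⁻¹ = (η + conj u) / η := by field_simp
    rw [h9, h10, h11]
    have h1' : 1 - η * u ≠ 0 := by rwa [mul_comm]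
    generalize conj u = ub at *
    generalize conj w = wb at *
    field_simp
    ring
  exact_mod_cast h6

/-- weighted AM-GM step -/
lemma amgm (s : Finset ι) (m : ι → ℝ) (η : ι → ℂ) (hm : ∀ k ∈ s, 0 < m k)
    (hs : ∑ k ∈ s, m k = 1)
    (hη : ∀ k ∈ s, ‖η k‖ = 1) {u w : ℂ} (hu : ‖u‖ < 1) (hw : ‖w‖ < 1) :
    ∏ k ∈ s, ‖1 - u * η k‖ ^ (-2 * m k) ≤ (∏ k ∈ s, ‖1 - w * η k‖ ^ (-2 * m k)) *
      ∑ k ∈ s, m k * (‖1 - w * η k‖ ^ 2 / ‖1 - u * η k‖ ^ 2) := by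
  have h1 : ∏ k ∈ s, ‖1 - u * η k‖ ^ (-2 * m k) = (∏ k ∈ s, ‖1 - w * η k‖ ^ (-2 * m k)) *
      ∏ k ∈ s, (‖1 - w * η k‖ ^ 2 / ‖1 - u * η k‖ ^ 2) ^ (m k) := by
    rw [← Finset.prod_mul_distrib]
    refine Finset.prod_congr rfl fun k hk => ?_
    have hx : 0 < ‖1 - u * η k‖ := norm_pos_iff.2 (one_sub_ne hu (hη k hk))
    have hy : 0 < ‖1 - w * η k‖ := norm_pos_iff.2 (one_sub_ne hw (hη k hk))
    rw [Real.div_rpow (sq_nonneg _) (sq_nonneg _), ← Real.rpow_natCast, ← Real.rpow_natCast,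
      ← Real.rpow_mul hy.le, ← Real.rpow_mul hx.le, mul_div_assoc', ← Real.rpow_add hy,
      div_eq_mul_inv, ← Real.rpow_neg hx.le]
    have e1 : (-2 * m k + ((2 : ℕ) : ℝ) * m k) = 0 := by push_cast; ring
    have e2 : -(((2 : ℕ) : ℝ) * m k) = -2 * m k := by push_cast; ring
    rw [e1, e2, Real.rpow_zero, one_mul]
  rw [h1]
  apply mul_le_mul_of_nonneg_left
  · exact Real.geom_mean_le_arith_mean_weighted s m _ (fun k hk => (hm k hk).le) hs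
      (fun k _ => by positivity)
  · exact Finset.prod_nonneg fun k _ => Real.rpow_nonneg (norm_nonneg _) _

lemma re_mul_re_ge (X Y : ℂ) : ((X * Y).re - ‖X * Y‖) / 2 ≤ X.re * Y.re := by
  have h1 : X.re * Y.re = ((X * Y).re + (X * conj Y).re) / 2 := by
    simp [Complex.mul_re]
  have h2 : -‖X * Y‖ ≤ (X * conj Y).re := by
    have : ‖X * Y‖ = ‖X * conj Y‖ := by rw [norm_mul, norm_mul, norm_conj]
    rw [this]
    have := Complex.abs_re_le_norm (X * conj Y)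
    exact (abs_le.1 this).1
  rw [h1]; linarith

/-- the half statement: if `T₁ ≤ 0`. -/
lemma key_half (s : Finset ι) (m : ι → ℝ) (η : ι → ℂ) (hm : ∀ k ∈ s, 0 < m k)
    (hs : ∑ k ∈ s, m k = 1)
    (hη : ∀ k ∈ s, ‖η k‖ = 1) {u w : ℂ} (hu : ‖u‖ < 1) (hw : ‖w‖ < 1) (hu0 : u ≠ 0)
    (hw0 : w ≠ 0) (huw : u ≠ w) (P Q : ℂ)
    (hP : P = ∑ k ∈ s, (m k : ℂ) * ((1 + u * η k) / (1 - u * η k)))
    (hQ : Q = ∑ k ∈ s, (m k : ℂ) * ((1 + w * η k) / (1 - w * η k)))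
    (hT : (P⁻¹ * (w * (1 - (‖u‖ : ℂ) ^ 2) / ((1 - conj u * w) * (w - u)))).re ≤ 0) :
    0 ≤ (‖u‖ * ∏ k ∈ s, ‖1 - u * η k‖ ^ (-2 * m k)) *
        (P⁻¹ * (w * (1 - (‖u‖ : ℂ) ^ 2) / ((1 - conj u * w) * (w - u)))).re +
      (‖w‖ * ∏ k ∈ s, ‖1 - w * η k‖ ^ (-2 * m k)) *
        (Q⁻¹ * (u * (1 - (‖w‖ : ℂ) ^ 2) / ((1 - conj w * u) * (u - w)))).re := by
  have hP0 : P ≠ 0 := by
    intro h
    have := sum_re_pos s m η hm hs hη hu
    rw [← hP, h] at this; simp at this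
  have hQ0 : Q ≠ 0 := by
    intro h
    have := sum_re_pos s m η hm hs hη hw
    rw [← hQ, h] at this; simp at this
  have hpick := T_sum_ge s m η hm hs hη hu hw hu0 hw0 huw P Q hP hQ hP0 hQ0
  have hag := amgm s m η hm hs hη hu hw
  set al : ℂ := w * (1 - (‖u‖ : ℂ) ^ 2) / ((1 - conj u * w) * (w - u)) with hal
  set T1 : ℝ := (P⁻¹ * al).re with hT1
  set T2 : ℝ := (Q⁻¹ * (u * (1 - (‖w‖ : ℂ) ^ 2) / ((1 - conj w * u) * (u - w)))).re with hT2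
  set Λ : ℝ := ∑ k ∈ s, m k * (‖1 - w * η k‖ ^ 2 / ‖1 - u * η k‖ ^ 2) with hΛ
  set b : ℂ := (u - w) * (1 - u * conj w) / (u * (1 - u * conj u)) with hb
  have hun : 0 < ‖u‖ := norm_pos_iff.2 hu0
  have hwn : 0 < ‖w‖ := norm_pos_iff.2 hw0
  have hΛeq : Λ = (conj u * w).re / ‖u‖ ^ 2 + (b * P).re := by
    rw [hΛ, hP, Finset.mul_sum, Complex.re_sum]
    have h1 : (conj u * w).re / ‖u‖ ^ 2 = ∑ k ∈ s, m k * ((conj u * w).re / ‖u‖ ^ 2) := by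
      rw [← Finset.sum_mul, hs, one_mul]
    rw [h1, ← Finset.sum_add_distrib]
    refine Finset.sum_congr rfl fun k hk => ?_
    rw [ratio_re hu (hη k hk) hu0, mul_add]
    congr 1
    rw [← Complex.re_ofReal_mul]
    congr 1
    ring
  -- the unimodular product
  have h1 : u - w ≠ 0 := sub_ne_zero.2 huw
  have h1' : w - u ≠ 0 := sub_ne_zero.2 (Ne.symm huw)
  have h3 : 1 - u * conj u ≠ 0 := one_sub_conj_ne hu hu
  have h5 : 1 - u * conj w ≠ 0 := one_sub_conj_ne hu hw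
  have h6 : 1 - conj u * w ≠ 0 := by rw [mul_comm]; exact one_sub_conj_ne hw hu
  have hunorm : (‖u‖ : ℂ) ^ 2 = u * conj u := by
    rw [Complex.mul_conj, Complex.normSq_eq_norm_sq]; push_cast; ring
  have hbal : b * al = -(w / u * ((1 - u * conj w) / (1 - conj u * w))) := by
    rw [hb, hal, hunorm]
    have : w - u = -(u - w) := by ring
    rw [this]
    field_simp
  have hnbal : ‖b * al‖ = ‖w‖ / ‖u‖ := by
    rw [hbal, norm_neg, norm_mul, norm_div, norm_div]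
    have : ‖1 - u * conj w‖ = ‖1 - conj u * w‖ := by
      rw [← norm_conj]; simp
    rw [this, div_self (norm_ne_zero_iff.2 h6), mul_one]
  obtain ⟨c, hc⟩ : ∃ c : ℝ, c = (conj u * w).re := ⟨_, rfl⟩
  obtain ⟨R, hR⟩ : ∃ R : ℝ, R = ‖u‖ * ‖w‖ := ⟨_, rfl⟩
  have hR0 : 0 < R := by rw [hR]; positivity
  have hcR : c ≤ R := by
    rw [hc, hR]
    calc (conj u * w).re ≤ ‖conj u * w‖ := Complex.re_le_norm _
      _ = ‖u‖ * ‖w‖ := by rw [norm_mul, norm_conj]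
  have hvR : Complex.normSq (conj u * w) = R ^ 2 := by
    rw [Complex.normSq_eq_norm_sq, norm_mul, norm_conj, hR]
  have hN : ‖1 - conj u * w‖ ^ 2 = 1 - 2 * c + R ^ 2 := by
    rw [← Complex.normSq_eq_norm_sq, Complex.normSq_sub, hvR]
    simp [hc]; ring
  have hNpos : 0 < 1 - 2 * c + R ^ 2 := by
    rw [← hN]; have := norm_pos_iff.2 h6; positivity
  have hrebal : (b * al).re = -(‖w‖ / ‖u‖) * ((c * (1 + R ^ 2) - 2 * R ^ 2) /
      (R * (1 - 2 * c + R ^ 2))) := by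
    have e1 : b * al = ((-(‖w‖ / ‖u‖) * (1 / (R * (1 - 2 * c + R ^ 2))) : ℝ) : ℂ) *
        ((conj u * w) * (1 - u * conj w) ^ 2) := by
      rw [hbal, ← hN, hR]
      have f1 : ((‖1 - conj u * w‖ ^ 2 : ℝ) : ℂ) = (1 - conj u * w) * (1 - u * conj w) := by
        rw [← Complex.normSq_eq_norm_sq, ← Complex.mul_conj, map_sub, map_mul, map_one,
          Complex.conj_conj]
      have f2 : (‖w‖ : ℂ) ≠ 0 := by exact_mod_cast hwn.ne'
      have f3 : (‖u‖ : ℂ) ≠ 0 := by exact_mod_cast hun.ne'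
      have f4 : ((-(‖w‖ / ‖u‖) * (1 / (‖u‖ * ‖w‖ * ‖1 - conj u * w‖ ^ 2)) : ℝ) : ℂ) =
          -(1 / (u * conj u * ((1 - conj u * w) * (1 - u * conj w)))) := by
        rw [← hunorm, ← f1]
        push_cast
        have f5 : (‖1 - conj u * w‖ : ℂ) ≠ 0 := by
          exact_mod_cast (norm_pos_iff.2 h6).ne'
        field_simp
      rw [f4]
      have f6 : conj u ≠ 0 := by
        intro h; apply hu0; exact (map_eq_zero _).1 h
      field_simp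
    have e2 : ((conj u * w) * (1 - u * conj w) ^ 2).re = c * (1 + R ^ 2) - 2 * R ^ 2 := by
      have g1 : (conj u * w) * (1 - u * conj w) ^ 2 =
          (conj u * w) - 2 * ((R ^ 2 : ℝ) : ℂ) + ((R ^ 2 : ℝ) : ℂ) * conj (conj u * w) := by
        rw [← hvR, ← Complex.mul_conj]
        simp only [map_mul, Complex.conj_conj]
        ring
      rw [g1, Complex.add_re, Complex.sub_re, Complex.re_ofReal_mul, Complex.conj_re, ← hc]
      have : (2 * ((R ^ 2 : ℝ) : ℂ)).re = 2 * R ^ 2 := by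
        rw [show (2 : ℂ) * ((R ^ 2 : ℝ) : ℂ) = ((2 * R ^ 2 : ℝ) : ℂ) by push_cast; ring,
          Complex.ofReal_re]
      rw [this]; ring
    rw [e1, Complex.re_ofReal_mul, e2]
    field_simp
  have hRR : ‖u‖ * ‖w‖ = R := hR.symm
  rw [hN, hRR] at hpick
  -- `Λ₀ T₁ + T₂ ≥ 0` with `Λ₀ = ‖u‖/‖w‖ Λ`
  have hmain : 0 ≤ (‖u‖ / ‖w‖) * Λ * T1 + T2 := by
    have s1 : ((b * al).re - ‖b * al‖) / 2 ≤ (b * P).re * T1 := by
      have := re_mul_re_ge (b * P) (P⁻¹ * al)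
      have e : b * P * (P⁻¹ * al) = b * al := by
        rw [mul_assoc, ← mul_assoc P, mul_inv_cancel₀ hP0, one_mul]
      rw [e] at this
      exact this
    have s2 : (‖u‖ / ‖w‖) * Λ * T1 + T2 = (T1 + T2) + (c / R - 1) * T1 +
        (‖u‖ / ‖w‖) * ((b * P).re * T1) := by
      rw [hΛeq, ← hc, hR]; field_simp; ring
    have s3 : 0 ≤ (c / R - 1) * T1 := by
      apply mul_nonneg_of_nonpos_of_nonpos _ hT
      rw [sub_nonpos, div_le_one hR0]; exact hcR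
    have s4 : (1 - R) ^ 2 / (1 - 2 * c + R ^ 2) ≤ T1 + T2 := by
      rw [div_le_iff₀ hNpos]; linarith
    have s5 : (‖u‖ / ‖w‖) * (((b * al).re - ‖b * al‖) / 2) =
        -(((c * (1 + R ^ 2) - 2 * R ^ 2) / (R * (1 - 2 * c + R ^ 2)) + 1) / 2) := by
      rw [hrebal, hnbal]; field_simp
      ring
    have s6 : (‖u‖ / ‖w‖) * (((b * al).re - ‖b * al‖) / 2) ≤
        (‖u‖ / ‖w‖) * ((b * P).re * T1) := mul_le_mul_of_nonneg_left s1 (by positivity)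
    have s7 : 0 ≤ (1 - R) ^ 2 / (1 - 2 * c + R ^ 2) -
        (((c * (1 + R ^ 2) - 2 * R ^ 2) / (R * (1 - 2 * c + R ^ 2)) + 1) / 2) := by
      have : (1 - R) ^ 2 / (1 - 2 * c + R ^ 2) -
        (((c * (1 + R ^ 2) - 2 * R ^ 2) / (R * (1 - 2 * c + R ^ 2)) + 1) / 2) =
        (R - c) * (1 - R) ^ 2 / (2 * R * (1 - 2 * c + R ^ 2)) := by
        field_simp; ring
      rw [this]
      have : 0 ≤ R - c := by linarith
      positivity
    rw [s2]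
    rw [s5] at s6
    linarith
  set ρu : ℝ := ∏ k ∈ s, ‖1 - u * η k‖ ^ (-2 * m k) with hρu
  set ρw : ℝ := ∏ k ∈ s, ‖1 - w * η k‖ ^ (-2 * m k) with hρw
  have hρw0 : 0 ≤ ρw := Finset.prod_nonneg fun k _ => Real.rpow_nonneg (norm_nonneg _) _
  have t1 : ‖w‖ * ρw * ((‖u‖ / ‖w‖) * Λ * T1) ≤ ‖u‖ * ρu * T1 := by
    have : ‖w‖ * ρw * ((‖u‖ / ‖w‖) * Λ * T1) = (‖u‖ * (ρw * Λ)) * T1 := by
      field_simp
    rw [this]
    apply mul_le_mul_of_nonpos_right _ hT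
    exact mul_le_mul_of_nonneg_left hag hun.le
  have t2 : 0 ≤ ‖w‖ * ρw * ((‖u‖ / ‖w‖) * Λ * T1 + T2) := by positivity
  nlinarith

theorem key (s : Finset ι) (m : ι → ℝ) (η : ι → ℂ) (hm : ∀ k ∈ s, 0 < m k)
    (hs : ∑ k ∈ s, m k = 1) (hη : ∀ k ∈ s, ‖η k‖ = 1) (u w : ℂ) (hu : ‖u‖ < 1) (hw : ‖w‖ < 1)
    (hu0 : u ≠ 0) (hw0 : w ≠ 0) (huw : u ≠ w) :
    0 ≤ (‖u‖ * ∏ k ∈ s, ‖1 - u * η k‖ ^ (-2 * m k)) *
      ((∑ k ∈ s, (m k : ℂ) * ((1 + u * η k) / (1 - u * η k)))⁻¹ *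
        (w * (1 - (‖u‖ : ℂ) ^ 2) / ((1 - conj u * w) * (w - u)))).re +
      (‖w‖ * ∏ k ∈ s, ‖1 - w * η k‖ ^ (-2 * m k)) *
      ((∑ k ∈ s, (m k : ℂ) * ((1 + w * η k) / (1 - w * η k)))⁻¹ *
        (u * (1 - (‖w‖ : ℂ) ^ 2) / ((1 - conj w * u) * (u - w)))).re := by
  by_cases h1 : ((∑ k ∈ s, (m k : ℂ) * ((1 + u * η k) / (1 - u * η k)))⁻¹ *
        (w * (1 - (‖u‖ : ℂ) ^ 2) / ((1 - conj u * w) * (w - u)))).re ≤ 0
  · exact key_half s m η hm hs hη hu hw hu0 hw0 huw _ _ rfl rfl h1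
  by_cases h2 : ((∑ k ∈ s, (m k : ℂ) * ((1 + w * η k) / (1 - w * η k)))⁻¹ *
        (u * (1 - (‖w‖ : ℂ) ^ 2) / ((1 - conj w * u) * (u - w)))).re ≤ 0
  · rw [add_comm]
    exact key_half s m η hm hs hη hw hu hw0 hu0 (Ne.symm huw) _ _ rfl rfl h2
  push Not at h1 h2
  have e1 : 0 ≤ ∏ k ∈ s, ‖1 - u * η k‖ ^ (-2 * m k) :=
    Finset.prod_nonneg fun k _ => Real.rpow_nonneg (norm_nonneg _) _
  have e2 : 0 ≤ ∏ k ∈ s, ‖1 - w * η k‖ ^ (-2 * m k) :=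
    Finset.prod_nonneg fun k _ => Real.rpow_nonneg (norm_nonneg _) _
  have e3 := norm_nonneg u
  have e4 := norm_nonneg w
  positivity

end Pool.LR
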