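import Mathlib
import Pool.Agent.Helper50.LR.Defs
import Pool.Agent.Helper50.LR.Ba
import Pool.Agent.Helper50.LR.Key

set_option autoImplicit false

open Complex Finset Filter Topology

namespace Pool.LR


/-! ### TARGETS (prove these; put auxiliary lemmas just before them) -/

theorem log_norm_8326 {f : ℝ → ℂ} {f' : ℂ} {t : ℝ} (h : HasDerivAt f f' t) (h0 : f t ≠ 0) :
    HasDerivAt (fun t => Real.log ‖f t‖) (f' / f t).re t := by
  have hre : HasDerivAt (fun t => (f t).re) f'.re t := Complex.reCLM.hasFDerivAt.comp_hasDerivAt t h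
  have him : HasDerivAt (fun t => (f t).im) f'.im t := Complex.imCLM.hasFDerivAt.comp_hasDerivAt t h
  have h1 : HasDerivAt (fun t => (f t).re * (f t).re + (f t).im * (f t).im)
      (f'.re * (f t).re + (f t).re * f'.re + (f'.im * (f t).im + (f t).im * f'.im)) t :=
    (hre.mul hre).add (him.mul him)
  have hn : Complex.normSq (f t) ≠ 0 := fun h2 => h0 (Complex.normSq_eq_zero.1 h2)
  have hpos : (f t).re * (f t).re + (f t).im * (f t).im ≠ 0 := by
    rwa [Complex.normSq_apply] at hn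
  have h2 := (h1.log hpos).const_mul (1 / 2)
  have e1 : (fun t => Real.log ‖f t‖) =
      fun t => 1 / 2 * Real.log ((f t).re * (f t).re + (f t).im * (f t).im) := by
    funext s
    rw [← Complex.normSq_apply, Complex.normSq_eq_norm_sq, Real.log_pow]
    push_cast
    ring
  have e2 : (f' / f t).re = 1 / 2 * ((f'.re * (f t).re + (f t).re * f'.re +
      (f'.im * (f t).im + (f t).im * f'.im)) / ((f t).re * (f t).re + (f t).im * (f t).im)) := by
    rw [Complex.div_re, Complex.normSq_apply]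
    field_simp
    ring
  rw [e1, e2]
  exact h2

theorem one_sub_ne_8326 {u w : ℂ} (hu : ‖u‖ < 1) (hw : ‖w‖ < 1) :
    1 - (starRingEnd ℂ) u * w ≠ 0 := by
  intro h
  have h1 : (starRingEnd ℂ) u * w = 1 := (sub_eq_zero.1 h).symm
  have h2 : ‖(starRingEnd ℂ) u * w‖ = 1 := by rw [h1, norm_one]
  rw [norm_mul, RCLike.norm_conj] at h2
  have := norm_nonneg u
  have := norm_nonneg w
  nlinarith

theorem PiK_eq_8326 {u w : ℂ} (hu : ‖u‖ < 1) (hw : ‖w‖ < 1) :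
    ((PiK u w : ℝ) : ℂ) = (1 - ((starRingEnd ℂ) u * w) * (starRingEnd ℂ) ((starRingEnd ℂ) u * w)) /
      ((1 - (starRingEnd ℂ) u * w) * (1 - (starRingEnd ℂ) ((starRingEnd ℂ) u * w))) := by
  unfold PiK
  have e1 : (1 - (starRingEnd ℂ) u * w) * (1 - (starRingEnd ℂ) ((starRingEnd ℂ) u * w)) =
      ((‖1 - (starRingEnd ℂ) u * w‖ ^ 2 : ℝ) : ℂ) := by
    rw [← Complex.normSq_eq_norm_sq, ← Complex.mul_conj, map_sub, map_one]
  have e2 : ((starRingEnd ℂ) u * w) * (starRingEnd ℂ) ((starRingEnd ℂ) u * w) =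
      (((‖u‖ * ‖w‖) ^ 2 : ℝ) : ℂ) := by
    rw [Complex.mul_conj, Complex.normSq_eq_norm_sq, norm_mul, RCLike.norm_conj]
  rw [e1, e2]
  push_cast
  ring

theorem PiK_symm_8326 (u w : ℂ) : PiK u w = PiK w u := by
  unfold PiK
  have : ‖1 - (starRingEnd ℂ) u * w‖ = ‖1 - (starRingEnd ℂ) w * u‖ := by
    rw [← RCLike.norm_conj (1 - (starRingEnd ℂ) u * w)]
    congr 1
    simp [mul_comm]
  rw [this, mul_comm ‖u‖ ‖w‖]

theorem id_8326 {u w : ℂ} (h : ℂ) (hu : ‖u‖ < 1) (hw : ‖w‖ < 1) (huw : u ≠ w) :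
    ((starRingEnd ℂ) h * ((starRingEnd ℂ) u * w) / (1 - (starRingEnd ℂ) u * w)).re +
      (u * h / (u - w)).re =
    h.re * PiK u w - (h * (w * (1 - (‖u‖ : ℂ) ^ 2) / ((1 - (starRingEnd ℂ) u * w) * (w - u)))).re := by
  obtain ⟨v, hv⟩ : ∃ v, v = (starRingEnd ℂ) u * w := ⟨_, rfl⟩
  have h1 : 1 - v ≠ 0 := by rw [hv]; exact one_sub_ne_8326 hu hw
  have h2 : 1 - (starRingEnd ℂ) v ≠ 0 := by
    have : 1 - (starRingEnd ℂ) v = (starRingEnd ℂ) (1 - v) := by simp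
    rw [this]
    exact (map_ne_zero _).2 h1
  have h3 : u - w ≠ 0 := sub_ne_zero.2 huw
  have h4 : w - u ≠ 0 := sub_ne_zero.2 (Ne.symm huw)
  have hP := PiK_eq_8326 hu hw
  rw [← hv] at hP ⊢
  have e1 : ((starRingEnd ℂ) h * v / (1 - v)).re =
      (h * ((starRingEnd ℂ) v / (1 - (starRingEnd ℂ) v))).re := by
    rw [← Complex.conj_re]
    congr 1
    simp [map_div₀]
    ring
  have e2 : h.re * PiK u w = (h * ((PiK u w : ℝ) : ℂ)).re := by
    rw [Complex.re_mul_ofReal]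
  have e3 : (‖u‖ : ℂ) ^ 2 = u * (starRingEnd ℂ) u := by
    rw [Complex.mul_conj, Complex.normSq_eq_norm_sq]
    push_cast
    rfl
  rw [e1, e2, ← Complex.add_re, ← Complex.sub_re]
  congr 1
  rw [hP, e3]
  have e4 : w * (1 - u * (starRingEnd ℂ) u) = w - u * v := by rw [hv]; ring
  rw [e4]
  field_simp
  ring

theorem rho_8326 (D : Star) {u : ℂ} (hu : ‖u‖ < 1) :
    ‖D.Z u‖⁻¹ = ‖D.c‖⁻¹ * (‖u‖ * ∏ k, ‖1 - u * D.η k‖ ^ (-2 * D.m k)) := by
  have h1 : ∏ k, ‖1 - u * D.η k‖ ^ (-2 * D.m k) = (∏ k, ‖1 - u * D.η k‖ ^ (2 * D.m k))⁻¹ := by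
    rw [← Finset.prod_inv_distrib]
    refine Finset.prod_congr rfl fun k _ => ?_
    rw [neg_mul, Real.rpow_neg (norm_nonneg _)]
  rw [h1, Star.Z, norm_div, D.norm_E hu, inv_div, div_eq_mul_inv, mul_inv]
  ring

/-- bound for the derivative of the Green kernel -/
theorem gG_deriv_8326 (D : Star) {U W : ℝ → ℂ} {t0 : ℝ} (hu : ‖U t0‖ < 1) (hw : ‖W t0‖ < 1)
    (hu0 : U t0 ≠ 0) (hw0 : W t0 ≠ 0) (huw : U t0 ≠ W t0)
    (hU : HasDerivAt U (-(U t0 / ((‖D.Z (U t0)‖ : ℂ) * D.p (U t0)))) t0)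
    (hW : HasDerivAt W (-(W t0 / ((‖D.Z (W t0)‖ : ℂ) * D.p (W t0)))) t0) :
    ∃ G' : ℝ, HasDerivAt (fun t => gG (U t) (W t)) G' t0 ∧
      G' ≤ ((D.p (U t0))⁻¹.re / ‖D.Z (U t0)‖ + (D.p (W t0))⁻¹.re / ‖D.Z (W t0)‖) *
        PiK (U t0) (W t0) := by
  have hkey := key (Finset.univ) D.m D.η (fun k _ => D.m_pos k) D.m_sum (fun k _ => D.η_norm k)
    (U t0) (W t0) hu hw hu0 hw0 huw
  have hc0 : 0 < ‖D.c‖⁻¹ := inv_pos.2 (norm_pos_iff.2 D.c_ne)
  have hkey2 : 0 ≤ ‖D.Z (U t0)‖⁻¹ * ((D.p (U t0))⁻¹ * (W t0 * (1 - (‖U t0‖ : ℂ) ^ 2) /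
        ((1 - (starRingEnd ℂ) (U t0) * W t0) * (W t0 - U t0)))).re +
      ‖D.Z (W t0)‖⁻¹ * ((D.p (W t0))⁻¹ * (U t0 * (1 - (‖W t0‖ : ℂ) ^ 2) /
        ((1 - (starRingEnd ℂ) (W t0) * U t0) * (U t0 - W t0)))).re := by
    have h := mul_nonneg hc0.le hkey
    rw [mul_add] at h
    rw [rho_8326 D hu, rho_8326 D hw]
    have e4 : ∀ (c x y p q : ℝ), 0 ≤ c * (x * p) + c * (y * q) → 0 ≤ c * x * p + c * y * q := by
      intro c x y p q h
      nlinarith
    exact e4 _ _ _ _ _ h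
  have hf0 := one_sub_ne_8326 hu hw
  have hg0 : U t0 - W t0 ≠ 0 := sub_ne_zero.2 huw
  have hf : HasDerivAt (fun t => 1 - (starRingEnd ℂ) (U t) * W t)
      (0 - ((starRingEnd ℂ) (-(U t0 / ((‖D.Z (U t0)‖ : ℂ) * D.p (U t0)))) * W t0 +
        (starRingEnd ℂ) (U t0) * (-(W t0 / ((‖D.Z (W t0)‖ : ℂ) * D.p (W t0)))))) t0 :=
    (hasDerivAt_const t0 (1 : ℂ)).sub (hU.star.mul hW)
  have hg : HasDerivAt (fun t => U t - W t) (-(U t0 / ((‖D.Z (U t0)‖ : ℂ) * D.p (U t0))) -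
      -(W t0 / ((‖D.Z (W t0)‖ : ℂ) * D.p (W t0)))) t0 := hU.sub hW
  have hq : HasDerivAt (fun t => (1 - (starRingEnd ℂ) (U t) * W t) / (U t - W t))
      (((0 - ((starRingEnd ℂ) (-(U t0 / ((‖D.Z (U t0)‖ : ℂ) * D.p (U t0)))) * W t0 +
        (starRingEnd ℂ) (U t0) * (-(W t0 / ((‖D.Z (W t0)‖ : ℂ) * D.p (W t0)))))) * (U t0 - W t0) -
        (1 - (starRingEnd ℂ) (U t0) * W t0) * (-(U t0 / ((‖D.Z (U t0)‖ : ℂ) * D.p (U t0))) -
      -(W t0 / ((‖D.Z (W t0)‖ : ℂ) * D.p (W t0))))) / (U t0 - W t0) ^ 2) t0 := hf.div hg hg0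
  have hq0 : (1 - (starRingEnd ℂ) (U t0) * W t0) / (U t0 - W t0) ≠ 0 := div_ne_zero hf0 hg0
  have hlog := log_norm_8326 hq hq0
  have e : (fun t => gG (U t) (W t)) =
      fun t => Real.log ‖(1 - (starRingEnd ℂ) (U t) * W t) / (U t - W t)‖ := by
    funext t
    rw [norm_div]
    rfl
  rw [e]
  refine ⟨_, hlog, ?_⟩
  · have i1 := id_8326 (D.p (U t0))⁻¹ hu hw huw
    have i2 := id_8326 (D.p (W t0))⁻¹ hw hu (Ne.symm huw)
    rw [PiK_symm_8326 (W t0) (U t0)] at i2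
    obtain ⟨u, huu⟩ : ∃ u, u = U t0 := ⟨_, rfl⟩
    obtain ⟨w, hww⟩ : ∃ w, w = W t0 := ⟨_, rfl⟩
    simp only [← huu, ← hww] at *
    obtain ⟨h, hh⟩ : ∃ h, h = (D.p u)⁻¹ := ⟨_, rfl⟩
    obtain ⟨k, hk⟩ : ∃ k, k = (D.p w)⁻¹ := ⟨_, rfl⟩
    obtain ⟨r, hr⟩ : ∃ r, r = ‖D.Z u‖⁻¹ := ⟨_, rfl⟩
    obtain ⟨q, hq'⟩ : ∃ q, q = ‖D.Z w‖⁻¹ := ⟨_, rfl⟩
    have eu : u / ((‖D.Z u‖ : ℂ) * D.p u) = u * ((r : ℂ) * h) := by
      rw [hr, hh, div_eq_mul_inv, mul_inv]
      push_cast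
      rfl
    have ew : w / ((‖D.Z w‖ : ℂ) * D.p w) = w * ((q : ℂ) * k) := by
      rw [hq', hk, div_eq_mul_inv, mul_inv]
      push_cast
      rfl
    rw [eu, ew]
    rw [← hh] at i1
    rw [← hk] at i2
    rw [← hh, ← hk, ← hr, ← hq'] at hkey2
    rw [← hh, ← hk, div_eq_mul_inv h.re, div_eq_mul_inv k.re, ← hr, ← hq']
    obtain ⟨v, hv⟩ : ∃ v, v = (starRingEnd ℂ) u * w := ⟨_, rfl⟩
    have hv' : (starRingEnd ℂ) w * u = (starRingEnd ℂ) v := by rw [hv]; simp [mul_comm]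
    rw [← hv] at i1
    rw [hv'] at i2
    have hf0' : 1 - v ≠ 0 := by rw [hv]; exact hf0
    -- conjugate
    have i2' : ((starRingEnd ℂ) k * (starRingEnd ℂ) v / (1 - (starRingEnd ℂ) v)).re =
        (k * v / (1 - v)).re := by
      rw [← Complex.conj_re]
      congr 1
      simp [map_div₀]
    have i2'' : (w * k / (w - u)).re = - (w * k / (u - w)).re := by
      rw [← neg_sub u w, div_neg, Complex.neg_re]
    rw [i2', i2''] at i2
    -- the derivative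
    have hder : (((0 - ((starRingEnd ℂ) (-(u * ((r : ℂ) * h))) * w +
        (starRingEnd ℂ) u * (-(w * ((q : ℂ) * k))))) * (u - w) -
        (1 - (starRingEnd ℂ) u * w) * (-(u * ((r : ℂ) * h)) - -(w * ((q : ℂ) * k)))) /
        (u - w) ^ 2 / ((1 - (starRingEnd ℂ) u * w) / (u - w))) =
        (r : ℂ) * ((starRingEnd ℂ) h * v / (1 - v)) + (q : ℂ) * (k * v / (1 - v)) +
        (r : ℂ) * (u * h / (u - w)) - (q : ℂ) * (w * k / (u - w)) := by
      rw [← hv, map_neg, map_mul, map_mul, Complex.conj_ofReal]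
      have e1 : -((starRingEnd ℂ) u * ((r : ℂ) * (starRingEnd ℂ) h)) * w =
          -((r : ℂ) * (starRingEnd ℂ) h * v) := by rw [hv]; ring
      have e2 : (starRingEnd ℂ) u * -(w * ((q : ℂ) * k)) = -((q : ℂ) * k * v) := by
        rw [hv]; ring
      rw [e1, e2]
      field_simp
      ring
    have hre : ((r : ℂ) * ((starRingEnd ℂ) h * v / (1 - v)) + (q : ℂ) * (k * v / (1 - v)) +
        (r : ℂ) * (u * h / (u - w)) - (q : ℂ) * (w * k / (u - w))).re =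
        r * (((starRingEnd ℂ) h * v / (1 - v)).re + (u * h / (u - w)).re) +
        q * ((k * v / (1 - v)).re + -(w * k / (u - w)).re) := by
      rw [Complex.sub_re, Complex.add_re, Complex.add_re, Complex.re_ofReal_mul,
        Complex.re_ofReal_mul, Complex.re_ofReal_mul, Complex.re_ofReal_mul]
      ring
    have hgoal : ((((0 - ((starRingEnd ℂ) (-(u * ((r : ℂ) * h))) * w +
        (starRingEnd ℂ) u * (-(w * ((q : ℂ) * k))))) * (u - w) -
        (1 - (starRingEnd ℂ) u * w) * (-(u * ((r : ℂ) * h)) - -(w * ((q : ℂ) * k)))) /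
        (u - w) ^ 2 / ((1 - (starRingEnd ℂ) u * w) / (u - w)))).re ≤
        (h.re * r + k.re * q) * PiK u w := by
      rw [hder, hre, i1, i2]
      rw [hv', ← hv] at hkey2
      linarith
    exact hgoal

/-- derivative of the energy along the flow -/
theorem energy_deriv (D : Star) (N : ℕ) (hN : 0 < N) {n : ℕ} (W : Fin n → ℝ → ℂ) (t0 : ℝ)
    (h1 : ∀ i, ‖W i t0‖ < 1 ∧ W i t0 ≠ 0) (hinj : Function.Injective (fun i => W i t0))
    (hder : ∀ i, HasDerivAt (W i) (-(W i t0 / ((‖D.Z (W i t0)‖ : ℂ) * D.p (W i t0)))) t0) :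
    ∃ J' : ℝ, HasDerivAt (fun t => Jf N (fun i => W i t)) J' t0 ∧
      (2 / (N : ℝ)) * ∑ i, ((D.p (W i t0))⁻¹.re / ‖D.Z (W i t0)‖) *
        (1 - (1 / (N : ℝ)) * ∑ j ∈ Finset.univ.erase i, PiK (W i t0) (W j t0)) ≤ J' := by
  have hN0 : (0 : ℝ) < N := by exact_mod_cast hN
  obtain ⟨a, ha⟩ : ∃ a : Fin n → ℝ, ∀ i, a i = (D.p (W i t0))⁻¹.re / ‖D.Z (W i t0)‖ :=
    ⟨_, fun _ => rfl⟩
  have hgx : ∀ i, HasDerivAt (fun t => gx (W i t)) (a i) t0 := by
    intro i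
    have h2 := (log_norm_8326 (hder i) (h1 i).2).neg
    have e : -((-(W i t0 / ((‖D.Z (W i t0)‖ : ℂ) * D.p (W i t0)))) / W i t0).re = a i := by
      rw [ha, ← Complex.neg_re]
      have e1 : -((-(W i t0 / ((‖D.Z (W i t0)‖ : ℂ) * D.p (W i t0)))) / W i t0) =
          ((‖D.Z (W i t0)‖⁻¹ : ℝ) : ℂ) * (D.p (W i t0))⁻¹ := by
        have hZ : (‖D.Z (W i t0)‖ : ℂ) ≠ 0 := by
          have : D.Z (W i t0) ≠ 0 := div_ne_zero (D.E_ne_zero (h1 i).1) (h1 i).2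
          exact_mod_cast (norm_pos_iff.2 this).ne'
        have hp : D.p (W i t0) ≠ 0 := by
          intro h
          have := D.re_p_pos (h1 i).1
          rw [h] at this
          simp at this
        have hw := (h1 i).2
        push_cast
        field_simp
      rw [e1, Complex.re_ofReal_mul]
      ring
    rw [← e]
    exact h2
  have hgG : ∀ i j, ∃ G' : ℝ, j ≠ i → HasDerivAt (fun t => gG (W i t) (W j t)) G' t0 ∧
      G' ≤ (a i + a j) * PiK (W i t0) (W j t0) := by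
    intro i j
    by_cases hij : j = i
    · exact ⟨0, fun h => absurd hij h⟩
    · obtain ⟨G', hG1, hG2⟩ := gG_deriv_8326 D (h1 i).1 (h1 j).1 (h1 i).2 (h1 j).2
        (fun h => hij (hinj h.symm)) (hder i) (hder j)
      refine ⟨G', fun _ => ⟨hG1, ?_⟩⟩
      rw [ha, ha]
      exact hG2
  choose G' hG' using hgG
  refine ⟨(2 / (N : ℝ)) * ∑ i, a i -
    (1 / (N : ℝ) ^ 2) * ∑ i, ∑ j ∈ Finset.univ.erase i, G' i j, ?_, ?_⟩
  · unfold Jf
    refine HasDerivAt.sub (HasDerivAt.const_mul _ (HasDerivAt.fun_sum fun i _ => hgx i))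
      (HasDerivAt.const_mul _ (HasDerivAt.fun_sum fun i _ => HasDerivAt.fun_sum fun j hj => ?_))
    exact (hG' i j (Finset.ne_of_mem_erase hj)).1
  · have hb : ∑ i, ∑ j ∈ Finset.univ.erase i, G' i j ≤
        ∑ i, ∑ j ∈ Finset.univ.erase i, (a i + a j) * PiK (W i t0) (W j t0) :=
      Finset.sum_le_sum fun i _ => Finset.sum_le_sum fun j hj =>
        (hG' i j (Finset.ne_of_mem_erase hj)).2
    have hs : ∑ i, ∑ j ∈ Finset.univ.erase i, (a i + a j) * PiK (W i t0) (W j t0) =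
        2 * ∑ i, a i * ∑ j ∈ Finset.univ.erase i, PiK (W i t0) (W j t0) := by
      have hsplit : ∑ i, ∑ j ∈ Finset.univ.erase i, (a i + a j) * PiK (W i t0) (W j t0) =
          ∑ i, ∑ j ∈ Finset.univ.erase i, a i * PiK (W i t0) (W j t0) +
          ∑ i, ∑ j ∈ Finset.univ.erase i, a j * PiK (W i t0) (W j t0) := by
        rw [← Finset.sum_add_distrib]
        refine Finset.sum_congr rfl fun i _ => ?_
        rw [← Finset.sum_add_distrib]
        exact Finset.sum_congr rfl fun j _ => by ring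
      have hcomm : ∑ i, ∑ j ∈ Finset.univ.erase i, a j * PiK (W i t0) (W j t0) =
          ∑ i, ∑ j ∈ Finset.univ.erase i, a i * PiK (W i t0) (W j t0) := by
        rw [Finset.sum_comm' (t' := Finset.univ) (s' := fun j => Finset.univ.erase j)]
        · refine Finset.sum_congr rfl fun i _ => Finset.sum_congr rfl fun j _ => ?_
          rw [PiK_symm_8326]
        · intro i j
          simp only [Finset.mem_univ, Finset.mem_erase, and_true, true_and]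
          exact ne_comm
      rw [hsplit, hcomm, ← two_mul]
      congr 1
      exact Finset.sum_congr rfl fun i _ => by rw [Finset.mul_sum]
    have hLHS : (2 / (N : ℝ)) * ∑ i, ((D.p (W i t0))⁻¹.re / ‖D.Z (W i t0)‖) *
        (1 - (1 / (N : ℝ)) * ∑ j ∈ Finset.univ.erase i, PiK (W i t0) (W j t0)) =
        (2 / (N : ℝ)) * ∑ i, a i - (1 / (N : ℝ) ^ 2) *
          (2 * ∑ i, a i * ∑ j ∈ Finset.univ.erase i, PiK (W i t0) (W j t0)) := by
      have e1 : ∑ i, ((D.p (W i t0))⁻¹.re / ‖D.Z (W i t0)‖) *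
        (1 - (1 / (N : ℝ)) * ∑ j ∈ Finset.univ.erase i, PiK (W i t0) (W j t0)) =
          ∑ i, a i - (1 / (N : ℝ)) *
            ∑ i, a i * ∑ j ∈ Finset.univ.erase i, PiK (W i t0) (W j t0) := by
        rw [Finset.mul_sum, ← Finset.sum_sub_distrib]
        refine Finset.sum_congr rfl fun i _ => ?_
        rw [ha]
        ring
      rw [e1]
      field_simp
    rw [hLHS, ← hs]
    have := mul_le_mul_of_nonneg_left hb (by positivity : 0 ≤ 1 / (N : ℝ) ^ 2)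
    linarith


end Pool.LR
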