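import Mathlib
import Pool.Agent.Helper50.LR.Defs

set_option autoImplicit false

open Complex Finset Filter Topology

namespace Pool.LR


section aux8324

theorem gG_self (a : ℂ) : gG a a = 0 := by
  simp [gG]

theorem gG_comm (a b : ℂ) : gG a b = gG b a := by
  unfold gG
  have h1 : ‖1 - (starRingEnd ℂ) a * b‖ = ‖1 - (starRingEnd ℂ) b * a‖ := by
    rw [← Complex.norm_conj (1 - (starRingEnd ℂ) a * b)]
    congr 1
    simp only [map_sub, map_one, map_mul, Complex.conj_conj]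
    ring
  rw [h1, norm_sub_rev a b]

theorem Jf_eq (N : ℕ) {n : ℕ} (w : Fin n → ℂ) :
    Jf N w = (2 / (N : ℝ)) * ∑ i, gx (w i)
      - (1 / (N : ℝ) ^ 2) * ∑ i, ∑ j, gG (w i) (w j) := by
  unfold Jf
  congr 2
  apply Finset.sum_congr rfl
  intro i _
  rw [← Finset.add_sum_erase Finset.univ (fun j => gG (w i) (w j)) (Finset.mem_univ i),
    gG_self, zero_add]

theorem sum_erase_gG {n : ℕ} (w : Fin n → ℂ) (i : Fin n) :
    ∑ j ∈ Finset.univ.erase i, gG (w i) (w j) = ∑ j, gG (w i) (w j) := by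
  rw [← Finset.add_sum_erase Finset.univ (fun j => gG (w i) (w j)) (Finset.mem_univ i),
    gG_self, zero_add]

/-- insertion formula -/
theorem Jf_insert (N : ℕ) {n : ℕ} (w : Fin (n + 1) → ℂ) (i : Fin (n + 1)) :
    Jf N w = Jf N (fun k => w (i.succAbove k)) + (2 / (N : ℝ)) * gx (w i)
      - (2 / (N : ℝ) ^ 2) * ∑ j, gG (w i) (w j) := by
  rw [Jf_eq, Jf_eq, Fin.sum_univ_succAbove _ i, Fin.sum_univ_succAbove (fun a => ∑ j, gG (w a) (w j)) i]
  have h1 : ∑ k, ∑ j, gG (w (i.succAbove k)) (w j)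
      = ∑ j, gG (w i) (w j)
        + ∑ k, ∑ j, gG (w (i.succAbove k)) (w (i.succAbove j)) := by
    have h2 : ∀ k, ∑ j, gG (w (i.succAbove k)) (w j)
        = gG (w i) (w (i.succAbove k)) + ∑ j, gG (w (i.succAbove k)) (w (i.succAbove j)) := by
      intro k
      rw [Fin.sum_univ_succAbove _ i, gG_comm]
    rw [Finset.sum_congr rfl (fun k _ => h2 k), Finset.sum_add_distrib]
    congr 1
    rw [Fin.sum_univ_succAbove (fun j => gG (w i) (w j)) i, gG_self, zero_add]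
  rw [h1]
  ring

theorem conf_sub {A : Set ℂ} {n : ℕ} {w : Fin (n + 1) → ℂ} (h : Conf A w) (i : Fin (n + 1)) :
    Conf A (fun k => w (i.succAbove k)) := by
  refine ⟨?_, fun k => h.2 _⟩
  intro a b hab
  exact Fin.succAbove_right_injective (h.1 hab)

end aux8324

/-! ### TARGETS (prove these; put auxiliary lemmas just before them) -/

section aux8324b

theorem key_sq (a b : ℂ) :
    ‖1 - (starRingEnd ℂ) a * b‖ ^ 2 - ‖a - b‖ ^ 2 = (1 - ‖a‖ ^ 2) * (1 - ‖b‖ ^ 2) := by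
  simp only [← Complex.normSq_eq_norm_sq, Complex.normSq_apply, Complex.sub_re, Complex.sub_im,
    Complex.mul_re, Complex.mul_im, Complex.conj_re, Complex.conj_im, Complex.one_re,
    Complex.one_im]
  ring

theorem den_ne {a b : ℂ} (ha : ‖a‖ < 1) (hb : ‖b‖ < 1) : 1 - (starRingEnd ℂ) a * b ≠ 0 := by
  intro h
  have h1 : ‖(starRingEnd ℂ) a * b‖ = 1 := by
    rw [← sub_eq_zero.1 h]
    simp
  rw [norm_mul, Complex.norm_conj] at h1
  have := mul_lt_one_of_nonneg_of_lt_one_left (norm_nonneg a) ha hb.le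
  linarith

/-- the exponential of the energy, as a continuous function of all tuples -/
noncomputable def FF (N : ℕ) {n : ℕ} (w : Fin n → ℂ) : ℝ :=
  (∏ i, (‖w i‖⁻¹) ^ (2 * N)) *
    ∏ i, ∏ j ∈ Finset.univ.erase i, (‖w i - w j‖ / ‖1 - (starRingEnd ℂ) (w i) * w j‖)

theorem FF_cont (N : ℕ) (n : ℕ) {A : Set ℂ} (h1 : ∀ w ∈ A, ‖w‖ < 1 ∧ w ≠ 0) :
    ContinuousOn (fun w : Fin n → ℂ => FF N w) (Set.pi Set.univ (fun _ => A)) := by
  unfold FF
  apply ContinuousOn.mul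
  · apply continuousOn_finsetProd
    intro i _
    apply ContinuousOn.pow
    apply ContinuousOn.inv₀
    · exact (continuous_norm.comp (continuous_apply i)).continuousOn
    · intro w hw
      exact norm_ne_zero_iff.2 (h1 _ (hw i (Set.mem_univ i))).2
  · apply continuousOn_finsetProd
    intro i _
    apply continuousOn_finsetProd
    intro j _
    apply ContinuousOn.div
    · exact (continuous_norm.comp ((continuous_apply i).sub (continuous_apply j))).continuousOn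
    · exact (continuous_norm.comp (continuous_const.sub
        ((Complex.continuous_conj.comp (continuous_apply i)).mul
          (continuous_apply j)))).continuousOn
    · intro w hw
      exact norm_ne_zero_iff.2 (den_ne (h1 _ (hw i (Set.mem_univ i))).1
        (h1 _ (hw j (Set.mem_univ j))).1)

theorem FF_zero_of_not_inj (N : ℕ) {n : ℕ} (w : Fin n → ℂ) (h : ¬ Function.Injective w) :
    FF N w = 0 := by
  unfold Function.Injective at h
  push Not at h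
  obtain ⟨i, j, hij, hne⟩ := h
  unfold FF
  apply mul_eq_zero_of_right
  apply Finset.prod_eq_zero (Finset.mem_univ i)
  apply Finset.prod_eq_zero (i := j)
  · exact Finset.mem_erase.2 ⟨fun h => hne h.symm, Finset.mem_univ _⟩
  · rw [hij]; simp

theorem FF_eq (N : ℕ) (hN : 0 < N) {n : ℕ} {A : Set ℂ} (h1 : ∀ w ∈ A, ‖w‖ < 1 ∧ w ≠ 0)
    (w : Fin n → ℂ) (h : Conf A w) : FF N w = Real.exp ((N : ℝ) ^ 2 * Jf N w) := by
  have hN' : (N : ℝ) ≠ 0 := by exact_mod_cast hN.ne'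
  have h2 : (N : ℝ) ^ 2 * Jf N w = ∑ i, (2 * N : ℕ) * gx (w i)
      + ∑ i, ∑ j ∈ Finset.univ.erase i, -gG (w i) (w j) := by
    unfold Jf
    rw [← Finset.mul_sum]
    simp only [Finset.sum_neg_distrib]
    push_cast
    field_simp
    ring
  rw [h2, Real.exp_add, Real.exp_sum, Real.exp_sum]
  unfold FF
  congr 1
  · apply Finset.prod_congr rfl
    intro i _
    have hp : 0 < ‖w i‖ := norm_pos_iff.2 (h1 _ (h.2 i)).2
    rw [Real.exp_nat_mul, gx, Real.exp_neg, Real.exp_log hp]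
  · apply Finset.prod_congr rfl
    intro i _
    rw [Real.exp_sum]
    apply Finset.prod_congr rfl
    intro j hj
    have hij : w i ≠ w j := fun e => (Finset.mem_erase.1 hj).1 (h.1 e).symm
    have hp : 0 < ‖w i - w j‖ := norm_pos_iff.2 (sub_ne_zero.2 hij)
    have hq : 0 < ‖1 - (starRingEnd ℂ) (w i) * w j‖ :=
      norm_pos_iff.2 (den_ne (h1 _ (h.2 i)).1 (h1 _ (h.2 j)).1)
    rw [gG, Real.exp_neg, Real.exp_log (by positivity), inv_div]

theorem exists_max (N : ℕ) {A : Set ℂ} (hA : IsCompact A) (h1 : ∀ w ∈ A, ‖w‖ < 1 ∧ w ≠ 0)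
    (n0 : ℕ) : ∃ (n : ℕ) (w : Fin n → ℂ), n ≤ n0 ∧ (∀ i, w i ∈ A) ∧
      ∀ (n' : ℕ) (w' : Fin n' → ℂ), n' ≤ n0 → (∀ i, w' i ∈ A) → FF N w' ≤ FF N w := by
  induction n0 with
  | zero =>
    refine ⟨0, Fin.elim0, le_refl _, fun i => i.elim0, ?_⟩
    intro n' w' hn' _
    obtain rfl : n' = 0 := by omega
    have : w' = Fin.elim0 := by funext i; exact i.elim0
    rw [this]
  | succ n0 ih =>
    obtain ⟨n, w, hn, hw, hmax⟩ := ih
    rcases Set.eq_empty_or_nonempty A with hE | ⟨a, ha⟩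
    · refine ⟨n, w, by omega, hw, ?_⟩
      intro n' w' hn' hw'
      rcases Nat.lt_or_ge n0 n' with h | h
      · exfalso
        have := hw' ⟨0, by omega⟩
        rw [hE] at this
        exact this
      · exact hmax n' w' h hw'
    · have hc : IsCompact (Set.pi Set.univ (fun _ : Fin (n0 + 1) => A)) :=
        isCompact_univ_pi (fun _ => hA)
      obtain ⟨w1, hw1, hm1⟩ := hc.exists_isMaxOn ⟨fun _ => a, fun _ _ => ha⟩
        (FF_cont N (n0 + 1) h1)
      have hm2 : ∀ w' : Fin (n0 + 1) → ℂ, (∀ i, w' i ∈ A) → FF N w' ≤ FF N w1 :=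
        fun w' hw' => hm1 (fun i _ => hw' i)
      rcases le_total (FF N w) (FF N w1) with hle | hle
      · refine ⟨n0 + 1, w1, le_refl _, fun i => hw1 i (Set.mem_univ i), ?_⟩
        intro n' w' hn' hw'
        rcases Nat.lt_or_ge n0 n' with h | h
        · obtain rfl : n' = n0 + 1 := by omega
          exact hm2 w' hw'
        · exact (hmax n' w' h hw').trans hle
      · refine ⟨n, w, by omega, hw, ?_⟩
        intro n' w' hn' hw'
        rcases Nat.lt_or_ge n0 n' with h | h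
        · obtain rfl : n' = n0 + 1 := by omega
          exact (hm2 w' hw').trans hle
        · exact hmax n' w' h hw'

theorem gG_lower {A : Set ℂ} {ρ : ℝ} (hρ0 : 0 ≤ ρ) (hρ : ρ < 1) (h1 : ∀ w ∈ A, ‖w‖ ≤ ρ)
    {a b : ℂ} (ha : a ∈ A) (hb : b ∈ A) (hab : a ≠ b) :
    (1 / 2) * Real.log (1 + (1 - ρ ^ 2) ^ 2 / 4) ≤ gG a b := by
  have hp : 0 < ‖a - b‖ := norm_pos_iff.2 (sub_ne_zero.2 hab)
  have hra := h1 a ha
  have hrb := h1 b hb
  have hq : 0 < ‖1 - (starRingEnd ℂ) a * b‖ :=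
    norm_pos_iff.2 (den_ne (by linarith) (by linarith))
  have hkey := key_sq a b
  have h2 : (1 - ρ ^ 2) ^ 2 ≤ (1 - ‖a‖ ^ 2) * (1 - ‖b‖ ^ 2) := by
    have e1 : ‖a‖ ^ 2 ≤ ρ ^ 2 := by gcongr
    have e2 : ‖b‖ ^ 2 ≤ ρ ^ 2 := by gcongr
    have e3 : ρ ^ 2 < 1 := by nlinarith
    rw [sq (1 - ρ ^ 2)]
    apply mul_le_mul <;> linarith
  have h3 : ‖a - b‖ ^ 2 ≤ 4 := by
    have : ‖a - b‖ ≤ 2 := (norm_sub_le a b).trans (by linarith)
    nlinarith
  have h4 : 1 + (1 - ρ ^ 2) ^ 2 / 4 ≤ (‖1 - (starRingEnd ℂ) a * b‖ / ‖a - b‖) ^ 2 := by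
    rw [div_pow, le_div_iff₀ (by positivity)]
    have : 0 ≤ (1 - ρ ^ 2) ^ 2 := sq_nonneg _
    nlinarith
  unfold gG
  have h5 : Real.log (1 + (1 - ρ ^ 2) ^ 2 / 4)
      ≤ Real.log ((‖1 - (starRingEnd ℂ) a * b‖ / ‖a - b‖) ^ 2) :=
    Real.log_le_log (by positivity) h4
  rw [Real.log_pow] at h5
  push_cast at h5
  linarith

theorem Jf_neg_large (N : ℕ) (hN : 0 < N) {A : Set ℂ} (hA : IsCompact A)
    (h1 : ∀ w ∈ A, ‖w‖ < 1 ∧ w ≠ 0) : ∃ n0 : ℕ, ∀ (n : ℕ) (w : Fin n → ℂ), n0 < n →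
      Conf A w → Jf N w < 0 := by
  rcases Set.eq_empty_or_nonempty A with hE | hne
  · refine ⟨0, fun n w hn hw => ?_⟩
    exfalso
    have := hw.2 ⟨0, hn⟩
    rw [hE] at this
    exact this
  obtain ⟨a, ha, hmax⟩ := hA.exists_isMaxOn hne continuous_norm.continuousOn
  obtain ⟨b, hb, hmin⟩ := hA.exists_isMinOn hne continuous_norm.continuousOn
  have hmax' : ∀ w ∈ A, ‖w‖ ≤ ‖a‖ := fun w hw => hmax hw
  have hmin' : ∀ w ∈ A, ‖b‖ ≤ ‖w‖ := fun w hw => hmin hw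
  have hbp : 0 < ‖b‖ := norm_pos_iff.2 (h1 b hb).2
  obtain ⟨γ, hγ⟩ : ∃ γ, γ = (1 / 2) * Real.log (1 + (1 - ‖a‖ ^ 2) ^ 2 / 4) := ⟨_, rfl⟩
  have hγp : 0 < γ := by
    have e : ‖a‖ ^ 2 < 1 := by
      have := (h1 a ha).1
      have := norm_nonneg a
      nlinarith
    have : 0 < (1 - ‖a‖ ^ 2) ^ 2 := by
      have : 0 < 1 - ‖a‖ ^ 2 := by linarith
      positivity
    have : 0 < Real.log (1 + (1 - ‖a‖ ^ 2) ^ 2 / 4) := Real.log_pos (by linarith)
    rw [hγ]; linarith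
  have hg : ∀ x ∈ A, ∀ y ∈ A, x ≠ y → γ ≤ gG x y := by
    intro x hx y hy hxy
    rw [hγ]
    exact gG_lower (norm_nonneg a) (h1 a ha).1 hmax' hx hy hxy
  have hx : ∀ x ∈ A, gx x ≤ gx b := by
    intro x hx
    unfold gx
    have := Real.log_le_log hbp (hmin' x hx)
    linarith
  obtain ⟨k, hk⟩ := exists_nat_gt (2 * (N : ℝ) * gx b / γ)
  refine ⟨k + 1, fun n w hn hw => ?_⟩
  have hNr : (0 : ℝ) < N := by exact_mod_cast hN
  have e1 : ∑ i, gx (w i) ≤ n * gx b := by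
    have := Finset.sum_le_card_nsmul Finset.univ (fun i => gx (w i)) (gx b)
      (fun i _ => hx _ (hw.2 i))
    simpa using this
  have e2 : (n : ℝ) * ((n : ℝ) - 1) * γ ≤ ∑ i, ∑ j ∈ Finset.univ.erase i, gG (w i) (w j) := by
    have e3 : ∀ i : Fin n, ((n : ℝ) - 1) * γ ≤ ∑ j ∈ Finset.univ.erase i, gG (w i) (w j) := by
      intro i
      have := Finset.card_nsmul_le_sum (Finset.univ.erase i) (fun j => gG (w i) (w j)) γ
        (fun j hj => hg _ (hw.2 i) _ (hw.2 j)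
          (fun e => (Finset.mem_erase.1 hj).1 (hw.1 e).symm))
      rw [Finset.card_erase_of_mem (Finset.mem_univ i), Finset.card_fin, nsmul_eq_mul,
        Nat.cast_sub (by omega)] at this
      simpa using this
    have := Finset.card_nsmul_le_sum Finset.univ
      (fun i => ∑ j ∈ Finset.univ.erase i, gG (w i) (w j)) (((n : ℝ) - 1) * γ)
      (fun i _ => e3 i)
    rw [Finset.card_fin, nsmul_eq_mul, ← mul_assoc] at this
    exact this
  have hn1 : (k : ℝ) < (n : ℝ) - 1 := by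
    have : ((k + 1 : ℕ) : ℝ) < n := by exact_mod_cast hn
    push_cast at this
    linarith
  have hn0 : (0 : ℝ) < n := by
    have : 0 < n := by omega
    exact_mod_cast this
  have e4 : 2 * (N : ℝ) * gx b < ((n : ℝ) - 1) * γ := by
    rw [div_lt_iff₀ hγp] at hk
    nlinarith
  unfold Jf
  have e5 : (2 / (N : ℝ)) * ∑ i, gx (w i)
      - (1 / (N : ℝ) ^ 2) * ∑ i, ∑ j ∈ Finset.univ.erase i, gG (w i) (w j)
      = (1 / (N : ℝ) ^ 2) * (2 * N * ∑ i, gx (w i)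
        - ∑ i, ∑ j ∈ Finset.univ.erase i, gG (w i) (w j)) := by
    field_simp
  rw [e5]
  apply mul_neg_of_pos_of_neg (by positivity)
  have e6 : 2 * (N : ℝ) * ∑ i, gx (w i) ≤ 2 * (N : ℝ) * (n * gx b) :=
    mul_le_mul_of_nonneg_left e1 (by positivity)
  nlinarith

end aux8324b

theorem exists_isOpt {A : Set ℂ} (hA : IsCompact A) (h1 : ∀ w ∈ A, ‖w‖ < 1 ∧ w ≠ 0) (N : ℕ) (hN : 0 < N) :
    ∃ (n : ℕ) (w : Fin n → ℂ), IsOpt A N w := by
  obtain ⟨n0, hn0⟩ := Jf_neg_large N hN hA h1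
  obtain ⟨n, w, hn, hw, hmax⟩ := exists_max N hA h1 n0
  have hF1 : 1 ≤ FF N w := by
    have := hmax 0 Fin.elim0 (Nat.zero_le _) (fun i => i.elim0)
    simpa [FF] using this
  have hinj : Function.Injective w := by
    by_contra hc
    rw [FF_zero_of_not_inj N w hc] at hF1
    linarith
  have hconf : Conf A w := ⟨hinj, hw⟩
  have hNr : (0 : ℝ) < (N : ℝ) ^ 2 := by
    have : (0 : ℝ) < N := by exact_mod_cast hN
    positivity
  have hJ0 : 0 ≤ Jf N w := by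
    rw [FF_eq N hN h1 w hconf] at hF1
    have h := Real.one_le_exp_iff.1 hF1
    by_contra hc
    push Not at hc
    have := mul_neg_of_pos_of_neg hNr hc
    linarith
  refine ⟨n, w, hconf, ?_⟩
  intro n' w' hw'
  rcases Nat.lt_or_ge n0 n' with h | h
  · exact (hn0 n' w' h hw').le.trans hJ0
  · have h2 := hmax n' w' h hw'.2
    rw [FF_eq N hN h1 w hconf, FF_eq N hN h1 w' hw', Real.exp_le_exp] at h2
    exact le_of_mul_le_mul_left h2 hNr

theorem isOpt_remove {A : Set ℂ} (h1 : ∀ w ∈ A, ‖w‖ < 1 ∧ w ≠ 0) {N : ℕ} (hN : 0 < N) {n : ℕ} {w : Fin n → ℂ}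
    (h : IsOpt A N w) (i : Fin n) :
    (1 / (N : ℝ)) * ∑ j ∈ Finset.univ.erase i, gG (w i) (w j) ≤ gx (w i) := by
  obtain ⟨m, rfl⟩ : ∃ m, n = m + 1 := ⟨n - 1, by have := i.pos; omega⟩
  have h2 := h.2 m _ (conf_sub h.1 i)
  have h3 := Jf_insert N w i
  rw [sum_erase_gG]
  have hNr : (0 : ℝ) < N := by exact_mod_cast hN
  have h4 : 0 ≤ (2 / (N : ℝ)) * gx (w i) - (2 / (N : ℝ) ^ 2) * ∑ j, gG (w i) (w j) := by
    linarith
  have h5 : (2 / (N : ℝ)) * gx (w i) - (2 / (N : ℝ) ^ 2) * ∑ j, gG (w i) (w j)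
      = (2 / (N : ℝ)) * (gx (w i) - (1 / (N : ℝ)) * ∑ j, gG (w i) (w j)) := by
    field_simp
  rw [h5] at h4
  have h6 := nonneg_of_mul_nonneg_right h4 (by positivity)
  linarith

theorem isOpt_add {A : Set ℂ} (h1 : ∀ w ∈ A, ‖w‖ < 1 ∧ w ≠ 0) {N : ℕ} (hN : 0 < N) {n : ℕ} {w : Fin n → ℂ}
    (h : IsOpt A N w) {x : ℂ} (hx : x ∈ A) : ‖bl w x‖ ≤ ‖x‖ ^ N := by
  by_cases hxw : ∃ i, x = w i
  · obtain ⟨i, hi⟩ := hxw
    have : bl w x = 0 := by
      unfold bl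
      apply Finset.prod_eq_zero (Finset.mem_univ i)
      rw [hi]; simp
    rw [this, norm_zero]
    positivity
  push Not at hxw
  have hconf : Conf A (Fin.cons x w : Fin (n + 1) → ℂ) := by
    refine ⟨?_, ?_⟩
    · rw [Fin.cons_injective_iff]
      refine ⟨?_, h.1.1⟩
      rintro ⟨i, hi⟩
      exact hxw i hi.symm
    · intro i
      refine Fin.cases ?_ ?_ i
      · simpa using hx
      · intro j
        simpa using h.1.2 j
  have h2 := h.2 _ _ hconf
  have h3 := Jf_insert N (Fin.cons x w : Fin (n + 1) → ℂ) 0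
  rw [Fin.sum_univ_succ] at h3
  simp only [Fin.cons_zero, Fin.cons_succ, gG_self, zero_add, Fin.succAbove_zero] at h3
  have hNr : (0 : ℝ) < N := by exact_mod_cast hN
  have h4 : (2 / (N : ℝ)) * gx x - (2 / (N : ℝ) ^ 2) * ∑ j, gG x (w j) ≤ 0 := by
    linarith
  have h5 : (2 / (N : ℝ)) * gx x - (2 / (N : ℝ) ^ 2) * ∑ j, gG x (w j)
      = (2 / (N : ℝ) ^ 2) * (N * gx x - ∑ j, gG x (w j)) := by
    field_simp
  rw [h5] at h4
  have h6 : N * gx x - ∑ j, gG x (w j) ≤ 0 := by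
    by_contra hc
    push Not at hc
    have : 0 < (2 / (N : ℝ) ^ 2) * (N * gx x - ∑ j, gG x (w j)) := by positivity
    linarith
  have hxp : 0 < ‖x‖ := norm_pos_iff.2 (h1 x hx).2
  have hterm : ∀ j, ‖(x - w j) / (1 - (starRingEnd ℂ) (w j) * x)‖ = Real.exp (-gG x (w j)) := by
    intro j
    have hp : 0 < ‖x - w j‖ := norm_pos_iff.2 (sub_ne_zero.2 (hxw j))
    have hq : 0 < ‖1 - (starRingEnd ℂ) (w j) * x‖ :=
      norm_pos_iff.2 (den_ne (h1 _ (h.1.2 j)).1 (h1 _ hx).1)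
    rw [gG_comm, gG, norm_sub_rev (w j) x, Real.exp_neg, Real.exp_log (by positivity), inv_div,
      norm_div]
  unfold bl
  rw [norm_prod, Finset.prod_congr rfl (fun j _ => hterm j), ← Real.exp_sum]
  have h7 : ‖x‖ ^ N = Real.exp (-(N * gx x)) := by
    unfold gx
    rw [mul_neg, neg_neg, Real.exp_nat_mul, Real.exp_log hxp]
  rw [h7, Real.exp_le_exp, Finset.sum_neg_distrib]
  linarith

/-- the energy of an optimal configuration is at least the mean of `gx` -/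
theorem isOpt_energy {A : Set ℂ} (h1 : ∀ w ∈ A, ‖w‖ < 1 ∧ w ≠ 0) {N : ℕ} (hN : 0 < N) {n : ℕ} {w : Fin n → ℂ}
    (h : IsOpt A N w) : (1 / (N : ℝ)) * ∑ i, gx (w i) ≤ Jf N w := by
  have hNr : (0 : ℝ) < N := by exact_mod_cast hN
  have h2 : ∑ i, (1 / (N : ℝ)) * ∑ j ∈ Finset.univ.erase i, gG (w i) (w j) ≤ ∑ i, gx (w i) :=
    Finset.sum_le_sum (fun i _ => isOpt_remove h1 hN h i)
  rw [← Finset.mul_sum] at h2
  unfold Jf
  have h3 : (1 / (N : ℝ)) * ((1 / (N : ℝ)) * ∑ i, ∑ j ∈ Finset.univ.erase i, gG (w i) (w j))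
      ≤ (1 / (N : ℝ)) * ∑ i, gx (w i) :=
    mul_le_mul_of_nonneg_left h2 (by positivity)
  have h4 : (2 / (N : ℝ)) * ∑ i, gx (w i) = (1 / (N : ℝ)) * ∑ i, gx (w i)
      + (1 / (N : ℝ)) * ∑ i, gx (w i) := by ring
  have h5 : (1 / (N : ℝ) ^ 2) * ∑ i, ∑ j ∈ Finset.univ.erase i, gG (w i) (w j)
      = (1 / (N : ℝ)) * ((1 / (N : ℝ)) * ∑ i, ∑ j ∈ Finset.univ.erase i, gG (w i) (w j)) := by
    field_simp
  rw [h4, h5]
  linarith


end Pool.LR
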