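import Mathlib
import Pool.Agent.Helper50.LR.Defs
import Pool.Agent.Helper50.LR.Ba
import Pool.Agent.Helper50.LR.Bb
import Pool.Agent.Helper50.LR.Bc
import Pool.Agent.Helper50.LR.E1
import Pool.Agent.Helper50.LR.E2
import Pool.Agent.Helper50.LR.Oa
import Pool.Agent.Helper50.LR.F1

set_option autoImplicit false

open Complex Finset Filter Topology

namespace Pool.LR


/-! ### TARGETS (prove these; put auxiliary lemmas just before them) -/


theorem fl_shift_eq {z : ℂ} (hz : z ≠ 0) (t : ℝ) :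
    shift t z = ((1 + t / ‖z‖ : ℝ) : ℂ) * z := by
  have h : (‖z‖ : ℂ) ≠ 0 := by
    exact_mod_cast norm_ne_zero_iff.2 hz
  rw [shift]
  push_cast
  field_simp

theorem fl_norm_shift {z : ℂ} (hz : z ≠ 0) {t : ℝ} (ht : 0 ≤ t) : ‖shift t z‖ = ‖z‖ + t := by
  have h : 0 < ‖z‖ := norm_pos_iff.2 hz
  rw [fl_shift_eq hz, norm_mul, Complex.norm_real, Real.norm_eq_abs, abs_of_nonneg]
  · field_simp
  · positivity

theorem fl_shift_inj {z z' : ℂ} (hz : z ≠ 0) (hz' : z' ≠ 0) {t : ℝ} (ht : 0 ≤ t)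
    (h : shift t z = shift t z') : z = z' := by
  have h1 : ‖z‖ = ‖z'‖ := by
    have := congrArg norm h
    rw [fl_norm_shift hz ht, fl_norm_shift hz' ht] at this
    linarith
  rw [fl_shift_eq hz, fl_shift_eq hz', h1] at h
  have hp : 0 < ‖z'‖ := norm_pos_iff.2 hz'
  have h2 : ((1 + t / ‖z'‖ : ℝ) : ℂ) ≠ 0 := by
    have : (0 : ℝ) < 1 + t / ‖z'‖ := by positivity
    exact_mod_cast this.ne'
  exact mul_left_cancel₀ h2 h

theorem fl_ne_zero (D : Star) {M : Set ℂ} (hMS : Disjoint M D.S) {z : ℂ} (hz : z ∈ M) :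
    z ≠ 0 := by
  rintro rfl
  exact Set.disjoint_left.1 hMS hz D.zero_mem_S

theorem fl_shift_notMem (D : Star) (hD : D.IsStar) {M : Set ℂ} (hMS : Disjoint M D.S) {z : ℂ}
    (hz : z ∈ M) {t : ℝ} (ht : 0 ≤ t) : shift t z ∉ D.S := by
  intro h
  have hz0 := fl_ne_zero D hMS hz
  have hp : 0 < ‖z‖ := norm_pos_iff.2 hz0
  have h1 : (0 : ℝ) < 1 + t / ‖z‖ := by positivity
  have h2 := hD _ h (1 + t / ‖z‖)⁻¹ (by positivity) (by
    apply inv_le_one_of_one_le₀
    have : 0 ≤ t / ‖z‖ := by positivity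
    linarith)
  rw [fl_shift_eq hz0] at h2
  have h3 : ((((1 + t / ‖z‖)⁻¹ : ℝ)) : ℂ) * (((1 + t / ‖z‖ : ℝ) : ℂ) * z) = z := by
    rw [← mul_assoc, ← Complex.ofReal_mul, inv_mul_cancel₀ h1.ne', Complex.ofReal_one, one_mul]
  rw [h3] at h2
  exact Set.disjoint_left.1 hMS hz h2

theorem fl_cont_shift {q : ℝ × ℂ} (hq : q.2 ≠ 0) :
    ContinuousAt (fun q : ℝ × ℂ => shift q.1 q.2) q := by
  have h : (‖q.2‖ : ℂ) ≠ 0 := by
    exact_mod_cast norm_ne_zero_iff.2 hq
  have h1 : ContinuousAt (fun q : ℝ × ℂ => (‖q.2‖ : ℂ)) q :=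
    (Complex.continuous_ofReal.comp (continuous_norm.comp continuous_snd)).continuousAt
  have h2 : ContinuousAt (fun q : ℝ × ℂ => (q.1 : ℂ)) q :=
    (Complex.continuous_ofReal.comp continuous_fst).continuousAt
  have h3 : ContinuousAt (fun q : ℝ × ℂ => q.2) q := continuous_snd.continuousAt
  exact h3.add (h2.mul (h3.div h1 h))

theorem fl_compact_bounds {K : Set ℂ} (hK : IsCompact K) (h : ∀ w ∈ K, ‖w‖ < 1 ∧ w ≠ 0) :
    ∃ r0 > (0 : ℝ), ∃ d0 > (0 : ℝ), d0 ≤ 1 ∧ ∀ w ∈ K, r0 ≤ ‖w‖ ∧ ‖w‖ ≤ 1 - d0 := by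
  rcases K.eq_empty_or_nonempty with rfl | hne
  · exact ⟨1, one_pos, 1, one_pos, le_rfl, fun w hw => absurd hw (Set.notMem_empty w)⟩
  · obtain ⟨a, ha, hamin⟩ := hK.exists_isMinOn hne continuous_norm.continuousOn
    obtain ⟨b, hb, hbmax⟩ := hK.exists_isMaxOn hne continuous_norm.continuousOn
    refine ⟨‖a‖, norm_pos_iff.2 (h a ha).2, 1 - ‖b‖, by linarith [(h b hb).1],
      by linarith [norm_nonneg b], fun w hw => ⟨hamin hw, ?_⟩⟩
    have := hbmax hw
    simp only [Set.mem_setOf_eq] at this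
    linarith

theorem fl_key_sq (w w' : ℂ) : ‖1 - (starRingEnd ℂ) w * w'‖ ^ 2 - ‖w - w'‖ ^ 2 =
    (1 - ‖w‖ ^ 2) * (1 - ‖w'‖ ^ 2) := by
  rw [Complex.sq_norm, Complex.sq_norm, Complex.sq_norm, Complex.sq_norm]
  simp only [Complex.normSq_apply, Complex.sub_re, Complex.sub_im, Complex.mul_re, Complex.mul_im,
    Complex.conj_re, Complex.conj_im, Complex.one_re, Complex.one_im]
  ring

theorem fl_den_pos {w w' : ℂ} (h : ‖w‖ < 1) (h' : ‖w'‖ < 1) :
    0 < ‖1 - (starRingEnd ℂ) w * w'‖ := by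
  rw [norm_pos_iff]
  intro h0
  have h1 : (starRingEnd ℂ) w * w' = 1 := (sub_eq_zero.1 h0).symm
  have h2 : ‖w‖ * ‖w'‖ = 1 := by
    have := congrArg norm h1
    rwa [norm_mul, Complex.norm_conj, norm_one] at this
  nlinarith [norm_nonneg w, norm_nonneg w']

theorem fl_gG_lower {d0 : ℝ} (hd : 0 < d0) {w w' : ℂ} (h : ‖w‖ ≤ 1 - d0)
    (h' : ‖w'‖ ≤ 1 - d0) (hne : w ≠ w') :
    Real.log (1 + d0 ^ 2 / 4) / 2 ≤ gG w w' := by
  have hw0 := norm_nonneg w
  have hw0' := norm_nonneg w'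
  have h1 : ‖w‖ < 1 := by linarith
  have h1' : ‖w'‖ < 1 := by linarith
  have hden := fl_den_pos h1 h1'
  have hpos : 0 < ‖w - w'‖ := norm_pos_iff.2 (sub_ne_zero.2 hne)
  have hle2 : ‖w - w'‖ ≤ 2 := by
    have := norm_sub_le w w'
    linarith
  have hsq := fl_key_sq w w'
  have hb1 : d0 ≤ 1 - ‖w‖ ^ 2 := by nlinarith
  have hb2 : d0 ≤ 1 - ‖w'‖ ^ 2 := by nlinarith
  have hprod : d0 ^ 2 ≤ (1 - ‖w‖ ^ 2) * (1 - ‖w'‖ ^ 2) := by nlinarith
  have hratio : 1 + d0 ^ 2 / 4 ≤ (‖1 - (starRingEnd ℂ) w * w'‖ / ‖w - w'‖) ^ 2 := by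
    rw [div_pow, le_div_iff₀ (by positivity)]
    have h4 : ‖w - w'‖ ^ 2 ≤ 4 := by nlinarith
    nlinarith [sq_nonneg d0]
  have hl := Real.log_le_log (by positivity) hratio
  rw [Real.log_pow] at hl
  push_cast at hl
  rw [gG]
  linarith

theorem fl_PiK_nonneg {w w' : ℂ} (h : ‖w‖ < 1) (h' : ‖w'‖ < 1) : 0 ≤ PiK w w' := by
  rw [PiK]
  apply div_nonneg _ (by positivity)
  have h0 := norm_nonneg w
  have h0' := norm_nonneg w'
  have : ‖w‖ * ‖w'‖ ≤ 1 := by nlinarith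
  have h2 : 0 ≤ ‖w‖ * ‖w'‖ := by positivity
  nlinarith

/-- the number of points of an optimal configuration -/
theorem fl_card {r0 d0 : ℝ} (hr : 0 < r0) (hd : 0 < d0) {A : Set ℂ}
    (hA : ∀ w ∈ A, r0 ≤ ‖w‖ ∧ ‖w‖ ≤ 1 - d0) {N : ℕ} (hN : 0 < N) {n : ℕ} {w : Fin n → ℂ}
    (h : IsOpt A N w) :
    (n : ℝ) ≤ N * (|Real.log r0| / (Real.log (1 + d0 ^ 2 / 4) / 2)) + 1 := by
  have hγ : 0 < Real.log (1 + d0 ^ 2 / 4) / 2 := by
    apply half_pos
    apply Real.log_pos
    have : 0 < d0 ^ 2 / 4 := by positivity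
    linarith
  have hNr : (0 : ℝ) < N := by exact_mod_cast hN
  have hnn : 0 ≤ (N : ℝ) * (|Real.log r0| / (Real.log (1 + d0 ^ 2 / 4) / 2)) := by positivity
  rcases Nat.eq_zero_or_pos n with rfl | hn
  · simp only [Nat.cast_zero]
    linarith
  · let i : Fin n := ⟨0, hn⟩
    have h1 : ∀ w ∈ A, ‖w‖ < 1 ∧ w ≠ 0 := by
      intro w hw
      have := hA w hw
      refine ⟨by linarith, ?_⟩
      rintro rfl
      rw [norm_zero] at this
      linarith
    have hrem := isOpt_remove h1 hN h i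
    have hsum : ((n : ℝ) - 1) * (Real.log (1 + d0 ^ 2 / 4) / 2) ≤
        ∑ j ∈ Finset.univ.erase i, gG (w i) (w j) := by
      have hcard : ((Finset.univ.erase i).card : ℝ) = (n : ℝ) - 1 := by
        rw [Finset.card_erase_of_mem (Finset.mem_univ i), Finset.card_univ, Fintype.card_fin]
        rw [Nat.cast_sub hn]
        simp
      rw [← hcard, ← nsmul_eq_mul, ← Finset.sum_const]
      apply Finset.sum_le_sum
      intro j hj
      exact fl_gG_lower hd (hA _ (h.1.2 i)).2 (hA _ (h.1.2 j)).2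
        (fun he => (Finset.ne_of_mem_erase hj) (h.1.1 he).symm)
    have hgx : gx (w i) ≤ |Real.log r0| := by
      rw [gx]
      have h2 := (hA _ (h.1.2 i)).1
      have h3 := Real.log_le_log hr h2
      have h4 := neg_abs_le (Real.log r0)
      linarith
    have h5 : ((n : ℝ) - 1) * (Real.log (1 + d0 ^ 2 / 4) / 2) ≤ N * |Real.log r0| := by
      have h6 : ∑ j ∈ Finset.univ.erase i, gG (w i) (w j) ≤ N * |Real.log r0| := by
        have h7 := hrem.trans hgx
        rw [one_div, inv_mul_le_iff₀ hNr] at h7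
        exact h7
      linarith
    have h8 : (n : ℝ) - 1 ≤ N * (|Real.log r0| / (Real.log (1 + d0 ^ 2 / 4) / 2)) := by
      rw [← mul_div_assoc, le_div_iff₀ hγ]
      exact h5
    linarith

/-- the exponential of the energy -/
noncomputable def flF (N : ℕ) {n : ℕ} (w : Fin n → ℂ) : ℝ :=
  (∏ i, (‖w i‖⁻¹) ^ (2 * N)) *
    ∏ i, ∏ j ∈ Finset.univ.erase i, (‖w i - w j‖ / ‖1 - (starRingEnd ℂ) (w i) * w j‖)

theorem flF_inj {N : ℕ} {n : ℕ} {w : Fin n → ℂ} (h : flF N w ≠ 0) : Function.Injective w := by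
  intro i j hij
  by_contra hne
  apply h
  rw [flF]
  apply mul_eq_zero_of_right
  apply Finset.prod_eq_zero (Finset.mem_univ i)
  apply Finset.prod_eq_zero (i := j)
  · rw [Finset.mem_erase]
    exact ⟨fun h => hne h.symm, Finset.mem_univ j⟩
  · rw [hij, sub_self, norm_zero, zero_div]

theorem flF_eq {N : ℕ} (hN : 0 < N) {n : ℕ} {w : Fin n → ℂ} (h1 : ∀ i, ‖w i‖ < 1 ∧ w i ≠ 0)
    (hinj : Function.Injective w) : flF N w = Real.exp ((N : ℝ) ^ 2 * Jf N w) := by
  have hNr : (0 : ℝ) < N := by exact_mod_cast hN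
  have e1 : (N : ℝ) ^ 2 * Jf N w = (∑ i, (2 * N : ℝ) * gx (w i)) +
      ∑ i, ∑ j ∈ Finset.univ.erase i, -gG (w i) (w j) := by
    rw [Jf]
    simp only [Finset.sum_neg_distrib, ← Finset.mul_sum]
    field_simp
    ring
  rw [e1, Real.exp_add, Real.exp_sum, Real.exp_sum, flF]
  congr 1
  · refine Finset.prod_congr rfl fun i _ => ?_
    have hp : 0 < ‖w i‖ := norm_pos_iff.2 (h1 i).2
    rw [gx, ← Real.log_inv]
    have : (2 * N : ℝ) * Real.log (‖w i‖⁻¹) = Real.log ((‖w i‖⁻¹) ^ (2 * N)) := by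
      rw [Real.log_pow]; push_cast; ring
    rw [this, Real.exp_log (by positivity)]
  · refine Finset.prod_congr rfl fun i _ => ?_
    rw [Real.exp_sum]
    refine Finset.prod_congr rfl fun j hj => ?_
    have hne : w i ≠ w j := fun he => (Finset.ne_of_mem_erase hj) (hinj he).symm
    have hpos : 0 < ‖w i - w j‖ := norm_pos_iff.2 (sub_ne_zero.2 hne)
    have hden := fl_den_pos (h1 i).1 (h1 j).1
    rw [gG, ← Real.log_inv, Real.exp_log (by positivity), inv_div]

theorem fl_cont_F (N : ℕ) {n : ℕ} {X : Type*} [TopologicalSpace X] {K : Set X}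
    {W : Fin n → X → ℂ} (hW : ∀ i, ContinuousOn (W i) K)
    (h1 : ∀ i, ∀ x ∈ K, ‖W i x‖ < 1 ∧ W i x ≠ 0) :
    ContinuousOn (fun x => flF N (fun i => W i x)) K := by
  unfold flF
  apply ContinuousOn.mul
  · apply continuousOn_finset_prod
    intro i _
    apply ContinuousOn.pow
    apply ContinuousOn.inv₀ (hW i).norm
    intro x hx
    exact norm_ne_zero_iff.2 (h1 i x hx).2
  · apply continuousOn_finset_prod
    intro i _
    apply continuousOn_finset_prod
    intro j _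
    apply ContinuousOn.div
    · exact ((hW i).sub (hW j)).norm
    · exact (continuousOn_const.sub
        ((Complex.continuous_conj.comp_continuousOn (hW i)).mul (hW j))).norm
    · intro x hx
      exact (fl_den_pos (h1 i x hx).1 (h1 j x hx).1).ne'

theorem fl_deriv_shift (D : Star) {φ : ℂ → ℂ} {z : ℂ} (hz : z ≠ 0) {t0 : ℝ} (ht : 0 ≤ t0)
    (hZ : D.Z (φ (shift t0 z)) = shift t0 z)
    (hφ : HasDerivAt φ (-(φ (shift t0 z) / (shift t0 z * D.p (φ (shift t0 z)))))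
      (shift t0 z)) :
    HasDerivAt (fun t : ℝ => φ (shift t z))
      (-(φ (shift t0 z) / ((‖D.Z (φ (shift t0 z))‖ : ℂ) * D.p (φ (shift t0 z))))) t0 := by
  have h1 : HasDerivAt (fun t : ℝ => shift t z) (z / (‖z‖ : ℂ)) t0 := by
    unfold shift
    have h2 : HasDerivAt (fun t : ℝ => (t : ℂ)) 1 t0 := Complex.ofRealCLM.hasDerivAt
    have h3 := (h2.mul_const (z / (‖z‖ : ℂ))).const_add z
    rw [one_mul] at h3
    exact h3
  have h4 : HasDerivAt (fun t : ℝ => φ (shift t z))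
      (-(φ (shift t0 z) / (shift t0 z * D.p (φ (shift t0 z)))) * (z / (‖z‖ : ℂ))) t0 :=
    HasDerivAt.comp t0 hφ h1
  convert h4 using 1
  rw [hZ]
  have hzp : 0 < ‖z‖ := norm_pos_iff.2 hz
  have hn : ‖shift t0 z‖ = ‖z‖ + t0 := fl_norm_shift hz ht
  have hs0 : 0 < ‖shift t0 z‖ := by rw [hn]; linarith
  have hs : shift t0 z ≠ 0 := norm_pos_iff.1 hs0
  have h5 : z / (‖z‖ : ℂ) = shift t0 z / (‖shift t0 z‖ : ℂ) := by
    have hzc : (‖z‖ : ℂ) ≠ 0 := by exact_mod_cast hzp.ne'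
    have hzc2 : ((‖z‖ + t0 : ℝ) : ℂ) ≠ 0 := by
      have : (0 : ℝ) < ‖z‖ + t0 := by linarith
      exact_mod_cast this.ne'
    rw [hn, fl_shift_eq hz, div_eq_div_iff hzc hzc2]
    push_cast
    field_simp
  rw [h5]
  by_cases hp : D.p (φ (shift t0 z)) = 0
  · rw [hp]; simp
  · have hsc : (‖shift t0 z‖ : ℂ) ≠ 0 := by exact_mod_cast hs0.ne'
    field_simp

theorem fl_cont_p (D : Star) {w : ℂ} (hw : ‖w‖ < 1) : ContinuousAt D.p w := by
  unfold Star.p
  apply tendsto_finset_sum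
  intro k _
  have hk := D.η_norm k
  have hne : 1 - w * D.η k ≠ 0 := by
    intro h0
    have h1 : w * D.η k = 1 := (sub_eq_zero.1 h0).symm
    have h2 := congrArg norm h1
    rw [norm_mul, hk, mul_one, norm_one] at h2
    linarith
  have h3 : ContinuousAt (fun w : ℂ => (D.m k : ℂ) * ((1 + w * D.η k) / (1 - w * D.η k))) w := by
    exact ContinuousAt.mul continuousAt_const
      (ContinuousAt.div (f := fun w : ℂ => 1 + w * D.η k) (g := fun w : ℂ => 1 - w * D.η k)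
        (by fun_prop) (by fun_prop) hne)
  exact h3

theorem fl_a_bound (D : Star) (hD : D.IsStar) {K : Set ℂ} (hK : IsCompact K)
    (h : ∀ w ∈ K, ‖w‖ < 1 ∧ w ≠ 0) :
    ∃ A : ℝ, 0 ≤ A ∧ ∀ w ∈ K, 0 ≤ (D.p w)⁻¹.re / ‖D.Z w‖ ∧ (D.p w)⁻¹.re / ‖D.Z w‖ ≤ A := by
  have hcont : ContinuousOn (fun w => (D.p w)⁻¹.re / ‖D.Z w‖) K := by
    intro w hw
    apply ContinuousAt.continuousWithinAt
    have hp : D.p w ≠ 0 := by
      intro h0
      have := D.re_p_pos (h w hw).1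
      rw [h0] at this
      simp at this
    have hZ0 : D.Z w ≠ 0 := by
      intro h0
      have := D.Z_notMem_S hD (h w hw).1 (h w hw).2
      rw [h0] at this
      exact this D.zero_mem_S
    have h1 : ContinuousAt (fun w => (D.p w)⁻¹.re) w :=
      Complex.continuous_re.continuousAt.comp ((fl_cont_p D (h w hw).1).inv₀ hp)
    have h2 : ContinuousAt (fun w => ‖D.Z w‖) w :=
      (D.hasDerivAt_Z (h w hw).1 (h w hw).2).continuousAt.norm
    exact h1.div h2 (norm_ne_zero_iff.2 hZ0)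
  obtain ⟨A, hA⟩ := hK.exists_bound_of_continuousOn hcont
  refine ⟨|A|, abs_nonneg A, fun w hw => ⟨?_, ?_⟩⟩
  · apply div_nonneg _ (norm_nonneg _)
    rw [Complex.inv_re]
    exact div_nonneg (D.re_p_pos (h w hw).1).le (Complex.normSq_nonneg _)
  · have := hA w hw
    rw [Real.norm_eq_abs] at this
    exact (le_abs_self _).trans (this.trans (le_abs_self A))

theorem flow (D : Star) (hD : D.IsStar) {M : Set ℂ} (hM : IsCompact M) (hMS : Disjoint M D.S)
    (T : ℝ) (hT : 0 ≤ T) (ε : ℝ) (hε : 0 < ε) : ∃ N0 : ℕ, ∀ N ≥ N0,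
      ∀ (n : ℕ) (w : Fin n → ℂ), IsOpt (D.pre M) N w →
      ∀ (n' : ℕ) (w' : Fin n' → ℂ), IsOpt (D.pre (shift T '' M)) N w' →
      Jf N w ≤ Jf N w' + ε := by
  obtain ⟨φ, hφ1, hφ2⟩ := D.exists_inverse hD
  have hM0 : ∀ z ∈ M, z ≠ 0 := fun z hz => fl_ne_zero D hMS hz
  have hnS : ∀ z ∈ M, ∀ t : ℝ, 0 ≤ t → shift t z ∉ D.S := fun z hz t ht =>
    fl_shift_notMem D hD hMS hz ht
  -- description of the moved sets
  have hpre : ∀ t : ℝ, 0 ≤ t → ∀ w, w ∈ D.pre (shift t '' M) ↔ ∃ z ∈ M, φ (shift t z) = w := by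
    intro t ht w
    constructor
    · rintro ⟨h1, h2, z, hz, h3⟩
      exact ⟨z, hz, by rw [h3]; exact hφ2 w h1 h2⟩
    · rintro ⟨z, hz, rfl⟩
      obtain ⟨h1, h2, h3, -⟩ := hφ1 _ (hnS z hz t ht)
      exact ⟨h1, h2, z, hz, h3.symm⟩
  have hψc : ∀ q : ℝ × ℂ, 0 ≤ q.1 → q.2 ∈ M →
      ContinuousAt (fun q : ℝ × ℂ => φ (shift q.1 q.2)) q := by
    intro q hq1 hq2
    have h1 : ContinuousAt φ (shift q.1 q.2) :=
      (hφ1 _ (hnS q.2 hq2 q.1 hq1)).2.2.2.continuousAt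
    exact ContinuousAt.comp (f := fun q : ℝ × ℂ => shift q.1 q.2) h1
      (fl_cont_shift (hM0 _ hq2))
  have hψ1 : ∀ z ∈ M, ∀ t : ℝ, 0 ≤ t → ‖φ (shift t z)‖ < 1 ∧ φ (shift t z) ≠ 0 :=
    fun z hz t ht => ⟨(hφ1 _ (hnS z hz t ht)).1, (hφ1 _ (hnS z hz t ht)).2.1⟩
  let K' : Set ℂ := (fun q : ℝ × ℂ => φ (shift q.1 q.2)) '' (Set.Icc (0 : ℝ) T ×ˢ M)
  have hK' : IsCompact K' := by
    apply (isCompact_Icc.prod hM).image_of_continuousOn
    intro q hq
    exact (hψc q hq.1.1 hq.2).continuousWithinAt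
  have hK'1 : ∀ w ∈ K', ‖w‖ < 1 ∧ w ≠ 0 := by
    rintro w ⟨q, hq, rfl⟩
    exact hψ1 q.2 hq.2 q.1 hq.1.1
  have hsub : ∀ t : ℝ, 0 ≤ t → t ≤ T → ∀ w ∈ D.pre (shift t '' M), w ∈ K' := by
    intro t ht htT w hw
    obtain ⟨z, hz, rfl⟩ := (hpre t ht w).1 hw
    exact ⟨(t, z), ⟨⟨ht, htT⟩, hz⟩, rfl⟩
  obtain ⟨r0, hr0, d0, hd0, hd01, hbd⟩ := fl_compact_bounds hK' hK'1
  obtain ⟨A, hA0, hA⟩ := fl_a_bound D hD hK' hK'1
  set B : ℝ := |Real.log r0| / (Real.log (1 + d0 ^ 2 / 4) / 2) with hB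
  have hB0 : 0 ≤ B := by
    have : 0 ≤ Real.log (1 + d0 ^ 2 / 4) := by
      apply Real.log_nonneg
      have : 0 ≤ d0 ^ 2 / 4 := by positivity
      linarith
    positivity
  set c : ℝ := ε / (T + 1) with hc
  have hc0 : 0 < c := by positivity
  set C : ℝ := 2 * A * (B + 1) with hC
  have hC0 : 0 ≤ C := by positivity
  set ε' : ℝ := c / (C + 1) with hε'
  have hε'0 : 0 < ε' := by positivity
  have hCε : C * ε' < c := by
    rw [hε', mul_div_assoc', div_lt_iff₀ (by linarith)]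
    nlinarith
  obtain ⟨N1, hN1⟩ := static_pi r0 d0 hr0 hd0 ε' hε'0
  refine ⟨max N1 1, fun N hN n w hw n' w' hw' => ?_⟩
  have hNN1 : N1 ≤ N := le_trans (le_max_left _ _) hN
  have hNpos : 0 < N := lt_of_lt_of_le one_pos (le_trans (le_max_right _ _) hN)
  have hNr : (0 : ℝ) < N := by exact_mod_cast hNpos
  have hN1r : (1 : ℝ) ≤ N := by exact_mod_cast hNpos
  -- optimal configurations exist
  have hopt : ∀ t : ℝ, 0 ≤ t → t ≤ T → ∃ (n : ℕ) (v : Fin n → ℂ),
      IsOpt (D.pre (shift t '' M)) N v := by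
    intro t ht htT
    have hcomp : IsCompact (D.pre (shift t '' M)) := by
      apply D.isCompact_pre hD
      · apply hM.image_of_continuousOn
        intro z hz
        have : ContinuousAt (fun z : ℂ => shift t z) z :=
          ContinuousAt.comp (f := fun z : ℂ => ((t, z) : ℝ × ℂ))
            (fl_cont_shift (q := (t, z)) (hM0 z hz)) (by fun_prop)
        exact this.continuousWithinAt
      · rw [Set.disjoint_left]
        rintro _ ⟨z, hz, rfl⟩
        exact hnS z hz t ht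
    exact exists_isOpt hcomp (fun v hv => hK'1 v (hsub t ht htT v hv)) N hNpos
  have hcard : ∀ t : ℝ, 0 ≤ t → t ≤ T → ∀ (k : ℕ) (v : Fin k → ℂ),
      IsOpt (D.pre (shift t '' M)) N v → (k : ℝ) ≤ N * B + 1 := by
    intro t ht htT k v hv
    exact fl_card hr0 hd0 (fun u hu => hbd u (hsub t ht htT u hu)) hNpos hv
  obtain ⟨nmax, hnmax⟩ := exists_nat_ge ((N : ℝ) * B + 1)
  set J0 : ℝ := Jf N w with hJ0
  let s : Set ℝ := {t | ∃ (k : ℕ) (v : Fin k → ℂ), Conf (D.pre (shift t '' M)) v ∧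
    J0 - c * t ≤ Jf N v}
  -- closedness
  have hclosed : IsClosed (s ∩ Set.Icc 0 T) := by
    have heq : s ∩ Set.Icc 0 T = ⋃ k ∈ Finset.range (nmax + 1),
        (Prod.fst '' ((Set.Icc (0 : ℝ) T ×ˢ (Set.univ.pi fun _ : Fin k => M)) ∩
          (fun p : ℝ × (Fin k → ℂ) => flF N (fun i => φ (shift p.1 (p.2 i))) -
            Real.exp ((N : ℝ) ^ 2 * (J0 - c * p.1))) ⁻¹' Set.Ici 0)) := by
      ext t
      simp only [Set.mem_inter_iff, Set.mem_iUnion, Set.mem_image, Set.mem_preimage,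
        Set.mem_Ici, Set.mem_prod, Set.mem_univ_pi, Prod.exists, exists_prop, exists_and_right,
        exists_eq_right]
      constructor
      · rintro ⟨⟨k, v, hv, hJ⟩, ht⟩
        obtain ⟨k', v', hv'⟩ := hopt t ht.1 ht.2
        have hk' : k' < nmax + 1 := by
          have := (hcard t ht.1 ht.2 k' v' hv').trans hnmax
          have : k' ≤ nmax := by exact_mod_cast this
          omega
        refine ⟨k', Finset.mem_range.2 hk', ?_⟩
        have hz : ∀ i, ∃ z ∈ M, φ (shift t z) = v' i := fun i =>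
          (hpre t ht.1 (v' i)).1 (hv'.1.2 i)
        choose z hzM hz using hz
        refine ⟨z, ⟨ht, hzM⟩, ?_⟩
        have hfun : (fun i => φ (shift t (z i))) = v' := funext hz
        rw [hfun, flF_eq hNpos (fun i => hK'1 _ (hsub t ht.1 ht.2 _ (hv'.1.2 i))) hv'.1.1]
        have h1 := hv'.2 k v hv
        have h2 : (N : ℝ) ^ 2 * (J0 - c * t) ≤ (N : ℝ) ^ 2 * Jf N v' := by
          apply mul_le_mul_of_nonneg_left _ (by positivity)
          linarith
        have := Real.exp_le_exp.2 h2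
        linarith
      · rintro ⟨k, hk, z, ⟨ht, hzM⟩, hF⟩
        refine ⟨⟨k, fun i => φ (shift t (z i)), ?_, ?_⟩, ht⟩
        · refine ⟨?_, fun i => (hpre t ht.1 _).2 ⟨z i, hzM i, rfl⟩⟩
          apply flF_inj (N := N)
          have := Real.exp_pos ((N : ℝ) ^ 2 * (J0 - c * t))
          intro h0
          rw [h0] at hF
          linarith
        · have hinj : Function.Injective (fun i => φ (shift t (z i))) := by
            apply flF_inj (N := N)
            have := Real.exp_pos ((N : ℝ) ^ 2 * (J0 - c * t))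
            intro h0
            rw [h0] at hF
            linarith
          rw [flF_eq hNpos (fun i => hψ1 _ (hzM i) t ht.1) hinj] at hF
          have h1 : Real.exp ((N : ℝ) ^ 2 * (J0 - c * t)) ≤
              Real.exp ((N : ℝ) ^ 2 * Jf N (fun i => φ (shift t (z i)))) := by linarith
          have h2 := Real.exp_le_exp.1 h1
          exact le_of_mul_le_mul_left h2 (by positivity)
    rw [heq]
    apply Set.Finite.isClosed_biUnion (Finset.finite_toSet _)
    intro k _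
    have hcK : IsCompact (Set.Icc (0 : ℝ) T ×ˢ (Set.univ.pi fun _ : Fin k => M)) :=
      isCompact_Icc.prod (isCompact_univ_pi fun _ => hM)
    have hcont : ContinuousOn (fun p : ℝ × (Fin k → ℂ) =>
        flF N (fun i => φ (shift p.1 (p.2 i))) - Real.exp ((N : ℝ) ^ 2 * (J0 - c * p.1)))
        (Set.Icc (0 : ℝ) T ×ˢ (Set.univ.pi fun _ : Fin k => M)) := by
      apply ContinuousOn.sub
      · apply fl_cont_F N (W := fun i (p : ℝ × (Fin k → ℂ)) => φ (shift p.1 (p.2 i)))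
        · intro i p hp
          apply ContinuousAt.continuousWithinAt
          have h1 := hψc (p.1, p.2 i) hp.1.1 (hp.2 i (Set.mem_univ i))
          exact ContinuousAt.comp (f := fun p : ℝ × (Fin k → ℂ) => ((p.1, p.2 i) : ℝ × ℂ)) h1
            (by fun_prop)
        · intro i p hp
          exact hψ1 _ (hp.2 i (Set.mem_univ i)) _ hp.1.1
      · fun_prop
    have hcl := hcont.preimage_isClosed_of_isClosed hcK.isClosed (isClosed_Ici (a := (0 : ℝ)))
    have hcc := hcK.of_isClosed_subset hcl Set.inter_subset_left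
    exact (hcc.image continuous_fst).isClosed
  have h0s : (0 : ℝ) ∈ s := by
    refine ⟨n, w, ⟨hw.1.1, fun i => ?_⟩, by simp [hJ0]⟩
    have h1 := hw.1.2 i
    refine ⟨h1.1, h1.2.1, D.Z (w i), h1.2.2, ?_⟩
    simp [shift]
  have hstep : ∀ x ∈ s ∩ Set.Ico 0 T, ∀ y ∈ Set.Ioi x, (s ∩ Set.Ioc x y).Nonempty := by
    rintro x ⟨⟨k, v, hv, hJ⟩, hx⟩ y hy
    obtain ⟨k', v', hv'⟩ := hopt x hx.1 hx.2.le
    have hz : ∀ i, ∃ z ∈ M, φ (shift x z) = v' i := fun i =>
      (hpre x hx.1 (v' i)).1 (hv'.1.2 i)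
    choose z hzM hz using hz
    have hfun : (fun i => φ (shift x (z i))) = v' := funext hz
    have hzinj : Function.Injective z := by
      intro i j hij
      apply hv'.1.1
      rw [← hz i, ← hz j, hij]
    have hinj0 : Function.Injective (fun i => φ (shift x (z i))) := by
      rw [hfun]; exact hv'.1.1
    have hvin : ∀ i, φ (shift x (z i)) ∈ K' := fun i =>
      ⟨(x, z i), ⟨⟨hx.1, hx.2.le⟩, hzM i⟩, rfl⟩
    obtain ⟨J', hder, hJ'⟩ := energy_deriv D N hNpos (fun i t => φ (shift t (z i))) x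
      (fun i => hψ1 _ (hzM i) x hx.1) hinj0 (fun i =>
        fl_deriv_shift D (hM0 _ (hzM i)) hx.1 (hφ1 _ (hnS _ (hzM i) x hx.1)).2.2.1
          (hφ1 _ (hnS _ (hzM i) x hx.1)).2.2.2)
    -- lower bound for the derivative
    have hJ'c : -c < J' := by
      have hpi := hN1 N hNN1 k' (fun i => φ (shift x (z i))) hinj0
        (fun i => hbd _ (hvin i)) (fun i => by
          have := isOpt_remove (fun u hu => hK'1 u (hsub x hx.1 hx.2.le u hu)) hNpos hv' i
          simp only [hz]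
          exact this)
      have hterm : ∀ i : Fin k', -(A * ε') ≤ ((D.p (φ (shift x (z i))))⁻¹.re /
          ‖D.Z (φ (shift x (z i)))‖) * (1 - (1 / (N : ℝ)) * ∑ j ∈ Finset.univ.erase i,
            PiK (φ (shift x (z i))) (φ (shift x (z j)))) := by
        intro i
        have hai := hA _ (hvin i)
        have h1 := hpi (φ (shift x (z i))) (hψ1 _ (hzM i) x hx.1).1.le
        have h2 : ∑ j ∈ Finset.univ.erase i, PiK (φ (shift x (z i))) (φ (shift x (z j))) ≤
            ∑ j, PiK (φ (shift x (z i))) (φ (shift x (z j))) :=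
          Finset.sum_le_sum_of_subset_of_nonneg (Finset.erase_subset _ _) fun j _ _ =>
            fl_PiK_nonneg (hψ1 _ (hzM i) x hx.1).1 (hψ1 _ (hzM j) x hx.1).1
        have h3 : (1 / (N : ℝ)) * ∑ j ∈ Finset.univ.erase i,
            PiK (φ (shift x (z i))) (φ (shift x (z j))) ≤ 1 + ε' :=
          (mul_le_mul_of_nonneg_left h2 (by positivity)).trans h1
        nlinarith [mul_le_mul_of_nonneg_right hai.2 hε'0.le, mul_nonneg hai.1 hε'0.le,
          mul_le_mul_of_nonneg_left (show -ε' ≤ 1 - (1 / (N : ℝ)) *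
            ∑ j ∈ Finset.univ.erase i, PiK (φ (shift x (z i))) (φ (shift x (z j))) by linarith)
            hai.1]
      have hsum : (k' : ℝ) * (-(A * ε')) ≤ ∑ i : Fin k', ((D.p (φ (shift x (z i))))⁻¹.re /
          ‖D.Z (φ (shift x (z i)))‖) * (1 - (1 / (N : ℝ)) * ∑ j ∈ Finset.univ.erase i,
            PiK (φ (shift x (z i))) (φ (shift x (z j)))) := by
        have := Finset.sum_le_sum (s := Finset.univ) fun i (_ : i ∈ Finset.univ) => hterm i
        rw [Finset.sum_const, Finset.card_univ, Fintype.card_fin, nsmul_eq_mul] at this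
        exact this
      have hkb := hcard x hx.1 hx.2.le k' v' hv'
      have hkb2 : (k' : ℝ) / N ≤ B + 1 := by
        rw [div_le_iff₀ hNr]
        nlinarith
      have h4 : -(C * ε') ≤ (2 / (N : ℝ)) * ((k' : ℝ) * (-(A * ε'))) := by
        have e : (2 / (N : ℝ)) * ((k' : ℝ) * (-(A * ε'))) = -(2 * A * ((k' : ℝ) / N) * ε') := by
          ring
        rw [e, hC]
        have h5 : 2 * A * ((k' : ℝ) / N) * ε' ≤ 2 * A * (B + 1) * ε' := by
          apply mul_le_mul_of_nonneg_right _ hε'0.le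
          exact mul_le_mul_of_nonneg_left hkb2 (by positivity)
        linarith
      have h6 := mul_le_mul_of_nonneg_left hsum (show (0 : ℝ) ≤ 2 / N by positivity)
      linarith
    have hslope : ∀ᶠ t in 𝓝[>] x, -c < slope (fun t => Jf N (fun i => φ (shift t (z i)))) x t := by
      have h1 := (hasDerivWithinAt_iff_tendsto_slope' (by simp : x ∉ Set.Ioi x)).1
        (hder.hasDerivWithinAt (s := Set.Ioi x))
      exact h1.eventually (lt_mem_nhds hJ'c)
    have hmem : ∀ᶠ t in 𝓝[>] x, t ∈ Set.Ioc x (min y T) :=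
      Ioc_mem_nhdsGT (lt_min hy hx.2)
    obtain ⟨t, ht1, ht2⟩ := (hslope.and hmem).exists
    have hxt : x < t := ht2.1
    have ht0 : 0 ≤ t := hx.1.trans hxt.le
    refine ⟨t, ⟨k', fun i => φ (shift t (z i)), ⟨?_, fun i => (hpre t ht0 _).2
      ⟨z i, hzM i, rfl⟩⟩, ?_⟩, hxt, ht2.2.trans (min_le_left _ _)⟩
    · intro i j hij
      simp only at hij
      have h1 : shift t (z i) = shift t (z j) := by
        rw [← (hφ1 _ (hnS _ (hzM i) t ht0)).2.2.1, ← (hφ1 _ (hnS _ (hzM j) t ht0)).2.2.1, hij]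
      exact hzinj (fl_shift_inj (hM0 _ (hzM i)) (hM0 _ (hzM j)) ht0 h1)
    · have h1 := hv'.2 k v hv
      rw [slope_def_field, lt_div_iff₀ (by linarith)] at ht1
      simp only [hfun] at ht1
      linarith
  have hall := hclosed.Icc_subset_of_forall_exists_gt h0s hstep
  obtain ⟨k, v, hv, hJ⟩ := hall (Set.right_mem_Icc.2 hT)
  have h1 := hw'.2 k v hv
  have h2 : c * T ≤ ε := by
    rw [hc, div_mul_eq_mul_div, div_le_iff₀ (by linarith)]
    nlinarith
  linarith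


end Pool.LR
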