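import Mathlib
import Pool.Agent.Helper50.LR.Defs
import Pool.Agent.Helper50.LR.Ja

set_option autoImplicit false

open Complex Finset Filter Topology

namespace Pool.LR


/-! ### TARGETS (prove these; put auxiliary lemmas just before them) -/

theorem epc_vand_cons {n : ℕ} (z : ℂ) (v : Fin n → ℂ) :
    vand (Fin.cons z v : Fin (n + 1) → ℂ) = (∏ j, ‖z - v j‖) * vand v := by
  unfold vand
  rw [Fin.prod_univ_succ, Fin.prod_Ioi_zero]
  simp only [Fin.cons_zero, Fin.cons_succ]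
  congr 1
  refine Finset.prod_congr rfl fun i _ => ?_
  rw [Fin.prod_Ioi_succ]
  simp only [Fin.cons_succ]

theorem epc_vand_continuous {n : ℕ} : Continuous (fun z : Fin n → ℂ => vand z) := by
  unfold vand
  fun_prop

theorem epc_vand_nonneg {n : ℕ} (z : Fin n → ℂ) : 0 ≤ vand z := by
  unfold vand
  exact Finset.prod_nonneg fun i _ => Finset.prod_nonneg fun j _ => norm_nonneg _

theorem epc_max {K : Set ℂ} (hK : IsCompact K) (hne : K.Nonempty) (n : ℕ) :
    (∃ z : Fin n → {w : ℂ // w ∈ K}, vand (fun i => (z i : ℂ)) = V K n) ∧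
    ∀ z : Fin n → {w : ℂ // w ∈ K}, vand (fun i => (z i : ℂ)) ≤ V K n := by
  have hcs : CompactSpace {w : ℂ // w ∈ K} := isCompact_iff_compactSpace.1 hK
  have hne' : Nonempty {w : ℂ // w ∈ K} := hne.to_subtype
  have hcont : Continuous (fun z : Fin n → {w : ℂ // w ∈ K} => vand (fun i => (z i : ℂ))) :=
    epc_vand_continuous.comp (by fun_prop)
  obtain ⟨z0, -, hz0⟩ := IsCompact.exists_isMaxOn (isCompact_univ (X := Fin n → {w : ℂ // w ∈ K}))
    Set.univ_nonempty hcont.continuousOn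
  have hmax : ∀ z : Fin n → {w : ℂ // w ∈ K}, vand (fun i => (z i : ℂ)) ≤
      vand (fun i => (z0 i : ℂ)) := fun z => hz0 (Set.mem_univ z)
  have hV : vand (fun i => (z0 i : ℂ)) = V K n := by
    unfold V
    apply le_antisymm
    · exact le_ciSup (f := fun z : Fin n → {w : ℂ // w ∈ K} => vand (fun i => (z i : ℂ)))
        ⟨_, by rintro _ ⟨z, rfl⟩; exact hmax z⟩ z0
    · exact ciSup_le hmax
  exact ⟨⟨z0, hV⟩, fun z => hV ▸ hmax z⟩

theorem exists_poly_of_cap {K : Set ℂ} (hK : IsCompact K) (hne : K.Nonempty) (ε : ℝ) (hε : 0 < ε) :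
    ∃ q : Polynomial ℂ, q.Monic ∧ 1 ≤ q.natDegree ∧
      ∀ z ∈ K, ‖q.eval z‖ ≤ (cap K + ε) ^ q.natDegree := by
  by_contra hcon
  push Not at hcon
  set r : ℝ := cap K + ε with hr
  have hrpos : 0 < r := by
    have := cap_nonneg K
    rw [hr]; linarith
  have hVnn : ∀ n, 0 ≤ V K n := by
    intro n
    obtain ⟨⟨z, hz⟩, -⟩ := epc_max hK hne n
    rw [← hz]
    exact epc_vand_nonneg _
  have hV1 : V K 1 = 1 := by
    obtain ⟨⟨z, hz⟩, -⟩ := epc_max hK hne 1
    rw [← hz]
    unfold vand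
    rw [Finset.prod_eq_one]
    intro i _
    rw [Finset.prod_eq_one]
    intro j hj
    rw [Finset.mem_Ioi] at hj
    exact absurd hj (by rw [Subsingleton.elim i j]; exact lt_irrefl _)
  have hstep : ∀ n, 1 ≤ n → r ^ n * V K n ≤ V K (n + 1) := by
    intro n hn
    obtain ⟨⟨z0, hz0⟩, -⟩ := epc_max hK hne n
    obtain ⟨-, hle⟩ := epc_max hK hne (n + 1)
    set q : Polynomial ℂ := ∏ j, (Polynomial.X - Polynomial.C (z0 j : ℂ)) with hq
    have hmon : q.Monic := Polynomial.monic_prod_of_monic _ _ fun j _ => Polynomial.monic_X_sub_C _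
    have hdeg : q.natDegree = n := by
      rw [hq, Polynomial.natDegree_prod_of_monic _ _ fun j _ => Polynomial.monic_X_sub_C _]
      simp
    obtain ⟨z, hz, hlt⟩ := hcon q hmon (by rw [hdeg]; exact hn)
    rw [hdeg] at hlt
    have heval : ‖q.eval z‖ = ∏ j, ‖z - z0 j‖ := by
      rw [hq, Polynomial.eval_prod, norm_prod]
      simp
    have h1 := hle (Fin.cons ⟨z, hz⟩ z0)
    have h2 : (fun i => ((Fin.cons ⟨z, hz⟩ z0 : Fin (n + 1) → {w : ℂ // w ∈ K}) i : ℂ)) =
        (Fin.cons z (fun i => (z0 i : ℂ)) : Fin (n + 1) → ℂ) := by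
      funext i
      refine Fin.cases ?_ (fun i => ?_) i
      · rfl
      · rfl
    rw [h2, epc_vand_cons, ← heval, hz0] at h1
    refine le_trans ?_ h1
    exact mul_le_mul_of_nonneg_right hlt.le (hVnn n)
  have hpow : ∀ n, r ^ (n * (n + 1)) ≤ V K (n + 1) ^ 2 := by
    intro n
    induction n with
    | zero => simp [hV1]
    | succ n ih =>
      have h1 := hstep (n + 1) (by omega)
      have h2 : (r ^ (n + 1) * V K (n + 1)) ^ 2 ≤ V K (n + 1 + 1) ^ 2 :=
        pow_le_pow_left₀ (mul_nonneg (pow_nonneg hrpos.le _) (hVnn _)) h1 2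
      refine le_trans ?_ h2
      rw [mul_pow, ← pow_mul]
      calc r ^ ((n + 1) * (n + 1 + 1)) = r ^ ((n + 1) * 2) * r ^ (n * (n + 1)) := by
            rw [← pow_add]
            congr 1
            ring
        _ ≤ _ := mul_le_mul_of_nonneg_left ih (pow_nonneg hrpos.le _)
  have hlim : r ≤ cap K := by
    refine ge_of_tendsto (tendsto_cap hK.isBounded) (Filter.Eventually.of_forall fun n => ?_)
    have h1 := hpow (n + 1)
    have hpos : 0 < ((n : ℝ) + 2) * ((n : ℝ) + 1) := by positivity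
    have h2 : (V K (n + 2)) ^ ((2 : ℝ) / (((n : ℝ) + 2) * ((n : ℝ) + 1))) =
        ((V K (n + 2)) ^ 2) ^ ((1 : ℝ) / (((n : ℝ) + 2) * ((n : ℝ) + 1))) := by
      rw [← Real.rpow_natCast, ← Real.rpow_mul (hVnn _)]
      congr 1
      push_cast
      ring
    have h3 : r = (r ^ ((n + 1) * (n + 1 + 1))) ^ ((1 : ℝ) / (((n : ℝ) + 2) * ((n : ℝ) + 1))) := by
      rw [← Real.rpow_natCast, ← Real.rpow_mul hrpos.le]
      have : (((n + 1) * (n + 1 + 1) : ℕ) : ℝ) * (1 / (((n : ℝ) + 2) * ((n : ℝ) + 1))) = 1 := by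
        push_cast
        field_simp
        ring
      rw [this, Real.rpow_one]
    rw [h2]
    conv_lhs => rw [h3]
    exact Real.rpow_le_rpow (pow_nonneg hrpos.le _) h1 (by positivity)
  rw [hr] at hlim
  linarith


end Pool.LR
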