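import Mathlib
import Pool.Agent.Helper50.LR.Defs
import Pool.Agent.Helper50.LR.Ja

set_option autoImplicit false

open Complex Finset Filter Topology

namespace Pool.LR


/-! ### TARGETS (prove these; put auxiliary lemmas just before them) -/

theorem co_vand_cont (N : ℕ) : Continuous (fun z : Fin N → ℂ => vand z) := by
  unfold vand
  exact continuous_finsetProd _ fun i _ => continuous_finsetProd _ fun j _ =>
    ((continuous_apply i).sub (continuous_apply j)).norm

theorem co_bdd {K : Set ℂ} (hK : IsCompact K) (N : ℕ) :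
    BddAbove (Set.range fun z : Fin N → {w : ℂ // w ∈ K} => vand (fun i => (z i : ℂ))) := by
  have h1 : IsCompact (Set.univ.pi fun _ : Fin N => K) := isCompact_univ_pi fun _ => hK
  refine (h1.bddAbove_image (co_vand_cont N).continuousOn).mono ?_
  rintro _ ⟨z, rfl⟩
  exact ⟨fun i => (z i : ℂ), fun i _ => (z i).2, rfl⟩

theorem co_vand_nonneg {N : ℕ} (z : Fin N → ℂ) : 0 ≤ vand z := by
  unfold vand
  exact Finset.prod_nonneg fun i _ => Finset.prod_nonneg fun j _ => norm_nonneg _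

theorem co_V_nonneg (K : Set ℂ) (N : ℕ) : 0 ≤ V K N :=
  Real.iSup_nonneg fun z => co_vand_nonneg _

theorem co_cap (K : Set ℂ) :
    cap K = ⨅ n : ℕ, (V K (n + 2)) ^ ((2 : ℝ) / (((n : ℝ) + 2) * ((n : ℝ) + 1))) := rfl

theorem co_V_outer {K : Set ℂ} (hK : IsCompact K) (hne : K.Nonempty) (N : ℕ) (η : ℝ) (hη : 0 < η) :
    ∃ δ > 0, V (Metric.cthickening δ K) N ≤ V K N + η := by
  have hc1 : IsCompact (Metric.cthickening 1 K) := hK.cthickening
  have h1 : IsCompact (Set.univ.pi fun _ : Fin N => Metric.cthickening 1 K) :=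
    isCompact_univ_pi fun _ => hc1
  have h2 := h1.uniformContinuousOn_of_continuous (co_vand_cont N).continuousOn
  rw [Metric.uniformContinuousOn_iff] at h2
  obtain ⟨δ0, hδ0, h3⟩ := h2 η hη
  refine ⟨min 1 (δ0 / 2), by positivity, ?_⟩
  obtain ⟨δ, hδ⟩ : ∃ δ, δ = min 1 (δ0 / 2) := ⟨_, rfl⟩
  rw [← hδ]
  have hδp : 0 < δ := by rw [hδ]; positivity
  have hδ1 : δ ≤ 1 := by rw [hδ]; exact min_le_left _ _
  have hδ2 : δ < δ0 := by
    have : δ ≤ δ0 / 2 := by rw [hδ]; exact min_le_right _ _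
    linarith
  obtain ⟨x0, hx0⟩ := hne
  have : Nonempty {w : ℂ // w ∈ Metric.cthickening δ K} :=
    ⟨⟨x0, Metric.self_subset_cthickening K hx0⟩⟩
  unfold V
  apply ciSup_le
  intro z'
  have h4 : ∀ i, ∃ x ∈ K, dist (z' i : ℂ) x ≤ δ := by
    intro i
    have h5 : ∀ y ∈ Metric.cthickening δ K, ∃ x ∈ K, dist y x ≤ δ := by
      intro y hy
      rw [hK.cthickening_eq_biUnion_closedBall hδp.le] at hy
      simp only [Set.mem_iUnion, Metric.mem_closedBall] at hy
      obtain ⟨x, hx, h6⟩ := hy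
      exact ⟨x, hx, h6⟩
    exact h5 _ (z' i).2
  choose z hz hzd using h4
  have h5 := h3 (fun i => (z' i : ℂ)) (fun i _ => Metric.cthickening_mono hδ1 K (z' i).2) z
    (fun i _ => Metric.self_subset_cthickening K (hz i)) (by
      refine lt_of_le_of_lt ?_ hδ2
      rw [dist_pi_le_iff hδp.le]
      exact hzd)
  rw [Real.dist_eq, abs_lt] at h5
  have h6 : vand z ≤ ⨆ z : Fin N → {w : ℂ // w ∈ K}, vand (fun i => (z i : ℂ)) :=
    le_ciSup (co_bdd hK N) (fun i => ⟨z i, hz i⟩)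
  linarith [h5.2]

theorem cap_outer {K : Set ℂ} (hK : IsCompact K) (ε : ℝ) (hε : 0 < ε) :
    ∃ δ > 0, cap (Metric.cthickening δ K) ≤ cap K + ε := by
  rcases K.eq_empty_or_nonempty with rfl | hne
  · refine ⟨1, one_pos, ?_⟩
    rw [Metric.cthickening_empty]
    linarith
  · have h1 : cap K < cap K + ε := by linarith
    rw [co_cap] at h1
    obtain ⟨n, hn⟩ := exists_lt_of_ciInf_lt h1
    rw [← co_cap] at hn
    obtain ⟨e, he⟩ : ∃ e, e = (2 : ℝ) / (((n : ℝ) + 2) * ((n : ℝ) + 1)) := ⟨_, rfl⟩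
    have he0 : 0 ≤ e := by rw [he]; positivity
    rw [← he] at hn
    have h2 : Tendsto (fun x : ℝ => x ^ e) (𝓝 (V K (n + 2))) (𝓝 ((V K (n + 2)) ^ e)) :=
      (Real.continuous_rpow_const he0).continuousAt
    have h3 := h2.eventually (gt_mem_nhds hn)
    obtain ⟨r, hr, h4⟩ := Metric.eventually_nhds_iff.1 h3
    obtain ⟨δ, hδ, h5⟩ := co_V_outer hK hne (n + 2) (r / 2) (by linarith)
    refine ⟨δ, hδ, ?_⟩
    have h6 : cap (Metric.cthickening δ K) ≤ (V (Metric.cthickening δ K) (n + 2)) ^ e := by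
      rw [co_cap, he]
      apply ciInf_le _ n
      refine ⟨0, ?_⟩
      rintro _ ⟨m, rfl⟩
      exact Real.rpow_nonneg (co_V_nonneg _ _) _
    have h7 : (V (Metric.cthickening δ K) (n + 2)) ^ e ≤ (V K (n + 2) + r / 2) ^ e :=
      Real.rpow_le_rpow (co_V_nonneg _ _) h5 he0
    have h8 : (V K (n + 2) + r / 2) ^ e < cap K + ε := by
      apply h4
      rw [Real.dist_eq, add_sub_cancel_left, abs_of_pos (by linarith)]
      linarith
    linarith



end Pool.LR
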