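import Mathlib
import Pool.Agent.Helper50.LR.Defs
import Pool.Agent.Helper50.LR.Ja

set_option autoImplicit false

open Complex Finset Filter Topology

namespace Pool.LR


/-! ### TARGETS (prove these; put auxiliary lemmas just before them) -/

/-- index pairs `i < j` -/
def cusT (n : ℕ) : Finset (Fin n × Fin n) := Finset.univ.filter (fun p => p.1 < p.2)

theorem cus_vand_eq {n : ℕ} (z : Fin n → ℂ) : vand z = ∏ p ∈ cusT n, ‖z p.1 - z p.2‖ := by
  unfold vand cusT
  rw [Finset.prod_filter, ← Finset.univ_product_univ, Finset.prod_product]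
  refine Finset.prod_congr rfl fun i _ => ?_
  rw [← Finset.prod_filter]
  refine Finset.prod_congr ?_ fun _ _ => rfl
  ext j; simp

theorem cus_card (n : ℕ) : ((cusT n).card : ℝ) = (n : ℝ) * ((n : ℝ) - 1) / 2 := by
  have h1 : (cusT n).card = ∑ i : Fin n, (Finset.Ioi i).card := by
    unfold cusT
    rw [Finset.card_filter, ← Finset.univ_product_univ, Finset.sum_product]
    refine Finset.sum_congr rfl fun i _ => ?_
    rw [← Finset.card_filter]
    congr 1
    ext j; simp
  have h2 : ∑ i : Fin n, (Finset.Ioi i).card = ∑ i ∈ Finset.range n, (n - 1 - i) := by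
    rw [← Fin.sum_univ_eq_sum_range (fun i => n - 1 - i) n]
    refine Finset.sum_congr rfl fun i _ => ?_
    rw [Fin.card_Ioi]
  have h3 : ∑ i ∈ Finset.range n, (n - 1 - i) = ∑ i ∈ Finset.range n, i :=
    Finset.sum_range_reflect (fun i => i) n
  have h4 := Finset.sum_range_id_mul_two n
  rw [h1, h2, h3]
  have h5 : ((∑ i ∈ Finset.range n, i : ℕ) : ℝ) * 2 = (n : ℝ) * ((n : ℝ) - 1) := by
    have : (((∑ i ∈ Finset.range n, i) * 2 : ℕ) : ℝ) = ((n * (n - 1) : ℕ) : ℝ) := by rw [h4]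
    rcases Nat.eq_zero_or_pos n with h | h
    · subst h; simp
    · push_cast [Nat.cast_sub h] at this ⊢
      linarith
  linarith

/-- splitting off the pairs inside `S`, logarithmic form -/
theorem cus_split {n : ℕ} (z : Fin n → ℂ) (S : Finset (Fin n)) {s : ℕ} (hs : S.card = s)
    {D : ℝ} (hz : ∀ i j, ‖z i - z j‖ ≤ D) (hpos : 0 < vand z) :
    0 < vand (fun i => z (S.orderEmbOfFin hs i)) ∧
    Real.log (vand z) ≤ Real.log (vand (fun i => z (S.orderEmbOfFin hs i)))
      + ((n : ℝ) * ((n : ℝ) - 1) / 2 - (s : ℝ) * ((s : ℝ) - 1) / 2) * Real.log D := by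
  classical
  set e := S.orderEmbOfFin hs with he
  have hmap : (cusT n).filter (fun p => p.1 ∈ S ∧ p.2 ∈ S)
      = (cusT s).map ⟨fun p : Fin s × Fin s => (e p.1, e p.2), by
          intro a b h
          simp only [Prod.mk.injEq, EmbeddingLike.apply_eq_iff_eq] at h
          exact Prod.ext h.1 h.2⟩ := by
    ext p
    simp only [cusT, Finset.mem_filter, Finset.mem_univ, true_and, Finset.mem_map,
      Function.Embedding.coeFn_mk]
    constructor
    · rintro ⟨hlt, h1, h2⟩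
      have hr : ∀ x ∈ S, ∃ y, e y = x := by
        intro x hx
        have : x ∈ Set.range e := by
          rw [he, Finset.range_orderEmbOfFin]; exact hx
        exact this
      obtain ⟨a, ha⟩ := hr _ h1
      obtain ⟨b, hb⟩ := hr _ h2
      refine ⟨(a, b), ?_, ?_⟩
      · have : e a < e b := by rw [ha, hb]; exact hlt
        exact e.lt_iff_lt.mp this
      · exact Prod.ext ha hb
    · rintro ⟨q, hq, rfl⟩
      exact ⟨e.lt_iff_lt.mpr hq, Finset.orderEmbOfFin_mem _ _ _, Finset.orderEmbOfFin_mem _ _ _⟩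
  have hfac : ∀ p ∈ cusT n, 0 < ‖z p.1 - z p.2‖ := by
    intro p hp
    rw [cus_vand_eq] at hpos
    rcases (norm_nonneg (z p.1 - z p.2)).lt_or_eq with h | h
    · exact h
    · exfalso
      rw [Finset.prod_eq_zero hp h.symm] at hpos
      exact lt_irrefl _ hpos
  have hlog : Real.log (vand z) = ∑ p ∈ cusT n, Real.log ‖z p.1 - z p.2‖ := by
    rw [cus_vand_eq, Real.log_prod]
    intro p hp
    exact (hfac p hp).ne'
  have hsub : ∀ p ∈ cusT s, 0 < ‖z (e p.1) - z (e p.2)‖ := by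
    intro p hp
    apply hfac (e p.1, e p.2)
    simp only [cusT, Finset.mem_filter, Finset.mem_univ, true_and] at hp ⊢
    exact e.lt_iff_lt.mpr hp
  have hlog2 : Real.log (vand (fun i => z (e i)))
      = ∑ p ∈ (cusT n).filter (fun p => p.1 ∈ S ∧ p.2 ∈ S), Real.log ‖z p.1 - z p.2‖ := by
    rw [hmap, Finset.sum_map, cus_vand_eq, Real.log_prod]
    · rfl
    · intro p hp
      exact (hsub p hp).ne'
  refine ⟨?_, ?_⟩
  · rw [cus_vand_eq]
    exact Finset.prod_pos hsub
  · rw [hlog, hlog2, ← Finset.sum_filter_add_sum_filter_not (cusT n) (fun p => p.1 ∈ S ∧ p.2 ∈ S)]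
    have hc : (((cusT n).filter (fun p => ¬ (p.1 ∈ S ∧ p.2 ∈ S))).card : ℝ)
        = (n : ℝ) * ((n : ℝ) - 1) / 2 - (s : ℝ) * ((s : ℝ) - 1) / 2 := by
      have h1 := Finset.card_filter_add_card_filter_not (s := cusT n) (fun p => p.1 ∈ S ∧ p.2 ∈ S)
      have h2 : ((cusT n).filter (fun p => p.1 ∈ S ∧ p.2 ∈ S)).card = (cusT s).card := by
        rw [hmap, Finset.card_map]
      rw [h2] at h1
      have h3 : ((cusT s).card : ℝ) + (((cusT n).filter (fun p => ¬ (p.1 ∈ S ∧ p.2 ∈ S))).card : ℝ)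
        = ((cusT n).card : ℝ) := by exact_mod_cast h1
      rw [cus_card, cus_card] at h3
      linarith
    have h2 : ∑ p ∈ (cusT n).filter (fun p => ¬ (p.1 ∈ S ∧ p.2 ∈ S)), Real.log ‖z p.1 - z p.2‖
        ≤ ∑ p ∈ (cusT n).filter (fun p => ¬ (p.1 ∈ S ∧ p.2 ∈ S)), Real.log D := by
      refine Finset.sum_le_sum fun p hp => ?_
      exact Real.log_le_log (hfac p (Finset.mem_filter.mp hp).1) (hz _ _)
    rw [Finset.sum_const, nsmul_eq_mul, hc] at h2
    linarith

theorem cus_bdd {K : Set ℂ} {D : ℝ} (hK : ∀ x ∈ K, ∀ y ∈ K, ‖x - y‖ ≤ D) (n : ℕ) :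
    BddAbove (Set.range fun z : Fin n → {w : ℂ // w ∈ K} => vand (fun i => (z i : ℂ))) := by
  refine ⟨D ^ (cusT n).card, ?_⟩
  rintro _ ⟨z, rfl⟩
  simp only [cus_vand_eq]
  refine (Finset.prod_le_prod (fun p _ => norm_nonneg _)
    (fun p _ => hK _ (z p.1).2 _ (z p.2).2)).trans ?_
  rw [Finset.prod_const]

theorem cus_vand_nonneg {n : ℕ} (z : Fin n → ℂ) : 0 ≤ vand z := by
  rw [cus_vand_eq]
  exact Finset.prod_nonneg fun _ _ => norm_nonneg _

theorem cus_V_nonneg (K : Set ℂ) (n : ℕ) : 0 ≤ V K n :=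
  Real.iSup_nonneg fun _ => cus_vand_nonneg _

/-- `log V_n ≥ n(n-1)/2 log cap` -/
theorem cus_logV {K : Set ℂ} (hpos : 0 < cap K) (n : ℕ) (hn : 2 ≤ n) :
    0 < V K n ∧ (n : ℝ) * ((n : ℝ) - 1) / 2 * Real.log (cap K) ≤ Real.log (V K n) := by
  obtain ⟨m, rfl⟩ : ∃ m, n = m + 2 := ⟨n - 2, by omega⟩
  have hle : cap K ≤ (V K (m + 2)) ^ ((2 : ℝ) / (((m : ℝ) + 2) * ((m : ℝ) + 1))) := by
    unfold cap
    refine ciInf_le (f := fun n : ℕ => (⨆ z : Fin (n + 2) → {w : ℂ // w ∈ K},
        ∏ i : Fin (n + 2), ∏ j ∈ Finset.Ioi i, ‖((z i : ℂ) - (z j : ℂ))‖)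
        ^ ((2 : ℝ) / (((n : ℝ) + 2) * ((n : ℝ) + 1)))) ⟨0, ?_⟩ m
    rintro _ ⟨k, rfl⟩
    exact Real.rpow_nonneg (cus_V_nonneg K (k + 2)) _
  have he : (0 : ℝ) < (2 : ℝ) / (((m : ℝ) + 2) * ((m : ℝ) + 1)) := by positivity
  have hV : 0 < V K (m + 2) := by
    rcases (cus_V_nonneg K (m + 2)).lt_or_eq with h | h
    · exact h
    · exfalso
      rw [← h, Real.zero_rpow he.ne'] at hle
      linarith
  refine ⟨hV, ?_⟩
  have h1 := Real.log_le_log hpos hle
  rw [Real.log_rpow hV] at h1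
  have h2 : (0 : ℝ) < (((m : ℝ) + 2) * ((m : ℝ) + 1)) / 2 := by positivity
  have h3 := mul_le_mul_of_nonneg_left h1 h2.le
  have h4 : (((m : ℝ) + 2) * ((m : ℝ) + 1)) / 2 * ((2 : ℝ) / (((m : ℝ) + 2) * ((m : ℝ) + 1))
      * Real.log (V K (m + 2))) = Real.log (V K (m + 2)) := by
    field_simp
  rw [h4] at h3
  push_cast
  have h5 : ((m : ℝ) + 2) * ((m : ℝ) + 2 - 1) / 2 = (((m : ℝ) + 2) * ((m : ℝ) + 1)) / 2 := by ring
  rw [h5]
  exact h3

/-- `log V_j ≤ j(j-1)/2 log α` eventually, for `α > cap` -/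
theorem cus_logV_upper {K : Set ℂ} (hb : Bornology.IsBounded K) {α : ℝ} (hα : cap K < α) :
    ∃ j0 : ℕ, ∀ j ≥ j0, 0 < V K j →
      Real.log (V K j) ≤ (j : ℝ) * ((j : ℝ) - 1) / 2 * Real.log α := by
  have h := (tendsto_cap hb).eventually (eventually_lt_nhds hα)
  obtain ⟨m0, hm0⟩ := Filter.eventually_atTop.mp h
  refine ⟨m0 + 2, fun j hj hV => ?_⟩
  obtain ⟨m, rfl⟩ : ∃ m, j = m + 2 := ⟨j - 2, by omega⟩
  have h1 := hm0 m (by omega)
  have h2 := Real.log_le_log (Real.rpow_pos_of_pos hV _) h1.le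
  rw [Real.log_rpow hV] at h2
  have h3 : (0 : ℝ) < (((m : ℝ) + 2) * ((m : ℝ) + 1)) / 2 := by positivity
  have h4 := mul_le_mul_of_nonneg_left h2 h3.le
  have h5 : (((m : ℝ) + 2) * ((m : ℝ) + 1)) / 2 * ((2 : ℝ) / (((m : ℝ) + 2) * ((m : ℝ) + 1))
      * Real.log (V K (m + 2))) = Real.log (V K (m + 2)) := by
    field_simp
  rw [h5] at h4
  push_cast
  have h6 : ((m : ℝ) + 2) * ((m : ℝ) + 2 - 1) / 2 = (((m : ℝ) + 2) * ((m : ℝ) + 1)) / 2 := by ring
  rw [h6]
  exact h4

theorem cus_cap_le {K : Set ℂ} {D : ℝ} (hD : 0 ≤ D) (hK : ∀ x ∈ K, ∀ y ∈ K, ‖x - y‖ ≤ D)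
    (hpos : 0 < cap K) : cap K ≤ D := by
  have h := (cus_logV hpos 2 le_rfl)
  have h1 : V K 2 ≤ D := by
    unfold V
    by_cases hne : Nonempty (Fin 2 → {w : ℂ // w ∈ K})
    · refine ciSup_le fun z => ?_
      rw [cus_vand_eq]
      have : cusT 2 = {(0, 1)} := by decide
      rw [this, Finset.prod_singleton]
      exact hK _ (z 0).2 _ (z 1).2
    · rw [not_nonempty_iff] at hne
      rw [Real.iSup_of_isEmpty]
      exact hD
  have h2 : Real.log (cap K) ≤ Real.log (V K 2) := by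
    have := h.2
    norm_num at this
    exact this
  exact ((Real.log_le_log_iff hpos h.1).mp h2).trans h1

theorem cap_union_small (R : ℝ) (N : ℕ) (ε : ℝ) (hε : 0 < ε) :
    ∃ δ > 0, ∀ (K : Set ℂ) (P : Fin N → Set ℂ), K ⊆ Metric.closedBall 0 R →
      (∀ i, P i ⊆ Metric.closedBall 0 R) → (∀ i, ∀ x ∈ P i, ∀ y ∈ P i, ‖x - y‖ ≤ δ) →
      cap (K ∪ ⋃ i, P i) ≤ cap K + ε := by
  classical
  -- constants
  set D : ℝ := 2 * |R| + 1 + ε with hDdef
  have hD1 : 1 ≤ D := by have := abs_nonneg R; linarith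
  have hDε : ε ≤ D := by have := abs_nonneg R; linarith
  have hD0 : 0 < D := by linarith
  set M : ℝ := Real.log D - Real.log (ε / 2) with hM
  have hMpos : 0 < M := by
    rw [hM]
    have : Real.log (ε / 2) < Real.log D := Real.log_lt_log (by linarith) (by linarith)
    linarith
  set η : ℝ := ε / (2 * D) with hη
  have hη0 : 0 < η := by positivity
  set x : ℝ := min (1 / 2) (η / (8 * M)) with hx
  have hx0 : 0 < x := by
    rw [hx]; exact lt_min (by norm_num) (by positivity)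
  have hx2 : x ≤ 1 / 2 := min_le_left _ _
  have hxM : x * M ≤ η / 8 := by
    have : x ≤ η / (8 * M) := min_le_right _ _
    calc x * M ≤ η / (8 * M) * M := mul_le_mul_of_nonneg_right this hMpos.le
      _ = η / 8 := by field_simp
  set y : ℝ := x / (N + 1) with hy
  have hy0 : 0 < y := by positivity
  set Q : ℝ := Real.log D - Real.log ε with hQ
  have hQ0 : 0 ≤ Q := by
    rw [hQ]
    have : Real.log ε ≤ Real.log D := Real.log_le_log hε hDε
    linarith
  set L : ℝ := (2 * Q + 4) / y ^ 2 + 1 with hL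
  have hL0 : 0 < L := by positivity
  refine ⟨Real.exp (-L), Real.exp_pos _, ?_⟩
  intro K P hK hP hdiam
  by_contra hcon
  push Not at hcon
  set K' := K ∪ ⋃ i, P i with hK'
  set κ := cap K' with hκ
  have hK'R : K' ⊆ Metric.closedBall 0 R := by
    rw [hK']
    exact Set.union_subset hK (Set.iUnion_subset hP)
  have hb' : Bornology.IsBounded K' := Metric.isBounded_closedBall.subset hK'R
  have hb : Bornology.IsBounded K := Metric.isBounded_closedBall.subset hK
  have hdist : ∀ a ∈ K', ∀ b ∈ K', ‖a - b‖ ≤ D := by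
    intro a ha b hb
    have h1 := hK'R ha
    have h2 := hK'R hb
    rw [mem_closedBall_zero_iff] at h1 h2
    have := norm_sub_le a b
    have := le_abs_self R
    have := abs_nonneg R
    linarith
  have hcapK := cap_nonneg K
  have hκε : ε < κ := by linarith
  have hκ0 : 0 < κ := by linarith
  have hκD : κ ≤ D := cus_cap_le hD0.le hdist hκ0
  set α : ℝ := cap K + ε / 2 with hα
  have hα0 : 0 < α := by linarith
  have hακ : α + ε / 2 < κ := by rw [hα]; linarith
  obtain ⟨j0, hj0⟩ := cus_logV_upper hb (α := α) (by rw [hα]; linarith)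
  -- choose n
  obtain ⟨n, hn⟩ : ∃ n : ℕ, max (max (2 / y) (2 * j0)) (max (8 / η + 1) 3) ≤ (n : ℝ) := exists_nat_ge _
  have hn1 : 2 / y ≤ (n : ℝ) := le_trans (le_trans (le_max_left _ _) (le_max_left _ _)) hn
  have hn2 : 2 * (j0 : ℝ) ≤ (n : ℝ) := le_trans (le_trans (le_max_right _ _) (le_max_left _ _)) hn
  have hn3 : 8 / η + 1 ≤ (n : ℝ) := le_trans (le_trans (le_max_left _ _) (le_max_right _ _)) hn
  have hn4 : (3 : ℝ) ≤ (n : ℝ) := le_trans (le_trans (le_max_right _ _) (le_max_right _ _)) hn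
  have hn5 : 3 ≤ n := by exact_mod_cast hn4
  obtain ⟨hV, hVlog⟩ := cus_logV (K := K') hκ0 n (by omega)
  -- near extremal tuple
  obtain ⟨z, hz⟩ : ∃ z : Fin n → {w : ℂ // w ∈ K'}, V K' n / 2 < vand (fun i => (z i : ℂ)) := by
    have hne : Nonempty (Fin n → {w : ℂ // w ∈ K'}) := by
      by_contra hne
      rw [not_nonempty_iff] at hne
      have : V K' n = 0 := by
        unfold V
        rw [Real.iSup_of_isEmpty]
      linarith
    exact exists_lt_of_lt_ciSup (show V K' n / 2 < V K' n by linarith)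
  set w : Fin n → ℂ := fun i => (z i : ℂ) with hw
  have hwK : ∀ i, w i ∈ K' := fun i => (z i).2
  have hwpos : 0 < vand w := by linarith
  have hlog : (n : ℝ) * ((n : ℝ) - 1) / 2 * Real.log κ - Real.log 2 ≤ Real.log (vand w) := by
    have h1 : Real.log (V K' n / 2) ≤ Real.log (vand w) := Real.log_le_log (by linarith) hz.le
    rw [Real.log_div hV.ne' (by norm_num)] at h1
    linarith
  have hlog2 : Real.log 2 ≤ 1 := by
    have := Real.log_le_sub_one_of_pos (show (0 : ℝ) < 2 by norm_num)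
    linarith
  have hwD : ∀ i j, ‖w i - w j‖ ≤ D := fun i j => hdist _ (hwK i) _ (hwK j)
  -- the points outside K
  set A : Finset (Fin n) := Finset.univ.filter (fun i => w i ∈ K) with hA
  set B : Finset (Fin n) := Finset.univ.filter (fun i => ¬ w i ∈ K) with hB
  have hAB : A.card + B.card = n := by
    have := Finset.card_filter_add_card_filter_not (s := (Finset.univ : Finset (Fin n)))
      (fun i => w i ∈ K)
    simpa using this
  have hkx : (B.card : ℝ) ≤ x * n := by
    by_contra hk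
    push Not at hk
    -- pigeonhole
    have hpiece : ∀ i ∈ B, ∃ r, w i ∈ P r := by
      intro i hi
      have h1 : ¬ w i ∈ K := (Finset.mem_filter.mp hi).2
      have h2 := hwK i
      rw [hK'] at h2
      rcases h2 with h2 | h2
      · exact absurd h2 h1
      · exact Set.mem_iUnion.mp h2
    have hBne : B.Nonempty := by
      rw [← Finset.card_pos]
      have : (0 : ℝ) < B.card := lt_of_le_of_lt (by positivity) hk
      exact_mod_cast this
    obtain ⟨i0, hi0⟩ := hBne
    obtain ⟨r0, _⟩ := hpiece i0 hi0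
    let pc : Fin n → Fin N := fun i => if h : ∃ r, w i ∈ P r then h.choose else r0
    have hpc : ∀ i ∈ B, w i ∈ P (pc i) := by
      intro i hi
      have h := hpiece i hi
      have : pc i = h.choose := dif_pos h
      rw [this]
      exact h.choose_spec
    have hNpos : 0 < N := r0.pos
    obtain ⟨r, hr⟩ : ∃ r : Fin N, (B.card : ℝ) ≤ N * ((B.filter (fun i => pc i = r)).card : ℝ) := by
      by_contra hno
      push Not at hno
      have h1 : B.card = ∑ r : Fin N, (B.filter (fun i => pc i = r)).card :=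
        Finset.card_eq_sum_card_fiberwise (fun i _ => Finset.mem_coe.mpr (Finset.mem_univ _))
      have h2 : ∑ r : Fin N, (N : ℝ) * ((B.filter (fun i => pc i = r)).card : ℝ)
          < ∑ _r : Fin N, (B.card : ℝ) := by
        haveI : Nonempty (Fin N) := ⟨r0⟩
        exact Finset.sum_lt_sum_of_nonempty Finset.univ_nonempty fun r _ => hno r
      rw [← Finset.mul_sum, Finset.sum_const, Finset.card_univ, Fintype.card_fin, nsmul_eq_mul] at h2
      have h3 : (∑ r : Fin N, ((B.filter (fun i => pc i = r)).card : ℝ)) = (B.card : ℝ) := by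
        exact_mod_cast h1.symm
      rw [h3] at h2
      exact lt_irrefl _ h2
    set S := B.filter (fun i => pc i = r) with hS
    obtain ⟨s, hs⟩ : ∃ s, S.card = s := ⟨_, rfl⟩
    rw [hs] at hr
    obtain ⟨hvp, hvl⟩ := cus_split w S hs hwD hwpos
    -- small distances in the piece
    have hsmall : Real.log (vand (fun i => w (S.orderEmbOfFin hs i)))
        ≤ (s : ℝ) * ((s : ℝ) - 1) / 2 * (-L) := by
      rw [cus_vand_eq] at hvp ⊢
      have hne : ∀ p ∈ cusT s, ‖w (S.orderEmbOfFin hs p.1) - w (S.orderEmbOfFin hs p.2)‖ ≠ 0 := by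
        intro p hp h0
        rw [Finset.prod_eq_zero hp h0] at hvp
        exact lt_irrefl _ hvp
      rw [Real.log_prod hne]
      have : ∀ p ∈ cusT s, Real.log ‖w (S.orderEmbOfFin hs p.1) - w (S.orderEmbOfFin hs p.2)‖ ≤ -L := by
        intro p hp
        have h1 : ∀ i, S.orderEmbOfFin hs i ∈ S := fun i => Finset.orderEmbOfFin_mem _ _ _
        have h2 : ∀ i, w (S.orderEmbOfFin hs i) ∈ P r := by
          intro i
          have h3 := Finset.mem_filter.mp (h1 i)
          have h4 := hpc _ h3.1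
          rw [h3.2] at h4
          exact h4
        have h3 := hdiam r _ (h2 p.1) _ (h2 p.2)
        have h4 : 0 < ‖w (S.orderEmbOfFin hs p.1) - w (S.orderEmbOfFin hs p.2)‖ :=
          lt_of_le_of_ne (norm_nonneg _) (hne p hp).symm
        have h5 := Real.log_le_log h4 h3
        rwa [Real.log_exp] at h5
      refine (Finset.sum_le_sum this).trans ?_
      rw [Finset.sum_const, nsmul_eq_mul, cus_card]
    have hsn : y * n ≤ s := by
      have h1 : x * n ≤ (N : ℝ) * s := hk.le.trans hr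
      have h2 : (N : ℝ) * s ≤ (N + 1) * s := by
        have : (0 : ℝ) ≤ s := Nat.cast_nonneg _
        linarith
      rw [hy, div_mul_eq_mul_div, div_le_iff₀ (by positivity)]
      linarith
    have hyn : 2 ≤ y * n := by
      rw [div_le_iff₀ hy0] at hn1
      linarith
    have hs2 : (2 : ℝ) ≤ s := hyn.trans hsn
    have hsn' : s ≤ n := by
      have h1 : S.card ≤ n := by
        calc S.card ≤ (Finset.univ : Finset (Fin n)).card := Finset.card_le_univ _
          _ = n := by simp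
      omega
    -- combine
    have h1 : (n : ℝ) * ((n : ℝ) - 1) / 2 * Real.log κ - 1
        ≤ (s : ℝ) * ((s : ℝ) - 1) / 2 * (-L)
          + ((n : ℝ) * ((n : ℝ) - 1) / 2 - (s : ℝ) * ((s : ℝ) - 1) / 2) * Real.log D := by
      linarith
    have hlogD : 0 ≤ Real.log D := Real.log_nonneg hD1
    have hlogκ : Real.log ε ≤ Real.log κ := Real.log_le_log hε hκε.le
    have hcs : 0 ≤ (s : ℝ) * ((s : ℝ) - 1) / 2 := by
      have : 0 ≤ (s : ℝ) * ((s : ℝ) - 1) := mul_nonneg (by linarith) (by linarith)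
      linarith
    have hcn : 0 ≤ (n : ℝ) * ((n : ℝ) - 1) / 2 := by
      have : 0 ≤ (n : ℝ) * ((n : ℝ) - 1) := mul_nonneg (by linarith) (by linarith)
      linarith
    have h2 : (s : ℝ) * ((s : ℝ) - 1) / 2 * L ≤ (n : ℝ) * ((n : ℝ) - 1) / 2 * Q + 1 := by
      have e1 : (n : ℝ) * ((n : ℝ) - 1) / 2 * Real.log ε ≤ (n : ℝ) * ((n : ℝ) - 1) / 2 * Real.log κ :=
        mul_le_mul_of_nonneg_left hlogκ hcn
      have e2 : 0 ≤ (s : ℝ) * ((s : ℝ) - 1) / 2 * Real.log D := mul_nonneg hcs hlogD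
      rw [hQ]
      linarith
    have h3 : (y * n) ^ 2 / 4 ≤ (s : ℝ) * ((s : ℝ) - 1) / 2 := by
      have e1 : (y * n) * (y * n) ≤ (s : ℝ) * s := mul_self_le_mul_self (by linarith) hsn
      have e2 : (s : ℝ) / 2 ≤ (s : ℝ) - 1 := by linarith
      have e3 : (s : ℝ) * (s / 2) ≤ (s : ℝ) * ((s : ℝ) - 1) := mul_le_mul_of_nonneg_left e2 (by linarith)
      linarith
    have h4 : (y * n) ^ 2 / 4 * L ≤ (n : ℝ) ^ 2 / 2 * Q + (n : ℝ) ^ 2 := by
      have e1 : (y * n) ^ 2 / 4 * L ≤ (s : ℝ) * ((s : ℝ) - 1) / 2 * L :=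
        mul_le_mul_of_nonneg_right h3 hL0.le
      have e2 : (n : ℝ) * ((n : ℝ) - 1) / 2 * Q ≤ (n : ℝ) ^ 2 / 2 * Q := by
        apply mul_le_mul_of_nonneg_right _ hQ0
        linarith
      have e3 : (1 : ℝ) ≤ (n : ℝ) ^ 2 := one_le_pow₀ (by linarith)
      linarith
    have h5 : (y * n) ^ 2 / 4 * L = (n : ℝ) ^ 2 * ((2 * Q + 4) / 4 + y ^ 2 / 4) := by
      rw [hL]; field_simp
    rw [h5] at h4
    have h6 : (0 : ℝ) < (n : ℝ) ^ 2 := by positivity
    have h7 : (2 * Q + 4) / 4 + y ^ 2 / 4 ≤ Q / 2 + 1 := by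
      by_contra h8
      push Not at h8
      have := mul_lt_mul_of_pos_left h8 h6
      linarith
    have h8 : 0 < y ^ 2 := by positivity
    linarith
  -- now the main estimate
  obtain ⟨j, hj⟩ : ∃ j, A.card = j := ⟨_, rfl⟩
  obtain ⟨hvp, hvl⟩ := cus_split w A hj hwD hwpos
  have hjn : (j : ℝ) + B.card = n := by rw [← hj]; exact_mod_cast hAB
  have hj2 : (n : ℝ) / 2 ≤ j := by
    have : x * n ≤ 1 / 2 * n := mul_le_mul_of_nonneg_right hx2 (by linarith)
    linarith
  have hjj0 : j0 ≤ j := by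
    have : (j0 : ℝ) ≤ j := by linarith
    exact_mod_cast this
  have hAK : ∀ i, w (A.orderEmbOfFin hj i) ∈ K := by
    intro i
    have h := Finset.orderEmbOfFin_mem A hj i
    exact (Finset.mem_filter.mp h).2
  have hVj : vand (fun i => w (A.orderEmbOfFin hj i)) ≤ V K j := by
    unfold V
    exact le_ciSup (f := fun z : Fin j → {w : ℂ // w ∈ K} => vand (fun i => (z i : ℂ)))
      (cus_bdd (K := K) (D := D) (fun a ha b hb => hdist a (Or.inl ha) b (Or.inl hb)) j)
      (fun i => (⟨w (A.orderEmbOfFin hj i), hAK i⟩ : {w : ℂ // w ∈ K}))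
  have hVjpos : 0 < V K j := lt_of_lt_of_le hvp hVj
  have h1 := hj0 j hjj0 hVjpos
  have h2 : Real.log (vand (fun i => w (A.orderEmbOfFin hj i))) ≤ Real.log (V K j) :=
    Real.log_le_log hvp hVj
  set cn : ℝ := (n : ℝ) * ((n : ℝ) - 1) / 2 with hcn
  set cj : ℝ := (j : ℝ) * ((j : ℝ) - 1) / 2 with hcj
  have h3 : cn * (Real.log κ - Real.log α) ≤ (cn - cj) * (Real.log D - Real.log α) + 1 := by
    linarith
  have hk0 : (0 : ℝ) ≤ B.card := Nat.cast_nonneg _
  have hj0' : (0 : ℝ) ≤ j := Nat.cast_nonneg _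
  have h4 : cn - cj ≤ B.card * n := by
    have : (n : ℝ) = j + B.card := hjn.symm
    rw [hcn, hcj, this]
    linarith [mul_nonneg hk0 hk0]
  have h4' : 0 ≤ cn - cj := by
    have e1 : (n : ℝ) = j + B.card := hjn.symm
    have e2 : (1 : ℝ) ≤ j := by linarith
    rw [hcn, hcj, e1]
    linarith [mul_nonneg hk0 hk0, mul_nonneg hk0 (sub_nonneg.mpr e2)]
  have h5 : Real.log D - Real.log α ≤ M := by
    rw [hM]
    have : Real.log (ε / 2) ≤ Real.log α := Real.log_le_log (by linarith) (by rw [hα]; linarith)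
    linarith
  have h6 : (cn - cj) * (Real.log D - Real.log α) ≤ x * n * n * M := by
    calc (cn - cj) * (Real.log D - Real.log α) ≤ (cn - cj) * M := mul_le_mul_of_nonneg_left h5 h4'
      _ ≤ (B.card * n) * M := mul_le_mul_of_nonneg_right h4 hMpos.le
      _ ≤ x * n * n * M := by
          apply mul_le_mul_of_nonneg_right _ hMpos.le
          exact mul_le_mul_of_nonneg_right hkx (by linarith)
  have h7 : η ≤ Real.log κ - Real.log α := by
    have e1 : Real.log (α / κ) ≤ α / κ - 1 := Real.log_le_sub_one_of_pos (by positivity)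
    rw [Real.log_div hα0.ne' hκ0.ne'] at e1
    have e2 : η ≤ 1 - α / κ := by
      have e3 : 1 - α / κ = (κ - α) / κ := by field_simp
      rw [e3, hη, div_le_div_iff₀ (by positivity) hκ0]
      linarith [mul_le_mul_of_nonneg_right (show ε / 2 ≤ κ - α by linarith) hD0.le, mul_le_mul_of_nonneg_left hκD hε.le]
    linarith
  have h8 : (n : ℝ) ^ 2 / 4 ≤ cn := by
    rw [hcn]; linarith [mul_nonneg (show (0:ℝ) ≤ n by linarith) (show (0:ℝ) ≤ (n:ℝ) - 2 by linarith)]
  have h9 : (n : ℝ) ^ 2 / 4 * η ≤ x * n * n * M + 1 := by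
    calc (n : ℝ) ^ 2 / 4 * η ≤ cn * η := mul_le_mul_of_nonneg_right h8 hη0.le
      _ ≤ cn * (Real.log κ - Real.log α) := by
          apply mul_le_mul_of_nonneg_left h7
          linarith
      _ ≤ x * n * n * M + 1 := by linarith
  have h10 : x * n * n * M ≤ (n : ℝ) ^ 2 * (η / 8) := by
    have : x * n * n * M = (n : ℝ) ^ 2 * (x * M) := by ring
    rw [this]
    exact mul_le_mul_of_nonneg_left hxM (by positivity)
  have h11 : (n : ℝ) ^ 2 * (η / 8) ≤ 1 := by linarith
  have h12 : 8 / η < n := by linarith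
  have h13 : 8 < n * η := by
    rwa [div_lt_iff₀ hη0] at h12
  linarith [mul_lt_mul_of_pos_right h13 (show (0:ℝ) < n by linarith)]


end Pool.LR
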