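import Mathlib
import Pool.Agent.Helper50.LR.Defs
import Pool.Agent.Helper50.LR.Ba
import Pool.Agent.Helper50.LR.Bb
import Pool.Agent.Helper50.LR.Bc
import Pool.Agent.Helper50.LR.Ja
import Pool.Agent.Helper50.LR.Jc

set_option autoImplicit false

open Complex Finset Filter Topology

namespace Pool.LR


/-! ### TARGETS (prove these; put auxiliary lemmas just before them) -/

theorem cap_lower_r (D : Star) (hD : D.IsStar) {M : Set ℂ} (hM : IsCompact M)
    (hMS : Disjoint M D.S) (δ : ℝ) (hδ : 0 < δ) :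
    ∃ r : ℝ, 0 < r ∧ ∀ w ∈ D.pre M, ∀ x : ℂ, ‖x - w‖ ≤ r →
      x ≠ 0 ∧ D.Z x ∈ Metric.cthickening δ M := by
  have hO : IsOpen (Metric.ball (0:ℂ) 1 \ {0}) := Metric.isOpen_ball.sdiff isClosed_singleton
  have hZ : ContinuousOn D.Z (Metric.ball (0:ℂ) 1 \ {0}) := by
    unfold Star.Z
    refine ContinuousOn.div (D.continuousOn_E.mono ?_) continuousOn_id ?_
    · intro x hx; exact Metric.ball_subset_closedBall hx.1
    · intro x hx; simpa using hx.2
  have hW := hZ.isOpen_inter_preimage hO (Metric.isOpen_thickening (δ := δ) (E := M))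
  have hsub : D.pre M ⊆ (Metric.ball (0:ℂ) 1 \ {0}) ∩ D.Z ⁻¹' (Metric.thickening δ M) := by
    rintro x ⟨h1, h2, h3⟩
    refine ⟨⟨by simpa using h1, by simpa using h2⟩, Metric.self_subset_thickening hδ M h3⟩
  obtain ⟨r, hr, hr2⟩ := (D.isCompact_pre hD hM hMS).exists_cthickening_subset_open hW hsub
  refine ⟨r, hr, fun w hw x hx => ?_⟩
  have := hr2 (Metric.mem_cthickening_of_dist_le x w r _ hw (by rw [dist_eq_norm]; exact hx))
  exact ⟨by simpa using this.1.2, Metric.thickening_subset_cthickening _ _ this.2⟩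

/-- the analytic function `x^L q(Z x)` -/
noncomputable def clQ (D : Star) (q : Polynomial ℂ) (x : ℂ) : ℂ :=
  ∑ k ∈ Finset.range (q.natDegree + 1), q.coeff k * D.E x ^ k * x ^ (q.natDegree - k)

theorem clQ_eq (D : Star) (q : Polynomial ℂ) {x : ℂ} (hx : x ≠ 0) :
    clQ D q x = x ^ q.natDegree * q.eval (D.Z x) := by
  unfold clQ
  rw [Polynomial.eval_eq_sum_range, Finset.mul_sum]
  refine Finset.sum_congr rfl fun k hk => ?_
  have hk' : k ≤ q.natDegree := Nat.lt_succ_iff.mp (Finset.mem_range.mp hk)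
  unfold Star.Z
  rw [div_pow]
  have h1 : x ^ q.natDegree = x ^ (q.natDegree - k) * x ^ k := by
    rw [← pow_add, Nat.sub_add_cancel hk']
  rw [h1]
  field_simp

theorem clQ_zero (D : Star) (q : Polynomial ℂ) (hq : q.Monic) :
    clQ D q 0 = D.c ^ q.natDegree := by
  unfold clQ
  rw [Finset.sum_range_succ, Finset.sum_eq_zero]
  · rw [D.E_zero, hq.coeff_natDegree]; simp
  · intro k hk
    have hk' : k < q.natDegree := Finset.mem_range.mp hk
    rw [zero_pow (by omega), mul_zero]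

theorem clQ_cont (D : Star) (q : Polynomial ℂ) :
    ContinuousOn (clQ D q) (Metric.closedBall 0 1) := by
  unfold clQ
  refine continuousOn_finsetSum _ fun k _ => ?_
  exact (continuousOn_const.mul (D.continuousOn_E.pow k)).mul (continuousOn_id.pow _)

theorem clQ_diff (D : Star) (q : Polynomial ℂ) :
    DifferentiableOn ℂ (clQ D q) (Metric.ball 0 1) := by
  unfold clQ
  refine DifferentiableOn.fun_sum fun k _ => ?_
  exact ((differentiableOn_const _).mul (D.differentiableOn_E.pow k)).mul (differentiableOn_id.pow _)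

theorem bl_den {a x : ℂ} (ha : ‖a‖ < 1) (hx : ‖x‖ ≤ 1) : 1 - (starRingEnd ℂ) a * x ≠ 0 := by
  intro h
  have h1 : (starRingEnd ℂ) a * x = 1 := (sub_eq_zero.mp h).symm
  have h2 : ‖(starRingEnd ℂ) a * x‖ = 1 := by rw [h1]; simp
  rw [norm_mul, RCLike.norm_conj] at h2
  have h3 : ‖a‖ * ‖x‖ ≤ ‖a‖ * 1 := mul_le_mul_of_nonneg_left hx (norm_nonneg _)
  linarith

theorem cap_lower_core (D : Star) (q : Polynomial ℂ) (hq : q.Monic) (hL : 1 ≤ q.natDegree)
    (A : ℝ) (hA : 0 ≤ A) (N : ℕ) (hN : 1 ≤ N) (n : ℕ) (w : Fin n → ℂ) (ε : ℝ)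
    (hw1 : ∀ i, ‖w i‖ < 1) (hw0 : ∀ i, 1 / (N : ℝ) < ‖w i‖)
    (hS : ∀ x : ℂ, ‖x‖ = 1 → ‖q.eval (D.Z x)‖ ≤ A ^ q.natDegree)
    (hB : ∀ i, ∀ x : ℂ, ‖x - w i‖ ≤ 1 / (N : ℝ) → x ≠ 0 ∧ ‖q.eval (D.Z x)‖ ≤ A ^ q.natDegree)
    (h : ∀ x : ℂ, ‖x‖ ≤ 1 → (∀ i, 1 / (N : ℝ) ≤ ‖x - w i‖) →
      ‖x‖ ^ N ≤ Real.exp (ε * N) * ‖bl w x‖) :
    ‖D.c‖ * Real.exp ((1 / (N : ℝ)) * ∑ i, gx (w i) - ε) ≤ A := by
  have hN0 : (0:ℝ) < N := by exact_mod_cast hN
  have hNi : (0:ℝ) < 1 / (N:ℝ) := by positivity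
  set L := q.natDegree with hLdef
  set U : Set ℂ := {x | ‖x‖ < 1 ∧ ∀ i, 1 / (N:ℝ) < ‖x - w i‖} with hU
  set V : Set ℂ := {x | ‖x‖ ≤ 1 ∧ ∀ i, 1 / (N:ℝ) ≤ ‖x - w i‖} with hV
  have hUo : IsOpen U := by
    rw [hU]
    have : {x : ℂ | ‖x‖ < 1 ∧ ∀ i, 1 / (N:ℝ) < ‖x - w i‖} =
      {x : ℂ | ‖x‖ < 1} ∩ ⋂ i, {x : ℂ | 1 / (N:ℝ) < ‖x - w i‖} := by
      ext x; simp
    rw [this]
    refine (isOpen_lt continuous_norm continuous_const).inter ?_
    exact isOpen_iInter_of_finite fun i =>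
      isOpen_lt continuous_const (continuous_id.sub continuous_const).norm
  have hVc : IsClosed V := by
    rw [hV]
    have : {x : ℂ | ‖x‖ ≤ 1 ∧ ∀ i, 1 / (N:ℝ) ≤ ‖x - w i‖} =
      {x : ℂ | ‖x‖ ≤ 1} ∩ ⋂ i, {x : ℂ | 1 / (N:ℝ) ≤ ‖x - w i‖} := by
      ext x; simp
    rw [this]
    refine (isClosed_le continuous_norm continuous_const).inter ?_
    exact isClosed_iInter fun i =>
      isClosed_le continuous_const (continuous_id.sub continuous_const).norm
  have hUV : U ⊆ V := fun x hx => ⟨hx.1.le, fun i => (hx.2 i).le⟩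
  have hclU : closure U ⊆ V := closure_minimal hUV hVc
  have hblne : ∀ x ∈ V, bl w x ≠ 0 := by
    intro x hx
    unfold bl
    refine Finset.prod_ne_zero_iff.mpr fun i _ => ?_
    refine div_ne_zero ?_ (bl_den (hw1 i) hx.1)
    intro h0
    have := hx.2 i
    rw [h0, norm_zero] at this
    linarith
  have hblc : ContinuousOn (bl w) V := by
    unfold bl
    refine continuousOn_finsetProd _ fun i _ => ?_
    refine ContinuousOn.div ?_ ?_ ?_
    · exact (continuous_id.sub continuous_const).continuousOn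
    · exact (continuous_const.sub (continuous_const.mul continuous_id)).continuousOn
    · intro x hx; exact bl_den (hw1 i) hx.1
  have hbld : DifferentiableOn ℂ (bl w) U := by
    unfold bl
    refine DifferentiableOn.fun_finsetProd fun i _ => ?_
    refine DifferentiableOn.div ?_ ?_ ?_
    · exact (differentiable_id.sub (differentiable_const _)).differentiableOn
    · exact ((differentiable_const _).sub
        ((differentiable_const _).mul differentiable_id)).differentiableOn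
    · intro x hx; exact bl_den (hw1 i) hx.1.le
  set Ps : ℂ → ℂ := fun x => clQ D q x ^ N / bl w x ^ L with hPs
  have hd : DiffContOnCl ℂ Ps U := by
    constructor
    · refine DifferentiableOn.div ?_ ?_ ?_
      · exact ((clQ_diff D q).mono (fun x hx => by simpa using hx.1)).pow N
      · exact hbld.pow L
      · intro x hx; exact pow_ne_zero _ (hblne x (hUV hx))
    · refine ContinuousOn.div ?_ ?_ ?_
      · exact ((clQ_cont D q).mono (fun x hx => by simpa using (hclU hx).1)).pow N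
      · exact (hblc.mono hclU).pow L
      · intro x hx; exact pow_ne_zero _ (hblne x (hclU hx))
  have hbd : Bornology.IsBounded U :=
    Metric.isBounded_ball.subset (fun x hx => by
      show x ∈ Metric.ball (0:ℂ) 1
      simpa using hx.1)
  have hfr : ∀ x ∈ frontier U, ‖Ps x‖ ≤ (Real.exp (ε * N)) ^ L * A ^ (L * N) := by
    intro x hx
    rw [hUo.frontier_eq] at hx
    have hxV := hclU hx.1
    have hx0 : x ≠ 0 ∧ ‖q.eval (D.Z x)‖ ≤ A ^ L := by
      by_cases h1 : ∃ i, ‖x - w i‖ ≤ 1 / (N:ℝ)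
      · obtain ⟨i, hi⟩ := h1
        exact hB i x hi
      · push Not at h1
        have h2 : ‖x‖ = 1 := by
          by_contra hne
          exact hx.2 ⟨lt_of_le_of_ne hxV.1 hne, h1⟩
        refine ⟨?_, hS x h2⟩
        intro h3; rw [h3, norm_zero] at h2; exact zero_ne_one h2
    have hb : 0 < ‖bl w x‖ := norm_pos_iff.mpr (hblne x hxV)
    have hh := h x hxV.1 hxV.2
    rw [hPs]
    simp only [norm_div, norm_pow]
    rw [div_le_iff₀ (pow_pos hb _), clQ_eq D q hx0.1, norm_mul, norm_pow, mul_pow]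
    calc (‖x‖ ^ q.natDegree) ^ N * ‖q.eval (D.Z x)‖ ^ N
        = (‖x‖ ^ N) ^ L * ‖q.eval (D.Z x)‖ ^ N := by rw [← pow_mul, ← pow_mul, mul_comm N]
      _ ≤ (Real.exp (ε * N) * ‖bl w x‖) ^ L * (A ^ L) ^ N := by
          gcongr
          exact hx0.2
      _ = Real.exp (ε * N) ^ L * A ^ (L * N) * ‖bl w x‖ ^ L := by
          rw [mul_pow, ← pow_mul]; ring
  have h0U : (0:ℂ) ∈ U := by
    refine ⟨by simp, fun i => ?_⟩
    rw [zero_sub, norm_neg]; exact hw0 i
  have hmain := Complex.norm_le_of_forall_mem_frontier_norm_le hbd hd hfr (subset_closure h0U)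
  have hbl0 : ‖bl w 0‖ = Real.exp (-∑ i, gx (w i)) := by
    unfold bl
    rw [norm_prod, ← Finset.sum_neg_distrib, Real.exp_sum]
    refine Finset.prod_congr rfl fun i _ => ?_
    unfold gx
    rw [neg_neg, Real.exp_log (lt_trans hNi (hw0 i))]
    simp
  rw [hPs] at hmain
  simp only [norm_div, norm_pow] at hmain
  rw [clQ_zero D q hq, hbl0, norm_pow] at hmain
  have hc : 0 ≤ ‖D.c‖ := norm_nonneg _
  have hLN : L * N ≠ 0 := by positivity
  -- take roots
  have hkey : (‖D.c‖ * Real.exp ((1 / (N : ℝ)) * ∑ i, gx (w i) - ε)) ^ (L * N) ≤ A ^ (L * N) := by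
    have e1 : (Real.exp ((1 / (N : ℝ)) * ∑ i, gx (w i) - ε)) ^ (L * N)
        = Real.exp ((L:ℝ) * ∑ i, gx (w i) - L * (ε * N)) := by
      rw [← Real.exp_nat_mul]
      congr 1
      push_cast
      field_simp
    have e2 : (Real.exp (-∑ i, gx (w i))) ^ L = Real.exp (-(L * ∑ i, gx (w i))) := by
      rw [← Real.exp_nat_mul]; congr 1; ring
    have e3 : (Real.exp (ε * N)) ^ L = Real.exp (L * (ε * N)) := by
      rw [← Real.exp_nat_mul]
    rw [mul_pow, e1]
    rw [e2, e3, ← pow_mul] at hmain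
    rw [div_le_iff₀ (Real.exp_pos _)] at hmain
    rw [Real.exp_sub, mul_div_assoc', div_le_iff₀ (Real.exp_pos _)]
    have e4 : Real.exp (-(L * ∑ i, gx (w i))) * Real.exp (L * ∑ i, gx (w i)) = 1 := by
      rw [← Real.exp_add]; simp
    calc ‖D.c‖ ^ (L * N) * Real.exp (L * ∑ i, gx (w i))
        ≤ (Real.exp (L * (ε * N)) * A ^ (L * N) * Real.exp (-(L * ∑ i, gx (w i)))) *
            Real.exp (L * ∑ i, gx (w i)) :=
          mul_le_mul_of_nonneg_right hmain (Real.exp_pos _).le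
      _ = A ^ (L * N) * Real.exp (L * (ε * N)) := by
          rw [mul_assoc, e4]; ring
  exact le_of_pow_le_pow_left₀ hLN hA hkey

theorem cap_lower (D : Star) (hD : D.IsStar) {M : Set ℂ} (hM : IsCompact M) (hMS : Disjoint M D.S)
    (δ : ℝ) (hδ : 0 < δ) (ε : ℝ) (hε : 0 < ε) : ∃ N0 : ℕ, ∀ N ≥ N0, ∀ (n : ℕ) (w : Fin n → ℂ),
      (∀ i, w i ∈ D.pre M) →
      (∀ x : ℂ, ‖x‖ ≤ 1 → (∀ i, 1 / (N : ℝ) ≤ ‖x - w i‖) → ‖x‖ ^ N ≤ Real.exp (ε * N) * ‖bl w x‖) →
      ‖D.c‖ * Real.exp ((1 / (N : ℝ)) * ∑ i, gx (w i) - ε) ≤ cap (D.S ∪ Metric.cthickening δ M) := by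
  obtain ⟨r, hr, hr2⟩ := cap_lower_r D hD hM hMS δ hδ
  obtain ⟨n0, hn0⟩ := exists_nat_one_div_lt hr
  refine ⟨n0 + 1, fun N hN n w hw h => ?_⟩
  have hN1 : 1 ≤ N := by omega
  have hNr : 1 / (N:ℝ) < r := by
    refine lt_of_le_of_lt ?_ hn0
    apply one_div_le_one_div_of_le (by positivity)
    exact_mod_cast hN
  refine le_of_forall_pos_le_add fun η hη => ?_
  have hK : IsCompact (D.S ∪ Metric.cthickening δ M) := D.isCompact_S.union hM.cthickening
  have hSne : D.S.Nonempty := ⟨D.Z 1, 1, by simp, rfl⟩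
  obtain ⟨q, hq, hL, hqK⟩ := exists_poly_of_cap hK (hSne.mono Set.subset_union_left) η hη
  refine cap_lower_core D q hq hL _ (by have := cap_nonneg (D.S ∪ Metric.cthickening δ M); linarith)
    N hN1 n w ε (fun i => (hw i).1) (fun i => ?_) (fun x hx => ?_) (fun i x hx => ?_) h
  · by_contra hcon
    push Not at hcon
    have := hr2 (w i) (hw i) 0 (by rw [zero_sub, norm_neg]; linarith)
    exact this.1 rfl
  · apply hqK
    left
    exact ⟨x, by simpa using hx, rfl⟩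
  · have := hr2 (w i) (hw i) x (by linarith)
    exact ⟨this.1, hqK _ (Or.inr this.2)⟩


end Pool.LR
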