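import Mathlib
import Pool.Agent.Helper50.LR.Defs
import Pool.Agent.Helper50.LR.Oa

set_option autoImplicit false

open Complex Finset Filter Topology

namespace Pool.LR


/-! ### TARGETS (prove these; put auxiliary lemmas just before them) -/

theorem mean_normsq_id (w w' : ℂ) :
    ‖1 - (starRingEnd ℂ) w * w'‖ ^ 2 = ‖w - w'‖ ^ 2 + (1 - ‖w‖ ^ 2) * (1 - ‖w'‖ ^ 2) := by
  simp only [← Complex.normSq_eq_norm_sq, Complex.normSq_apply]
  simp
  ring

/-- uniform lower bound for the Green kernel on a compact set -/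
theorem mean_green_lower {A : Set ℂ} (hA : IsCompact A) (h1 : ∀ w ∈ A, ‖w‖ < 1 ∧ w ≠ 0) :
    ∃ γ : ℝ, 0 < γ ∧ ∀ w ∈ A, ∀ w' ∈ A, w ≠ w' → γ ≤ gG w w' := by
  have hc : ContinuousOn (fun w : ℂ => (1 - ‖w‖ ^ 2)⁻¹) A := by
    apply ContinuousOn.inv₀
    · fun_prop
    · intro w hw
      have := (h1 w hw).1
      have h0 := norm_nonneg w
      nlinarith
  obtain ⟨C, hC⟩ := hA.exists_bound_of_continuousOn hc
  set c : ℝ := (|C| + 1)⁻¹ with hcdef
  have hCpos : 0 < |C| + 1 := by positivity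
  have hcpos : 0 < c := inv_pos.2 hCpos
  have hcA : ∀ w ∈ A, c ≤ 1 - ‖w‖ ^ 2 := by
    intro w hw
    have h2 := (h1 w hw).1
    have h0 := norm_nonneg w
    have h3 : 0 < 1 - ‖w‖ ^ 2 := by nlinarith
    have h4 : (1 - ‖w‖ ^ 2)⁻¹ ≤ |C| + 1 := by
      have := hC w hw
      rw [Real.norm_eq_abs] at this
      have h5 := le_abs_self ((1 - ‖w‖ ^ 2)⁻¹)
      have h6 := le_abs_self C
      linarith
    rw [hcdef]
    exact inv_le_of_inv_le₀ h3 h4
  refine ⟨Real.log (Real.sqrt (1 + c ^ 2 / 4)), ?_, ?_⟩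
  · apply Real.log_pos
    rw [Real.lt_sqrt (by norm_num)]
    have : 0 < c ^ 2 / 4 := by positivity
    linarith
  · intro w hw w' hw' hne
    unfold gG
    have hd : 0 < ‖w - w'‖ := norm_pos_iff.2 (sub_ne_zero.2 hne)
    have hd2 : ‖w - w'‖ ≤ 2 := by
      have := norm_sub_le w w'
      linarith [(h1 w hw).1, (h1 w' hw').1]
    apply Real.log_le_log (Real.sqrt_pos.2 (by positivity))
    rw [le_div_iff₀ hd]
    have hid := mean_normsq_id w w'
    have hcw := hcA w hw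
    have hcw' := hcA w' hw'
    have h5 : c * c ≤ (1 - ‖w‖ ^ 2) * (1 - ‖w'‖ ^ 2) := by
      apply mul_le_mul hcw hcw' hcpos.le (hcpos.le.trans hcw)
    have h6 : ‖w - w'‖ ^ 2 ≤ 4 := by nlinarith
    apply abs_le_of_sq_le_sq' _ (norm_nonneg _) |>.2
    rw [mul_pow, Real.sq_sqrt (by positivity), hid]
    nlinarith [sq_nonneg c]

/-- uniform bound for the energy of optimal configurations -/
theorem mean_bound {A : Set ℂ} (hA : IsCompact A) (h1 : ∀ w ∈ A, ‖w‖ < 1 ∧ w ≠ 0) :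
    ∃ C : ℝ, 0 < C ∧ ∀ (N : ℕ), 0 < N → ∀ (n : ℕ) (w : Fin n → ℂ), IsOpt A N w →
      (0 ≤ (1 / (N : ℝ) ^ 2) * ∑ i, ∑ j ∈ Finset.univ.erase i, gG (w i) (w j)) ∧
      (1 / (N : ℝ)) * ∑ i, gx (w i) ≤ C := by
  obtain ⟨γ, hγ, hγA⟩ := mean_green_lower hA h1
  have hc : ContinuousOn gx A := by
    unfold gx
    apply ContinuousOn.neg
    apply ContinuousOn.log (by fun_prop)
    intro w hw
    exact norm_ne_zero_iff.2 (h1 w hw).2
  obtain ⟨X0, hX0⟩ := hA.exists_bound_of_continuousOn hc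
  set X : ℝ := |X0| + 1 with hXdef
  have hX : 0 < X := by positivity
  have hXA : ∀ w ∈ A, gx w ≤ X := by
    intro w hw
    have := hX0 w hw
    rw [Real.norm_eq_abs] at this
    have h5 := le_abs_self (gx w)
    have h6 := le_abs_self X0
    linarith
  refine ⟨(X / γ + 1) * X, by positivity, ?_⟩
  intro N hN n w hw
  have hNr : (0 : ℝ) < N := by exact_mod_cast hN
  have hN1 : (1 : ℝ) ≤ N := by exact_mod_cast hN
  have hgG : ∀ i, ∀ j ∈ Finset.univ.erase i, γ ≤ gG (w i) (w j) := by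
    intro i j hj
    apply hγA _ (hw.1.2 i) _ (hw.1.2 j)
    intro heq
    exact (Finset.mem_erase.1 hj).1 (hw.1.1 heq).symm
  constructor
  · apply mul_nonneg (by positivity)
    exact Finset.sum_nonneg fun i _ => Finset.sum_nonneg fun j hj => hγ.le.trans (hgG i j hj)
  · have hsum : ∑ i, gx (w i) ≤ n * X := by
      calc ∑ i, gx (w i) ≤ ∑ _i : Fin n, X := Finset.sum_le_sum fun i _ => hXA _ (hw.1.2 i)
        _ = n * X := by simp
    have hn : (n : ℝ) ≤ (X / γ + 1) * N := by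
      rcases Nat.eq_zero_or_pos n with h0 | h0
      · rw [h0]; push_cast; positivity
      · have i : Fin n := ⟨0, h0⟩
        have h2 := isOpt_remove h1 hN hw i
        have h3 : ((n : ℝ) - 1) * γ ≤ ∑ j ∈ Finset.univ.erase i, gG (w i) (w j) := by
          have h4 : ∑ _j ∈ Finset.univ.erase i, γ ≤ ∑ j ∈ Finset.univ.erase i, gG (w i) (w j) :=
            Finset.sum_le_sum fun j hj => hgG i j hj
          rw [Finset.sum_const, Finset.card_erase_of_mem (Finset.mem_univ i), Finset.card_univ,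
            Fintype.card_fin, nsmul_eq_mul, Nat.cast_sub h0, Nat.cast_one] at h4
          exact h4
        have h5 : (1 / (N : ℝ)) * (((n : ℝ) - 1) * γ) ≤ X :=
          (mul_le_mul_of_nonneg_left h3 (by positivity)).trans (h2.trans (hXA _ (hw.1.2 i)))
        have h6 : ((n : ℝ) - 1) * γ ≤ X * N := by
          rw [one_div, inv_mul_le_iff₀ hNr] at h5
          linarith
        have h7 : (n : ℝ) - 1 ≤ X / γ * N := by
          rw [div_mul_eq_mul_div, le_div_iff₀ hγ]
          exact h6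
        linarith
    calc (1 / (N : ℝ)) * ∑ i, gx (w i) ≤ (1 / (N : ℝ)) * (((X / γ + 1) * N) * X) := by
          apply mul_le_mul_of_nonneg_left _ (by positivity)
          exact hsum.trans (mul_le_mul_of_nonneg_right hn hX.le)
      _ = (X / γ + 1) * X := by field_simp

/-- ... and for suitable large `N` at most the mean of `gx` plus `ε` -/
theorem exists_isOpt_mean {A : Set ℂ} (hA : IsCompact A) (h1 : ∀ w ∈ A, ‖w‖ < 1 ∧ w ≠ 0)
    (ε : ℝ) (hε : 0 < ε) (N0 : ℕ) : ∃ N ≥ N0, 0 < N ∧ ∃ (n : ℕ) (w : Fin n → ℂ), IsOpt A N w ∧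
      Jf N w ≤ (1 / (N : ℝ)) * ∑ i, gx (w i) + ε := by
  obtain ⟨C, hC, hCb⟩ := mean_bound hA h1
  have hex : ∀ N : ℕ, ∃ (n : ℕ) (w : Fin n → ℂ), 0 < N → IsOpt A N w := by
    intro N
    rcases Nat.eq_zero_or_pos N with h | h
    · exact ⟨0, Fin.elim0, fun h' => absurd h' (by omega)⟩
    · obtain ⟨n, w, hw⟩ := exists_isOpt hA h1 N h
      exact ⟨n, w, fun _ => hw⟩
  choose nn ww hww using hex
  set Φ : ℕ → ℝ := fun N => Jf N (ww N) with hΦ
  have hΦ0 : ∀ N, 0 < N → 0 ≤ Φ N := by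
    intro N hN
    have := (hww N hN).2 0 Fin.elim0 ⟨fun i => i.elim0, fun i => i.elim0⟩
    have h0 : Jf N (Fin.elim0 : Fin 0 → ℂ) = 0 := by
      unfold Jf; simp
    rw [h0] at this
    exact this
  -- notation for the two sums
  set SX : ℕ → ℝ := fun N => ∑ i, gx (ww N i) with hSX
  set SG : ℕ → ℝ := fun N => ∑ i, ∑ j ∈ Finset.univ.erase i, gG (ww N i) (ww N j) with hSG
  have hJ : ∀ N N' : ℕ, Jf N' (ww N) = (2 / (N' : ℝ)) * SX N - (1 / (N' : ℝ) ^ 2) * SG N := by
    intro N N'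
    rfl
  have hX : ∀ N : ℕ, 0 < N → (1 / (N : ℝ)) * SX N ≤ C := fun N hN =>
    (hCb N hN _ _ (hww N hN)).2
  have hY0 : ∀ N : ℕ, 0 < N → 0 ≤ (1 / (N : ℝ) ^ 2) * SG N := fun N hN =>
    (hCb N hN _ _ (hww N hN)).1
  have hE : ∀ N : ℕ, 0 < N → (1 / (N : ℝ)) * SX N ≤ Φ N := fun N hN =>
    isOpt_energy h1 hN (hww N hN)
  have hΦ2 : ∀ N, 0 < N → Φ N ≤ 2 * C := by
    intro N hN
    have e1 := hJ N N
    have e2 := hY0 N hN
    have e3 := hX N hN
    have e4 : (2 / (N : ℝ)) * SX N = 2 * ((1 / (N : ℝ)) * SX N) := by ring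
    simp only [hΦ]
    rw [e1, e4]
    linarith
  -- choice of k and m
  obtain ⟨k, hk⟩ := exists_nat_gt (C / ε + 2)
  have hCε : 0 < C / ε := div_pos hC hε
  have hk2 : (2 : ℝ) < k := by linarith
  have hkpos : (0 : ℝ) < k := by linarith
  have hk2' : 2 ≤ k := by exact_mod_cast hk2.le
  obtain ⟨m, hm⟩ := exists_nat_gt (2 * C * k / ε + N0 + 1)
  have hmpos : (0 : ℝ) < m := by
    have : 0 ≤ 2 * C * k / ε := by positivity
    have h2 : (0 : ℝ) ≤ N0 := Nat.cast_nonneg _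
    linarith
  set NN : ℕ → ℕ := fun i => k ^ (m - i) * (k + 1) ^ i with hNN
  have hNNpos : ∀ i, 0 < NN i := fun i => by
    simp only [hNN]; positivity
  have hex2 : ∃ i ∈ Finset.range m, Φ (NN i) - Φ (NN (i + 1)) ≤ 2 * C / m := by
    apply Finset.exists_le_of_sum_le (f := fun i => Φ (NN i) - Φ (NN (i + 1)))
      (g := fun _ => 2 * C / m)
    · rw [Finset.nonempty_range_iff]
      intro h; rw [h] at hmpos; simp at hmpos
    · rw [Finset.sum_range_sub', Finset.sum_const, Finset.card_range, nsmul_eq_mul]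
      have e1 := hΦ0 (NN m) (hNNpos m)
      have e2 := hΦ2 (NN 0) (hNNpos 0)
      have e3 : (m : ℝ) * (2 * C / m) = 2 * C := by field_simp
      rw [e3]
      linarith
  obtain ⟨i, hi, hdiff⟩ := hex2
  have him : i < m := Finset.mem_range.1 hi
  refine ⟨NN (i + 1), ?_, hNNpos _, nn (NN (i + 1)), ww (NN (i + 1)), hww _ (hNNpos _), ?_⟩
  · -- NN (i+1) ≥ k ^ m ≥ N0
    have h2 : k ^ m ≤ NN (i + 1) := by
      simp only [hNN]
      calc k ^ m = k ^ (m - (i + 1)) * k ^ (i + 1) := by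
            rw [← pow_add]; congr 1; omega
        _ ≤ _ := Nat.mul_le_mul_left _ (Nat.pow_le_pow_left (by omega) _)
    have h3 : m < 2 ^ m := Nat.lt_two_pow_self
    have h4 : 2 ^ m ≤ k ^ m := Nat.pow_le_pow_left hk2' _
    have h5 : (N0 : ℝ) ≤ m := by
      have : 0 ≤ 2 * C * k / ε := by positivity
      linarith
    have h6 : N0 ≤ m := by exact_mod_cast h5
    show N0 ≤ NN (i + 1)
    omega
  · set N' := NN i with hN'
    set N := NN (i + 1) with hN
    have hN'pos : (0 : ℝ) < N' := by exact_mod_cast hNNpos i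
    have hNpos : (0 : ℝ) < N := by exact_mod_cast hNNpos (i + 1)
    have hrel : (N : ℝ) * k = N' * (k + 1) := by
      have : N * k = N' * (k + 1) := by
        simp only [hN, hN', hNN]
        have h7 : m - i = (m - (i + 1)) + 1 := by omega
        rw [h7, pow_succ, pow_succ]
        ring
      exact_mod_cast this
    set X := (1 / (N : ℝ)) * SX N with hXd
    set Y := (1 / (N : ℝ) ^ 2) * SG N with hYd
    have hJN : Jf N (ww N) = 2 * X - Y := by
      rw [hJ]; ring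
    have hNinv : (1 : ℝ) / N' = (1 + 1 / k) * (1 / N) := by
      field_simp
      linarith
    have hJN' : Jf N' (ww N) = 2 * (1 + 1 / (k : ℝ)) * X - (1 + 1 / (k : ℝ)) ^ 2 * Y := by
      rw [hJ]
      have e1 : (2 : ℝ) / N' = 2 * ((1 + 1 / k) * (1 / N)) := by rw [← hNinv]; ring
      have e2 : (1 : ℝ) / (N' : ℝ) ^ 2 = ((1 + 1 / k) * (1 / N)) ^ 2 := by rw [← hNinv]; ring
      rw [e1, e2]
      ring
    have hopt : Jf N' (ww N) ≤ Φ N' := (hww N' (hNNpos i)).2 _ _ (hww N (hNNpos (i + 1))).1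
    have hΦN : Φ N = 2 * X - Y := hJN
    rw [hJN'] at hopt
    rw [hΦN] at hdiff
    have hXC : X ≤ C := hX N (hNNpos _)
    have hYX : Y ≤ X := by
      have := hE N (hNNpos _)
      rw [hΦN] at this
      have h8 : (1 / (N : ℝ)) * SX N = X := rfl
      rw [h8] at this
      linarith
    have hY0' : 0 ≤ Y := hY0 N (hNNpos _)
    -- the inequality
    have h9 : (1 / (k : ℝ)) * (2 * (X - Y) - (1 / k) * Y) ≤ 2 * C / m := by
      have e : (1 / (k : ℝ)) * (2 * (X - Y) - (1 / k) * Y) =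
        (2 * (1 + 1 / (k : ℝ)) * X - (1 + 1 / (k : ℝ)) ^ 2 * Y) - (2 * X - Y) := by ring
      rw [e]
      linarith
    have h10 : 2 * (X - Y) - (1 / (k : ℝ)) * Y ≤ 2 * C / m * k := by
      have := mul_le_mul_of_nonneg_right h9 hkpos.le
      calc 2 * (X - Y) - (1 / (k : ℝ)) * Y
          = (1 / (k : ℝ)) * (2 * (X - Y) - (1 / k) * Y) * k := by field_simp
        _ ≤ _ := this
    have h11 : 2 * C / m * k ≤ ε := by
      rw [div_mul_eq_mul_div, div_le_iff₀ hmpos]
      have h12 : 2 * C * k / ε ≤ m := by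
        have h2 : (0 : ℝ) ≤ N0 := Nat.cast_nonneg _
        linarith
      rw [div_le_iff₀ hε] at h12
      linarith
    have h13 : (1 / (k : ℝ)) * Y ≤ ε := by
      have h14 : C ≤ ε * k := by
        have h15 : C / ε ≤ k := by linarith
        rw [div_le_iff₀ hε] at h15
        linarith
      rw [one_div, inv_mul_le_iff₀ hkpos]
      linarith
    rw [hJN]
    linarith


end Pool.LR
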