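import Mathlib
import Pool.Agent.Helper50.LR.Defs

set_option autoImplicit false

open Complex Finset Filter Topology

namespace Pool.LR


namespace Nd

noncomputable def fac (φ m θ : ℝ) : ℝ := |2 * Real.sin ((θ - φ) / 2)| ^ (2 * m)

noncomputable def FF (n : ℕ) (m φ : ℕ → ℝ) (θ : ℝ) : ℝ := ∏ k ∈ Finset.range n, fac (φ k) (m k) θ

noncomputable def MM (n : ℕ) (m φ : ℕ → ℝ) (j : ℕ) : ℝ :=
  sSup ((fun s : ℝ => FF n m φ (φ j + s * (φ (j + 1) - φ j))) '' Set.Icc 0 1)

theorem fac_nonneg (φ m θ : ℝ) : 0 ≤ fac φ m θ := Real.rpow_nonneg (abs_nonneg _) _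

theorem fac_add_two_pi (φ m θ : ℝ) : fac (φ + 2 * Real.pi) m θ = fac φ m θ := by
  unfold fac
  have : (θ - (φ + 2 * Real.pi)) / 2 = (θ - φ) / 2 - Real.pi := by ring
  rw [this, Real.sin_sub_pi, mul_neg, abs_neg]

theorem fac_add (φ m θ t : ℝ) : fac (φ + t) m (θ + t) = fac φ m θ := by
  unfold fac
  have : (θ + t - (φ + t)) / 2 = (θ - φ) / 2 := by ring
  rw [this]

theorem fac_add_two_pi' (φ m θ : ℝ) : fac φ m (θ + 2 * Real.pi) = fac φ m θ := by
  rw [← fac_add_two_pi φ m, fac_add]

theorem fac_self (φ m : ℝ) (hm : 0 < m) : fac φ m φ = 0 := by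
  unfold fac
  rw [sub_self, zero_div, Real.sin_zero, mul_zero, abs_zero, Real.zero_rpow (by positivity)]

/-- quasi-periodic configurations -/
def QP (n : ℕ) (φ : ℕ → ℝ) : Prop := ∀ k, φ (k + n) = φ k + 2 * Real.pi

theorem FF_window {n : ℕ} {m φ : ℕ → ℝ} (hm : ∀ k, m (k + n) = m k) (hφ : QP n φ) (θ : ℝ) (c : ℕ) :
    FF n m φ θ = ∏ i ∈ Finset.range n, fac (φ (c + i)) (m (c + i)) θ := by
  induction c with
  | zero => simp [FF]
  | succ c ih =>
    rw [ih]
    rcases n with _ | n
    · simp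
    · rw [Finset.prod_range_succ', Finset.prod_range_succ]
      congr 1
      · apply Finset.prod_congr rfl
        intro i _
        rw [show c + (i + 1) = c + 1 + i by ring]
      · have h1 : c + 1 + n = c + (n + 1) := by ring
        rw [h1, hφ c, hm c, fac_add_two_pi, add_zero]

theorem FF_nonneg (n : ℕ) (m φ : ℕ → ℝ) (θ : ℝ) : 0 ≤ FF n m φ θ :=
  Finset.prod_nonneg fun _ _ => fac_nonneg _ _ _

theorem FF_add (n : ℕ) (m φ : ℕ → ℝ) (θ t : ℝ) : FF n m (fun k => φ k + t) (θ + t) = FF n m φ θ := by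
  unfold FF
  apply Finset.prod_congr rfl
  intro i _
  exact fac_add _ _ _ _

theorem MM_add (n : ℕ) (m φ : ℕ → ℝ) (j : ℕ) (t : ℝ) : MM n m (fun k => φ k + t) j = MM n m φ j := by
  unfold MM
  congr 2
  funext s
  rw [← FF_add n m φ _ t]
  congr 1
  ring

theorem MM_period {n : ℕ} {m φ : ℕ → ℝ} (hφ : QP n φ) (j : ℕ) :
    MM n m φ (j + n) = MM n m φ j := by
  unfold MM
  congr 2
  funext s
  have h1 : φ (j + n + 1) = φ (j + 1) + 2 * Real.pi := by
    rw [← hφ (j + 1)]; congr 1; ring
  rw [hφ j, h1]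
  have : φ j + 2 * Real.pi + s * (φ (j + 1) + 2 * Real.pi - (φ j + 2 * Real.pi)) =
      (φ j + s * (φ (j + 1) - φ j)) + 2 * Real.pi := by ring
  rw [this]
  unfold FF
  apply Finset.prod_congr rfl
  intro i _
  exact fac_add_two_pi' _ _ _

theorem continuous_G (n : ℕ) {m : ℕ → ℝ} (hm : ∀ k, 0 < m k) (j : ℕ) :
    Continuous (fun q : (ℕ → ℝ) × ℝ => FF n m q.1 (q.1 j + q.2 * (q.1 (j + 1) - q.1 j))) := by
  unfold FF fac
  apply continuous_finsetProd
  intro i _
  apply Continuous.rpow_const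
  · fun_prop
  · intro x
    right
    have := hm i
    positivity

theorem continuous_MM (n : ℕ) {m : ℕ → ℝ} (hm : ∀ k, 0 < m k) (j : ℕ) :
    Continuous (fun φ : ℕ → ℝ => MM n m φ j) := by
  unfold MM
  exact isCompact_Icc.continuous_sSup (f := fun (φ : ℕ → ℝ) (s : ℝ) =>
    FF n m φ (φ j + s * (φ (j + 1) - φ j))) (continuous_G n hm j)

theorem MM_attained {n : ℕ} {m : ℕ → ℝ} (hm : ∀ k, 0 < m k) (φ : ℕ → ℝ) {j : ℕ}
    (hj : φ j ≤ φ (j + 1)) :
    ∃ θ ∈ Set.Icc (φ j) (φ (j + 1)), MM n m φ j = FF n m φ θ ∧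
      ∀ θ' ∈ Set.Icc (φ j) (φ (j + 1)), FF n m φ θ' ≤ FF n m φ θ := by
  have hc : Continuous (fun s : ℝ => FF n m φ (φ j + s * (φ (j + 1) - φ j))) := by
    unfold FF fac
    apply continuous_finsetProd
    intro i _
    apply Continuous.rpow_const
    · fun_prop
    · intro x
      right
      have := hm i
      positivity
  obtain ⟨s, hs, h1, h2⟩ := isCompact_Icc.exists_sSup_image_eq_and_ge
    (Set.nonempty_Icc.2 (zero_le_one (α := ℝ))) hc.continuousOn
  refine ⟨φ j + s * (φ (j + 1) - φ j), ⟨?_, ?_⟩, h1, ?_⟩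
  · nlinarith [hs.1]
  · nlinarith [hs.2]
  · intro θ' hθ'
    rcases hj.eq_or_lt with h | h
    · have e : θ' = φ j + 0 * (φ (j + 1) - φ j) := by
        have := hθ'.1; have := hθ'.2; linarith
      rw [e]
      exact h2 0 ⟨le_rfl, zero_le_one⟩
    · have hd : 0 < φ (j + 1) - φ j := by linarith
      have e : θ' = φ j + ((θ' - φ j) / (φ (j + 1) - φ j)) * (φ (j + 1) - φ j) := by
        field_simp; ring
      rw [e]
      apply h2
      constructor
      · have := hθ'.1
        apply div_nonneg <;> linarith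
      · rw [div_le_one hd]
        have := hθ'.2
        linarith

/-- the strict inequality for the product of two sines -/
theorem two_sin {X Y X' Y' a b : ℝ} (ha : 0 < a) (hb : 0 < b) (hY' : 0 ≤ Y') (h1 : Y' < Y)
    (h2 : Y ≤ X) (h3 : X < X') (h4 : X' ≤ Real.pi) (hw : a * X' + b * Y' = a * X + b * Y) :
    |2 * Real.sin X'| ^ a * |2 * Real.sin Y'| ^ b < |2 * Real.sin X| ^ a * |2 * Real.sin Y| ^ b := by
  have sX : 0 < Real.sin X := Real.sin_pos_of_pos_of_lt_pi (by linarith) (by linarith)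
  have sY : 0 < Real.sin Y := Real.sin_pos_of_pos_of_lt_pi (by linarith) (by linarith)
  have sX' : 0 ≤ Real.sin X' := Real.sin_nonneg_of_nonneg_of_le_pi (by linarith) (by linarith)
  have sY' : 0 ≤ Real.sin Y' := Real.sin_nonneg_of_nonneg_of_le_pi (by linarith) (by linarith)
  rw [abs_of_nonneg (by positivity), abs_of_nonneg (by positivity), abs_of_pos (by positivity),
    abs_of_pos (by positivity)]
  have hpos : 0 < (2 * Real.sin X) ^ a * (2 * Real.sin Y) ^ b := by positivity
  rcases sX'.eq_or_lt with h | hX'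
  · rw [← h, mul_zero, Real.zero_rpow ha.ne', zero_mul]; exact hpos
  rcases sY'.eq_or_lt with h | hY'0
  · rw [← h, mul_zero, Real.zero_rpow hb.ne', mul_zero]; exact hpos
  have key : ∀ t ∈ Set.Ioo (0 : ℝ) 1, (1 - t) * Real.log (Real.sin Y') + t * Real.log (Real.sin X') <
      Real.log (Real.sin ((1 - t) * Y' + t * X')) := by
    intro t ht
    have e1 := strictConcaveOn_sin_Icc.2 (x := Y') (y := X') ⟨hY', by linarith⟩
      ⟨by linarith, h4⟩ (by linarith) (sub_pos.2 ht.2) ht.1 (by ring)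
    have e2 := strictConcaveOn_log_Ioi.concaveOn.2 (x := Real.sin Y') (y := Real.sin X') hY'0 hX'
      (sub_pos.2 ht.2).le ht.1.le (by ring)
    simp only [smul_eq_mul] at e1 e2
    refine lt_of_le_of_lt e2 (Real.log_lt_log ?_ e1)
    have := sub_pos.2 ht.2
    have := ht.1
    positivity
  have hd : 0 < X' - Y' := by linarith
  set α := (X - Y') / (X' - Y') with hα
  set β := (Y - Y') / (X' - Y') with hβ
  have hα1 : α * (X' - Y') = X - Y' := by rw [hα]; field_simp
  have hβ1 : β * (X' - Y') = Y - Y' := by rw [hβ]; field_simp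
  have kα := key α ⟨div_pos (by linarith) hd, by rw [hα, div_lt_one hd]; linarith⟩
  have kβ := key β ⟨div_pos (by linarith) hd, by rw [hβ, div_lt_one hd]; linarith⟩
  rw [show (1 - α) * Y' + α * X' = X by linarith] at kα
  rw [show (1 - β) * Y' + β * X' = Y by linarith] at kβ
  have hab : a * α + b * β = a := by
    have : (a * α + b * β) * (X' - Y') = a * (X' - Y') := by
      calc (a * α + b * β) * (X' - Y') = a * (α * (X' - Y')) + b * (β * (X' - Y')) := by ring
        _ = a * (X - Y') + b * (Y - Y') := by rw [hα1, hβ1]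
        _ = a * (X' - Y') := by linarith
    exact mul_right_cancel₀ hd.ne' this
  have hlog : a * Real.log (Real.sin X') + b * Real.log (Real.sin Y') <
      a * Real.log (Real.sin X) + b * Real.log (Real.sin Y) := by
    have k1 := mul_lt_mul_of_pos_left kα ha
    have k2 := mul_lt_mul_of_pos_left kβ hb
    have k3 : a * Real.log (Real.sin X') + b * Real.log (Real.sin Y') =
        a * ((1 - α) * Real.log (Real.sin Y') + α * Real.log (Real.sin X')) +
        b * ((1 - β) * Real.log (Real.sin Y') + β * Real.log (Real.sin X')) := by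
      have : a * ((1 - α) * Real.log (Real.sin Y') + α * Real.log (Real.sin X')) +
        b * ((1 - β) * Real.log (Real.sin Y') + β * Real.log (Real.sin X')) =
        (a * α + b * β) * Real.log (Real.sin X') + (a + b - (a * α + b * β)) * Real.log (Real.sin Y') := by
        ring
      rw [this, hab]; ring
    linarith
  rw [← Real.log_lt_log_iff (by positivity) hpos]
  rw [Real.log_mul (by positivity) (by positivity), Real.log_mul (by positivity) (by positivity),
    Real.log_rpow (by positivity), Real.log_rpow (by positivity), Real.log_rpow (by positivity),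
    Real.log_rpow (by positivity), Real.log_mul two_ne_zero hX'.ne', Real.log_mul two_ne_zero hY'0.ne',
    Real.log_mul two_ne_zero sX.ne', Real.log_mul two_ne_zero sY.ne']
  nlinarith

theorem gap_pos {n : ℕ} (hn : 0 < n) {m φ : ℕ → ℝ} (hm : ∀ k, 0 < m k)
    (hmp : ∀ k, m (k + n) = m k) (hφm : Monotone φ) (hφ : QP n φ) {j : ℕ}
    (h : 0 < MM n m φ j) : φ j < φ (j + 1) := by
  by_contra hcon
  have h1 : φ (j + 1) = φ j := le_antisymm (not_lt.1 hcon) (hφm (Nat.le_succ j))
  obtain ⟨θ, hθ, h2, _⟩ := MM_attained (n := n) hm φ (hφm (Nat.le_succ j))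
  rw [h1] at hθ
  have h3 : θ = φ j := le_antisymm hθ.2 hθ.1
  rw [h2, h3, FF_window hmp hφ _ j] at h
  have h4 : ∏ i ∈ Finset.range n, fac (φ (j + i)) (m (j + i)) (φ j) = 0 := by
    apply Finset.prod_eq_zero (Finset.mem_range.2 hn)
    rw [add_zero]
    exact fac_self _ _ (hm j)
  rw [h4] at h
  exact lt_irrefl _ h

theorem QP_mul {n : ℕ} {φ : ℕ → ℝ} (hφ : QP n φ) (r q : ℕ) :
    φ (r + q * n) = φ r + q * (2 * Real.pi) := by
  induction q with
  | zero => simp
  | succ q ih =>
    rw [Nat.succ_mul, ← add_assoc, hφ, ih]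
    push_cast; ring

theorem gap_mod {n : ℕ} {φ : ℕ → ℝ} (hφ : QP n φ) (k : ℕ) :
    φ (k + 1) - φ k = φ (k % n + 1) - φ (k % n) := by
  have h1 : k = k % n + (k / n) * n := by
    have := Nat.mod_add_div k n
    rw [mul_comm]; exact this.symm
  have h2 := QP_mul hφ (k % n) (k / n)
  have h3 := QP_mul hφ (k % n + 1) (k / n)
  rw [← h1] at h2
  have h4 : k % n + 1 + k / n * n = k + 1 := by omega
  rw [h4] at h3
  rw [h2, h3]; ring

theorem per_mul {n : ℕ} {f : ℕ → ℝ} (hf : ∀ k, f (k + n) = f k) (r q : ℕ) : f (r + q * n) = f r := by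
  induction q with
  | zero => simp
  | succ q ih => rw [Nat.succ_mul, ← add_assoc, hf, ih]

theorem move {n : ℕ} (hn : 2 ≤ n) {m p : ℕ → ℝ} (hm : ∀ k, 0 < m k) (hmp : ∀ k, m (k + n) = m k)
    (hp : ∀ k, 0 < p k) (hpp : ∀ k, p (k + n) = p k) {φ : ℕ → ℝ} (hφm : Monotone φ) (hφ : QP n φ)
    {h : ℝ} (h0 : 0 < h) (hle : ∀ j, MM n m φ j ≤ h * p j) (j0 : ℕ) (hj0 : MM n m φ j0 = h * p j0)
    (j1 : ℕ) (hj1 : MM n m φ j1 < h * p j1) :
    ∃ φ' : ℕ → ℝ, Monotone φ' ∧ QP n φ' ∧ ∀ j, MM n m φ' j < h * p j := by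
  classical
  have hMp : ∀ r q, MM n m φ (r + q * n) = MM n m φ r := per_mul (fun k => MM_period hφ k)
  have hPp : ∀ r q, p (r + q * n) = p r := per_mul hpp
  -- the run
  obtain ⟨a', b, hA, hB, hab, hba, hrun⟩ : ∃ a' b, MM n m φ a' = h * p a' ∧ MM n m φ b = h * p b ∧
      a' + 1 < b ∧ b ≤ a' + n ∧ ∀ k, a' + 1 ≤ k → k < b → MM n m φ k < h * p k := by
    have ex1 : ∃ a, j0 < a ∧ MM n m φ a < h * p a :=
      ⟨j1 + (j0 + 1) * n, by nlinarith, by rw [hMp, hPp]; exact hj1⟩
    obtain ⟨ha1, ha2⟩ := Nat.find_spec ex1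
    have hamin := fun k hk => Nat.find_min ex1 (m := k) hk
    set a := Nat.find ex1 with ha
    have ex2 : ∃ b, a < b ∧ MM n m φ b = h * p b :=
      ⟨j0 + (a + 1) * n, by nlinarith, by rw [hMp, hPp]; exact hj0⟩
    obtain ⟨hb1, hb2⟩ := Nat.find_spec ex2
    have hbmin := fun k hk => Nat.find_min ex2 (m := k) hk
    have hbmin' := fun k hk => Nat.find_min' ex2 (m := k) hk
    set b := Nat.find ex2 with hb
    have hA : MM n m φ (a - 1) = h * p (a - 1) := by
      rcases Nat.lt_or_ge j0 (a - 1) with h1 | h1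
      · have h2 := hamin (a - 1) (by omega)
        by_contra h3
        exact h2 ⟨h1, lt_of_le_of_ne (hle _) h3⟩
      · have : a - 1 = j0 := by omega
        rw [this]; exact hj0
    refine ⟨a - 1, b, hA, hb2, by omega, ?_, ?_⟩
    · apply hbmin'
      refine ⟨by omega, ?_⟩
      rw [MM_period hφ, hpp]
      exact hA
    · intro k hk1 hk2
      rcases Nat.lt_or_ge a k with h1 | h1
      · have h2 := hbmin k hk2
        by_contra h3
        exact h2 ⟨h1, le_antisymm (hle _) (not_lt.1 h3)⟩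
      · have : k = a := by omega
        rw [this]; exact ha2
  have g1 := gap_pos (by omega) hm hmp hφm hφ (by rw [hA]; exact mul_pos h0 (hp _) : 0 < MM n m φ a')
  have g2 := gap_pos (by omega) hm hmp hφm hφ (by rw [hB]; exact mul_pos h0 (hp _) : 0 < MM n m φ b)
  set a := a' + 1 with ha
  -- the shift
  set s : ℕ → ℝ := fun k => if k % n = a % n then -(m b) else if k % n = b % n then m a else 0
    with hs
  have hsp : ∀ k, s (k + n) = s k := by intro k; simp [hs]
  have hmod : ∀ k l, k < l → l < k + n → k % n ≠ l % n := by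
    intro k l h1 h2 h3
    have h4 : (l - k) % n = 0 := by
      have := (Nat.modEq_iff_dvd' h1.le).1 h3
      exact Nat.mod_eq_zero_of_dvd this
    rw [Nat.mod_eq_of_lt (by omega)] at h4
    omega
  have hsa : s a = -(m b) := by simp [hs]
  have hsb : s b = m a := by
    have := hmod a b hab (by omega)
    simp only [hs]
    rw [if_neg (Ne.symm this)]
    simp
  have hsnn : ∀ k, k % n ≠ a % n → 0 ≤ s k := by
    intro k hk
    simp only [hs, if_neg hk]
    split_ifs
    · exact (hm a).le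
    · exact le_rfl
  have hsnp : ∀ k, k % n ≠ b % n → s k ≤ 0 := by
    intro k hk
    simp only [hs, if_neg hk]
    split_ifs
    · linarith [hm b]
    · exact le_rfl
  have hsle : ∀ k, s k ≤ m a := by
    intro k
    by_cases hk : k % n = b % n
    · have : s k = m a := by
        rw [← hsb]; simp only [hs, hk]
      exact this.le
    · exact (hsnp k hk).trans (hm a).le
  have hsge : ∀ k, -(m b) ≤ s k := by
    intro k
    by_cases hk : k % n = a % n
    · have : s k = -(m b) := by simp only [hs, if_pos hk]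
      exact this.ge
    · linarith [hsnn k hk, hm b]
  -- choice of ε
  have hev : ∀ᶠ ε in 𝓝 (0 : ℝ), ∀ j ∈ Finset.Ico a b, MM n m (fun k => φ k + ε * s k) j < h * p j := by
    rw [Finset.eventually_all]
    intro j hj
    have hc : Continuous (fun ε : ℝ => MM n m (fun k => φ k + ε * s k) j) := by
      have h1 : Continuous (fun ε : ℝ => (fun k => φ k + ε * s k : ℕ → ℝ)) := by fun_prop
      exact (continuous_MM n hm j).comp h1
    have h2 : MM n m (fun k => φ k + (0 : ℝ) * s k) j < h * p j := by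
      simp only [zero_mul, add_zero]
      exact hrun j (Finset.mem_Ico.1 hj).1 (Finset.mem_Ico.1 hj).2
    exact hc.tendsto 0 |>.eventually (gt_mem_nhds h2)
  have hev2 : ∀ᶠ ε in 𝓝 (0 : ℝ), ε * (m a + m b) < min (φ (a' + 1) - φ a') (φ (b + 1) - φ b) := by
    have hc : Continuous (fun ε : ℝ => ε * (m a + m b)) := by fun_prop
    have h2 : (0 : ℝ) * (m a + m b) < min (φ (a' + 1) - φ a') (φ (b + 1) - φ b) := by
      rw [zero_mul]; exact lt_min (by linarith) (by linarith)
    exact hc.tendsto 0 |>.eventually (gt_mem_nhds h2)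
  obtain ⟨ε, ⟨hε1, hε2⟩, hε⟩ : ∃ ε, ((∀ j ∈ Finset.Ico a b,
      MM n m (fun k => φ k + ε * s k) j < h * p j) ∧
      ε * (m a + m b) < min (φ (a' + 1) - φ a') (φ (b + 1) - φ b)) ∧ 0 < ε := by
    have h3 := (hev.and hev2).filter_mono (nhdsWithin_le_nhds (s := Set.Ioi (0 : ℝ)))
    have h4 : ∀ᶠ ε in 𝓝[>] (0 : ℝ), 0 < ε := eventually_mem_nhdsWithin
    exact (h3.and h4).exists
  have e1 : ε * (m a + m b) < φ (a' + 1) - φ a' := lt_of_lt_of_le hε2 (min_le_left _ _)
  have e2 : ε * (m a + m b) < φ (b + 1) - φ b := lt_of_lt_of_le hε2 (min_le_right _ _)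
  set φ' : ℕ → ℝ := fun k => φ k + ε * s k with hφ'
  have hmono : Monotone φ' := by
    apply monotone_nat_of_le_succ
    intro k
    simp only [hφ']
    have hk := hφm (Nat.le_succ k)
    by_cases c1 : (k + 1) % n = a % n
    · have h5 : k % n = a' % n := by
        have : (k + 1) ≡ (a' + 1) [MOD n] := c1
        exact Nat.ModEq.add_right_cancel' 1 this
      have h6 : φ (k + 1) - φ k = φ (a' + 1) - φ a' := by
        rw [gap_mod hφ k, gap_mod hφ a', h5]
      have h7 := hsle k
      have h8 := hsge (k + 1)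
      nlinarith
    · have h8 := hsnn (k + 1) c1
      by_cases c2 : k % n = b % n
      · have h6 : φ (k + 1) - φ k = φ (b + 1) - φ b := by
          rw [gap_mod hφ k, gap_mod hφ b, c2]
        have h7 := hsle k
        have := hm b
        nlinarith
      · have h7 := hsnp k c2
        simp only [Nat.succ_eq_add_one] at hk
        nlinarith
  have hQP : QP n φ' := by
    intro k
    simp only [hφ']
    rw [hφ k, hsp k]; ring
  have hout : ∀ j, b ≤ j → j < a + n → MM n m φ' j < h * p j := by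
    intro j hj1 hj2
    obtain ⟨θ, hθ, h1, _⟩ := MM_attained (n := n) hm φ' (hmono (Nat.le_succ j))
    obtain ⟨_, _, h2, h3⟩ := MM_attained (n := n) hm φ (hφm (Nat.le_succ j))
    rw [h1]
    have t1 : φ' b ≤ θ := (hmono hj1).trans hθ.1
    have t2 : θ ≤ φ' (a + n) := hθ.2.trans (hmono (by omega))
    have t3 : φ j ≤ θ := by
      have h4 := hsnn j (Ne.symm (hmod a j (by omega) hj2))
      have h5 := hθ.1
      simp only [hφ'] at h5
      nlinarith
    have t4 : θ ≤ φ (j + 1) := by
      have h4 := hsnp (j + 1) (Ne.symm (hmod b (j + 1) (by omega) (by omega)))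
      have h5 := hθ.2
      simp only [hφ'] at h5
      nlinarith
    have t5 : FF n m φ θ ≤ h * p j := (h3 θ ⟨t3, t4⟩).trans (h2 ▸ hle j)
    have t1' : φ b + ε * m a ≤ θ := by
      have : φ' b = φ b + ε * m a := by simp only [hφ', hsb]
      linarith
    have t2' : θ ≤ φ a + 2 * Real.pi - ε * m b := by
      have : φ' (a + n) = φ a + 2 * Real.pi - ε * m b := by
        simp only [hφ']; rw [hφ a, hsp a, hsa]; ring
      linarith
    have split : ∀ ψ : ℕ → ℝ, QP n ψ → FF n m ψ θ = (fac (ψ a) (m a) θ * fac (ψ b) (m b) θ) *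
        ∏ i ∈ ((Finset.range n).erase 0).erase (b - a), fac (ψ (a + i)) (m (a + i)) θ := by
      intro ψ hψ
      rw [FF_window hmp hψ θ a, ← Finset.mul_prod_erase (Finset.range n) _
        (Finset.mem_range.2 (by omega : 0 < n)),
        ← Finset.mul_prod_erase ((Finset.range n).erase 0) _
        (Finset.mem_erase.2 ⟨by omega, Finset.mem_range.2 (by omega)⟩ : b - a ∈ _)]
      rw [add_zero, show a + (b - a) = b by omega, mul_assoc]
    have hR : ∏ i ∈ ((Finset.range n).erase 0).erase (b - a), fac (φ' (a + i)) (m (a + i)) θ =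
        ∏ i ∈ ((Finset.range n).erase 0).erase (b - a), fac (φ (a + i)) (m (a + i)) θ := by
      apply Finset.prod_congr rfl
      intro i hi
      rw [Finset.mem_erase, Finset.mem_erase, Finset.mem_range] at hi
      have hz : s (a + i) = 0 := by
        have c1 : (a + i) % n ≠ a % n := Ne.symm (hmod a (a + i) (by omega) (by omega))
        have c2 : (a + i) % n ≠ b % n := by
          rcases Nat.lt_or_ge (a + i) b with h4 | h4
          · exact hmod (a + i) b h4 (by omega)
          · exact Ne.symm (hmod b (a + i) (by omega) (by omega))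
        simp only [hs, if_neg c1, if_neg c2]
      simp only [hφ', hz, mul_zero, add_zero]
    have hlt : fac (φ' a) (m a) θ * fac (φ' b) (m b) θ < fac (φ a) (m a) θ * fac (φ b) (m b) θ := by
      unfold fac
      have hma := hm a
      have hmb := hm b
      have p1 : 0 < ε * m a := mul_pos hε hma
      have p2 : 0 < ε * m b := mul_pos hε hmb
      have q1 : φ' a = φ a - ε * m b := by simp only [hφ', hsa]; ring
      have q2 : φ' b = φ b + ε * m a := by simp only [hφ', hsb]
      have q3 : φ a ≤ φ b := hφm (by omega)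
      rw [q1, q2]
      apply two_sin (by linarith) (by linarith)
      · linarith
      · linarith
      · linarith
      · linarith
      · linarith
      · ring
    rw [split φ' hQP, hR]
    rw [split φ hφ] at t5
    have hRn : 0 ≤ ∏ i ∈ ((Finset.range n).erase 0).erase (b - a), fac (φ (a + i)) (m (a + i)) θ :=
      Finset.prod_nonneg fun _ _ => fac_nonneg _ _ _
    rcases hRn.eq_or_lt with h4 | h4
    · rw [← h4, mul_zero]; exact mul_pos h0 (hp j)
    · exact lt_of_lt_of_le (mul_lt_mul_of_pos_right hlt h4) t5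
  refine ⟨φ', hmono, hQP, ?_⟩
  have hge : ∀ j, a ≤ j → MM n m φ' j < h * p j := by
    intro j
    induction j using Nat.strong_induction_on with
    | _ j ih =>
      intro hj
      rcases Nat.lt_or_ge j (a + n) with h4 | h4
      · rcases Nat.lt_or_ge j b with h5 | h5
        · exact hε1 j (Finset.mem_Ico.2 ⟨hj, h5⟩)
        · exact hout j h5 h4
      · have h5 := ih (j - n) (by omega) (by omega)
        have h6 : j - n + n = j := by omega
        have h7 := MM_period (n := n) (m := m) hQP (j - n)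
        have h8 := hpp (j - n)
        rw [h6] at h7 h8
        rw [h7, h8]; exact h5
  intro j
  have h5 := hge (j + a * n) (by nlinarith)
  rw [hPp, per_mul (fun k => MM_period hQP k)] at h5
  exact h5

theorem FF_pos {n : ℕ} {m φ : ℕ → ℝ} (hmp : ∀ k, m (k + n) = m k) (hφm : Monotone φ)
    (hφ : QP n φ) {j : ℕ} {θ : ℝ} (h1 : φ j < θ) (h2 : θ < φ (j + 1)) : 0 < FF n m φ θ := by
  rw [FF_window hmp hφ θ (j + 1)]
  apply Finset.prod_pos
  intro i hi
  rw [Finset.mem_range] at hi
  unfold fac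
  apply Real.rpow_pos_of_pos
  rw [abs_pos]
  have h3 : φ (j + 1) ≤ φ (j + 1 + i) := hφm (by omega)
  have h4 : φ (j + 1 + i) ≤ φ j + 2 * Real.pi := by
    rw [← hφ j]; exact hφm (by omega)
  have h5 : Real.sin ((θ - φ (j + 1 + i)) / 2) < 0 :=
    Real.sin_neg_of_neg_of_neg_pi_lt (by linarith) (by linarith)
  intro h6
  linarith

theorem exists_min {n : ℕ} (hn : 2 ≤ n) {m p : ℕ → ℝ} (hm : ∀ k, 0 < m k)
    (hmp : ∀ k, m (k + n) = m k) (hp : ∀ k, 0 < p k) (hpp : ∀ k, p (k + n) = p k) :
    ∃ (φ : ℕ → ℝ) (h : ℝ), 0 < h ∧ Monotone φ ∧ QP n φ ∧ ∀ j, MM n m φ j = h * p j := by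
  have hne : (Finset.range n).Nonempty := ⟨0, Finset.mem_range.2 (by omega)⟩
  set H : (ℕ → ℝ) → ℝ := fun φ => (Finset.range n).sup' hne (fun j => MM n m φ j / p j) with hH
  have hHc : Continuous H := by
    apply Continuous.finset_sup'_apply
    intro j _
    exact (continuous_MM n hm j).div_const _
  set K : Set (ℕ → ℝ) := {φ | φ 0 = 0 ∧ Monotone φ ∧ QP n φ} with hK
  have hKc : IsCompact K := by
    have h1 : IsCompact (Set.pi Set.univ (fun k : ℕ => Set.Icc (0 : ℝ) (k * (2 * Real.pi)))) :=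
      isCompact_univ_pi fun k => isCompact_Icc
    apply h1.of_isClosed_subset
    · have e : K = {φ : ℕ → ℝ | φ 0 = 0} ∩ ((⋂ k : ℕ, {φ : ℕ → ℝ | φ k ≤ φ (k + 1)}) ∩
          ⋂ k : ℕ, {φ : ℕ → ℝ | φ (k + n) = φ k + 2 * Real.pi}) := by
        ext φ
        simp only [hK, Set.mem_ofPred_eq, Set.mem_inter_iff, Set.mem_iInter, QP]
        constructor
        · rintro ⟨h1, h2, h3⟩
          exact ⟨h1, fun k => h2 (Nat.le_succ k), h3⟩
        · rintro ⟨h1, h2, h3⟩
          exact ⟨h1, monotone_nat_of_le_succ h2, h3⟩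
      rw [e]
      apply IsClosed.inter
      · exact isClosed_eq (by fun_prop) (by fun_prop)
      · apply IsClosed.inter
        · exact isClosed_iInter fun k => isClosed_le (by fun_prop) (by fun_prop)
        · exact isClosed_iInter fun k => isClosed_eq (by fun_prop) (by fun_prop)
    · rintro φ ⟨h1, h2, h3⟩ k _
      constructor
      · rw [← h1]; exact h2 (Nat.zero_le k)
      · have h4 := QP_mul h3 0 k
        rw [h1, zero_add, zero_add] at h4
        rw [← h4]
        exact h2 (Nat.le_mul_of_pos_right k (by omega))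
  have hKne : K.Nonempty := by
    have hn0 : (0 : ℝ) < n := by exact_mod_cast (by omega : 0 < n)
    refine ⟨fun k => 2 * Real.pi * k / n, by simp, ?_, ?_⟩
    · intro k l hkl
      have : (k : ℝ) ≤ l := by exact_mod_cast hkl
      have := Real.pi_pos
      simp only
      gcongr
    · intro k
      simp only
      push_cast
      field_simp
  obtain ⟨φ, ⟨hφ0, hφm, hφ⟩, hmin⟩ := hKc.exists_isMinOn hKne hHc.continuousOn
  have hle : ∀ j, MM n m φ j ≤ H φ * p j := by
    have h1 : ∀ j < n, MM n m φ j ≤ H φ * p j := by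
      intro j hj
      rw [← div_le_iff₀ (hp j)]
      exact Finset.le_sup' (fun j => MM n m φ j / p j) (Finset.mem_range.2 hj)
    intro j
    have h2 : j % n + (j / n) * n = j := by
      have := Nat.mod_add_div j n
      rw [mul_comm]; exact this
    have h3 := per_mul (fun k => MM_period (n := n) (m := m) hφ k) (j % n) (j / n)
    have h4 := per_mul hpp (j % n) (j / n)
    rw [h2] at h3 h4
    rw [h3, h4]
    exact h1 _ (Nat.mod_lt _ (by omega))
  have hpos : 0 < H φ := by
    have h1 : ∃ j, φ j < φ (j + 1) := by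
      by_contra hcon
      have hcon' : ∀ j, φ (j + 1) ≤ φ j := fun j => not_lt.1 fun h => hcon ⟨j, h⟩
      have h2 : Antitone φ := antitone_nat_of_succ_le hcon'
      have h3 := h2 (Nat.zero_le n)
      have h4 := hφ 0
      rw [zero_add] at h4
      have := Real.pi_pos
      linarith
    obtain ⟨j, hj⟩ := h1
    have h2 : 0 < FF n m φ ((φ j + φ (j + 1)) / 2) :=
      FF_pos (j := j) hmp hφm hφ (by linarith) (by linarith)
    obtain ⟨θ, _, h3, h4⟩ := MM_attained (n := n) hm φ hj.le
    have h5 := h4 ((φ j + φ (j + 1)) / 2) ⟨by linarith, by linarith⟩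
    have h6 : 0 < H φ * p j := by
      have := hle j
      linarith
    exact pos_of_mul_pos_left h6 (hp j).le
  refine ⟨φ, H φ, hpos, hφm, hφ, ?_⟩
  by_contra hcon
  push Not at hcon
  obtain ⟨j1, hj1⟩ := hcon
  obtain ⟨j0, hj0, hj0'⟩ := Finset.exists_mem_eq_sup' hne (fun j => MM n m φ j / p j)
  have hj0'' : MM n m φ j0 = H φ * p j0 := by
    have : H φ = MM n m φ j0 / p j0 := hj0'
    rw [this]
    have := (hp j0).ne'
    field_simp
  obtain ⟨φ', h1, h2, h3⟩ := move hn hm hmp hp hpp hφm hφ hpos hle j0 hj0'' j1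
    (lt_of_le_of_ne (hle j1) hj1)
  have hmem : (fun k => φ' k + (-φ' 0)) ∈ K := by
    refine ⟨by simp, ?_, ?_⟩
    · intro k l hkl
      have := h1 hkl
      simp only
      linarith
    · intro k
      have := h2 k
      simp only
      linarith
  have h4 : H φ ≤ H (fun k => φ' k + (-φ' 0)) := hmin hmem
  have h5 : H (fun k => φ' k + (-φ' 0)) < H φ := by
    simp only [hH]
    rw [Finset.sup'_lt_iff]
    intro j _
    rw [MM_add, div_lt_iff₀ (hp j)]
    exact h3 j
  linarith

end Nd

/-! ### TARGETS (prove these; put auxiliary lemmas just before them) -/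

/-- existence of nodes with prescribed maxima between consecutive nodes (`φ k = φ_k`, cyclic, `φ n = φ 0 + 2π`) -/
theorem nodes {n : ℕ} (hn : 2 ≤ n) (m : Fin n → ℝ) (hm : ∀ k, 0 < m k) (hs : ∑ k, m k = 1)
    (p : Fin n → ℝ) (hp : ∀ j, 0 < p j) :
    ∃ (φ : ℕ → ℝ) (C : ℝ), 0 < C ∧ (∀ k < n, φ k < φ (k + 1)) ∧ φ n = φ 0 + 2 * Real.pi ∧
      ∀ j : Fin n, IsGreatest ((fun θ : ℝ => C * ∏ k : Fin n, |2 * Real.sin ((θ - φ k) / 2)| ^ (2 * m k)) ''
        Set.Icc (φ j) (φ (j + 1))) (p j) := by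
  have hn0 : 0 < n := by omega
  set mN : ℕ → ℝ := fun k => m ⟨k % n, Nat.mod_lt _ hn0⟩ with hmN
  set pN : ℕ → ℝ := fun k => p ⟨k % n, Nat.mod_lt _ hn0⟩ with hpN
  have hmp : ∀ k, mN (k + n) = mN k := by intro k; simp [hmN]
  have hpp : ∀ k, pN (k + n) = pN k := by intro k; simp [hpN]
  obtain ⟨φ, h, h0, hφm, hφ, hM⟩ := Nd.exists_min hn (m := mN) (p := pN) (fun k => hm _) hmp
    (fun k => hp _) hpp
  have hF : ∀ θ : ℝ, ∏ k : Fin n, |2 * Real.sin ((θ - φ k) / 2)| ^ (2 * m k) = Nd.FF n mN φ θ := by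
    intro θ
    unfold Nd.FF
    rw [Finset.prod_range]
    apply Finset.prod_congr rfl
    intro k _
    have : mN (k : ℕ) = m k := by
      simp only [hmN]
      congr 1
      ext
      exact Nat.mod_eq_of_lt k.2
    rw [this]; rfl
  refine ⟨φ, 1 / h, by positivity, ?_, ?_, ?_⟩
  · intro k _
    exact Nd.gap_pos hn0 (fun k => hm _) hmp hφm hφ (by rw [hM]; exact mul_pos h0 (hp _))
  · have := hφ 0
    rwa [zero_add] at this
  · intro j
    obtain ⟨θ, hθ, h1, h2⟩ := Nd.MM_attained (n := n) (m := mN) (fun k => hm _) φ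
      (hφm (Nat.le_succ (j : ℕ)))
    have hpj : pN (j : ℕ) = p j := by
      simp only [hpN]
      congr 1
      ext
      exact Nat.mod_eq_of_lt j.2
    have h3 : Nd.FF n mN φ θ = h * p j := by rw [← h1, hM, hpj]
    constructor
    · refine ⟨θ, hθ, ?_⟩
      simp only
      rw [hF, h3]
      field_simp
    · rintro _ ⟨θ', hθ', rfl⟩
      simp only
      rw [hF]
      have h4 := h2 θ' hθ'
      rw [h3] at h4
      rw [one_div, inv_mul_le_iff₀ h0]
      exact h4


end Pool.LR
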