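import Mathlib
import Pool.Agent.Helper50.LR.Defs
import Pool.Agent.Helper50.LR.Ba
import Pool.Agent.Helper50.LR.R1

set_option autoImplicit false

open Complex Finset Filter Topology

namespace Pool.LR


/-! ### TARGETS (prove these; put auxiliary lemmas just before them) -/

theorem es_cpow_aux {r β s : ℝ} (hr : 0 < r) (h1 : -Real.pi < β) (h2 : β ≤ Real.pi) :
    ((r : ℂ) * Complex.exp (β * I)) ^ (s : ℂ) = ((r ^ s : ℝ) : ℂ) * Complex.exp ((s * β : ℝ) * I) := by
  have hne : (r : ℂ) * Complex.exp (β * I) ≠ 0 :=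
    mul_ne_zero (by exact_mod_cast hr.ne') (Complex.exp_ne_zero _)
  rw [Complex.cpow_def_of_ne_zero hne, Complex.log_ofReal_mul hr (Complex.exp_ne_zero _),
    Complex.log_exp (by simpa using h1) (by simpa using h2), add_mul, Complex.exp_add,
    Real.rpow_def_of_pos hr]
  congr 1
  · rw [Complex.ofReal_exp]
    push_cast
    ring_nf
  · congr 1
    push_cast
    ring

theorem es_one_sub_aux (u : ℝ) :
    1 - Complex.exp (u * I) = ((2 * Real.sin (u / 2) : ℝ) : ℂ) *
      Complex.exp (((u - Real.pi) / 2 : ℝ) * I) := by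
  have h1 : ((((u - Real.pi) / 2 : ℝ) : ℂ) * I) = ((u / 2 : ℝ) : ℂ) * I - Real.pi / 2 * I := by
    push_cast
    ring
  have h2 : Complex.exp (u * I) = Complex.exp (((u / 2 : ℝ) : ℂ) * I) ^ 2 := by
    rw [← Complex.exp_nat_mul]
    congr 1
    push_cast
    ring
  rw [h1, Complex.exp_sub, Complex.exp_pi_div_two_mul_I, h2, Complex.exp_mul_I,
    ← Complex.ofReal_cos, ← Complex.ofReal_sin]
  have h3 := Real.sin_sq_add_cos_sq (u / 2)
  obtain ⟨s, hs⟩ : ∃ s, s = Real.sin (u / 2) := ⟨_, rfl⟩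
  obtain ⟨c, hc⟩ : ∃ c, c = Real.cos (u / 2) := ⟨_, rfl⟩
  rw [← hs, ← hc] at h3 ⊢
  have h4 : (s : ℂ) ^ 2 + (c : ℂ) ^ 2 = 1 := by exact_mod_cast h3
  rw [div_eq_mul_inv, Complex.inv_I]
  push_cast
  have h5 : (I : ℂ) ^ 2 = -1 := Complex.I_sq
  linear_combination -h4 + (s ^ 2 + 2 * s ^ 2 - 2 * s^2 ) * h5

theorem es_sum_aux (b : ℕ → ℝ) (j M : ℕ) :
    ∑ k ∈ Finset.range (M + 1), (if j < k then (b (k - 1) - b k) else 0) =
      if j ≤ M then b j - b M else 0 := by
  induction M with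
  | zero =>
    simp only [zero_add, Finset.range_one, Finset.sum_singleton, Nat.not_lt_zero, if_false,
      Nat.le_zero]
    split_ifs with h
    · rw [h]; ring
    · rfl
  | succ M ih =>
    rw [Finset.sum_range_succ, ih]
    simp only [Nat.add_sub_cancel]
    by_cases h : j ≤ M
    · rw [if_pos h, if_pos (by omega), if_pos (by omega)]
      ring
    · rw [if_neg h]
      by_cases h' : j = M + 1
      · subst h'
        simp
      · rw [if_neg (by omega), if_neg (by omega)]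
        ring

theorem es_mono_aux {n : ℕ} {φ : ℕ → ℝ} (h : ∀ k < n, φ k < φ (k + 1)) (i k : ℕ) (hik : i ≤ k)
    (hk : k ≤ n) : φ i ≤ φ k := by
  induction k with
  | zero =>
    have : i = 0 := by omega
    rw [this]
  | succ k ih =>
    rcases Nat.lt_or_ge k i with h1 | h1
    · have : i = k + 1 := by omega
      rw [this]
    · exact (ih h1 (by omega)).trans (h k (by omega)).le

theorem es_find_aux {φ : ℕ → ℝ} {θ : ℝ} (h0 : φ 0 ≤ θ) (N : ℕ) (hN : θ < φ N) :
    ∃ j < N, φ j ≤ θ ∧ θ < φ (j + 1) := by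
  induction N with
  | zero => linarith
  | succ N ih =>
    by_cases h : θ < φ N
    · obtain ⟨j, hj, h1⟩ := ih h
      exact ⟨j, by omega, h1⟩
    · exact ⟨N, by omega, not_lt.1 h, hN⟩

theorem es_factor_aux {θ φ m u : ℝ} (hu0 : 0 < u) (hu1 : u < 2 * Real.pi)
    (hu : u = θ - φ ∨ u = θ - φ + 2 * Real.pi) :
    (1 - Complex.exp (θ * I) * Complex.exp (-(φ * I))) ^ ((2 * m : ℝ) : ℂ) =
      ((|2 * Real.sin ((θ - φ) / 2)| ^ (2 * m) : ℝ) : ℂ) *
        Complex.exp ((m * (u - Real.pi) : ℝ) * I) := by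
  have h1 : Complex.exp (θ * I) * Complex.exp (-(φ * I)) = Complex.exp (u * I) := by
    rw [← Complex.exp_add]
    rcases hu with hu | hu
    · rw [hu]
      congr 1
      push_cast
      ring
    · rw [hu, Complex.exp_eq_exp_iff_exists_int]
      refine ⟨-1, ?_⟩
      push_cast
      ring
  have hs : 0 < Real.sin (u / 2) := Real.sin_pos_of_pos_of_lt_pi (by linarith) (by linarith)
  have h2 : |2 * Real.sin ((θ - φ) / 2)| = 2 * Real.sin (u / 2) := by
    rcases hu with hu | hu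
    · rw [← hu, abs_of_pos (by linarith)]
    · have h3 : Real.sin (u / 2) = -Real.sin ((θ - φ) / 2) := by
        rw [hu, show (θ - φ + 2 * Real.pi) / 2 = (θ - φ) / 2 + Real.pi by ring, Real.sin_add_pi]
      rw [h3] at hs ⊢
      rw [abs_of_neg (by linarith)]
      ring
  rw [h1, es_one_sub_aux, h2, es_cpow_aux (by linarith) (by linarith) (by linarith)]
  congr 2
  push_cast
  ring

theorem es_Z_aux {N : ℕ} (m : Fin (N + 1) → ℝ) (hm : ∀ k, 0 < m k) (hs : ∑ k, m k = 1)
    (φ : ℕ → ℝ) (C : ℝ) (hφ : ∀ k < N + 1, φ k < φ (k + 1))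
    (hφn : φ (N + 1) = φ 0 + 2 * Real.pi) (b : ℕ → ℝ)
    (hb : ∀ j : Fin (N + 1), 2 * Real.pi * ∑ k : Fin (N + 1), (if j < k then m k else 0) =
      b j - b N) (j : Fin (N + 1)) (θ : ℝ) (h1 : φ j ≤ θ) (h2 : θ ≤ φ (j + 1)) :
    (((C : ℂ) * Complex.exp ((b N + ∑ k : Fin (N + 1), m k * (φ k + Real.pi) : ℝ) * I)) *
      ∏ k : Fin (N + 1), (1 - Complex.exp (θ * I) * Complex.exp (-(φ k * I))) ^
        ((2 * m k : ℝ) : ℂ)) / Complex.exp (θ * I) =
      ((C * ∏ k : Fin (N + 1), |2 * Real.sin ((θ - φ k) / 2)| ^ (2 * m k) : ℝ) : ℂ) *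
        Complex.exp (b j * I) := by
  have hj := j.2
  have hzero : ∀ k : Fin (N + 1), (θ = φ k ∨ θ = φ k + 2 * Real.pi) →
      (((C : ℂ) * Complex.exp ((b N + ∑ k : Fin (N + 1), m k * (φ k + Real.pi) : ℝ) * I)) *
      ∏ k : Fin (N + 1), (1 - Complex.exp (θ * I) * Complex.exp (-(φ k * I))) ^
        ((2 * m k : ℝ) : ℂ)) / Complex.exp (θ * I) =
      ((C * ∏ k : Fin (N + 1), |2 * Real.sin ((θ - φ k) / 2)| ^ (2 * m k) : ℝ) : ℂ) *
        Complex.exp (b j * I) := by
    intro k hk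
    have e1 : ∏ k : Fin (N + 1), (1 - Complex.exp (θ * I) * Complex.exp (-(φ k * I))) ^
        ((2 * m k : ℝ) : ℂ) = 0 := by
      apply Finset.prod_eq_zero (Finset.mem_univ k)
      have : Complex.exp (θ * I) * Complex.exp (-(φ k * I)) = 1 := by
        rw [← Complex.exp_add, Complex.exp_eq_one_iff]
        rcases hk with hk | hk
        · exact ⟨0, by rw [hk]; push_cast; ring⟩
        · exact ⟨1, by rw [hk]; push_cast; ring⟩
      rw [this, sub_self]
      apply Complex.zero_cpow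
      have := hm k
      exact_mod_cast (by linarith : (2 * m k) ≠ 0)
    have e2 : ∏ k : Fin (N + 1), |2 * Real.sin ((θ - φ k) / 2)| ^ (2 * m k) = 0 := by
      apply Finset.prod_eq_zero (Finset.mem_univ k)
      have : Real.sin ((θ - φ k) / 2) = 0 := by
        rcases hk with hk | hk
        · rw [hk]; simp
        · rw [hk, show (φ k + 2 * Real.pi - φ k) / 2 = Real.pi by ring, Real.sin_pi]
      rw [this, mul_zero, abs_zero]
      apply Real.zero_rpow
      have := hm k
      linarith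
    rw [e1, e2]
    simp
  rcases h1.eq_or_lt with h1 | h1
  · exact hzero j (Or.inl h1.symm)
  rcases h2.eq_or_lt with h2 | h2
  · rcases Nat.lt_or_ge (j + 1) (N + 1) with h3 | h3
    · exact hzero ⟨j + 1, h3⟩ (Or.inl h2)
    · have h4 : (j : ℕ) + 1 = N + 1 := by omega
      rw [h4, hφn] at h2
      exact hzero ⟨0, by omega⟩ (Or.inr h2)
  obtain ⟨u, hu⟩ : ∃ u : Fin (N + 1) → ℝ, u = fun k : Fin (N + 1) => θ - φ k + (if j < k then 2 * Real.pi else 0) :=
    ⟨_, rfl⟩
  have hu' : ∀ k, u k = θ - φ k + (if j < k then 2 * Real.pi else 0) := fun k => by rw [hu]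
  have hfac : ∀ k : Fin (N + 1), (1 - Complex.exp (θ * I) * Complex.exp (-(φ k * I))) ^
        ((2 * m k : ℝ) : ℂ) = ((|2 * Real.sin ((θ - φ k) / 2)| ^ (2 * m k) : ℝ) : ℂ) *
        Complex.exp ((m k * (u k - Real.pi) : ℝ) * I) := by
    intro k
    have hk := k.2
    have g1 := es_mono_aux hφ 0 k (by omega) (by omega)
    have g2 := es_mono_aux hφ 0 j (by omega) (by omega)
    have g3 := es_mono_aux hφ (j + 1) (N + 1) (by omega) le_rfl
    have g4 := es_mono_aux hφ k N (by omega) (by omega)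
    have g5 := hφ N (by omega)
    have hpi := Real.pi_pos
    by_cases hjk : j < k
    · have e : u k = θ - φ k + 2 * Real.pi := by rw [hu', if_pos hjk]
      have hjk' : (j : ℕ) + 1 ≤ k := hjk
      have g6 := es_mono_aux hφ (j + 1) k hjk' (by omega)
      exact es_factor_aux (by rw [e]; linarith) (by rw [e]; linarith) (Or.inr e)
    · have e : u k = θ - φ k := by rw [hu', if_neg hjk, add_zero]
      have hjk' : (k : ℕ) ≤ j := not_lt.1 hjk
      have g6 := es_mono_aux hφ k j hjk' (by omega)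
      exact es_factor_aux (by rw [e]; linarith) (by rw [e]; linarith) (Or.inl e)
  rw [Finset.prod_congr rfl (fun k _ => hfac k), Finset.prod_mul_distrib, ← Complex.exp_sum,
    div_eq_mul_inv, ← Complex.exp_neg]
  have hsum : ∑ k, m k * (u k - Real.pi) = θ - ∑ k : Fin (N + 1), m k * (φ k + Real.pi) +
      (b j - b N) := by
    rw [← hb j, Finset.mul_sum]
    have : θ = ∑ k, m k * θ := by rw [← Finset.sum_mul, hs, one_mul]
    conv_rhs => rw [this]
    rw [← Finset.sum_sub_distrib, ← Finset.sum_add_distrib]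
    apply Finset.sum_congr rfl
    intro k _
    rw [hu']
    split_ifs
    · ring
    · ring
  have hsum' : ∑ k : Fin (N + 1), ((m k * (u k - Real.pi) : ℝ) : ℂ) * I =
      ((∑ k, m k * (u k - Real.pi) : ℝ) : ℂ) * I := by
    push_cast
    rw [Finset.sum_mul]
  rw [hsum', hsum]
  have hexp : Complex.exp ((b N + ∑ k : Fin (N + 1), m k * (φ k + Real.pi) : ℝ) * I) *
      Complex.exp (((θ - ∑ k : Fin (N + 1), m k * (φ k + Real.pi) + (b j - b N) : ℝ) : ℂ) * I) *
      Complex.exp (-(θ * I)) = Complex.exp (b j * I) := by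
    rw [← Complex.exp_add, ← Complex.exp_add]
    congr 1
    push_cast
    ring
  rw [← hexp]
  push_cast
  ring

theorem exists_star {n : ℕ} (hn : 2 ≤ n) (d : Fin n → ℂ) (hd : ∀ j, ‖d j‖ = 1)
    (hinj : Function.Injective d) (p : Fin n → ℝ) (hp : ∀ j, 0 < p j) :
    ∃ D : Star, D.S = starSet d p := by
  obtain ⟨N, rfl⟩ : ∃ N, n = N + 1 := ⟨n - 1, by omega⟩
  have hpi := Real.pi_pos
  have hdexp : ∀ j, d j = Complex.exp (Complex.arg (d j) * I) := by
    intro j
    have := Complex.norm_mul_exp_arg_mul_I (d j)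
    rw [hd j] at this
    simpa using this.symm
  have hainj : Function.Injective (fun j => Complex.arg (d j)) := by
    intro i j hij
    apply hinj
    rw [hdexp i, hdexp j]
    simp only at hij
    rw [hij]
  obtain ⟨σ, hσ⟩ : ∃ σ : Equiv.Perm (Fin (N + 1)), ∀ i j, i < j →
      Complex.arg (d (σ j)) < Complex.arg (d (σ i)) := by
    refine ⟨Tuple.sort (fun j => -Complex.arg (d j)), fun i j hij => ?_⟩
    have h1 := Tuple.monotone_sort (fun j => -Complex.arg (d j)) hij.le
    simp only [Function.comp] at h1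
    have h2 : Complex.arg (d ((Tuple.sort fun j => -Complex.arg (d j)) j)) ≤
        Complex.arg (d ((Tuple.sort fun j => -Complex.arg (d j)) i)) := by linarith
    refine lt_of_le_of_ne h2 fun h3 => ?_
    have h4 := hainj h3
    have h5 := (Tuple.sort fun j => -Complex.arg (d j)).injective h4
    exact absurd h5 hij.ne'
  obtain ⟨b, hb⟩ : ∃ b : ℕ → ℝ, ∀ j : Fin (N + 1), b j = Complex.arg (d (σ j)) :=
    ⟨fun j => if h : j < N + 1 then Complex.arg (d (σ ⟨j, h⟩)) else 0, fun j => by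
      simp only [j.2, dif_pos]⟩
  have hbN : b N = Complex.arg (d (σ ⟨N, by omega⟩)) := hb ⟨N, by omega⟩
  have hb0 : b 0 = Complex.arg (d (σ ⟨0, by omega⟩)) := hb ⟨0, by omega⟩
  obtain ⟨m, hmdef⟩ : ∃ m : Fin (N + 1) → ℝ, m = fun k : Fin (N + 1) => if (k : ℕ) = 0 then
      (b N + 2 * Real.pi - b 0) / (2 * Real.pi) else (b (k - 1) - b k) / (2 * Real.pi) := ⟨_, rfl⟩
  have hm : ∀ k, 0 < m k := by
    intro k
    rw [hmdef]
    simp only
    split_ifs with h
    · apply div_pos _ (by linarith)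
      rw [hbN, hb0]
      have := Complex.neg_pi_lt_arg (d (σ ⟨N, by omega⟩))
      have := Complex.arg_le_pi (d (σ ⟨0, by omega⟩))
      linarith
    · apply div_pos _ (by linarith)
      have hk := k.2
      have e1 : b (k - 1) = Complex.arg (d (σ ⟨k - 1, by omega⟩)) := hb ⟨k - 1, by omega⟩
      rw [e1, hb k]
      have := hσ ⟨k - 1, by omega⟩ k (by
        rw [Fin.lt_def]
        simp only
        omega)
      linarith
  have hpart : ∀ j : Fin (N + 1), 2 * Real.pi * ∑ k : Fin (N + 1), (if j < k then m k else 0) =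
      b j - b N := by
    intro j
    have e1 : ∑ k : Fin (N + 1), (if j < k then m k else 0) =
        ∑ k ∈ Finset.range (N + 1), (if (j : ℕ) < k then (b (k - 1) - b k) / (2 * Real.pi) else 0) := by
      rw [Finset.sum_range]
      apply Finset.sum_congr rfl
      intro k _
      by_cases h : j < k
      · have h' : (j : ℕ) < k := h
        rw [if_pos h, if_pos h', hmdef]
        simp only
        rw [if_neg (by omega)]
      · have h' : ¬ (j : ℕ) < k := h
        rw [if_neg h, if_neg h']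
    rw [e1, Finset.mul_sum]
    have e2 := es_sum_aux b j N
    have hj := j.2
    rw [if_pos (by omega)] at e2
    rw [← e2]
    apply Finset.sum_congr rfl
    intro k _
    split_ifs
    · field_simp
    · ring
  have hs : ∑ k, m k = 1 := by
    have e1 := hpart ⟨0, by omega⟩
    rw [Fin.sum_univ_succ] at e1 ⊢
    have e2 : ∀ k : Fin N, (if (⟨0, by omega⟩ : Fin (N + 1)) < k.succ then m k.succ else 0) =
        m k.succ := by
      intro k
      rw [if_pos]
      rw [Fin.lt_def]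
      simp
    rw [Finset.sum_congr rfl (fun k _ => e2 k), if_neg (by rw [Fin.lt_def]; simp), zero_add] at e1
    have e3 : m 0 = (b N + 2 * Real.pi - b 0) / (2 * Real.pi) := by
      rw [hmdef]
      simp
    rw [e3]
    simp only at e1
    have e4 : ∑ k : Fin N, m k.succ = (b 0 - b N) / (2 * Real.pi) := by
      rw [eq_div_iff (by linarith)]
      rw [← e1]
      ring
    rw [e4]
    field_simp
    ring
  obtain ⟨φ, C, hC, hφ, hφn, hg⟩ := nodes hn m hm hs (fun j => p (σ j)) (fun j => hp _)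
  have hZ := es_Z_aux m hm hs φ C hφ hφn b hpart
  let D : Star := ⟨N + 1, m, fun k => Complex.exp (-(φ k * I)),
    (C : ℂ) * Complex.exp ((b N + ∑ k : Fin (N + 1), m k * (φ k + Real.pi) : ℝ) * I), hm, hs,
    fun k => by
      rw [show (-((φ k : ℂ) * I)) = ((-φ k : ℝ) : ℂ) * I by push_cast; ring,
        Complex.norm_exp_ofReal_mul_I],
    mul_ne_zero (by exact_mod_cast hC.ne') (Complex.exp_ne_zero _)⟩
  have hDZ : ∀ (j : Fin (N + 1)) (θ : ℝ), φ j ≤ θ → θ ≤ φ (j + 1) → D.Z (Complex.exp (θ * I)) =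
      ((C * ∏ k : Fin (N + 1), |2 * Real.sin ((θ - φ k) / 2)| ^ (2 * m k) : ℝ) : ℂ) * d (σ j) := by
    intro j θ h1 h2
    have h3 := hZ j θ h1 h2
    rw [hb j, ← hdexp] at h3
    rw [← h3]
    simp only [Star.Z, Star.E, D]
  have hF0 : ∀ θ : ℝ, 0 ≤ C * ∏ k : Fin (N + 1), |2 * Real.sin ((θ - φ k) / 2)| ^ (2 * m k) :=
    fun θ => mul_nonneg hC.le (Finset.prod_nonneg fun k _ => Real.rpow_nonneg (abs_nonneg _) _)
  have hFc : Continuous (fun θ : ℝ =>
      C * ∏ k : Fin (N + 1), |2 * Real.sin ((θ - φ k) / 2)| ^ (2 * m k)) := by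
    apply Continuous.mul continuous_const
    apply continuous_finsetProd
    intro k _
    apply Continuous.rpow_const
    · fun_prop
    · intro θ
      right
      have := hm k
      linarith
  refine ⟨D, ?_⟩
  ext z
  constructor
  · rintro ⟨w, hw, rfl⟩
    rw [mem_sphere_zero_iff_norm] at hw
    have h2pi : 0 < 2 * Real.pi := by linarith
    obtain ⟨θ, hθ0, hθ1, hθ⟩ : ∃ θ : ℝ, φ 0 ≤ θ ∧ θ < φ (N + 1) ∧ w = Complex.exp (θ * I) := by
      refine ⟨toIcoMod h2pi (φ 0) (Complex.arg w), ?_, ?_, ?_⟩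
      · exact (toIcoMod_mem_Ico h2pi (φ 0) (Complex.arg w)).1
      · rw [hφn]
        exact (toIcoMod_mem_Ico h2pi (φ 0) (Complex.arg w)).2
      · have h1 := Complex.norm_mul_exp_arg_mul_I w
        rw [hw] at h1
        conv_lhs => rw [← h1]
        rw [Complex.ofReal_one, one_mul, Complex.exp_eq_exp_iff_exists_int]
        refine ⟨toIcoDiv h2pi (φ 0) (Complex.arg w), ?_⟩
        have h2 := toIcoMod_add_toIcoDiv_zsmul h2pi (φ 0) (Complex.arg w)
        conv_lhs => rw [← h2]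
        push_cast
        rw [zsmul_eq_mul]
        push_cast
        ring
    obtain ⟨j, hj, h1, h2⟩ := es_find_aux hθ0 (N + 1) hθ1
    have h3 := hDZ ⟨j, hj⟩ θ h1 h2.le
    refine ⟨σ ⟨j, hj⟩, C * ∏ k : Fin (N + 1), |2 * Real.sin ((θ - φ k) / 2)| ^ (2 * m k),
      hF0 θ, ?_, ?_⟩
    · exact (hg ⟨j, hj⟩).2 ⟨θ, ⟨h1, h2.le⟩, rfl⟩
    · rw [hθ]
      exact h3
  · rintro ⟨i, t, ht0, ht1, rfl⟩
    obtain ⟨j, rfl⟩ := σ.surjective i
    obtain ⟨θs, ⟨hs1, hs2⟩, hs3⟩ := (hg j).1
    simp only at hs3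
    have hz : C * ∏ k : Fin (N + 1), |2 * Real.sin ((φ j - φ k) / 2)| ^ (2 * m k) = 0 := by
      rw [Finset.prod_eq_zero (Finset.mem_univ j), mul_zero]
      rw [sub_self, zero_div, Real.sin_zero, mul_zero, abs_zero]
      apply Real.zero_rpow
      have := hm j
      linarith
    have hivt := intermediate_value_Icc hs1 (hFc.continuousOn (s := Set.Icc (φ j) θs))
    obtain ⟨θ, ⟨h1, h2⟩, h3⟩ := hivt (show t ∈ Set.Icc _ _ from ⟨by
      rw [hz]; exact ht0, by
      rw [hs3]; exact ht1⟩)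
    simp only at h3
    refine ⟨Complex.exp (θ * I), ?_, ?_⟩
    · rw [mem_sphere_zero_iff_norm, Complex.norm_exp_ofReal_mul_I]
    · rw [hDZ j θ h1 (h2.trans hs2), h3]


end Pool.LR
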