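import Mathlib
import Pool.Agent.Helper50.LR.Defs
import Pool.Agent.Helper50.LR.Ja
import Pool.Agent.Helper50.LR.Jb
import Pool.Agent.Helper50.LR.Jc
import Pool.Agent.Helper50.LR.Jd
import Pool.Agent.Helper50.LR.Je
import Pool.Agent.Helper50.LR.Ba
import Pool.Agent.Helper50.LR.Bb
import Pool.Agent.Helper50.LR.Bc
import Pool.Agent.Helper50.LR.R1
import Pool.Agent.Helper50.LR.R2
import Pool.Agent.Helper50.LR.E1
import Pool.Agent.Helper50.LR.E2
import Pool.Agent.Helper50.LR.Oa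
import Pool.Agent.Helper50.LR.Ob
import Pool.Agent.Helper50.LR.Key
import Pool.Agent.Helper50.LR.F1
import Pool.Agent.Helper50.LR.F2
import Pool.Agent.Helper50.LR.C
import Pool.Agent.Helper50.LR.L

set_option autoImplicit false
open Complex Finset Filter Topology

namespace Pool.LR

theorem exists_bounds {A : Set ℂ} (hA : IsCompact A) (h1 : ∀ w ∈ A, ‖w‖ < 1 ∧ w ≠ 0) :
    ∃ r0 : ℝ, 0 < r0 ∧ ∃ d0 : ℝ, 0 < d0 ∧ ∀ w ∈ A, r0 ≤ ‖w‖ ∧ ‖w‖ ≤ 1 - d0 := by
  rcases A.eq_empty_or_nonempty with he | hne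
  · exact ⟨1, one_pos, 1, one_pos, by simp [he]⟩
  · obtain ⟨a, ha, hamin⟩ := hA.exists_isMinOn hne (continuous_norm.continuousOn)
    obtain ⟨b, hb, hbmax⟩ := hA.exists_isMaxOn hne (continuous_norm.continuousOn)
    refine ⟨‖a‖, norm_pos_iff.mpr (h1 a ha).2, 1 - ‖b‖, by linarith [(h1 b hb).1], fun w hw => ⟨hamin hw, ?_⟩⟩
    have : ‖w‖ ≤ ‖b‖ := hbmax hw
    linarith

theorem norm_shift {t : ℝ} (ht : 0 ≤ t) {z : ℂ} (hz : z ≠ 0) : ‖shift t z‖ = ‖z‖ + t := by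
  have h0 : (‖z‖ : ℂ) ≠ 0 := by exact_mod_cast (norm_pos_iff.mpr hz).ne'
  have hpos := norm_pos_iff.mpr hz
  have : shift t z = (((‖z‖ + t) / ‖z‖ : ℝ) : ℂ) * z := by
    unfold shift; push_cast; field_simp
  rw [this, norm_mul, Complex.norm_real, Real.norm_of_nonneg (by positivity)]
  field_simp

theorem shift_eq {t : ℝ} {z : ℂ} (hz : z ≠ 0) :
    shift t z = (((‖z‖ + t) / ‖z‖ : ℝ) : ℂ) * z := by
  have h0 : (‖z‖ : ℂ) ≠ 0 := by exact_mod_cast (norm_pos_iff.mpr hz).ne'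
  unfold shift; push_cast; field_simp

theorem shift_notMem {D : Star} (hD : D.IsStar) {t : ℝ} (ht : 0 ≤ t) {z : ℂ} (hz0 : z ≠ 0) (hz : z ∉ D.S) :
    shift t z ∉ D.S := by
  intro h
  apply hz
  have hpos := norm_pos_iff.mpr hz0
  have := hD _ h (‖z‖ / (‖z‖ + t)) (by positivity) (by rw [div_le_one (by positivity)]; linarith)
  rw [shift_eq hz0, ← mul_assoc, ← Complex.ofReal_mul] at this
  have e : ‖z‖ / (‖z‖ + t) * ((‖z‖ + t) / ‖z‖) = 1 := by
    have : ‖z‖ + t ≠ 0 := by positivity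
    field_simp
  rw [e] at this
  simpa using this

theorem isCompact_shift_image {M : Set ℂ} (hM : IsCompact M) (h0 : (0 : ℂ) ∉ M) (T : ℝ) :
    IsCompact (shift T '' M) := by
  apply hM.image_of_continuousOn
  unfold shift
  apply ContinuousOn.add continuousOn_id
  apply ContinuousOn.mul continuousOn_const
  apply ContinuousOn.div continuousOn_id
  · exact (Complex.continuous_ofReal.comp continuous_norm).continuousOn
  · intro x hx h
    have : ‖x‖ = 0 := by exact_mod_cast h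
    exact h0 ((norm_eq_zero.mp this) ▸ hx)

theorem main_step (D : Star) (hD : D.IsStar) {M M' : Set ℂ} (T : ℝ) (hM' : M' = shift T '' M) (hM : IsCompact M)
    (hMS : Disjoint M D.S) (hcM' : IsCompact M') (hM'S : Disjoint M' D.S)
    (hT : 0 ≤ T) (δ : ℝ) (hδ : 0 < δ) (ε : ℝ) (hε : 0 < ε) :
    cap (D.S ∪ M) ≤ Real.exp (4 * ε) * cap (D.S ∪ Metric.cthickening δ M') := by
  have hAin := D.isCompact_pre hD hM hMS
  have hAout := D.isCompact_pre hD hcM' hM'S
  have h1in : ∀ w ∈ D.pre M, ‖w‖ < 1 ∧ w ≠ 0 := fun w hw => ⟨hw.1, hw.2.1⟩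
  have h1out : ∀ w ∈ D.pre M', ‖w‖ < 1 ∧ w ≠ 0 := fun w hw => ⟨hw.1, hw.2.1⟩
  obtain ⟨r0, hr0, d0, hd0, hb⟩ := exists_bounds hAout h1out
  obtain ⟨N1, hN1⟩ := static_lower r0 d0 hr0 hd0 ε hε
  obtain ⟨N2, hN2⟩ := flow D hD hM hMS T hT ε hε
  obtain ⟨N3, hN3⟩ := cap_upper D hD hM hMS ε hε
  obtain ⟨N4, hN4⟩ := cap_lower D hD hcM' hM'S δ hδ ε hε
  obtain ⟨N, hN, hNpos, n', w', hw', hmean⟩ := exists_isOpt_mean hAout h1out ε hε (max (max N1 N2) (max N3 N4))
  obtain ⟨n, w, hw⟩ := exists_isOpt hAin h1in N hNpos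
  have g1 : N ≥ N1 := le_trans (le_trans (le_max_left _ _) (le_max_left _ _)) hN
  have g2 : N ≥ N2 := le_trans (le_trans (le_max_right _ _) (le_max_left _ _)) hN
  have g3 : N ≥ N3 := le_trans (le_trans (le_max_left _ _) (le_max_right _ _)) hN
  have g4 : N ≥ N4 := le_trans (le_trans (le_max_right _ _) (le_max_right _ _)) hN
  have e1 := hN3 N g3 n w hw.1.2 (fun x hx => isOpt_add h1in hNpos hw hx)
  have e2 := isOpt_energy h1in hNpos hw
  have e3 := hN2 N g2 n w hw n' w' (hM' ▸ hw')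
  have e4 := hN4 N g4 n' w' hw'.1.2 (hN1 N g1 n' w' hw'.1.1 (fun i => hb _ (hw'.1.2 i))
    (fun i => isOpt_remove h1out hNpos hw' i))
  calc cap (D.S ∪ M) ≤ ‖D.c‖ * Real.exp ((1 / (N : ℝ)) * ∑ i, gx (w i) + ε) := e1
    _ ≤ ‖D.c‖ * Real.exp (((1 / (N : ℝ)) * ∑ i, gx (w' i) - ε) + 4 * ε) := by
        apply mul_le_mul_of_nonneg_left _ (norm_nonneg _)
        apply Real.exp_le_exp.mpr
        linarith
    _ = Real.exp (4 * ε) * (‖D.c‖ * Real.exp ((1 / (N : ℝ)) * ∑ i, gx (w' i) - ε)) := by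
        rw [Real.exp_add]; ring
    _ ≤ _ := by
        apply mul_le_mul_of_nonneg_left e4 (Real.exp_pos _).le

/-! ### H: the main lemma -/
theorem main_lemma (D : Star) (hD : D.IsStar) {M : Set ℂ} (hM : IsCompact M) (hMS : Disjoint M D.S)
    (T : ℝ) (hT : 0 ≤ T) : cap (D.S ∪ M) ≤ cap (D.S ∪ shift T '' M) := by
  have h0M : (0 : ℂ) ∉ M := fun h => Set.disjoint_left.mp hMS h D.zero_mem_S
  have hcM' := isCompact_shift_image hM h0M T
  have hM'S : Disjoint (shift T '' M) D.S := by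
    rw [Set.disjoint_left]
    rintro _ ⟨z, hz, rfl⟩
    exact shift_notMem hD hT (fun h => h0M (h ▸ hz)) (Set.disjoint_left.mp hMS hz)
  set M' := shift T '' M with hM'
  have hcS : IsCompact (D.S ∪ M') := D.isCompact_S.union hcM'
  have key : ∀ ε : ℝ, 0 < ε → cap (D.S ∪ M) ≤ Real.exp (4 * ε) * (cap (D.S ∪ M') + ε) := by
    intro ε hε
    obtain ⟨δ, hδ, hc⟩ := cap_outer hcS ε hε
    refine (main_step D hD T hM' hM hMS hcM' hM'S hT δ hδ ε hε).trans ?_
    apply mul_le_mul_of_nonneg_left _ (Real.exp_pos _).le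
    refine le_trans (cap_mono ?_ ?_) hc
    · apply Set.union_subset
      · exact (Metric.self_subset_cthickening _).trans (Metric.cthickening_subset_of_subset δ Set.subset_union_left)
      · exact Metric.cthickening_subset_of_subset δ Set.subset_union_right
    · exact hcS.isBounded.cthickening
  have hlim : Tendsto (fun ε : ℝ => Real.exp (4 * ε) * (cap (D.S ∪ M') + ε)) (𝓝[>] 0) (𝓝 (cap (D.S ∪ M'))) := by
    have : Continuous (fun ε : ℝ => Real.exp (4 * ε) * (cap (D.S ∪ M') + ε)) := by fun_prop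
    have h2 := this.tendsto 0
    simp only [mul_zero, Real.exp_zero, add_zero, one_mul] at h2
    exact h2.mono_left nhdsWithin_le_nhds
  exact ge_of_tendsto hlim (eventually_nhdsWithin_of_forall (fun ε hε => key ε hε))

end Pool.LR
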