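import Mathlib
import Pool.Agent.Helper50.LR.Defs
import Pool.Agent.Helper50.LR.Main

set_option autoImplicit false
open Complex Finset Filter Topology

namespace Pool.LR

/-- union of the cells `[i h, (i+1) h] d_j`, `i ∈ I_j` -/
def cells {n : ℕ} (d : Fin n → ℂ) (h : ℝ) (I : Fin n → Finset ℕ) : Set ℂ :=
  {z : ℂ | ∃ j : Fin n, ∃ i ∈ I j, ∃ t : ℝ, (i : ℝ) * h ≤ t ∧ t ≤ ((i : ℝ) + 1) * h ∧ z = (t : ℂ) * d j}

theorem cells_mono {n : ℕ} (d : Fin n → ℂ) (h : ℝ) {I I' : Fin n → Finset ℕ} (hI : ∀ j, I j ⊆ I' j) :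
    cells d h I ⊆ cells d h I' := by
  rintro z ⟨j, i, hi, t, h1, h2, rfl⟩
  exact ⟨j, i, hI j hi, t, h1, h2, rfl⟩

theorem isCompact_cells {n : ℕ} (d : Fin n → ℂ) (h : ℝ) (I : Fin n → Finset ℕ) : IsCompact (cells d h I) := by
  have : cells d h I = ⋃ j : Fin n, ⋃ i ∈ I j, (fun t : ℝ => (t : ℂ) * d j) '' Set.Icc ((i : ℝ) * h) (((i : ℝ) + 1) * h) := by
    ext z
    simp only [cells, Set.mem_ofPred_eq, Set.mem_iUnion, Set.mem_image, Set.mem_Icc, exists_prop]
    constructor
    · rintro ⟨j, i, hi, t, h1, h2, rfl⟩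
      exact ⟨j, i, hi, t, ⟨h1, h2⟩, rfl⟩
    · rintro ⟨j, i, hi, t, ⟨h1, h2⟩, rfl⟩
      exact ⟨j, i, hi, t, h1, h2, rfl⟩
  rw [this]
  apply isCompact_iUnion
  intro j
  apply (I j).isCompact_biUnion
  intro i _
  apply isCompact_Icc.image
  fun_prop

theorem isStar_of_starSet {D : Star} {n : ℕ} {d : Fin n → ℂ} {p : Fin n → ℝ} (hS : D.S = starSet d p) : D.IsStar := by
  intro z hz t h0 h1
  rw [hS] at hz ⊢
  obtain ⟨j, s, hs0, hs1, rfl⟩ := hz
  refine ⟨j, t * s, by positivity, ?_, ?_⟩
  · calc t * s ≤ 1 * s := by gcongr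
      _ ≤ p j := by linarith
  · push_cast; ring

/-- the stage: all movable cells are moved inward by `h`. -/
theorem stage {n : ℕ} (hn : 2 ≤ n) (d : Fin n → ℂ) (hd : ∀ j, ‖d j‖ = 1)
    (hinj : Function.Injective d) (h : ℝ) (hh : 0 < h) (q : Fin n → ℕ) (hq : ∀ j, 1 ≤ q j)
    (R : Fin n → Finset ℕ) (hR : ∀ j, ∀ i ∈ R j, q j < i) :
    cap (cells d h (fun j => Finset.range (q j) ∪ (R j).image (fun i => i - 1))) ≤
      cap (cells d h (fun j => Finset.range (q j) ∪ R j)) := by
  apply le_of_forall_pos_le_add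
  intro ε hε
  -- bound
  obtain ⟨B, hB1, hB2⟩ : ∃ B : ℕ, (∀ j, q j ≤ B) ∧ ∀ j, ∀ i ∈ R j, i ≤ B := by
    refine ⟨∑ j, (q j + ∑ i ∈ R j, i), fun j => ?_, fun j i hi => ?_⟩
    · have := Finset.single_le_sum (f := fun j => (q j + ∑ i ∈ R j, i)) (fun _ _ => Nat.zero_le _) (Finset.mem_univ j)
      omega
    · have := Finset.single_le_sum (f := fun j => (q j + ∑ i ∈ R j, i)) (fun _ _ => Nat.zero_le _) (Finset.mem_univ j)
      have h2 := Finset.single_le_sum (f := fun i : ℕ => i) (s := R j) (fun _ _ => Nat.zero_le _) hi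
      omega
  obtain ⟨δ1, hδ1, hsmall⟩ := cap_union_small (((B : ℝ) + 1) * h) n ε hε
  set δ := min δ1 (h / 2) with hδdef
  have hδ : 0 < δ := lt_min hδ1 (by positivity)
  have hδ2 : δ ≤ h / 2 := min_le_right _ _
  have hδ3 : δ ≤ δ1 := min_le_left _ _
  have hq1 : ∀ j, (1 : ℝ) ≤ (q j : ℝ) := fun j => by exact_mod_cast hq j
  have hqh : ∀ j, h ≤ (q j : ℝ) * h := fun j => by nlinarith [hq1 j]
  obtain ⟨D, hD⟩ := exists_star hn d hd hinj (fun j => (q j : ℝ) * h - δ) (fun j => by have := hqh j; linarith)
  have hstar := isStar_of_starSet hD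
  set Min := cells d h (fun j => (R j).image (fun i => i - 1)) with hMin
  have hMc : IsCompact Min := isCompact_cells _ _ _
  -- representation of members of Min
  have hmem : ∀ z ∈ Min, ∃ j : Fin n, ∃ i ∈ R j, ∃ t : ℝ, ((i : ℝ) - 1) * h ≤ t ∧ t ≤ (i : ℝ) * h ∧ z = (t : ℂ) * d j ∧
      (q j : ℝ) * h ≤ t := by
    rintro z ⟨j, i, hi, t, h1, h2, rfl⟩
    rw [Finset.mem_image] at hi
    obtain ⟨i', hi', rfl⟩ := hi
    have hlt := hR j i' hi'
    have hc : ((i' - 1 : ℕ) : ℝ) = (i' : ℝ) - 1 := by rw [Nat.cast_sub (by omega)]; simp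
    rw [hc] at h1 h2
    refine ⟨j, i', hi', t, h1, by linarith, rfl, le_trans ?_ h1⟩
    have : (q j : ℝ) + 1 ≤ (i' : ℝ) := by exact_mod_cast hlt
    nlinarith
  have hMS : Disjoint Min D.S := by
    rw [Set.disjoint_left]
    intro z hz hzS
    obtain ⟨j, i, hi, t, h1, h2, rfl, h3⟩ := hmem z hz
    rw [hD] at hzS
    obtain ⟨k, s, hs0, hs1, hs⟩ := hzS
    have ht : 0 < t := lt_of_lt_of_le (by have := hqh j; linarith) h3
    have hnorm := congrArg norm hs
    rw [norm_mul, norm_mul, hd, hd, Complex.norm_real, Complex.norm_real, Real.norm_of_nonneg ht.le,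
      Real.norm_of_nonneg hs0, mul_one, mul_one] at hnorm
    subst hnorm
    have hdd : d j = d k := mul_left_cancel₀ (by exact_mod_cast ht.ne') hs
    have := hinj hdd
    subst this
    linarith
  have hmain := main_lemma D hstar hMc hMS h hh.le
  have hbd : ∀ K : Set ℂ, (∀ z ∈ K, ‖z‖ ≤ ((B : ℝ) + 1) * h) → K ⊆ Metric.closedBall 0 (((B : ℝ) + 1) * h) := by
    intro K hK z hz
    simpa using hK z hz
  set P : Fin n → Set ℂ := fun j => {z : ℂ | ∃ t : ℝ, (q j : ℝ) * h - δ ≤ t ∧ t ≤ (q j : ℝ) * h ∧ z = (t : ℂ) * d j} with hP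
  have hPnorm : ∀ j, ∀ z ∈ P j, ‖z‖ ≤ ((B : ℝ) + 1) * h := by
    rintro j z ⟨t, h1, h2, rfl⟩
    have ht : 0 ≤ t := by have := hqh j; linarith
    rw [norm_mul, hd, Complex.norm_real, Real.norm_of_nonneg ht, mul_one]
    have : (q j : ℝ) ≤ B := by exact_mod_cast hB1 j
    nlinarith
  have hKnorm : ∀ z ∈ D.S ∪ Min, ‖z‖ ≤ ((B : ℝ) + 1) * h := by
    rintro z (hz | hz)
    · rw [hD] at hz
      obtain ⟨k, s, hs0, hs1, rfl⟩ := hz
      rw [norm_mul, hd, Complex.norm_real, Real.norm_of_nonneg hs0, mul_one]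
      have : (q k : ℝ) ≤ B := by exact_mod_cast hB1 k
      nlinarith
    · obtain ⟨j, i, hi, t, h1, h2, rfl, h3⟩ := hmem z hz
      have ht : 0 ≤ t := by have := hqh j; linarith
      rw [norm_mul, hd, Complex.norm_real, Real.norm_of_nonneg ht, mul_one]
      have : (i : ℝ) ≤ B := by exact_mod_cast hB2 j i hi
      nlinarith
  have hle := hsmall (D.S ∪ Min) P (hbd _ hKnorm) (fun j => hbd _ (hPnorm j)) (by
    rintro j x ⟨t, h1, h2, rfl⟩ y ⟨s, h3, h4, rfl⟩
    rw [← sub_mul, norm_mul, hd, mul_one, ← Complex.ofReal_sub, Complex.norm_real, Real.norm_eq_abs]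
    refine le_trans ?_ hδ3
    rw [abs_le]; constructor <;> linarith)
  calc cap (cells d h (fun j => Finset.range (q j) ∪ (R j).image (fun i => i - 1)))
      ≤ cap ((D.S ∪ Min) ∪ ⋃ j, P j) := by
        apply cap_mono
        · rintro z ⟨j, i, hi, t, h1, h2, rfl⟩
          rw [Finset.mem_union] at hi
          rcases hi with hi | hi
          · rw [Finset.mem_range] at hi
            have h3 : ((i : ℝ) + 1) ≤ (q j : ℝ) := by exact_mod_cast hi
            have h4 : t ≤ (q j : ℝ) * h := by nlinarith
            have h0 : 0 ≤ t := by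
              have : 0 ≤ (i : ℝ) * h := by positivity
              linarith
            by_cases h5 : t ≤ (q j : ℝ) * h - δ
            · left; left
              rw [hD]
              exact ⟨j, t, h0, h5, rfl⟩
            · right
              push Not at h5
              rw [Set.mem_iUnion]
              exact ⟨j, t, h5.le, h4, rfl⟩
          · left; right
            exact ⟨j, i, hi, t, h1, h2, rfl⟩
        · apply (Metric.isBounded_closedBall (x := (0 : ℂ)) (r := ((B : ℝ) + 1) * h)).subset
          apply Set.union_subset (hbd _ hKnorm)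
          apply Set.iUnion_subset
          intro j
          exact hbd _ (hPnorm j)
    _ ≤ cap (D.S ∪ Min) + ε := hle
    _ ≤ cap (D.S ∪ shift h '' Min) + ε := by linarith
    _ ≤ cap (cells d h (fun j => Finset.range (q j) ∪ R j)) + ε := by
        have : cap (D.S ∪ shift h '' Min) ≤ cap (cells d h (fun j => Finset.range (q j) ∪ R j)) := by
          apply cap_mono
          · rintro z (hz | ⟨y, hy, rfl⟩)
            · rw [hD] at hz
              obtain ⟨k, s, hs0, hs1, rfl⟩ := hz
              refine ⟨k, ⌊s / h⌋₊, ?_, s, ?_, ?_, rfl⟩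
              · rw [Finset.mem_union, Finset.mem_range]
                left
                rw [Nat.floor_lt (by positivity), div_lt_iff₀ hh]
                linarith
              · have := Nat.floor_le (show 0 ≤ s / h by positivity)
                rwa [le_div_iff₀ hh] at this
              · have := (Nat.lt_floor_add_one (s / h)).le
                rwa [div_le_iff₀ hh] at this
            · obtain ⟨j, i, hi, t, h1, h2, rfl, h3⟩ := hmem y hy
              have ht : 0 < t := lt_of_lt_of_le (by have := hqh j; linarith) h3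
              refine ⟨j, i, by rw [Finset.mem_union]; exact Or.inr hi, t + h, by linarith, by linarith, ?_⟩
              have hne : (t : ℂ) * d j ≠ 0 := by
                apply mul_ne_zero (by exact_mod_cast ht.ne')
                intro h0; have := hd j; rw [h0] at this; simp at this
              rw [shift_eq hne, norm_mul, hd, Complex.norm_real, Real.norm_of_nonneg ht.le, mul_one, ← mul_assoc,
                ← Complex.ofReal_mul]
              congr 2
              field_simp
          · exact (isCompact_cells _ _ _).isBounded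
        linarith

theorem cap_cells_aux {n : ℕ} (hn : 2 ≤ n) (d : Fin n → ℂ) (hd : ∀ j, ‖d j‖ = 1)
    (hinj : Function.Injective d) (h : ℝ) (hh : 0 < h) : ∀ (s : ℕ) (I : Fin n → Finset ℕ), (∀ j, 0 ∈ I j) →
    ∑ j, ∑ i ∈ I j, i = s →
    cap (starSet d (fun j => (((I j).card : ℕ) : ℝ) * h)) ≤ cap (cells d h I) := by
  intro s
  induction s using Nat.strong_induction_on with
  | _ s ih =>
    intro I hI hs
    have hex : ∀ j, ∃ q, q ∉ I j := fun j => (I j).exists_notMem
    classical
    set q : Fin n → ℕ := fun j => Nat.find (hex j) with hqdef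
    have hq1 : ∀ j, q j ∉ I j := fun j => Nat.find_spec (hex j)
    have hq2 : ∀ j, ∀ i < q j, i ∈ I j := fun j i hi => by
      have := Nat.find_min (hex j) hi
      simpa using this
    have hq3 : ∀ j, 1 ≤ q j := fun j => by
      rcases Nat.eq_zero_or_pos (q j) with h0 | h0
      · exfalso; exact hq1 j (h0 ▸ hI j)
      · exact h0
    set R : Fin n → Finset ℕ := fun j => (I j).filter (fun i => q j < i) with hRdef
    have hR : ∀ j, ∀ i ∈ R j, q j < i := fun j i hi => (Finset.mem_filter.mp hi).2
    have hIR : ∀ j, Finset.range (q j) ∪ R j = I j := fun j => by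
      ext i
      simp only [Finset.mem_union, Finset.mem_range, hRdef, Finset.mem_filter]
      constructor
      · rintro (h1 | h1)
        · exact hq2 j i h1
        · exact h1.1
      · intro h1
        rcases lt_trichotomy i (q j) with h2 | h2 | h2
        · exact Or.inl h2
        · exact absurd (h2 ▸ h1) (hq1 j)
        · exact Or.inr ⟨h1, h2⟩
    have hdis : ∀ j, Disjoint (Finset.range (q j)) (R j) := fun j => by
      rw [Finset.disjoint_left]
      intro i h1 h2
      have := hR j i h2
      rw [Finset.mem_range] at h1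
      omega
    have hinjR : ∀ j, Set.InjOn (fun i : ℕ => i - 1) (R j) := fun j a ha b hb hab => by
      have h1 := hR j a ha
      have h2 := hR j b hb
      simp only at hab
      omega
    have hdis' : ∀ j, Disjoint (Finset.range (q j)) ((R j).image (fun i => i - 1)) := fun j => by
      rw [Finset.disjoint_left]
      intro i h1 h2
      rw [Finset.mem_image] at h2
      obtain ⟨i', h2, rfl⟩ := h2
      have := hR j i' h2
      rw [Finset.mem_range] at h1
      omega
    have hcard : ∀ j, (Finset.range (q j) ∪ (R j).image (fun i => i - 1)).card = (I j).card := fun j => by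
      rw [Finset.card_union_of_disjoint (hdis' j), Finset.card_image_of_injOn (hinjR j), ← Finset.card_union_of_disjoint (hdis j),
        hIR j]
    by_cases hall : ∀ j, R j = ∅
    · -- no gap
      have hIe : ∀ j, I j = Finset.range (q j) := fun j => by
        rw [← hIR j, hall j, Finset.union_empty]
      apply cap_mono
      · rintro z ⟨j, t, h0, h1, rfl⟩
        have hc : ((I j).card : ℝ) = (q j : ℝ) := by rw [hIe j, Finset.card_range]
        simp only [hc] at h1
        rcases h1.lt_or_eq with h1 | h1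
        · refine ⟨j, ⌊t / h⌋₊, ?_, t, ?_, ?_, rfl⟩
          · rw [hIe j, Finset.mem_range]
            rw [Nat.floor_lt (by positivity), div_lt_iff₀ hh]
            exact h1
          · have := Nat.floor_le (show 0 ≤ t / h by positivity)
            rwa [le_div_iff₀ hh] at this
          · have := (Nat.lt_floor_add_one (t / h)).le
            rwa [div_le_iff₀ hh] at this
        · refine ⟨j, q j - 1, ?_, t, ?_, ?_, rfl⟩
          · rw [hIe j, Finset.mem_range]
            have := hq3 j; omega
          · rw [h1, Nat.cast_sub (hq3 j)]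
            push_cast
            nlinarith
          · rw [h1, Nat.cast_sub (hq3 j)]
            push_cast
            nlinarith
      · exact (isCompact_cells _ _ _).isBounded
    · push Not at hall
      obtain ⟨j0, hj0⟩ := hall
      set I' : Fin n → Finset ℕ := fun j => Finset.range (q j) ∪ (R j).image (fun i => i - 1) with hI'
      have hsum : ∀ j, ∑ i ∈ I' j, i = ∑ i ∈ Finset.range (q j), i + ∑ i ∈ R j, (i - 1) := fun j => by
        rw [hI', Finset.sum_union (hdis' j), Finset.sum_image (hinjR j)]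
      have hsum2 : ∀ j, ∑ i ∈ I j, i = ∑ i ∈ Finset.range (q j), i + ∑ i ∈ R j, i := fun j => by
        rw [← Finset.sum_union (hdis j), hIR j]
      have hlt : ∑ j, ∑ i ∈ I' j, i < s := by
        rw [← hs]
        apply Finset.sum_lt_sum
        · intro j _
          rw [hsum, hsum2]
          gcongr
          omega
        · refine ⟨j0, Finset.mem_univ _, ?_⟩
          rw [hsum, hsum2]
          have : ∑ i ∈ R j0, (i - 1) < ∑ i ∈ R j0, i := by
            apply Finset.sum_lt_sum_of_nonempty hj0
            intro i hi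
            have := hR j0 i hi
            omega
          omega
      have h1 := ih _ hlt I' (fun j => by
        rw [hI', Finset.mem_union, Finset.mem_range]; left; exact hq3 j) rfl
      have h2 := stage hn d hd hinj h hh q hq3 R hR
      have e1 : (fun j => Finset.range (q j) ∪ R j) = I := funext hIR
      rw [e1] at h2
      have e2 : (fun j => (((I' j).card : ℕ) : ℝ) * h) = (fun j => (((I j).card : ℕ) : ℝ) * h) := by
        funext j; rw [hcard j]
      rw [e2] at h1
      exact h1.trans h2

/-! ### I: finitely many rays -/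
theorem cap_cells {n : ℕ} (hn : 2 ≤ n) (d : Fin n → ℂ) (hd : ∀ j, ‖d j‖ = 1)
    (hinj : Function.Injective d) (h : ℝ) (hh : 0 < h) (I : Fin n → Finset ℕ) (hI : ∀ j, 0 ∈ I j) :
    cap (starSet d (fun j => (((I j).card : ℕ) : ℝ) * h)) ≤
      cap {z : ℂ | ∃ j : Fin n, ∃ i ∈ I j, ∃ t : ℝ, (i : ℝ) * h ≤ t ∧ t ≤ ((i : ℝ) + 1) * h ∧ z = (t : ℂ) * d j} :=
  cap_cells_aux hn d hd hinj h hh _ I hI rfl

end Pool.LR
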