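import Mathlib
import Pool.Agent.Helper50.LR.Defs
import Pool.Agent.Helper50.LR.Ja
import Pool.Agent.Helper50.LR.Jd
import Pool.Agent.Helper50.LR.Je
import Pool.Agent.Helper50.LR.Cells

set_option autoImplicit false

open Complex Finset Filter Topology

namespace Pool.LR


/-! ### TARGETS (prove these; put auxiliary lemmas just before them) -/

theorem starSet_mono {n : ℕ} (d : Fin n → ℂ) {p q : Fin n → ℝ} (h : ∀ j, p j ≤ q j) :
    starSet d p ⊆ starSet d q := by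
  rintro z ⟨j, t, h0, h1, rfl⟩
  exact ⟨j, t, h0, h1.trans (h j), rfl⟩

theorem starSet_bdd {n : ℕ} (d : Fin n → ℂ) (hd : ∀ j, ‖d j‖ = 1) (p : Fin n → ℝ) :
    Bornology.IsBounded (starSet d p) := by
  rw [isBounded_iff_forall_norm_le]
  refine ⟨∑ j, |p j|, ?_⟩
  rintro z ⟨j, t, h0, h1, rfl⟩
  rw [norm_mul, hd, mul_one, Complex.norm_real, Real.norm_eq_abs, abs_of_nonneg h0]
  calc t ≤ |p j| := h1.trans (le_abs_self _)
    _ ≤ ∑ j, |p j| := Finset.single_le_sum (f := fun j => |p j|) (fun i _ => abs_nonneg _) (Finset.mem_univ j)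

theorem norm_smul_sub {d : ℂ} (hd : ‖d‖ = 1) (s t : ℝ) : ‖(s : ℂ) * d - (t : ℂ) * d‖ = |s - t| := by
  rw [← sub_mul, norm_mul, hd, mul_one, ← Complex.ofReal_sub, Complex.norm_real, Real.norm_eq_abs]

theorem cap_rays {n : ℕ} (hn : 2 ≤ n) (d : Fin n → ℂ) (hd : ∀ j, ‖d j‖ = 1)
    (hinj : Function.Injective d) {E : Set ℂ} (hE : IsCompact E) :
    cap (starSet d (fun j => (MeasureTheory.volume {t : ℝ | 0 ≤ t ∧ (t : ℂ) * d j ∈ E}).toReal)) ≤ cap E := by
  classical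
  apply le_of_forall_pos_le_add
  intro ε hε
  obtain ⟨R0, hR0, hER⟩ : ∃ R0 : ℝ, 0 ≤ R0 ∧ E ⊆ Metric.closedBall 0 R0 := by
    obtain ⟨R, hR⟩ := hE.isBounded.subset_closedBall 0
    exact ⟨max R 0, le_max_right _ _, hR.trans (Metric.closedBall_subset_closedBall (le_max_left _ _))⟩
  obtain ⟨δ1, hδ1, hcap1⟩ := cap_outer hE (ε / 2) (half_pos hε)
  obtain ⟨δ2, hδ2, hcap2⟩ := cap_union_small (R0 + δ1 + 1) n (ε / 2) (half_pos hε)
  obtain ⟨h, hh0, hh1, hh2, hh3⟩ : ∃ h : ℝ, 0 < h ∧ h ≤ δ1 ∧ h ≤ δ2 ∧ h ≤ 1 :=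
    ⟨min (min δ1 δ2) 1, lt_min (lt_min hδ1 hδ2) one_pos, (min_le_left _ _).trans (min_le_left _ _),
      (min_le_left _ _).trans (min_le_right _ _), min_le_right _ _⟩
  set M : ℕ := ⌈R0 / h⌉₊ + 1 with hM
  set I : Fin n → Finset ℕ := fun j => insert 0 ((Finset.range M).filter
    (fun i => ∃ t : ℝ, (i : ℝ) * h ≤ t ∧ t ≤ ((i : ℝ) + 1) * h ∧ (t : ℂ) * d j ∈ E)) with hI
  have hI0 : ∀ j, 0 ∈ I j := fun j => Finset.mem_insert_self _ _
  have hvol : ∀ j, (MeasureTheory.volume {t : ℝ | 0 ≤ t ∧ (t : ℂ) * d j ∈ E}).toReal ≤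
      (((I j).card : ℕ) : ℝ) * h := by
    intro j
    apply ENNReal.toReal_le_of_le_ofReal (by positivity)
    have hsub : {t : ℝ | 0 ≤ t ∧ (t : ℂ) * d j ∈ E} ⊆ ⋃ i ∈ I j, Set.Icc ((i : ℝ) * h) (((i : ℝ) + 1) * h) := by
      rintro t ⟨ht0, htE⟩
      have h1 : t ≤ R0 := by
        have := hER htE
        rw [mem_closedBall_zero_iff, norm_mul, hd, mul_one, Complex.norm_real, Real.norm_eq_abs,
          abs_of_nonneg ht0] at this
        exact this
      have h2 : (⌊t / h⌋₊ : ℝ) * h ≤ t := by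
        rw [← le_div_iff₀ hh0]
        exact Nat.floor_le (div_nonneg ht0 hh0.le)
      have h3 : t ≤ ((⌊t / h⌋₊ : ℝ) + 1) * h := by
        rw [← div_le_iff₀ hh0]
        exact (Nat.lt_floor_add_one _).le
      have h4 : ⌊t / h⌋₊ < M := by
        rw [hM]
        have h5 : (⌊t / h⌋₊ : ℝ) ≤ ⌈R0 / h⌉₊ :=
          (Nat.floor_le (div_nonneg ht0 hh0.le)).trans ((div_le_div_of_nonneg_right h1 hh0.le).trans (Nat.le_ceil _))
        have h6 : ⌊t / h⌋₊ ≤ ⌈R0 / h⌉₊ := by exact_mod_cast h5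
        omega
      refine Set.mem_biUnion (x := ⌊t / h⌋₊) ?_ ⟨h2, h3⟩
      exact Finset.mem_insert_of_mem (Finset.mem_filter.2 ⟨Finset.mem_range.2 h4, t, h2, h3, htE⟩)
    calc MeasureTheory.volume {t : ℝ | 0 ≤ t ∧ (t : ℂ) * d j ∈ E}
        ≤ MeasureTheory.volume (⋃ i ∈ I j, Set.Icc ((i : ℝ) * h) (((i : ℝ) + 1) * h)) :=
          MeasureTheory.measure_mono hsub
      _ ≤ ∑ i ∈ I j, MeasureTheory.volume (Set.Icc ((i : ℝ) * h) (((i : ℝ) + 1) * h)) :=
          MeasureTheory.measure_biUnion_finset_le _ _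
      _ = ∑ i ∈ I j, ENNReal.ofReal h := by
          apply Finset.sum_congr rfl
          intro i _
          rw [Real.volume_Icc]
          congr 1
          ring
      _ = ENNReal.ofReal ((((I j).card : ℕ) : ℝ) * h) := by
          rw [Finset.sum_const, nsmul_eq_mul, ENNReal.ofReal_mul (by positivity), ENNReal.ofReal_natCast]
  have hc1 : cap (starSet d (fun j => (MeasureTheory.volume {t : ℝ | 0 ≤ t ∧ (t : ℂ) * d j ∈ E}).toReal)) ≤
      cap (starSet d (fun j => (((I j).card : ℕ) : ℝ) * h)) :=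
    cap_mono (starSet_mono d hvol) (starSet_bdd d hd _)
  have hc2 := cap_cells hn d hd hinj h hh0 I hI0
  set P : Fin n → Set ℂ := fun j => {z | ∃ t : ℝ, 0 ≤ t ∧ t ≤ h ∧ z = (t : ℂ) * d j} with hP
  set K' : Set ℂ := Metric.cthickening δ1 E with hK'
  have hPball : ∀ j, P j ⊆ Metric.closedBall 0 (R0 + δ1 + 1) := by
    rintro j z ⟨t, ht0, ht1, rfl⟩
    rw [mem_closedBall_zero_iff, norm_mul, hd, mul_one, Complex.norm_real, Real.norm_eq_abs,
      abs_of_nonneg ht0]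
    linarith
  have hKball : K' ⊆ Metric.closedBall 0 (R0 + δ1 + 1) := by
    have h1 : K' ⊆ Metric.cthickening δ1 (Metric.closedBall 0 R0) := Metric.cthickening_subset_of_subset δ1 hER
    rw [cthickening_closedBall hδ1.le hR0] at h1
    refine h1.trans (Metric.closedBall_subset_closedBall (by linarith))
  have hPd : ∀ j, ∀ x ∈ P j, ∀ y ∈ P j, ‖x - y‖ ≤ δ2 := by
    rintro j x ⟨s, hs0, hs1, rfl⟩ y ⟨t, ht0, ht1, rfl⟩
    rw [norm_smul_sub (hd j), abs_le]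
    constructor <;> linarith
  have hc3 := hcap2 K' P hKball hPball hPd
  have hcells : {z : ℂ | ∃ j : Fin n, ∃ i ∈ I j, ∃ t : ℝ, (i : ℝ) * h ≤ t ∧ t ≤ ((i : ℝ) + 1) * h ∧ z = (t : ℂ) * d j}
      ⊆ K' ∪ ⋃ i, P i := by
    rintro z ⟨j, i, hi, t, ht1, ht2, rfl⟩
    rcases Finset.mem_insert.1 hi with h0 | h0
    · right
      subst h0
      refine Set.mem_iUnion.2 ⟨j, t, ?_, ?_, rfl⟩
      · simpa using ht1
      · simpa using ht2
    · left
      obtain ⟨-, t', h1, h2, h3⟩ := Finset.mem_filter.1 h0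
      refine Metric.mem_cthickening_of_dist_le _ _ δ1 E h3 ?_
      rw [dist_eq_norm, norm_smul_sub (hd j), abs_le]
      constructor <;> linarith
  have hbdd : Bornology.IsBounded (K' ∪ ⋃ i, P i) :=
    Metric.isBounded_closedBall.subset (Set.union_subset hKball (Set.iUnion_subset hPball))
  have hc4 := cap_mono hcells hbdd
  linarith


end Pool.LR
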