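import Mathlib
import Pool.Agent.Helper50.LR.Defs

set_option autoImplicit false

open Complex Finset Filter Topology

namespace Pool.LR


/-! ### TARGETS (prove these; put auxiliary lemmas just before them) -/

theorem map_pair_eq {k : ℕ} (μ : MeasureTheory.Measure ℂ)
    [MeasureTheory.IsProbabilityMeasure μ] {i j : Fin k} (hij : i ≠ j) :
    (MeasureTheory.Measure.pi (fun _ : Fin k => μ)).map (fun x => (x i, x j)) = μ.prod μ := by
  have h1 : ProbabilityTheory.iIndepFun (fun (i : Fin k) (ω : Fin k → ℂ) => ω i)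
      (MeasureTheory.Measure.pi (fun _ : Fin k => μ)) :=
    ProbabilityTheory.iIndepFun_pi (X := fun _ => (id : ℂ → ℂ)) (fun _ => aemeasurable_id)
  have h2 := h1.indepFun hij
  have h3 := (ProbabilityTheory.indepFun_iff_map_prod_eq_prod_map_map
    (measurable_pi_apply i).aemeasurable (measurable_pi_apply j).aemeasurable).1 h2
  rw [h3]
  have h4 : ∀ i : Fin k, (MeasureTheory.Measure.pi (fun _ : Fin k => μ)).map (fun ω => ω i) = μ :=
    fun i => (MeasureTheory.measurePreserving_eval (fun _ : Fin k => μ) i).map_eq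
  rw [h4 i, h4 j]

theorem sum_card_Ioi (n : ℕ) :
    ((∑ i : Fin (n + 2), ((Finset.Ioi i).card : ℝ))) = ((n : ℝ) + 2) * ((n : ℝ) + 1) / 2 := by
  have h : ∀ m : ℕ, (∑ i : Fin m, ((Finset.Ioi i).card : ℝ)) = (m : ℝ) * ((m : ℝ) - 1) / 2 := by
    intro m
    have h1 : ∀ i : Fin m, ((Finset.Ioi i).card : ℝ) = (m : ℝ) - 1 - (i : ℕ) := by
      intro i
      rw [Fin.card_Ioi]
      have := i.2
      rw [Nat.cast_sub (by omega), Nat.cast_sub (by omega)]
      simp
    rw [Finset.sum_congr rfl (fun i _ => h1 i), Finset.sum_sub_distrib]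
    have h2 : (∑ i : Fin m, ((i : ℕ) : ℝ)) = (m : ℝ) * ((m : ℝ) - 1) / 2 := by
      rw [Fin.sum_univ_eq_sum_range (fun i => (i : ℝ)) m]
      have := Finset.sum_range_id_mul_two m
      have h3 : (((∑ i ∈ Finset.range m, i) * 2 : ℕ) : ℝ) = ((m * (m - 1) : ℕ) : ℝ) := by
        rw [this]
      rcases Nat.eq_zero_or_pos m with h0 | h0
      · subst h0; simp
      · rw [Nat.cast_mul, Nat.cast_mul, Nat.cast_sub h0] at h3
        push_cast at h3
        linarith
    rw [h2]
    simp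
    ring
  rw [h (n + 2)]
  push_cast
  ring

theorem exp_energy_le_cap {B : Set ℂ} (hB : IsCompact B) (μ : MeasureTheory.Measure ℂ)
    [MeasureTheory.IsProbabilityMeasure μ] (hμ : μ Bᶜ = 0)
    (hint : MeasureTheory.Integrable (fun q : ℂ × ℂ => Real.log ‖q.1 - q.2‖) (μ.prod μ))
    (hdiag : (μ.prod μ) {q : ℂ × ℂ | q.1 = q.2} = 0) :
    Real.exp (∫ q, Real.log ‖q.1 - q.2‖ ∂(μ.prod μ)) ≤ cap B := by
  unfold cap
  refine le_ciInf (fun n => ?_)
  set e : ℝ := ∫ q, Real.log ‖q.1 - q.2‖ ∂(μ.prod μ) with he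
  set ν := MeasureTheory.Measure.pi (fun _ : Fin (n + 2) => μ) with hν
  have hmp : ∀ i j : Fin (n + 2), i ≠ j → ν.map (fun x => (x i, x j)) = μ.prod μ :=
    fun i j hij => map_pair_eq μ hij
  have hmeas : ∀ i j : Fin (n + 2), Measurable (fun x : Fin (n + 2) → ℂ => (x i, x j)) :=
    fun i j => (measurable_pi_apply i).prodMk (measurable_pi_apply j)
  have hsm : MeasureTheory.StronglyMeasurable (fun q : ℂ × ℂ => Real.log ‖q.1 - q.2‖) :=
    (Real.measurable_log.comp ((measurable_fst.sub measurable_snd).norm)).stronglyMeasurable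
  have hI : ∀ i j : Fin (n + 2), i ≠ j →
      MeasureTheory.Integrable (fun x : Fin (n + 2) → ℂ => Real.log ‖x i - x j‖) ν := by
    intro i j hij
    have h := hint
    rw [← hmp i j hij] at h
    exact (MeasureTheory.integrable_map_measure hsm.aestronglyMeasurable
      (hmeas i j).aemeasurable).1 h
  have hE : ∀ i j : Fin (n + 2), i ≠ j →
      ∫ x : Fin (n + 2) → ℂ, Real.log ‖x i - x j‖ ∂ν = e := by
    intro i j hij
    rw [he, ← hmp i j hij, MeasureTheory.integral_map (hmeas i j).aemeasurable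
      hsm.aestronglyMeasurable]
  set f : (Fin (n + 2) → ℂ) → ℝ :=
    fun x => ∑ i : Fin (n + 2), ∑ j ∈ Finset.Ioi i, Real.log ‖x i - x j‖ with hf
  have hne : ∀ i j : Fin (n + 2), j ∈ Finset.Ioi i → i ≠ j := by
    intro i j hj h
    rw [Finset.mem_Ioi] at hj
    exact absurd (h ▸ hj) (lt_irrefl _)
  have hfi : MeasureTheory.Integrable f ν :=
    MeasureTheory.integrable_finsetSum _ (fun i _ =>
      MeasureTheory.integrable_finsetSum _ (fun j hj => hI i j (hne i j hj)))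
  have hfe : ∫ x, f x ∂ν = e * (((n : ℝ) + 2) * ((n : ℝ) + 1) / 2) := by
    rw [hf, MeasureTheory.integral_finsetSum _ (fun i _ =>
      MeasureTheory.integrable_finsetSum _ (fun j hj => hI i j (hne i j hj)))]
    rw [← sum_card_Ioi n, Finset.mul_sum]
    refine Finset.sum_congr rfl (fun i _ => ?_)
    rw [MeasureTheory.integral_finsetSum _ (fun j hj => hI i j (hne i j hj)),
      Finset.sum_congr rfl (fun j hj => hE i j (hne i j hj)), Finset.sum_const, nsmul_eq_mul]
    ring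
  -- null set
  set N : Set (Fin (n + 2) → ℂ) := {x | (∃ i, x i ∉ B) ∨ ∃ i j, i ≠ j ∧ x i = x j} with hN
  have hN0 : ν N = 0 := by
    have h1 : N ⊆ (⋃ i, (fun x : Fin (n + 2) → ℂ => x i) ⁻¹' Bᶜ) ∪
        ⋃ i, ⋃ j, ⋃ _ : i ≠ j, (fun x : Fin (n + 2) → ℂ => (x i, x j)) ⁻¹'
          {q : ℂ × ℂ | q.1 = q.2} := by
      rintro x (⟨i, hi⟩ | ⟨i, j, hij, h⟩)
      · exact Or.inl (Set.mem_iUnion.2 ⟨i, hi⟩)
      · exact Or.inr (Set.mem_iUnion.2 ⟨i, Set.mem_iUnion.2 ⟨j, Set.mem_iUnion.2 ⟨hij, h⟩⟩⟩)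
    refine MeasureTheory.measure_mono_null h1 (MeasureTheory.measure_union_null ?_ ?_)
    · refine MeasureTheory.measure_iUnion_null (fun i => ?_)
      have h4 : ν.map (fun ω : Fin (n + 2) → ℂ => ω i) = μ :=
        (MeasureTheory.measurePreserving_eval (fun _ : Fin (n + 2) => μ) i).map_eq
      rw [← MeasureTheory.Measure.map_apply (measurable_pi_apply i) hB.measurableSet.compl, h4]
      exact hμ
    · refine MeasureTheory.measure_iUnion_null (fun i => MeasureTheory.measure_iUnion_null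
        (fun j => MeasureTheory.measure_iUnion_null (fun hij => ?_)))
      have hms : MeasurableSet {q : ℂ × ℂ | q.1 = q.2} :=
        (isClosed_eq continuous_fst continuous_snd).measurableSet
      rw [← MeasureTheory.Measure.map_apply (hmeas i j) hms, hmp i j hij]
      exact hdiag
  obtain ⟨x, hxN, hx⟩ := MeasureTheory.exists_notMem_null_integral_le hfi hN0
  rw [hfe] at hx
  have hxB : ∀ i, x i ∈ B := by
    intro i
    by_contra h
    exact hxN (Or.inl ⟨i, h⟩)
  have hxd : ∀ i j, i ≠ j → x i ≠ x j := by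
    intro i j hij h
    exact hxN (Or.inr ⟨i, j, hij, h⟩)
  have hprod : Real.exp (f x) = ∏ i : Fin (n + 2), ∏ j ∈ Finset.Ioi i, ‖x i - x j‖ := by
    rw [hf, Real.exp_sum]
    refine Finset.prod_congr rfl (fun i _ => ?_)
    rw [Real.exp_sum]
    refine Finset.prod_congr rfl (fun j hj => ?_)
    rw [Real.exp_log]
    exact norm_pos_iff.2 (sub_ne_zero.2 (hxd i j (hne i j hj)))
  -- boundedness
  obtain ⟨R, hR⟩ := hB.isBounded.exists_norm_le
  have hbdd : BddAbove (Set.range (fun z : Fin (n + 2) → {w : ℂ // w ∈ B} =>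
      ∏ i : Fin (n + 2), ∏ j ∈ Finset.Ioi i, ‖((z i : ℂ) - (z j : ℂ))‖)) := by
    refine ⟨∏ i : Fin (n + 2), ∏ j ∈ Finset.Ioi i, (R + R), ?_⟩
    rintro _ ⟨z, rfl⟩
    refine Finset.prod_le_prod (fun i _ => Finset.prod_nonneg (fun j _ => norm_nonneg _))
      (fun i _ => Finset.prod_le_prod (fun j _ => norm_nonneg _) (fun j _ => ?_))
    exact (norm_sub_le _ _).trans (add_le_add (hR _ (z i).2) (hR _ (z j).2))
  have hle : Real.exp (e * (((n : ℝ) + 2) * ((n : ℝ) + 1) / 2)) ≤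
      ⨆ z : Fin (n + 2) → {w : ℂ // w ∈ B},
        ∏ i : Fin (n + 2), ∏ j ∈ Finset.Ioi i, ‖((z i : ℂ) - (z j : ℂ))‖ := by
    refine (Real.exp_le_exp.2 hx).trans ?_
    rw [hprod]
    exact le_ciSup hbdd (fun i => ⟨x i, hxB i⟩)
  have hpos : (0 : ℝ) < ((n : ℝ) + 2) * ((n : ℝ) + 1) := by positivity
  have h5 : Real.exp e = (Real.exp (e * (((n : ℝ) + 2) * ((n : ℝ) + 1) / 2))) ^
      ((2 : ℝ) / (((n : ℝ) + 2) * ((n : ℝ) + 1))) := by
    rw [← Real.exp_mul]
    congr 1
    field_simp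
  rw [h5]
  exact Real.rpow_le_rpow (Real.exp_pos _).le hle (by positivity)


end Pool.LR
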