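import Mathlib
import Pool.Agent.Helper50.LR.Defs
import Pool.Agent.Helper50.LR.Ja
import Pool.Agent.Helper50.LR.K1

set_option autoImplicit false

open Complex Finset Filter Topology

namespace Pool.LR


/-! ### TARGETS (prove these; put auxiliary lemmas just before them) -/

section K2aux

open MeasureTheory

lemma k2_aux1 {c : ℝ} (hc : 1 ≤ c) : 0 ≤ c * Real.log c - (c - 1) * Real.log (c - 1) := by
  rcases eq_or_lt_of_le hc with h | h
  · subst h; simp
  · have h1 : Real.log (c - 1) ≤ Real.log c := Real.log_le_log (by linarith) (by linarith)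
    have h2 : 0 ≤ Real.log c := Real.log_nonneg hc
    nlinarith

lemma k2_aux2 {c : ℝ} (hc : 0 < c) : c - 1 ≤ c * Real.log c := by
  have := Real.one_sub_inv_le_log_of_pos hc
  have h2 := mul_le_mul_of_nonneg_left this hc.le
  rw [mul_sub, mul_inv_cancel₀ hc.ne'] at h2
  linarith

lemma k2_aux (c : ℝ) : -1 ≤ c * Real.log c - (c - 1) * Real.log (c - 1) := by
  have e1 : Real.log (1 - c) = Real.log (c - 1) := by
    rw [← Real.log_neg_eq_log, neg_sub]
  rcases le_or_gt 1 c with h | h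
  · linarith [k2_aux1 h]
  rcases le_or_gt c 0 with h' | h'
  · have h1 := k2_aux1 (c := 1 - c) (by linarith)
    have e2 : Real.log (1 - c - 1) = Real.log c := by
      rw [← Real.log_neg_eq_log]; congr 1; ring
    rw [e1, e2] at h1
    nlinarith
  · have h1 := k2_aux2 h'
    have h2 := k2_aux2 (c := 1 - c) (by linarith)
    rw [e1] at h2
    nlinarith

lemma k2_int (h A : ℝ) (hh : 0 < h) :
    Real.log h - 2 ≤ ∫ t in (0:ℝ)..1, Real.log (A - h * t) := by
  rw [intervalIntegral.integral_comp_sub_mul (fun x => Real.log x) hh.ne' A, integral_log]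
  have hA : A = h * (A / h) := by field_simp
  set c := A / h with hc
  have e1 : A * Real.log A = h * c * Real.log h + h * (c * Real.log c) := by
    rw [hA]
    rcases eq_or_ne c 0 with h0 | h0
    · rw [h0]; simp
    · rw [Real.log_mul hh.ne' h0]; ring
  have e2 : (A - h) * Real.log (A - h) = h * (c - 1) * Real.log h + h * ((c - 1) * Real.log (c - 1)) := by
    have : A - h = h * (c - 1) := by rw [hA]; ring
    rw [this]
    rcases eq_or_ne (c - 1) 0 with h0 | h0
    · rw [h0]; simp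
    · rw [Real.log_mul hh.ne' h0]; ring
  have e3 : h⁻¹ • ((A - h * 0) * Real.log (A - h * 0) - (A - h * 1) * Real.log (A - h * 1) - (A - h * 0) + (A - h * 1))
     = Real.log h + (c * Real.log c - (c - 1) * Real.log (c - 1)) - 1 := by
    rw [mul_zero, mul_one, sub_zero, e1, e2, smul_eq_mul]
    field_simp
    ring
  rw [e3]
  linarith [k2_aux c]

/-- uniform measure on the unit interval -/
noncomputable def k2nu : Measure ℝ := volume.restrict (Set.Icc (0:ℝ) 1)

instance : IsProbabilityMeasure k2nu := ⟨by simp [k2nu]⟩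
instance : NullSingletonClass k2nu := by unfold k2nu; infer_instance

lemma k2nu_integral (f : ℝ → ℝ) : ∫ t, f t ∂k2nu = ∫ t in (0:ℝ)..1, f t := by
  unfold k2nu
  rw [intervalIntegral.integral_of_le zero_le_one, integral_Icc_eq_integral_Ioc]

lemma k2nu_prod : k2nu.prod k2nu = (volume.prod volume).restrict (Set.Icc (0:ℝ) 1 ×ˢ Set.Icc (0:ℝ) 1) := by
  unfold k2nu
  rw [Measure.prod_restrict]

lemma k2_ae : ∀ᵐ q ∂(k2nu.prod k2nu), q.1 ∈ Set.Icc (0:ℝ) 1 ∧ q.2 ∈ Set.Icc (0:ℝ) 1 := by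
  rw [k2nu_prod]
  exact ae_restrict_mem (measurableSet_Icc.prod measurableSet_Icc)

lemma k2_ne (A h : ℝ) (hh : 0 < h) : ∀ᵐ q ∂(k2nu.prod k2nu), A + h * q.1 - h * q.2 ≠ 0 := by
  rw [ae_iff]
  have hm : MeasurableSet {q : ℝ × ℝ | ¬ (A + h * q.1 - h * q.2 ≠ 0)} := by
    have : Measurable (fun q : ℝ × ℝ => A + h * q.1 - h * q.2) := by fun_prop
    simp only [ne_eq, not_not]
    exact this (measurableSet_singleton 0)
  rw [Measure.measure_prod_null hm]
  refine Eventually.of_forall (fun x => ?_)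
  apply Set.Subsingleton.measure_zero
  intro y hy z hz
  simp only [Set.mem_preimage, Set.mem_ofPred_eq, ne_eq, not_not] at hy hz
  have : h * y = h * z := by linarith
  exact mul_left_cancel₀ hh.ne' this

lemma k2_integrable_aux (A h : ℝ) (hh : 0 < h) :
    Integrable (fun q : ℝ × ℝ => Real.log (A + h * q.1 - h * q.2)) (k2nu.prod k2nu) := by
  have hf : Integrable ((Set.Icc (0:ℝ) 1).indicator (fun _ => (1:ℝ))) volume := by
    rw [integrable_indicator_iff measurableSet_Icc]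
    exact integrableOn_const (by simp)
  have hg : Integrable ((Set.Icc (-1:ℝ) 1).indicator (fun x => Real.log (A + h * x))) volume := by
    rw [integrable_indicator_iff measurableSet_Icc]
    have h1 : IntervalIntegrable Real.log volume (A - h) (A + h) := intervalIntegral.intervalIntegrable_log'
    have h2 := h1.comp_add_left A
    have h3 := h2.comp_mul_left (c := h)
    have e1 : (A - h - A) / h = -1 := by field_simp; ring
    have e2 : (A + h - A) / h = 1 := by field_simp; ring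
    rw [e1, e2] at h3
    rw [intervalIntegrable_iff_integrableOn_Icc_of_le (by norm_num)] at h3
    exact h3
  have h4 := hf.convolution_integrand (ContinuousLinearMap.mul ℝ ℝ) hg
  rw [k2nu_prod]
  have h5 : IntegrableOn (fun p : ℝ × ℝ => (ContinuousLinearMap.mul ℝ ℝ) ((Set.Icc (0:ℝ) 1).indicator (fun _ => (1:ℝ)) p.2) ((Set.Icc (-1:ℝ) 1).indicator (fun x => Real.log (A + h * x)) (p.1 - p.2))) (Set.Icc (0:ℝ) 1 ×ˢ Set.Icc (0:ℝ) 1) (volume.prod volume) := h4.integrableOn
  refine h5.congr_fun ?_ (measurableSet_Icc.prod measurableSet_Icc)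
  rintro ⟨s, t⟩ ⟨hs, ht⟩
  simp only [Set.mem_Icc] at hs ht
  have hst : s - t ∈ Set.Icc (-1:ℝ) 1 := ⟨by linarith [hs.1, ht.2], by linarith [hs.2, ht.1]⟩
  have ht' : t ∈ Set.Icc (0:ℝ) 1 := ht
  simp only [Set.indicator_of_mem hst, Set.indicator_of_mem ht', ContinuousLinearMap.mul_apply', one_mul]
  congr 1; ring

lemma k2_lower_aux (A h : ℝ) (hh : 0 < h) :
    Real.log h - 2 ≤ ∫ q, Real.log (A + h * q.1 - h * q.2) ∂(k2nu.prod k2nu) := by
  rw [integral_prod _ (k2_integrable_aux A h hh)]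
  have h1 : ∫ _s : ℝ, (Real.log h - 2) ∂k2nu = Real.log h - 2 := by simp
  rw [← h1]
  apply integral_mono (by simp) ((k2_integrable_aux A h hh).integral_prod_left)
  intro s
  simp only
  rw [k2nu_integral]
  exact k2_int h (A + h * s) hh

/-- point of a segment -/
noncomputable def k2f (a h : ℝ) (u : ℂ) (s : ℝ) : ℂ := ((a + h * s : ℝ) : ℂ) * u

lemma k2f_meas (a h : ℝ) (u : ℂ) : Measurable (k2f a h u) := by
  unfold k2f; fun_prop

lemma k2f_norm {a h : ℝ} {u : ℂ} (ha : 0 ≤ a) (hh : 0 < h) (hu : ‖u‖ = 1) {s : ℝ} (hs : 0 ≤ s) :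
    ‖k2f a h u s‖ = a + h * s := by
  unfold k2f
  rw [norm_mul, hu, mul_one, Complex.norm_real, Real.norm_of_nonneg (by positivity)]

lemma k2f_lower {a b h : ℝ} {u v : ℂ} (ha : 0 ≤ a) (hb : 0 ≤ b) (hh : 0 < h) (hu : ‖u‖ = 1) (hv : ‖v‖ = 1)
    {s t : ℝ} (hs : 0 ≤ s) (ht : 0 ≤ t) :
    |(a - b) + h * s - h * t| ≤ ‖k2f a h u s - k2f b h v t‖ := by
  have := abs_norm_sub_norm_le (k2f a h u s) (k2f b h v t)
  rw [k2f_norm ha hh hu hs, k2f_norm hb hh hv ht] at this
  have e : (a - b) + h * s - h * t = a + h * s - (b + h * t) := by ring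
  rw [e]; exact this

lemma k2f_upper {a b h : ℝ} {u v : ℂ} (ha : 0 ≤ a) (hb : 0 ≤ b) (hh : 0 < h) (hu : ‖u‖ = 1) (hv : ‖v‖ = 1)
    {s t : ℝ} (hs : s ∈ Set.Icc (0:ℝ) 1) (ht : t ∈ Set.Icc (0:ℝ) 1) :
    ‖k2f a h u s - k2f b h v t‖ ≤ a + b + 2 * h := by
  have := norm_sub_le (k2f a h u s) (k2f b h v t)
  rw [k2f_norm ha hh hu hs.1, k2f_norm hb hh hv ht.1] at this
  nlinarith [hs.2, ht.2]

lemma k2_pair {a b h : ℝ} {u v : ℂ} (ha : 0 ≤ a) (hb : 0 ≤ b) (hh : 0 < h) (hu : ‖u‖ = 1) (hv : ‖v‖ = 1) :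
    Integrable (fun q : ℝ × ℝ => Real.log ‖k2f a h u q.1 - k2f b h v q.2‖) (k2nu.prod k2nu) ∧
    Real.log h - 2 ≤ ∫ q, Real.log ‖k2f a h u q.1 - k2f b h v q.2‖ ∂(k2nu.prod k2nu) := by
  have hmono : ∀ᵐ q ∂(k2nu.prod k2nu), Real.log ((a - b) + h * q.1 - h * q.2) ≤
      Real.log ‖k2f a h u q.1 - k2f b h v q.2‖ := by
    filter_upwards [k2_ae, k2_ne (a - b) h hh] with q hq hq'
    rw [← Real.log_abs ((a - b) + h * q.1 - h * q.2)]
    exact Real.log_le_log (abs_pos.2 hq') (k2f_lower ha hb hh hu hv hq.1.1 hq.2.1)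
  have hint : Integrable (fun q : ℝ × ℝ => Real.log ‖k2f a h u q.1 - k2f b h v q.2‖) (k2nu.prod k2nu) := by
    have hG : Integrable (fun q : ℝ × ℝ => |Real.log ((a - b) + h * q.1 - h * q.2)| + |Real.log (a + b + 2 * h)|) (k2nu.prod k2nu) :=
      (k2_integrable_aux (a - b) h hh).abs.add (integrable_const _)
    refine hG.mono' ?_ ?_
    · apply Measurable.aestronglyMeasurable
      have h1 : Measurable (fun q : ℝ × ℝ => k2f a h u q.1) := (k2f_meas a h u).comp measurable_fst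
      have h2 : Measurable (fun q : ℝ × ℝ => k2f b h v q.2) := (k2f_meas b h v).comp measurable_snd
      exact Real.measurable_log.comp (h1.sub h2).norm
    · filter_upwards [k2_ae, k2_ne (a - b) h hh, hmono] with q hq hq' hq2
      have hup := k2f_upper ha hb hh hu hv hq.1 hq.2
      have hlow := k2f_lower ha hb hh hu hv hq.1.1 hq.2.1
      have hpos : 0 < ‖k2f a h u q.1 - k2f b h v q.2‖ := lt_of_lt_of_le (abs_pos.2 hq') hlow
      have hup' := Real.log_le_log hpos hup
      rw [Real.norm_eq_abs, abs_le]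
      constructor
      · have := neg_abs_le (Real.log ((a - b) + h * q.1 - h * q.2))
        have := abs_nonneg (Real.log (a + b + 2 * h))
        linarith
      · have := le_abs_self (Real.log (a + b + 2 * h))
        have := abs_nonneg (Real.log ((a - b) + h * q.1 - h * q.2))
        linarith
  refine ⟨hint, ?_⟩
  calc Real.log h - 2 ≤ _ := k2_lower_aux (a - b) h hh
    _ ≤ _ := integral_mono_ae (k2_integrable_aux (a - b) h hh) hint hmono


lemma k2_far {a b h d : ℝ} {u v ξ η : ℂ} (ha : 0 ≤ a) (hb : 0 ≤ b) (hh : 0 < h) (hu : ‖u‖ = 1) (hv : ‖v‖ = 1)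
    (hξ : ∀ s ∈ Set.Icc (0:ℝ) 1, ‖k2f a h u s - ξ‖ ≤ h)
    (hη : ∀ s ∈ Set.Icc (0:ℝ) 1, ‖k2f b h v s - η‖ ≤ h)
    (hd : d = ‖ξ - η‖) (h4 : 4 * h ≤ d) :
    Real.log d - 4 * h / d ≤ ∫ q, Real.log ‖k2f a h u q.1 - k2f b h v q.2‖ ∂(k2nu.prod k2nu) := by
  have hdpos : 0 < d := by linarith
  have hint := (k2_pair ha hb hh hu hv).1
  have h1 : ∫ _q : ℝ × ℝ, (Real.log d - 4 * h / d) ∂(k2nu.prod k2nu) = Real.log d - 4 * h / d := by simp
  rw [← h1]
  apply integral_mono_ae (integrable_const _) hint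
  filter_upwards [k2_ae] with q hq
  have hn : d - 2 * h ≤ ‖k2f a h u q.1 - k2f b h v q.2‖ := by
    have e : ξ - η = (k2f a h u q.1 - k2f b h v q.2) - ((k2f a h u q.1 - ξ) - (k2f b h v q.2 - η)) := by ring
    have h2 := norm_sub_le (k2f a h u q.1 - k2f b h v q.2) ((k2f a h u q.1 - ξ) - (k2f b h v q.2 - η))
    rw [← e, ← hd] at h2
    have h3 := norm_sub_le (k2f a h u q.1 - ξ) (k2f b h v q.2 - η)
    have h5 := hξ q.1 hq.1
    have h6 := hη q.2 hq.2
    linarith
  have hpos : 0 < d - 2 * h := by linarith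
  have hlog : Real.log (d - 2 * h) = Real.log d + Real.log (1 - 2 * h / d) := by
    rw [← Real.log_mul hdpos.ne' ?_]
    · congr 1; field_simp
    · have : 2 * h / d ≤ 1 / 2 := by
        rw [div_le_div_iff₀ hdpos (by norm_num)]; linarith
      intro h0; linarith
  have hx : 2 * h / d ≤ 1 / 2 := by
    rw [div_le_div_iff₀ hdpos (by norm_num)]; linarith
  have hx0 : 0 ≤ 2 * h / d := by positivity
  have h7 := Real.one_sub_inv_le_log_of_pos (x := 1 - 2 * h / d) (by linarith)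
  have h8 : -(2 * (2 * h / d)) ≤ 1 - (1 - 2 * h / d)⁻¹ := by
    have h9 : (1 - 2 * h / d)⁻¹ ≤ 1 + 2 * (2 * h / d) := by
      rw [inv_le_iff_one_le_mul₀ (by linarith)]
      nlinarith
    linarith
  have h10 : 4 * h / d = 2 * (2 * h / d) := by ring
  calc Real.log d - 4 * h / d ≤ Real.log (d - 2 * h) := by rw [hlog, h10]; linarith
    _ ≤ _ := Real.log_le_log hpos hn

lemma k2_comb {a b h d D ℓ : ℝ} {u v ξ η : ℂ} (ha : 0 ≤ a) (hb : 0 ≤ b) (hh : 0 < h) (hu : ‖u‖ = 1) (hv : ‖v‖ = 1)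
    (hξ : ∀ s ∈ Set.Icc (0:ℝ) 1, ‖k2f a h u s - ξ‖ ≤ h)
    (hη : ∀ s ∈ Set.Icc (0:ℝ) 1, ‖k2f b h v s - η‖ ≤ h)
    (hd : d = ‖ξ - η‖) (hdpos : 0 < d) (hdD : d ≤ D) (hD : 1 ≤ D) (h16 : h ≤ 1 / 16)
    (hℓ : ℓ = - Real.log (√h)) (hℓ0 : 0 < ℓ) :
    (1 + 4 / ℓ) * Real.log d - (4 * √h + 4 * Real.log D / ℓ) ≤
      ∫ q, Real.log ‖k2f a h u q.1 - k2f b h v q.2‖ ∂(k2nu.prod k2nu) := by
  have hs0 : 0 < √h := Real.sqrt_pos.2 hh
  have hs1 : √h * √h = h := Real.mul_self_sqrt hh.le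
  have hs2 : √h ≤ 1 / 4 := by
    rw [show (1:ℝ)/4 = √(1/16) by
      rw [show (1:ℝ)/16 = (1/4)^2 by norm_num, Real.sqrt_sq (by norm_num)]]
    exact Real.sqrt_le_sqrt h16
  have hLD : Real.log d ≤ Real.log D := Real.log_le_log hdpos hdD
  have hD0 : 0 ≤ Real.log D := Real.log_nonneg hD
  have e : (1 + 4 / ℓ) * Real.log d - (4 * √h + 4 * Real.log D / ℓ) =
      Real.log d - 4 * √h + 4 * ((Real.log d - Real.log D) / ℓ) := by
    field_simp; ring
  rw [e]
  rcases le_or_gt (√h) d with h1 | h1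
  · have h4 : 4 * h ≤ d := by nlinarith
    have h5 := k2_far ha hb hh hu hv hξ hη hd h4
    have h6 : 4 * h / d ≤ 4 * √h := by
      rw [div_le_iff₀ hdpos]; nlinarith
    have h7 : (Real.log d - Real.log D) / ℓ ≤ 0 := div_nonpos_of_nonpos_of_nonneg (by linarith) hℓ0.le
    linarith
  · have h7 : (Real.log d - Real.log D) / ℓ ≤ -1 := by
      rw [div_le_iff₀ hℓ0]
      have := Real.log_le_log hdpos h1.le
      linarith
    have h8 : Real.log d - 4 ≤ ∫ q, Real.log ‖k2f a h u q.1 - k2f b h v q.2‖ ∂(k2nu.prod k2nu) := by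
      rcases le_or_gt (4 * h) d with h9 | h9
      · have h5 := k2_far ha hb hh hu hv hξ hη hd h9
        have h6 : 4 * h / d ≤ 1 := by
          rw [div_le_iff₀ hdpos]; linarith
        linarith
      · have h5 := (k2_pair ha hb hh hu hv).2
        have h6 := Real.log_le_log hdpos h9.le
        rw [Real.log_mul (by norm_num) hh.ne'] at h6
        have h7 : Real.log 4 ≤ 2 := by
          rw [show (4:ℝ) = 2 ^ 2 by norm_num, Real.log_pow]
          have := Real.log_two_lt_d9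
          push_cast; linarith
        linarith
    linarith

/-- the energy measure -/
noncomputable def k2mu {n : ℕ} (a : Fin n → ℝ) (h : ℝ) (u : Fin n → ℂ) : Measure ℂ :=
  ((n : ENNReal)⁻¹) • Measure.sum (fun i => k2nu.map (k2f (a i) h (u i)))

lemma k2mu_prob {n : ℕ} (hn : 0 < n) (a : Fin n → ℝ) (h : ℝ) (u : Fin n → ℂ) :
    IsProbabilityMeasure (k2mu a h u) := by
  constructor
  unfold k2mu
  rw [Measure.smul_apply, Measure.sum_apply _ MeasurableSet.univ, tsum_fintype]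
  have : ∀ i : Fin n, (k2nu.map (k2f (a i) h (u i))) Set.univ = 1 := by
    intro i
    rw [Measure.map_apply (k2f_meas _ _ _) MeasurableSet.univ]
    simp
  simp only [this, Finset.sum_const, Finset.card_univ, Fintype.card_fin, smul_eq_mul, nsmul_eq_mul, mul_one]
  exact ENNReal.inv_mul_cancel (by simp; omega) (by simp)

lemma k2mu_compl {n : ℕ} (a : Fin n → ℝ) (h : ℝ) (u : Fin n → ℂ) {B : Set ℂ} (hB : MeasurableSet B)
    (hsub : ∀ i, ∀ s ∈ Set.Icc (0:ℝ) 1, k2f (a i) h (u i) s ∈ B) : k2mu a h u Bᶜ = 0 := by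
  unfold k2mu
  rw [Measure.smul_apply, Measure.sum_apply _ hB.compl, tsum_fintype]
  have : ∀ i : Fin n, (k2nu.map (k2f (a i) h (u i))) Bᶜ = 0 := by
    intro i
    rw [Measure.map_apply (k2f_meas _ _ _) hB.compl]
    have h2 : ∀ᵐ s ∂k2nu, k2f (a i) h (u i) s ∈ B := by
      filter_upwards [ae_restrict_mem measurableSet_Icc] with s hs
      exact hsub i s hs
    rw [ae_iff] at h2
    exact h2
  simp [this]

lemma k2mu_null {n : ℕ} (a : Fin n → ℝ) {h : ℝ} (hh : 0 < h) (u : Fin n → ℂ) (hu : ∀ i, ‖u i‖ = 1) :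
    NullSingletonClass (k2mu a h u) := by
  constructor
  intro x
  unfold k2mu
  rw [Measure.smul_apply, Measure.sum_apply _ (measurableSet_singleton x), tsum_fintype]
  have : ∀ i : Fin n, (k2nu.map (k2f (a i) h (u i))) {x} = 0 := by
    intro i
    rw [Measure.map_apply (k2f_meas _ _ _) (measurableSet_singleton x)]
    apply Set.Subsingleton.measure_zero
    intro y hy z hz
    simp only [Set.mem_preimage, Set.mem_singleton_iff] at hy hz
    rw [← hz] at hy
    unfold k2f at hy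
    have hu0 : u i ≠ 0 := by
      intro h0; have := hu i; rw [h0] at this; simp at this
    have h2 := mul_right_cancel₀ hu0 hy
    have h3 : a i + h * y = a i + h * z := by exact_mod_cast h2
    have h4 : h * y = h * z := by linarith
    exact mul_left_cancel₀ hh.ne' h4
  simp [this]

lemma k2mu_prod {n : ℕ} (a : Fin n → ℝ) (h : ℝ) (u : Fin n → ℂ) :
    (k2mu a h u).prod (k2mu a h u) = ((n : ENNReal)⁻¹) • (((n : ENNReal)⁻¹) •
      ∑ p : Fin n × Fin n, (k2nu.prod k2nu).map (Prod.map (k2f (a p.1) h (u p.1)) (k2f (a p.2) h (u p.2)))) := by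
  unfold k2mu
  rw [Measure.prod_smul_left, Measure.prod_smul_right, Measure.prod_sum, Measure.sum_fintype]
  congr 2
  apply Finset.sum_congr rfl
  intro p _
  exact Measure.map_prod_map k2nu k2nu (k2f_meas _ _ _) (k2f_meas _ _ _)

end K2aux

section K2main

open MeasureTheory

lemma k2_energy {n : ℕ} (hn : 0 < n) (a : Fin n → ℝ) {h : ℝ} (hh : 0 < h) (u : Fin n → ℂ)
    (hu : ∀ i, ‖u i‖ = 1) (ha : ∀ i, 0 ≤ a i) {B : Set ℂ} (hB : IsCompact B)
    (hsub : ∀ i, ∀ s ∈ Set.Icc (0:ℝ) 1, k2f (a i) h (u i) s ∈ B) :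
    Real.exp ((∑ i, ∑ j, ∫ q, Real.log ‖k2f (a i) h (u i) q.1 - k2f (a j) h (u j) q.2‖
      ∂(k2nu.prod k2nu)) / (n:ℝ) ^ 2) ≤ cap B := by
  have hprob := k2mu_prob hn a h u
  have hnull := k2mu_null a hh u hu
  have hmeasL : Measurable (fun q : ℂ × ℂ => Real.log ‖q.1 - q.2‖) :=
    Real.measurable_log.comp (measurable_fst.sub measurable_snd).norm
  have hmap : ∀ p : Fin n × Fin n, Measurable (Prod.map (k2f (a p.1) h (u p.1)) (k2f (a p.2) h (u p.2))) :=
    fun p => (k2f_meas _ _ _).prodMap (k2f_meas _ _ _)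
  have hint0 : ∀ p ∈ (Finset.univ : Finset (Fin n × Fin n)), Integrable (fun q : ℂ × ℂ => Real.log ‖q.1 - q.2‖)
      ((k2nu.prod k2nu).map (Prod.map (k2f (a p.1) h (u p.1)) (k2f (a p.2) h (u p.2)))) := by
    intro p _
    rw [integrable_map_measure hmeasL.aestronglyMeasurable (hmap p).aemeasurable]
    exact (k2_pair (ha p.1) (ha p.2) hh (hu p.1) (hu p.2)).1
  have hninv : ((n : ENNReal)⁻¹) ≠ ⊤ := by
    rw [ENNReal.inv_ne_top]; exact_mod_cast hn.ne'
  have hint : Integrable (fun q : ℂ × ℂ => Real.log ‖q.1 - q.2‖) ((k2mu a h u).prod (k2mu a h u)) := by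
    rw [k2mu_prod]
    exact ((integrable_finsetSum_measure.2 hint0).smul_measure hninv).smul_measure hninv
  have hdiag : ((k2mu a h u).prod (k2mu a h u)) {q : ℂ × ℂ | q.1 = q.2} = 0 := by
    have hm : MeasurableSet {q : ℂ × ℂ | q.1 = q.2} := measurableSet_eq_fun measurable_fst measurable_snd
    rw [Measure.measure_prod_null hm]
    refine Eventually.of_forall (fun x => ?_)
    have : Prod.mk x ⁻¹' {q : ℂ × ℂ | q.1 = q.2} = {x} := by
      ext y; simp [eq_comm]
    show (k2mu a h u) (Prod.mk x ⁻¹' {q : ℂ × ℂ | q.1 = q.2}) = 0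
    rw [this]
    exact measure_singleton x
  have key := exp_energy_le_cap hB (k2mu a h u) (k2mu_compl a h u hB.measurableSet hsub) hint hdiag
  have hval : ∫ q, Real.log ‖q.1 - q.2‖ ∂((k2mu a h u).prod (k2mu a h u)) =
      (∑ i, ∑ j, ∫ q, Real.log ‖k2f (a i) h (u i) q.1 - k2f (a j) h (u j) q.2‖
      ∂(k2nu.prod k2nu)) / (n:ℝ) ^ 2 := by
    rw [k2mu_prod, integral_smul_measure, integral_smul_measure, integral_finsetSum_measure hint0,
      Fintype.sum_prod_type]
    have : ∀ p : Fin n × Fin n, ∫ q, Real.log ‖q.1 - q.2‖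
        ∂((k2nu.prod k2nu).map (Prod.map (k2f (a p.1) h (u p.1)) (k2f (a p.2) h (u p.2)))) =
        ∫ q, Real.log ‖k2f (a p.1) h (u p.1) q.1 - k2f (a p.2) h (u p.2) q.2‖ ∂(k2nu.prod k2nu) := by
      intro p
      rw [integral_map (hmap p).aemeasurable hmeasL.aestronglyMeasurable]
      rfl
    have h2 := Finset.sum_congr (s₁ := (Finset.univ : Finset (Fin n))) rfl
      (fun i _ => Finset.sum_congr (s₁ := (Finset.univ : Finset (Fin n))) rfl (fun j _ => this (i, j)))
    rw [h2]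
    rw [ENNReal.toReal_inv, ENNReal.toReal_natCast, smul_eq_mul, smul_eq_mul]
    field_simp
  rw [← hval]
  exact key

lemma k2_sum_sym {n : ℕ} (z : Fin n → ℂ) (hz : ∀ i j, i ≠ j → z i ≠ z j) :
    ∑ i, ∑ j ∈ ({i} : Finset (Fin n))ᶜ, Real.log ‖z i - z j‖ = 2 * Real.log (vand z) := by
  unfold vand
  rw [Real.log_prod]
  · have h1 : ∀ i : Fin n, Real.log (∏ j ∈ Finset.Ioi i, ‖z i - z j‖) = ∑ j ∈ Finset.Ioi i, Real.log ‖z i - z j‖ := by
      intro i
      apply Real.log_prod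
      intro j hj
      rw [Finset.mem_Ioi] at hj
      exact norm_ne_zero_iff.2 (sub_ne_zero.2 (hz i j hj.ne))
    simp only [h1]
    have h2 : ∀ i : Fin n, ({i} : Finset (Fin n))ᶜ = Finset.Ioi i ∪ Finset.Iio i := by
      intro i; ext j; simp only [Finset.mem_compl, Finset.mem_singleton, Finset.mem_union, Finset.mem_Ioi, Finset.mem_Iio]
      constructor
      · intro h
        rcases lt_trichotomy i j with h' | h' | h'
        · exact Or.inl h'
        · exact absurd h'.symm h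
        · exact Or.inr h'
      · rintro (h | h)
        · exact h.ne'
        · exact h.ne
    have h3 : ∀ i : Fin n, ∑ j ∈ ({i} : Finset (Fin n))ᶜ, Real.log ‖z i - z j‖ =
        ∑ j ∈ Finset.Ioi i, Real.log ‖z i - z j‖ + ∑ j ∈ Finset.Iio i, Real.log ‖z i - z j‖ := by
      intro i
      rw [h2 i, Finset.sum_union]
      rw [Finset.disjoint_left]
      intro j hj hj'
      rw [Finset.mem_Ioi] at hj
      rw [Finset.mem_Iio] at hj'
      exact absurd hj (not_lt.2 hj'.le)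
    simp only [h3, Finset.sum_add_distrib]
    have h4 : ∑ i, ∑ j ∈ Finset.Iio i, Real.log ‖z i - z j‖ = ∑ i, ∑ j ∈ Finset.Ioi i, Real.log ‖z i - z j‖ := by
      rw [Finset.sum_comm' (t' := Finset.univ) (s' := fun j => Finset.Ioi j)]
      · apply Finset.sum_congr rfl; intro i _
        apply Finset.sum_congr rfl; intro j _
        rw [norm_sub_rev]
      · intro i j; simp
    rw [h4]; ring
  · intro i _
    apply Finset.prod_ne_zero_iff.2
    intro j hj
    rw [Finset.mem_Ioi] at hj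
    exact norm_ne_zero_iff.2 (sub_ne_zero.2 (hz i j hj.ne))

lemma k2_lim (L D : ℝ) : Tendsto (fun x : ℝ => (x * (Real.log (1 / x) - 2) +
      (1 + 4 / (-Real.log (√(1 / x)))) * (x * (x - 1) * L - 2) -
      x ^ 2 * (4 * √(1 / x) + 4 * Real.log D / (-Real.log (√(1 / x))))) / x ^ 2) atTop (𝓝 L) := by
  have h1 : Tendsto (fun x : ℝ => Real.log x / x) atTop (𝓝 0) := by
    simpa using Real.tendsto_pow_log_div_mul_add_atTop 1 0 1 one_ne_zero
  have h2 : Tendsto (fun x : ℝ => x⁻¹) atTop (𝓝 0) := tendsto_inv_atTop_zero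
  have h3 : Tendsto (fun x : ℝ => (Real.log x)⁻¹) atTop (𝓝 0) :=
    tendsto_inv_atTop_zero.comp Real.tendsto_log_atTop
  have h4 : Tendsto (fun x : ℝ => √(x⁻¹)) atTop (𝓝 0) := by
    have := (Real.continuous_sqrt.tendsto 0).comp h2
    rw [Real.sqrt_zero] at this
    exact this
  have h5 : Tendsto (fun x : ℝ => (-(Real.log x / x) - 2 * x⁻¹) +
      (1 + 8 * (Real.log x)⁻¹) * ((1 - x⁻¹) * L - 2 * (x⁻¹ * x⁻¹)) -
      (4 * √(x⁻¹) + 8 * Real.log D * (Real.log x)⁻¹)) atTop
      (𝓝 ((-0 - 2 * 0) + (1 + 8 * 0) * ((1 - 0) * L - 2 * (0 * 0)) - (4 * 0 + 8 * Real.log D * 0))) := by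
    refine ((h1.neg.sub (h2.const_mul 2)).add ((tendsto_const_nhds.add (h3.const_mul 8)).mul
      (((tendsto_const_nhds.sub h2).mul_const L).sub ((h2.mul h2).const_mul 2)))).sub
      ((h4.const_mul 4).add (h3.const_mul _))
  have e : ((-0 - 2 * 0) + (1 + 8 * 0) * ((1 - 0) * L - 2 * (0 * 0)) - (4 * 0 + 8 * Real.log D * 0)) = L := by ring
  rw [e] at h5
  refine h5.congr' ?_
  filter_upwards [eventually_gt_atTop (1:ℝ)] with x hx
  have hx0 : 0 < x := by linarith
  have hl : 0 < Real.log x := Real.log_pos hx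
  have e1 : Real.log (√(1 / x)) = -(Real.log x / 2) := by
    rw [Real.log_sqrt (by positivity), one_div, Real.log_inv]; ring
  have e2 : Real.log (1 / x) = - Real.log x := by rw [one_div, Real.log_inv]
  rw [e1, e2, one_div, neg_neg]
  field_simp
  ring

lemma k2_starSet_compact {n : ℕ} (d : Fin n → ℂ) (p : Fin n → ℝ) : IsCompact (starSet d p) := by
  have : starSet d p = ⋃ j : Fin n, (fun t : ℝ => (t : ℂ) * d j) '' Set.Icc 0 (p j) := by
    ext z
    simp only [starSet, Set.mem_ofPred_eq, Set.mem_iUnion, Set.mem_image, Set.mem_Icc]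
    constructor
    · rintro ⟨j, t, h1, h2, h3⟩; exact ⟨j, t, ⟨h1, h2⟩, h3.symm⟩
    · rintro ⟨j, t, ⟨h1, h2⟩, h3⟩; exact ⟨j, t, h1, h2, h3.symm⟩
  rw [this]
  apply isCompact_iUnion
  intro j
  apply isCompact_Icc.image
  fun_prop

end K2main

theorem cap_star_le {R : ℂ → ℝ} (ρ C : ℝ) (hρ : 0 < ρ) (h1 : ∀ u : ℂ, ‖u‖ = 1 → ρ ≤ R u ∧ R u ≤ C)
    (κ : ℝ) (hκ : ∀ (n : ℕ) (d : Fin n → ℂ), 2 ≤ n → (∀ j, ‖d j‖ = 1) → Function.Injective d →
      cap (starSet d (fun j => R (d j))) ≤ κ) :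
    cap {z : ℂ | ∃ u : ℂ, ‖u‖ = 1 ∧ ∃ t : ℝ, 0 ≤ t ∧ t ≤ R u ∧ z = (t : ℂ) * u} ≤ κ := by
  classical
  set A : Set ℂ := {z : ℂ | ∃ u : ℂ, ‖u‖ = 1 ∧ ∃ t : ℝ, 0 ≤ t ∧ t ≤ R u ∧ z = (t : ℂ) * u} with hA
  have hC : 0 < C := lt_of_lt_of_le hρ ((h1 1 (by simp)).1.trans (h1 1 (by simp)).2)
  have hκ0 : 0 ≤ κ := by
    have := hκ 2 ![1, -1] le_rfl (by intro j; fin_cases j <;> simp) (by
      intro i j hij
      fin_cases i <;> fin_cases j <;> simp at hij ⊢
      · norm_num [eq_neg_iff_add_eq_zero] at hij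
      · norm_num [neg_eq_iff_add_eq_zero] at hij)
    exact (cap_nonneg _).trans this
  rcases eq_or_lt_of_le (cap_nonneg A) with h0 | hcap
  · rw [← h0]; exact hκ0
  set L := Real.log (cap A) with hL
  set D := 2 * C + 1 with hD
  have hD1 : 1 ≤ D := by linarith
  -- main bound
  have main : ∀ n : ℕ, 16 ≤ n → 2 / ρ ≤ n → Real.exp (((n:ℝ) * (Real.log (1 / (n:ℝ)) - 2) +
      (1 + 4 / (-Real.log (√(1 / (n:ℝ))))) * ((n:ℝ) * ((n:ℝ) - 1) * L - 2) -
      (n:ℝ) ^ 2 * (4 * √(1 / (n:ℝ)) + 4 * Real.log D / (-Real.log (√(1 / (n:ℝ)))))) / (n:ℝ) ^ 2) ≤ κ := by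
    intro n hn16 hnρ
    have hn0 : 0 < n := by omega
    have hnR : (0:ℝ) < n := by exact_mod_cast hn0
    have hn16R : (16:ℝ) ≤ n := by exact_mod_cast hn16
    set h : ℝ := 1 / (n:ℝ) with hh
    have hh0 : 0 < h := by positivity
    have hh16 : h ≤ 1 / 16 := one_div_le_one_div_of_le (by norm_num) hn16R
    have hhρ : 2 * h ≤ ρ := by
      rw [hh, mul_one_div, div_le_iff₀ hnR]
      rw [div_le_iff₀ hρ] at hnρ
      linarith
    set ℓ : ℝ := -Real.log (√h) with hℓ
    have hℓ0 : 0 < ℓ := by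
      have : Real.log (√h) < 0 := by
        apply Real.log_neg (Real.sqrt_pos.2 hh0)
        rw [Real.sqrt_lt' one_pos]; linarith
      linarith
    -- vandermonde bound
    obtain ⟨z, hz⟩ : ∃ z : Fin n → {w : ℂ // w ∈ A}, (n:ℝ) * ((n:ℝ) - 1) / 2 * L - 1 < Real.log (vand (fun i => (z i : ℂ)))
        ∧ 0 < vand (fun i => (z i : ℂ)) := by
      obtain ⟨m, rfl⟩ : ∃ m, n = m + 2 := ⟨n - 2, by omega⟩
      have hle : cap A ≤ (V A (m + 2)) ^ ((2 : ℝ) / (((m : ℝ) + 2) * ((m : ℝ) + 1))) := by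
        have hV : ∀ k : ℕ, 0 ≤ V A k := by
          intro k
          apply Real.iSup_nonneg
          intro z
          unfold vand
          exact Finset.prod_nonneg (fun i _ => Finset.prod_nonneg (fun j _ => norm_nonneg _))
        have hbdd : BddBelow (Set.range (fun m : ℕ => (V A (m + 2)) ^ ((2 : ℝ) / (((m : ℝ) + 2) * ((m : ℝ) + 1))))) :=
          ⟨0, by rintro _ ⟨k, rfl⟩; exact Real.rpow_nonneg (hV _) _⟩
        exact ciInf_le hbdd m
      have hepos : (0:ℝ) < (2 : ℝ) / (((m : ℝ) + 2) * ((m : ℝ) + 1)) := by positivity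
      have hVpos : 0 < V A (m + 2) := by
        have hV : 0 ≤ V A (m + 2) := by
          apply Real.iSup_nonneg
          intro z
          unfold vand
          exact Finset.prod_nonneg (fun i _ => Finset.prod_nonneg (fun j _ => norm_nonneg _))
        rcases eq_or_lt_of_le hV with h | h
        · rw [← h, Real.zero_rpow hepos.ne'] at hle
          linarith
        · exact h
      have hlog : L ≤ (2 : ℝ) / (((m : ℝ) + 2) * ((m : ℝ) + 1)) * Real.log (V A (m + 2)) := by
        rw [← Real.log_rpow hVpos]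
        exact Real.log_le_log hcap hle
      have hlog2 : ((m:ℝ) + 2) * ((m:ℝ) + 1) / 2 * L ≤ Real.log (V A (m + 2)) := by
        have h5 : ((m:ℝ) + 2) * ((m:ℝ) + 1) / 2 * L ≤ ((m:ℝ) + 2) * ((m:ℝ) + 1) / 2 * ((2 : ℝ) / (((m : ℝ) + 2) * ((m : ℝ) + 1)) * Real.log (V A (m + 2))) :=
          mul_le_mul_of_nonneg_left hlog (by positivity)
        have h6 : ((m:ℝ) + 2) * ((m:ℝ) + 1) / 2 * ((2 : ℝ) / (((m : ℝ) + 2) * ((m : ℝ) + 1)) * Real.log (V A (m + 2))) = Real.log (V A (m + 2)) := by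
          field_simp
        linarith
      have hAne : Nonempty {w : ℂ // w ∈ A} :=
        ⟨⟨0, 1, by simp, 0, le_rfl, hρ.le.trans (h1 1 (by simp)).1, by simp⟩⟩
      have hlt : Real.exp (-1) * V A (m + 2) < V A (m + 2) := by
        have : Real.exp (-1) < 1 := by rw [Real.exp_lt_one_iff]; norm_num
        nlinarith
      obtain ⟨z, hz⟩ := exists_lt_of_lt_ciSup (f := fun z : Fin (m + 2) → {w : ℂ // w ∈ A} => vand (fun i => (z i : ℂ))) hlt
      have hpos : 0 < Real.exp (-1) * V A (m + 2) := by positivity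
      refine ⟨z, ?_, hpos.trans hz⟩
      have h7 := Real.log_lt_log hpos hz
      rw [Real.log_mul (Real.exp_pos _).ne' hVpos.ne', Real.log_exp] at h7
      push_cast
      have h8 : ((m:ℝ) + 2) * ((m:ℝ) + 2 - 1) / 2 * L = ((m:ℝ) + 2) * ((m:ℝ) + 1) / 2 * L := by ring
      linarith
    obtain ⟨hzlog, hzpos⟩ := hz
    -- points distinct
    have hzne : ∀ i j, i ≠ j → (z i : ℂ) ≠ (z j : ℂ) := by
      have hlt : ∀ i j, i < j → (z i : ℂ) ≠ (z j : ℂ) := by
        intro i j hij heq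
        have : vand (fun i => (z i : ℂ)) = 0 := by
          unfold vand
          apply Finset.prod_eq_zero (Finset.mem_univ i)
          apply Finset.prod_eq_zero (Finset.mem_Ioi.2 hij)
          simp [heq]
        linarith
      intro i j hij
      rcases lt_or_gt_of_ne hij with h | h
      · exact hlt i j h
      · exact (hlt j i h).symm
    have hzA : ∀ i, ∃ u : ℂ, ‖u‖ = 1 ∧ ∃ t : ℝ, 0 ≤ t ∧ t ≤ R u ∧ (z i : ℂ) = (t : ℂ) * u := fun i => (z i).2
    choose u hu r hr0 hrR hzr using hzA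
    let a : Fin n → ℝ := fun i => if h ≤ r i then r i - h else r i
    have ha0 : ∀ i, 0 ≤ a i := by
      intro i; simp only [a]; split_ifs with hi
      · linarith
      · exact hr0 i
    have haR : ∀ i, a i + h ≤ R (u i) := by
      intro i; simp only [a]; split_ifs with hi
      · linarith [hrR i]
      · have := (h1 (u i) (hu i)).1
        linarith
    have hnear : ∀ i, ∀ s ∈ Set.Icc (0:ℝ) 1, ‖k2f (a i) h (u i) s - (z i : ℂ)‖ ≤ h := by
      intro i s hs
      have e : k2f (a i) h (u i) s - (z i : ℂ) = ((a i + h * s - r i : ℝ) : ℂ) * u i := by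
        unfold k2f; rw [hzr i]; push_cast; ring
      rw [e, norm_mul, hu i, mul_one, Complex.norm_real, Real.norm_eq_abs, abs_le]
      obtain ⟨hs0, hs1⟩ := hs
      simp only [a]
      split_ifs with hi
      · constructor <;> nlinarith
      · constructor <;> nlinarith
    -- the finite star
    let T : Finset ℂ := insert 1 (insert (-1) (Finset.image u Finset.univ))
    let e : Fin T.card ≃ T := T.equivFin.symm
    let d : Fin T.card → ℂ := fun k => ((e k : T) : ℂ)
    have hTcard : 2 ≤ T.card := by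
      have : 1 < T.card := by
        rw [Finset.one_lt_card]
        refine ⟨1, by simp [T], -1, by simp [T], ?_⟩
        norm_num [eq_neg_iff_add_eq_zero]
      omega
    have hdnorm : ∀ k, ‖d k‖ = 1 := by
      intro k
      have hk : (d k) ∈ T := (e k).2
      simp only [T, Finset.mem_insert, Finset.mem_image, Finset.mem_univ, true_and] at hk
      rcases hk with hk | hk | ⟨i, hk⟩
      · rw [hk]; simp
      · rw [hk]; simp
      · rw [← hk]; exact hu i
    have hdinj : Function.Injective d := Subtype.val_injective.comp e.injective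
    have hB := hκ T.card d hTcard hdnorm hdinj
    have hsub : ∀ i, ∀ s ∈ Set.Icc (0:ℝ) 1, k2f (a i) h (u i) s ∈ starSet d (fun j => R (d j)) := by
      intro i s hs
      have hiT : u i ∈ T := by
        simp only [T, Finset.mem_insert, Finset.mem_image, Finset.mem_univ, true_and]
        exact Or.inr (Or.inr ⟨i, rfl⟩)
      refine ⟨e.symm ⟨u i, hiT⟩, a i + h * s, ?_, ?_, ?_⟩
      · have := ha0 i; have := hs.1; positivity
      · have hdi : d (e.symm ⟨u i, hiT⟩) = u i := by simp [d]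
        show a i + h * s ≤ R (d (e.symm ⟨u i, hiT⟩))
        rw [hdi]
        have := haR i; have := hs.2; nlinarith
      · have hdi : d (e.symm ⟨u i, hiT⟩) = u i := by simp [d]
        rw [hdi]; rfl
    have hen := (k2_energy hn0 a hh0 u hu ha0 (k2_starSet_compact d (fun j => R (d j))) hsub).trans hB
    refine le_trans (Real.exp_le_exp.2 ?_) hen
    apply div_le_div_of_nonneg_right _ (by positivity)
    -- sum estimate
    set K := 4 * √h + 4 * Real.log D / ℓ with hK
    have hK0 : 0 ≤ K := by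
      have := Real.log_nonneg hD1
      positivity
    have hpair : ∀ i j, i ≠ j → (1 + 4 / ℓ) * Real.log ‖(z i : ℂ) - (z j : ℂ)‖ - K ≤
        ∫ q, Real.log ‖k2f (a i) h (u i) q.1 - k2f (a j) h (u j) q.2‖ ∂(k2nu.prod k2nu) := by
      intro i j hij
      apply k2_comb (ha0 i) (ha0 j) hh0 (hu i) (hu j) (hnear i) (hnear j) rfl
        (norm_pos_iff.2 (sub_ne_zero.2 (hzne i j hij))) ?_ hD1 hh16 rfl hℓ0
      have h5 := norm_sub_le (z i : ℂ) (z j : ℂ)
      have h6 : ∀ i, ‖(z i : ℂ)‖ ≤ C := by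
        intro i
        rw [hzr i, norm_mul, hu i, mul_one, Complex.norm_real, Real.norm_of_nonneg (hr0 i)]
        exact (hrR i).trans (h1 (u i) (hu i)).2
      have := h6 i; have := h6 j
      linarith
    have hsum : ∑ i, ((Real.log h - 2) + ∑ j ∈ ({i} : Finset (Fin n))ᶜ, ((1 + 4 / ℓ) * Real.log ‖(z i : ℂ) - (z j : ℂ)‖ - K)) ≤
        ∑ i, ∑ j, ∫ q, Real.log ‖k2f (a i) h (u i) q.1 - k2f (a j) h (u j) q.2‖ ∂(MeasureTheory.Measure.prod k2nu k2nu) := by
      apply Finset.sum_le_sum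
      intro i _
      rw [Fintype.sum_eq_add_sum_compl i]
      apply add_le_add
      · exact (k2_pair (ha0 i) (ha0 i) hh0 (hu i) (hu i)).2
      · apply Finset.sum_le_sum
        intro j hj
        rw [Finset.mem_compl, Finset.mem_singleton] at hj
        exact hpair i j (Ne.symm hj)
    refine le_trans ?_ hsum
    have hsym := k2_sum_sym (fun i => (z i : ℂ)) hzne
    have hcard : ∀ i : Fin n, (({i} : Finset (Fin n))ᶜ).card = n - 1 := by
      intro i; rw [Finset.card_compl]; simp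
    have hexp : ∑ i, ((Real.log h - 2) + ∑ j ∈ ({i} : Finset (Fin n))ᶜ, ((1 + 4 / ℓ) * Real.log ‖(z i : ℂ) - (z j : ℂ)‖ - K)) =
        (n:ℝ) * (Real.log h - 2) + (1 + 4 / ℓ) * (2 * Real.log (vand (fun i => (z i : ℂ)))) - (n:ℝ) * ((n:ℝ) - 1) * K := by
      rw [← hsym]
      simp only [Finset.sum_add_distrib, Finset.sum_sub_distrib, Finset.sum_const, Finset.card_univ, Fintype.card_fin,
        hcard, nsmul_eq_mul, Finset.mul_sum]
      rw [Nat.cast_sub (by omega)]
      push_cast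
      ring
    rw [hexp]
    have h9 : (1 + 4 / ℓ) * ((n:ℝ) * ((n:ℝ) - 1) * L - 2) ≤ (1 + 4 / ℓ) * (2 * Real.log (vand (fun i => (z i : ℂ)))) := by
      apply mul_le_mul_of_nonneg_left _ (by positivity)
      linarith
    nlinarith [mul_nonneg hnR.le hK0]
  have hlim := (k2_lim L D).comp tendsto_natCast_atTop_atTop
  have hlim2 := (Real.continuous_exp.tendsto L).comp hlim
  have e : Real.exp L = cap A := Real.exp_log hcap
  rw [e] at hlim2
  refine le_of_tendsto hlim2 ?_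
  filter_upwards [eventually_ge_atTop 16, tendsto_natCast_atTop_atTop.eventually_ge_atTop (2 / ρ)] with n hn1 hn2
  exact main n hn1 hn2


end Pool.LR
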