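import Mathlib
import Pool.Agent.Helper50.LR.Defs
import Pool.Agent.Helper50.LR.Cells
import Pool.Agent.Helper50.LR.I2
import Pool.Agent.Helper50.LR.K1
import Pool.Agent.Helper50.LR.K2

set_option autoImplicit false
open Complex Finset Filter Topology

namespace Pool.LR

theorem lr_main (E : Set ℂ) (hE : IsCompact E) :
    cap {x : ℂ | ∃ r θ : ℝ, 0 ≤ r ∧ r ≤ (MeasureTheory.volume {t : ℝ | 0 ≤ t ∧
          (t : ℂ) * Complex.exp ((θ : ℂ) * Complex.I) ∈ E}).toReal ∧
        x = (r : ℂ) * Complex.exp ((θ : ℂ) * Complex.I)} ≤ cap E := by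
  apply le_of_forall_pos_le_add
  intro ε hε
  obtain ⟨C0, hC0⟩ := hE.isBounded.subset_closedBall 0
  set C := max C0 1 with hC
  have hEC : E ⊆ Metric.closedBall 0 C := hC0.trans (Metric.closedBall_subset_closedBall (le_max_left _ _))
  obtain ⟨δ, hδ, hsm⟩ := cap_union_small C 1 ε hε
  set ρ := min (δ / 2) 1 with hρdef
  have hρ : 0 < ρ := lt_min (by positivity) one_pos
  have hρ1 : ρ ≤ δ / 2 := min_le_left _ _
  have hρ2 : ρ ≤ C := (min_le_right _ _).trans (le_max_right _ _)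
  have hball : Metric.closedBall (0 : ℂ) ρ ⊆ Metric.closedBall 0 C := Metric.closedBall_subset_closedBall hρ2
  set E' := E ∪ Metric.closedBall (0 : ℂ) ρ with hE'def
  have hE' : IsCompact E' := hE.union (isCompact_closedBall _ _)
  have hE'C : E' ⊆ Metric.closedBall 0 C := Set.union_subset hEC hball
  have hcapE' : cap E' ≤ cap E + ε := by
    have := hsm E (fun _ => Metric.closedBall (0 : ℂ) ρ) hEC (fun _ => hball) (by
      intro _ x hx y hy
      rw [mem_closedBall_zero_iff] at hx hy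
      calc ‖x - y‖ ≤ ‖x‖ + ‖y‖ := norm_sub_le _ _
        _ ≤ δ := by linarith)
    rwa [Set.iUnion_const] at this
  refine le_trans ?_ hcapE'
  set R : ℂ → ℝ := fun u => (MeasureTheory.volume {t : ℝ | 0 ≤ t ∧ (t : ℂ) * u ∈ E'}).toReal with hR
  have hsub : ∀ u : ℂ, ‖u‖ = 1 → {t : ℝ | 0 ≤ t ∧ (t : ℂ) * u ∈ E'} ⊆ Set.Icc 0 C := by
    rintro u hu t ⟨ht0, ht⟩
    have := hE'C ht
    rw [mem_closedBall_zero_iff, norm_mul, hu, mul_one, Complex.norm_real, Real.norm_of_nonneg ht0] at this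
    exact ⟨ht0, this⟩
  have hfin : ∀ u : ℂ, ‖u‖ = 1 → MeasureTheory.volume {t : ℝ | 0 ≤ t ∧ (t : ℂ) * u ∈ E'} ≠ ⊤ := by
    intro u hu
    apply ne_top_of_le_ne_top _ (MeasureTheory.measure_mono (hsub u hu))
    rw [Real.volume_Icc]
    exact ENNReal.ofReal_ne_top
  have hCpos : 0 ≤ C := le_trans zero_le_one (le_max_right _ _)
  have hbd : ∀ u : ℂ, ‖u‖ = 1 → ρ ≤ R u ∧ R u ≤ C := by
    intro u hu
    constructor
    · have h1 : Set.Icc 0 ρ ⊆ {t : ℝ | 0 ≤ t ∧ (t : ℂ) * u ∈ E'} := by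
        rintro t ⟨h0, h1⟩
        refine ⟨h0, Or.inr ?_⟩
        rw [mem_closedBall_zero_iff, norm_mul, hu, mul_one, Complex.norm_real, Real.norm_of_nonneg h0]
        exact h1
      have h2 := ENNReal.toReal_mono (hfin u hu) (MeasureTheory.measure_mono h1)
      rw [Real.volume_Icc, ENNReal.toReal_ofReal (by linarith), sub_zero] at h2
      exact h2
    · have h2 := ENNReal.toReal_mono (by rw [Real.volume_Icc]; exact ENNReal.ofReal_ne_top)
        (MeasureTheory.measure_mono (hsub u hu) (μ := MeasureTheory.volume))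
      rw [Real.volume_Icc, ENNReal.toReal_ofReal (by linarith), sub_zero] at h2
      exact h2
  refine le_trans (cap_mono ?_ ?_) (cap_star_le ρ C hρ hbd (cap E') ?_)
  · rintro x ⟨r, θ, h0, h1, rfl⟩
    have hu : ‖Complex.exp ((θ : ℂ) * Complex.I)‖ = 1 := Complex.norm_exp_ofReal_mul_I θ
    refine ⟨_, hu, r, h0, h1.trans ?_, rfl⟩
    apply ENNReal.toReal_mono (hfin _ hu)
    apply MeasureTheory.measure_mono
    rintro t ⟨ht0, ht⟩
    exact ⟨ht0, Or.inl ht⟩
  · apply (Metric.isBounded_closedBall (x := (0 : ℂ)) (r := C)).subset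
    rintro x ⟨u, hu, t, h0, h1, rfl⟩
    rw [mem_closedBall_zero_iff, norm_mul, hu, mul_one, Complex.norm_real, Real.norm_of_nonneg h0]
    exact h1.trans (hbd u hu).2
  · intro n d hn hd hinj
    exact cap_rays hn d hd hinj hE'

end Pool.LR
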